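import Pool.Agent.H194.Cube.Defs

/-!
Approximate stationarity of near-minimisers under domain variations (`S_b1` with `0 ≤ lam`).
-/

set_option autoImplicit false

namespace Pool.Agent.H825.Cube

open MeasureTheory Set Filter Topology Pool.Agent.H194.Cube
open scoped ContDiff ENNReal

/-! ## the determinant near the identity -/

noncomputable def fdet (n : ℕ) (B : Fin n → Fin n → ℝ) : ℝ :=
  (1 + Matrix.of B : Matrix (Fin n) (Fin n) ℝ).det

theorem contDiff_fdet (n : ℕ) : ContDiff ℝ ∞ (fdet n) := by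
  unfold fdet
  simp only [Matrix.det_apply]
  refine ContDiff.sum fun σ _ => ?_
  refine ContDiff.const_smul _ ?_
  refine contDiff_prod fun i _ => ?_
  have : (fun B : Fin n → Fin n → ℝ => (1 + Matrix.of B : Matrix (Fin n) (Fin n) ℝ) (σ i) i) =
      fun B : Fin n → Fin n → ℝ => (1 : Matrix (Fin n) (Fin n) ℝ) (σ i) i + B (σ i) i := by
    funext B
    rfl
  rw [this]
  fun_prop

theorem fderiv_fdet_zero (n : ℕ) (B : Fin n → Fin n → ℝ) :
    fderiv ℝ (fdet n) 0 B = ∑ i, B i i := by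
  have h1 : HasDerivAt (fun s : ℝ => fdet n (s • B)) (fderiv ℝ (fdet n) 0 B) 0 := by
    have hd : DifferentiableAt ℝ (fdet n) ((0 : ℝ) • B) :=
      ((contDiff_fdet n).differentiable (by simp)).differentiableAt
    have h2 : HasDerivAt (fun s : ℝ => s • B) B 0 := by
      simpa using (hasDerivAt_id (0 : ℝ)).smul_const B
    have h3 := hd.hasFDerivAt.comp_hasDerivAt (0 : ℝ) h2
    rw [zero_smul] at h3
    exact h3
  have h2 : HasDerivAt (fun s : ℝ => fdet n (s • B)) (∑ i, B i i) 0 := by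
    have he : (fun s : ℝ => fdet n (s • B)) = fun s : ℝ => 1 + (Matrix.of B).trace * s +
        (Matrix.det (1 + (Polynomial.X : Polynomial ℝ) •
          (Matrix.of B).map Polynomial.C)).divX.divX.eval s * s ^ 2 := by
      funext s
      exact Matrix.det_one_add_smul s (Matrix.of B)
    rw [he]
    set p := (Matrix.det (1 + (Polynomial.X : Polynomial ℝ) •
          (Matrix.of B).map Polynomial.C)).divX.divX
    have h3 : HasDerivAt (fun s : ℝ => 1 + (Matrix.of B).trace * s + p.eval s * s ^ 2)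
        (0 + (Matrix.of B).trace * 1 + (p.derivative.eval 0 * 0 ^ 2 +
          p.eval 0 * (((2 : ℕ) : ℝ) * 0 ^ (2 - 1) * 1))) 0 := by
      refine ((hasDerivAt_const (0 : ℝ) (1 : ℝ)).add ((hasDerivAt_id (0 : ℝ)).const_mul _)).add ?_
      exact (p.hasDerivAt 0).mul ((hasDerivAt_id (0 : ℝ)).pow 2)
    refine h3.congr_deriv ?_
    simp [Matrix.trace]
  exact h1.unique h2

theorem det_expand (n : ℕ) : ∃ ε c : ℝ, 0 < ε ∧ 0 ≤ c ∧
    ∀ (r : ℝ) (B : Fin n → Fin n → ℝ), 0 ≤ r → r ≤ ε → (∀ i j, |B i j| ≤ r) →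
      |fdet n B - 1 - ∑ i, B i i| ≤ c * r ^ 2 := by
  have hC : ContDiff ℝ 1 (fderiv ℝ (fdet n)) := (contDiff_fdet n).fderiv_right (by norm_cast)
  obtain ⟨L, t, ht, hL⟩ := (hC.contDiffAt (x := (0 : Fin n → Fin n → ℝ))).exists_lipschitzOnWith
  obtain ⟨ε, hε, hball⟩ := Metric.nhds_basis_closedBall.mem_iff.mp ht
  refine ⟨ε, L, hε, L.2, fun r B hr hrε hB => ?_⟩
  have hBr : ‖B‖ ≤ r := by
    rw [pi_norm_le_iff_of_nonneg hr]
    intro i
    rw [pi_norm_le_iff_of_nonneg hr]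
    intro j
    exact hB i j
  have h0 : fdet n 0 = 1 := by
    unfold fdet
    have : (1 + Matrix.of (0 : Fin n → Fin n → ℝ) : Matrix (Fin n) (Fin n) ℝ) = 1 := by
      ext i j; simp
    rw [this, Matrix.det_one]
  have hmv := Convex.norm_image_sub_le_of_norm_fderiv_le' (𝕜 := ℝ) (f := fdet n)
    (s := Metric.closedBall (0 : Fin n → Fin n → ℝ) r) (C := L * r) (x := 0) (y := B)
    (φ := fderiv ℝ (fdet n) 0)
    (fun x _ => ((contDiff_fdet n).differentiable (by simp)).differentiableAt)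
    (fun x hx => by
      have hxr : ‖x‖ ≤ r := by simpa using hx
      have h1 := hL.dist_le_mul x (hball (by simpa using hxr.trans hrε)) 0
        (hball (by simpa using hε.le))
      rw [dist_eq_norm, dist_zero_right] at h1
      exact h1.trans (mul_le_mul_of_nonneg_left hxr L.2))
    (convex_closedBall _ _) (by simpa using hr) (by simpa using hBr)
  rw [sub_zero, fderiv_fdet_zero, h0] at hmv
  calc |fdet n B - 1 - ∑ i, B i i| ≤ L * r * ‖B‖ := hmv
    _ ≤ L * r * r := mul_le_mul_of_nonneg_left hBr (mul_nonneg L.2 hr)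
    _ = L * r ^ 2 := by ring

/-! ## pointwise inequalities -/

theorem ip_ineq {V : Type*} [NormedAddCommGroup V] [InnerProductSpace ℝ V] (v w Lv Lw LLw : V)
    (s N : ℝ) (hN0 : 0 ≤ N) (h : v = w + s • Lw) (h2 : Lv = Lw + s • LLw) (hv : ‖Lv‖ ≤ N * ‖v‖)
    (hw : ‖Lw‖ ≤ N * ‖w‖) (hLw : ‖LLw‖ ≤ N * ‖Lw‖) (hs : |s| * N ≤ 1 / 2) :
    ‖w‖ ≤ 2 * ‖v‖ ∧
    ‖w‖ ≤ ‖v‖ - s * (inner ℝ v Lv / ‖v‖) + 5 / 2 * (s ^ 2 * N ^ 2) * ‖v‖ := by
  have hw2 : ‖w‖ ≤ 2 * ‖v‖ := by
    have h3 : w = v - s • Lw := by rw [h]; abel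
    have h4 : ‖w‖ ≤ ‖v‖ + |s| * ‖Lw‖ := by
      calc ‖w‖ = ‖v - s • Lw‖ := by rw [← h3]
        _ ≤ ‖v‖ + ‖s • Lw‖ := norm_sub_le _ _
        _ = ‖v‖ + |s| * ‖Lw‖ := by rw [norm_smul, Real.norm_eq_abs]
    have h5 : |s| * ‖Lw‖ ≤ 1 / 2 * ‖w‖ := by
      calc |s| * ‖Lw‖ ≤ |s| * (N * ‖w‖) := mul_le_mul_of_nonneg_left hw (abs_nonneg _)
        _ = |s| * N * ‖w‖ := by ring
        _ ≤ 1 / 2 * ‖w‖ := mul_le_mul_of_nonneg_right hs (norm_nonneg _)
    linarith
  refine ⟨hw2, ?_⟩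
  rcases eq_or_lt_of_le (norm_nonneg v) with h0 | h0
  · rw [← h0] at hw2 ⊢
    simp only [div_zero, mul_zero, sub_zero, add_zero]
    linarith
  have h3 : w = (v - s • Lv) + (s ^ 2) • LLw := by
    rw [h2, smul_add, smul_smul, h]
    rw [pow_two]
    abel
  have h4 : ‖w‖ ≤ ‖v - s • Lv‖ + s ^ 2 * ‖LLw‖ := by
    calc ‖w‖ = ‖(v - s • Lv) + (s ^ 2) • LLw‖ := by rw [← h3]
      _ ≤ ‖v - s • Lv‖ + ‖(s ^ 2) • LLw‖ := norm_add_le _ _
      _ = _ := by rw [norm_smul, Real.norm_eq_abs, abs_of_nonneg (sq_nonneg s)]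
  have h5 : s ^ 2 * ‖LLw‖ ≤ 2 * (s ^ 2 * N ^ 2) * ‖v‖ := by
    have h6 : ‖LLw‖ ≤ N * (N * (2 * ‖v‖)) :=
      hLw.trans (mul_le_mul_of_nonneg_left (hw.trans (mul_le_mul_of_nonneg_left hw2 hN0)) hN0)
    calc s ^ 2 * ‖LLw‖ ≤ s ^ 2 * (N * (N * (2 * ‖v‖))) :=
          mul_le_mul_of_nonneg_left h6 (sq_nonneg s)
      _ = 2 * (s ^ 2 * N ^ 2) * ‖v‖ := by ring
  have h6 : ‖v - s • Lv‖ ≤ ‖v‖ - s * (inner ℝ v Lv / ‖v‖) + 1 / 2 * (s ^ 2 * N ^ 2) * ‖v‖ := by
    have h7 : ‖v - s • Lv‖ ^ 2 = ‖v‖ ^ 2 - 2 * (s * inner ℝ v Lv) + s ^ 2 * ‖Lv‖ ^ 2 := by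
      rw [norm_sub_sq_real, inner_smul_right, norm_smul, Real.norm_eq_abs, mul_pow, sq_abs]
    have h8 : ‖Lv‖ ^ 2 ≤ N ^ 2 * ‖v‖ ^ 2 := by
      rw [← mul_pow]
      exact pow_le_pow_left₀ (norm_nonneg _) hv 2
    have h9 : ‖v - s • Lv‖ * (2 * ‖v‖) ≤ ‖v - s • Lv‖ ^ 2 + ‖v‖ ^ 2 := by
      nlinarith [sq_nonneg (‖v - s • Lv‖ - ‖v‖)]
    have h10 : ‖v - s • Lv‖ * (2 * ‖v‖) ≤
        (‖v‖ - s * (inner ℝ v Lv / ‖v‖) + 1 / 2 * (s ^ 2 * N ^ 2) * ‖v‖) * (2 * ‖v‖) := by
      have h11 : (‖v‖ - s * (inner ℝ v Lv / ‖v‖) + 1 / 2 * (s ^ 2 * N ^ 2) * ‖v‖) * (2 * ‖v‖) =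
          2 * ‖v‖ ^ 2 - 2 * (s * inner ℝ v Lv) + s ^ 2 * (N ^ 2 * ‖v‖ ^ 2) := by
        field_simp
      rw [h11]
      have h12 : s ^ 2 * ‖Lv‖ ^ 2 ≤ s ^ 2 * (N ^ 2 * ‖v‖ ^ 2) :=
        mul_le_mul_of_nonneg_left h8 (sq_nonneg s)
      linarith
    exact le_of_mul_le_mul_right h10 (by linarith)
  linarith

/-- multiplication by the determinant -/
theorem det_mul_ineq (a V p s T d e N : ℝ) (hV : 0 ≤ V) (hN : 0 ≤ N)
    (ha : a ≤ V - s * p + 5 / 2 * (s ^ 2 * N ^ 2) * V) (hp : |p| ≤ N * V) (hT : |T| ≤ N)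
    (hd : |d - 1 - s * T| ≤ e) (he : e ≤ 1 / 2) (hs : |s| * N ≤ 1 / 2) :
    a * d ≤ V + s * (V * T - p) + (2 * e + 6 * (s ^ 2 * N ^ 2)) * V := by
  have he0 : 0 ≤ e := (abs_nonneg _).trans hd
  have hsT : |s * T| ≤ |s| * N := by
    rw [abs_mul]; exact mul_le_mul_of_nonneg_left hT (abs_nonneg _)
  have hd1 := abs_le.mp hd
  have hsT1 := abs_le.mp hsT
  have hd0 : 0 ≤ d := by linarith [hd1.1, hsT1.1]
  have hd2 : d ≤ 2 := by linarith [hd1.2, hsT1.2]
  have hdd : |d - 1| ≤ |s| * N + e := by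
    rw [abs_le]; constructor <;> linarith [hd1.1, hd1.2, hsT1.1, hsT1.2]
  have h1 : a * d ≤ (V - s * p + 5 / 2 * (s ^ 2 * N ^ 2) * V) * d :=
    mul_le_mul_of_nonneg_right ha hd0
  have h2 : V * d ≤ V * (1 + s * T + e) := mul_le_mul_of_nonneg_left (by linarith [hd1.2]) hV
  have h3 : -(s * p) * d ≤ -(s * p) + |s| * (N * V) * (|s| * N + e) := by
    have h4 : -(s * p) * (d - 1) ≤ |s| * (N * V) * (|s| * N + e) := by
      calc -(s * p) * (d - 1) ≤ |-(s * p) * (d - 1)| := le_abs_self _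
        _ = |s| * |p| * |d - 1| := by rw [abs_mul, abs_neg, abs_mul]
        _ ≤ |s| * (N * V) * (|s| * N + e) :=
          mul_le_mul (mul_le_mul_of_nonneg_left hp (abs_nonneg _)) hdd (abs_nonneg _)
            (mul_nonneg (abs_nonneg _) (mul_nonneg hN hV))
    linarith
  have hss : |s| * |s| = s ^ 2 := by rw [← sq, sq_abs]
  have h5 : |s| * (N * V) * (|s| * N + e) ≤ s ^ 2 * N ^ 2 * V + 1 / 2 * e * V := by
    have h6 : |s| * (N * V) * (|s| * N + e) = (|s| * |s|) * N ^ 2 * V + (|s| * N) * (e * V) := by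
      ring
    rw [h6, hss]
    have := mul_le_mul_of_nonneg_right hs (mul_nonneg he0 hV)
    linarith
  have h7 : 5 / 2 * (s ^ 2 * N ^ 2) * V * d ≤ 5 * (s ^ 2 * N ^ 2) * V := by
    have h8 : 0 ≤ s ^ 2 * N ^ 2 * V := by positivity
    nlinarith
  have h9 : 0 ≤ e * V := mul_nonneg he0 hV
  nlinarith

/-- admissible vector fields -/
structure Fld (n : ℕ) (K : ℝ) (X : Fin n → (Fin n → ℝ) → ℝ) : Prop where
  c1 : ∀ i, ContDiff ℝ 1 (X i)
  bd : ∀ i j x, |D (X i) j x| ≤ K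
  z0 : ∀ i x, x i = 0 → X i x = 0
  z1 : ∀ i x, x i = 1 → X i x = 0

theorem fderiv_eq_sum {n : ℕ} (f : (Fin n → ℝ) → ℝ) (x v : Fin n → ℝ) :
    fderiv ℝ f x v = ∑ j, v j * D f j x := by
  have h1 : v = ∑ j, Pi.single j (v j) := (Finset.univ_sum_single v).symm
  have h2 : fderiv ℝ f x v = fderiv ℝ f x (∑ j, Pi.single j (v j)) := by rw [← h1]
  rw [h2, map_sum]
  refine Finset.sum_congr rfl fun j _ => ?_
  have h3 : (Pi.single j (v j) : Fin n → ℝ) = v j • (Pi.single j (1 : ℝ) : Fin n → ℝ) := by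
    rw [← Pi.single_smul', smul_eq_mul, mul_one]
  rw [h3, map_smul, smul_eq_mul]
  rfl

noncomputable def psi {n : ℕ} (X : Fin n → (Fin n → ℝ) → ℝ) (s : ℝ) (x : Fin n → ℝ) :
    Fin n → ℝ := fun i => x i + s * X i x

/-- derivative of `psi` -/
noncomputable def dpsi {n : ℕ} (X : Fin n → (Fin n → ℝ) → ℝ) (s : ℝ) (x : Fin n → ℝ) :
    (Fin n → ℝ) →L[ℝ] (Fin n → ℝ) :=
  ContinuousLinearMap.pi fun i => ContinuousLinearMap.proj i + s • fderiv ℝ (X i) x

noncomputable def dt {n : ℕ} (X : Fin n → (Fin n → ℝ) → ℝ) (s : ℝ) (x : Fin n → ℝ) : ℝ :=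
  fdet n fun i j => s * D (X i) j x

theorem hasFDerivAt_psi {n : ℕ} {K : ℝ} {X : Fin n → (Fin n → ℝ) → ℝ} (hX : Fld n K X) (s : ℝ)
    (x : Fin n → ℝ) : HasFDerivAt (psi X s) (dpsi X s x) x := by
  rw [hasFDerivAt_pi']
  intro i
  have h1 : HasFDerivAt (X i) (fderiv ℝ (X i) x) x :=
    ((hX.c1 i).differentiable (by simp)).differentiableAt.hasFDerivAt
  have h2 : HasFDerivAt (fun y : Fin n → ℝ => y i)
      (ContinuousLinearMap.proj (R := ℝ) (φ := fun _ : Fin n => ℝ) i) x :=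
    (ContinuousLinearMap.proj (R := ℝ) (φ := fun _ : Fin n => ℝ) i).hasFDerivAt
  exact h2.add (h1.const_mul s)

theorem dpsi_apply {n : ℕ} (X : Fin n → (Fin n → ℝ) → ℝ) (s : ℝ) (x v : Fin n → ℝ) (i : Fin n) :
    dpsi X s x v i = v i + s * ∑ j, v j * D (X i) j x := by
  rw [← fderiv_eq_sum]
  rfl

theorem det_dpsi {n : ℕ} (X : Fin n → (Fin n → ℝ) → ℝ) (s : ℝ) (x : Fin n → ℝ) :
    (dpsi X s x).det = dt X s x := by
  have h1 : ((dpsi X s x : (Fin n → ℝ) →L[ℝ] (Fin n → ℝ)) : (Fin n → ℝ) →ₗ[ℝ] (Fin n → ℝ)) =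
      Matrix.toLin' (1 + Matrix.of fun i j => s * D (X i) j x : Matrix (Fin n) (Fin n) ℝ) := by
    apply LinearMap.ext
    intro v
    funext i
    rw [Matrix.toLin'_apply]
    show dpsi X s x v i = _
    rw [dpsi_apply, Matrix.add_mulVec, Matrix.one_mulVec, Pi.add_apply, Finset.mul_sum]
    congr 1
    unfold Matrix.mulVec dotProduct
    refine Finset.sum_congr rfl fun j _ => ?_
    show s * (v j * D (X i) j x) = s * D (X i) j x * v j
    ring
  unfold ContinuousLinearMap.det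
  rw [h1, LinearMap.det_toLin']
  rfl

theorem continuous_D {n : ℕ} {f : (Fin n → ℝ) → ℝ} (hf : ContDiff ℝ 1 f) (i : Fin n) :
    Continuous (D f i) := by
  unfold D
  exact (hf.continuous_fderiv (by simp)).clm_apply continuous_const

theorem continuous_dt {n : ℕ} {K : ℝ} {X : Fin n → (Fin n → ℝ) → ℝ} (hX : Fld n K X) (s : ℝ) :
    Continuous (dt X s) := by
  unfold dt
  refine (contDiff_fdet n).continuous.comp ?_
  refine continuous_pi fun i => continuous_pi fun j => ?_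
  exact continuous_const.mul (continuous_D (hX.c1 i) j)

theorem norm_fderiv_le {n : ℕ} {K : ℝ} {X : Fin n → (Fin n → ℝ) → ℝ} (hX : Fld n K X)
    (hK : 0 ≤ K) (i : Fin n) (x : Fin n → ℝ) : ‖fderiv ℝ (X i) x‖ ≤ n * K := by
  refine ContinuousLinearMap.opNorm_le_bound _ (by positivity) fun v => ?_
  rw [fderiv_eq_sum, Real.norm_eq_abs]
  calc |∑ j, v j * D (X i) j x| ≤ ∑ j, |v j * D (X i) j x| := Finset.abs_sum_le_sum_abs _ _
    _ ≤ ∑ _j : Fin n, ‖v‖ * K := by
        refine Finset.sum_le_sum fun j _ => ?_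
        rw [abs_mul]
        exact mul_le_mul (norm_le_pi_norm v j) (hX.bd i j x) (abs_nonneg _) (norm_nonneg _)
    _ = n * K * ‖v‖ := by
        rw [Finset.sum_const, Finset.card_univ, Fintype.card_fin, nsmul_eq_mul]; ring

theorem lip {n : ℕ} {K : ℝ} {X : Fin n → (Fin n → ℝ) → ℝ} (hX : Fld n K X)
    (hK : 0 ≤ K) (i : Fin n) (x y : Fin n → ℝ) : |X i x - X i y| ≤ n * K * ‖x - y‖ := by
  have := Convex.norm_image_sub_le_of_norm_fderiv_le (𝕜 := ℝ) (f := X i) (s := univ)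
    (C := n * K) (x := y) (y := x)
    (fun z _ => ((hX.c1 i).differentiable (by simp)).differentiableAt)
    (fun z _ => norm_fderiv_le hX hK i z) convex_univ (mem_univ _) (mem_univ _)
  rwa [Real.norm_eq_abs] at this

theorem approx {n : ℕ} {K : ℝ} {X : Fin n → (Fin n → ℝ) → ℝ} (hX : Fld n K X)
    (hK : 0 ≤ K) (s : ℝ) (hs : |s| * (n * K) ≤ 1 / 2) :
    ApproximatesLinearOn (psi X s)
      ((ContinuousLinearEquiv.refl ℝ (Fin n → ℝ) : (Fin n → ℝ) ≃L[ℝ] (Fin n → ℝ)) :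
        (Fin n → ℝ) →L[ℝ] (Fin n → ℝ)) univ (1 / 2) := by
  intro x _ y _
  rw [pi_norm_le_iff_of_nonneg (by positivity)]
  intro i
  have h1 : (psi X s x - psi X s y -
      ((ContinuousLinearEquiv.refl ℝ (Fin n → ℝ) : (Fin n → ℝ) ≃L[ℝ] (Fin n → ℝ)) :
        (Fin n → ℝ) →L[ℝ] (Fin n → ℝ)) (x - y)) i = s * (X i x - X i y) := by
    show (x i + s * X i x) - (y i + s * X i y) - (x i - y i) = _
    ring
  rw [h1, Real.norm_eq_abs, abs_mul]
  have h2 := mul_le_mul_of_nonneg_left (lip hX hK i x y) (abs_nonneg s)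
  have h3 := mul_le_mul_of_nonneg_right hs (norm_nonneg (x - y))
  have h4 : ((1 / 2 : NNReal) : ℝ) = 1 / 2 := by norm_num
  rw [h4]
  linarith

theorem exists_homeo {n : ℕ} (hn : 1 ≤ n) {K : ℝ} {X : Fin n → (Fin n → ℝ) → ℝ} (hX : Fld n K X)
    (hK : 0 ≤ K) (s : ℝ) (hs : |s| * (n * K) ≤ 1 / 2) (hdt : ∀ x, dt X s x ≠ 0) :
    ∃ Ψ : (Fin n → ℝ) ≃ₜ (Fin n → ℝ), (∀ x, Ψ x = psi X s x) ∧ ContDiff ℝ 1 Ψ.symm := by
  have : Nonempty (Fin n) := ⟨⟨0, hn⟩⟩
  have hc : Subsingleton (Fin n → ℝ) ∨ (1 / 2 : NNReal) <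
      ‖((ContinuousLinearEquiv.refl ℝ (Fin n → ℝ)).symm : (Fin n → ℝ) →L[ℝ] (Fin n → ℝ))‖₊⁻¹ := by
    right
    have h1 : ‖((ContinuousLinearEquiv.refl ℝ (Fin n → ℝ)).symm :
        (Fin n → ℝ) →L[ℝ] (Fin n → ℝ))‖₊ = 1 := by
      have : ((ContinuousLinearEquiv.refl ℝ (Fin n → ℝ)).symm :
        (Fin n → ℝ) →L[ℝ] (Fin n → ℝ)) = ContinuousLinearMap.id ℝ (Fin n → ℝ) := rfl
      rw [this]
      apply NNReal.eq
      exact ContinuousLinearMap.norm_id
    rw [h1, inv_one]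
    exact NNReal.half_lt_self one_ne_zero
  refine ⟨(approx hX hK s hs).toHomeomorph _ hc, fun x => rfl, ?_⟩
  refine Homeomorph.contDiff_symm _ (f₀' := fun x =>
    (dpsi X s x).toContinuousLinearEquivOfDetNeZero (by rw [det_dpsi]; exact hdt x)) ?_ ?_
  · intro a
    rw [ContinuousLinearMap.coe_toContinuousLinearEquivOfDetNeZero]
    exact hasFDerivAt_psi hX s a
  · show ContDiff ℝ 1 (psi X s)
    rw [contDiff_pi]
    intro i
    exact (contDiff_apply ℝ ℝ i).add (contDiff_const.mul (hX.c1 i))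

/-! ## the cube is preserved -/

theorem abs_le_coord {n : ℕ} {K : ℝ} {X : Fin n → (Fin n → ℝ) → ℝ} (hX : Fld n K X) (i : Fin n)
    (a : ℝ) (ha : ∀ x : Fin n → ℝ, x i = a → X i x = 0) (x : Fin n → ℝ) :
    |X i x| ≤ K * |x i - a| := by
  have h1 : ∀ t : ℝ, HasDerivAt (fun t : ℝ => X i (Function.update x i t))
      (D (X i) i (Function.update x i t)) t := by
    intro t
    have h2 : HasDerivAt (fun t : ℝ => Function.update x i t) (Pi.single i (1 : ℝ)) t :=
      hasDerivAt_update x i t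
    exact (((hX.c1 i).differentiable (by simp)).differentiableAt.hasFDerivAt).comp_hasDerivAt t h2
  have h3 := Convex.norm_image_sub_le_of_norm_hasDerivWithin_le (𝕜 := ℝ)
    (f := fun t : ℝ => X i (Function.update x i t)) (s := univ) (C := K) (x := a) (y := x i)
    (fun t _ => (h1 t).hasDerivWithinAt) (fun t _ => hX.bd i i _) convex_univ
    (mem_univ _) (mem_univ _)
  simp only [Function.update_eq_self] at h3
  rw [ha (Function.update x i a) (by simp), sub_zero, Real.norm_eq_abs, Real.norm_eq_abs] at h3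
  exact h3

theorem mem_cube {n : ℕ} {K : ℝ} {X : Fin n → (Fin n → ℝ) → ℝ} (hX : Fld n K X) (s : ℝ)
    (hs : |s| * K ≤ 1 / 2) (x : Fin n → ℝ) :
    psi X s x ∈ Icc (0 : Fin n → ℝ) 1 ↔ x ∈ Icc (0 : Fin n → ℝ) 1 := by
  have key : ∀ i, (0 ≤ psi X s x i ↔ 0 ≤ x i) ∧ (psi X s x i ≤ 1 ↔ x i ≤ 1) := by
    intro i
    have h0 := abs_le_coord hX i 0 (hX.z0 i) x
    have h1 := abs_le_coord hX i 1 (hX.z1 i) x
    have e : psi X s x i = x i + s * X i x := rfl
    have k0 : |s * X i x| ≤ 1 / 2 * |x i| := by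
      rw [abs_mul]
      rw [sub_zero] at h0
      have := mul_le_mul_of_nonneg_left h0 (abs_nonneg s)
      have h3 := mul_le_mul_of_nonneg_right hs (abs_nonneg (x i))
      linarith
    have k1 : |s * X i x| ≤ 1 / 2 * |x i - 1| := by
      rw [abs_mul]
      have := mul_le_mul_of_nonneg_left h1 (abs_nonneg s)
      have h3 := mul_le_mul_of_nonneg_right hs (abs_nonneg (x i - 1))
      linarith
    rw [e]
    have a0 := abs_le.mp k0
    have a1 := abs_le.mp k1
    constructor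
    · rcases le_or_gt 0 (x i) with h | h
      · rw [abs_of_nonneg h] at a0
        constructor
        · intro _; exact h
        · intro _; linarith [a0.1]
      · rw [abs_of_neg h] at a0
        constructor
        · intro h'; linarith [a0.2]
        · intro h'; linarith
    · rcases le_or_gt (x i) 1 with h | h
      · rw [abs_of_nonpos (by linarith)] at a1
        constructor
        · intro _; exact h
        · intro _; linarith [a1.2]
      · rw [abs_of_pos (by linarith)] at a1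
        constructor
        · intro h'; linarith [a1.1]
        · intro h'; linarith
  constructor
  · rintro ⟨h0, h1⟩
    exact ⟨fun i => (key i).1.mp (h0 i), fun i => (key i).2.mp (h1 i)⟩
  · rintro ⟨h0, h1⟩
    exact ⟨fun i => (key i).1.mpr (h0 i), fun i => (key i).2.mpr (h1 i)⟩

theorem vol_Q (n : ℕ) : volume (Icc (0 : Fin n → ℝ) 1) = 1 := by
  rw [Real.volume_Icc_pi]; simp

theorem volr_Q (n : ℕ) : volume.real (Icc (0 : Fin n → ℝ) 1) = 1 := by
  unfold Measure.real; rw [vol_Q]; simp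

theorem intQ {n : ℕ} {f : (Fin n → ℝ) → ℝ} {M : ℝ} (hf : Measurable f)
    (hM : ∀ x ∈ Icc (0 : Fin n → ℝ) 1, |f x| ≤ M) : IntegrableOn f (Icc (0 : Fin n → ℝ) 1) := by
  refine Measure.integrableOn_of_bounded (M := M) (by rw [vol_Q]; simp)
    hf.aestronglyMeasurable ?_
  refine (ae_restrict_iff' measurableSet_Icc).mpr (ae_of_all _ fun x hx => ?_)
  rw [Real.norm_eq_abs]
  exact hM x hx

theorem intS {n : ℕ} {f : (Fin n → ℝ) → ℝ} {M : ℝ} {S : Set (Fin n → ℝ)}
    (hS : S ⊆ Icc (0 : Fin n → ℝ) 1) (hf : Measurable f)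
    (hM : ∀ x ∈ Icc (0 : Fin n → ℝ) 1, |f x| ≤ M) : IntegrableOn f S :=
  (intQ hf hM).mono_set hS

theorem volS_le {n : ℕ} {S : Set (Fin n → ℝ)} (hS : S ⊆ Icc (0 : Fin n → ℝ) 1) :
    volume S ≤ 1 := (measure_mono hS).trans (vol_Q n).le

theorem volrS_le {n : ℕ} {S : Set (Fin n → ℝ)} (hS : S ⊆ Icc (0 : Fin n → ℝ) 1) :
    volume.real S ≤ 1 := by
  unfold Measure.real
  exact ENNReal.toReal_le_of_le_ofReal (by norm_num) (by simpa using volS_le hS)

theorem Vs_mem {n : ℕ} (u : (Fin n → ℝ) → ℝ) (τ : ℝ) : 0 ≤ Vs u τ ∧ Vs u τ ≤ 1 :=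
  ⟨ENNReal.toReal_nonneg, volrS_le fun _ hx => hx.1⟩

theorem Vs_anti {n : ℕ} (u : (Fin n → ℝ) → ℝ) : Antitone (Vs u) := by
  intro a b hab
  unfold Vs
  refine ENNReal.toReal_mono ?_ (measure_mono fun x hx => ⟨hx.1, hab.trans_lt hx.2⟩)
  exact ne_top_of_le_ne_top ENNReal.one_ne_top (volS_le fun _ hx => hx.1)

theorem intervalInt {f : ℝ → ℝ} {M : ℝ} (hf : Measurable f) (hM : ∀ x, |f x| ≤ M) :
    IntervalIntegrable f volume 0 1 := by
  rw [intervalIntegrable_iff_integrableOn_Ioc_of_le zero_le_one]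
  refine Measure.integrableOn_of_bounded (M := M) (by simp) hf.aestronglyMeasurable ?_
  exact ae_of_all _ fun x => hM x

theorem int_step (a : ℝ) (h0 : 0 ≤ a) (h1 : a ≤ 1) :
    ∫ τ in Ioc (0 : ℝ) 1, (if τ < a then (1 : ℝ) else 0) = a := by
  have e1 : (fun τ : ℝ => if τ < a then (1 : ℝ) else 0) = (Iio a).indicator 1 := by
    funext τ
    by_cases h : τ < a
    · rw [if_pos h, indicator_of_mem (show τ ∈ Iio a from h)]; rfl
    · rw [if_neg h, indicator_of_notMem (show τ ∉ Iio a from h)]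
  rw [e1, integral_indicator_one measurableSet_Iio, measureReal_restrict_apply measurableSet_Iio]
  have e2 : Iio a ∩ Ioc (0 : ℝ) 1 = Ioo 0 a := by
    ext τ
    simp only [mem_inter_iff, mem_Iio, mem_Ioc, mem_Ioo]
    constructor
    · rintro ⟨h2, h3, h4⟩; exact ⟨h3, h2⟩
    · rintro ⟨h2, h3⟩; exact ⟨h3, h2, by linarith⟩
  rw [e2]
  unfold Measure.real
  rw [Real.volume_Ioo, sub_zero, ENNReal.toReal_ofReal h0]

theorem G_le {n : ℕ} {lam : ℝ} {E : Set (Fin n → ℝ)} {g : (Fin n → ℝ) → ℝ} (hl : 0 ≤ lam)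
    (hE : MeasurableSet E) (hsub : E ⊆ Icc (0 : Fin n → ℝ) 1) (hvol : volume E = ENNReal.ofReal lam)
    (hg : Measurable g) (h01 : ∀ x, 0 ≤ g x ∧ g x ≤ 1) :
    G lam g ≤ ∫ x in Icc (0 : Fin n → ℝ) 1, |g x - E.indicator (fun _ => (1 : ℝ)) x| := by
  classical
  have hfin : IsFiniteMeasure (volume.restrict (Icc (0 : Fin n → ℝ) 1)) :=
    ⟨by rw [Measure.restrict_apply_univ, vol_Q]; simp⟩
  set F : ℝ → (Fin n → ℝ) → ℝ := fun τ x =>
    |(if τ < g x then (1 : ℝ) else 0) - E.indicator (fun _ => (1 : ℝ)) x| with hF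
  have hind : Measurable (E.indicator (fun _ => (1 : ℝ))) := measurable_const.indicator hE
  have hFm : Measurable (Function.uncurry F) := by
    have h1 : Measurable (fun p : ℝ × (Fin n → ℝ) => if p.1 < g p.2 then (1 : ℝ) else 0) :=
      Measurable.ite (measurableSet_lt measurable_fst (hg.comp measurable_snd))
        measurable_const measurable_const
    have h2 := (h1.sub (hind.comp measurable_snd)).abs
    exact h2
  have hind01 : ∀ x, E.indicator (fun _ => (1 : ℝ)) x = 0 ∨ E.indicator (fun _ => (1 : ℝ)) x = 1 := by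
    intro x
    by_cases h : x ∈ E
    · right; rw [indicator_of_mem h]
    · left; rw [indicator_of_notMem h]
  have hFb : ∀ τ x, |F τ x| ≤ 1 := by
    intro τ x
    simp only [hF, abs_abs]
    rcases hind01 x with h | h <;> rw [h] <;> split_ifs <;> norm_num
  have hFint : Integrable (Function.uncurry F)
      ((volume.restrict (Ioc (0 : ℝ) 1)).prod (volume.restrict (Icc (0 : Fin n → ℝ) 1))) := by
    refine Integrable.of_bound (C := 1) hFm.aestronglyMeasurable (ae_of_all _ fun p => ?_)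
    rw [Real.norm_eq_abs]
    exact hFb p.1 p.2
  have hswap := integral_integral_swap (f := F) hFint
  -- inner integrals
  have hin : ∀ x, ∫ τ in Ioc (0 : ℝ) 1, F τ x = |g x - E.indicator (fun _ => (1 : ℝ)) x| := by
    intro x
    obtain ⟨g0, g1⟩ := h01 x
    have hs := int_step (g x) g0 g1
    rcases hind01 x with h | h
    · have e1 : (fun τ => F τ x) = fun τ => if τ < g x then (1 : ℝ) else 0 := by
        funext τ
        simp only [hF, h, sub_zero]
        split_ifs <;> norm_num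
      rw [e1, hs, h, sub_zero, abs_of_nonneg g0]
    · have e1 : (fun τ => F τ x) = fun τ => 1 - (if τ < g x then (1 : ℝ) else 0) := by
        funext τ
        simp only [hF, h]
        split_ifs <;> norm_num
      have hi : IntegrableOn (fun τ : ℝ => if τ < g x then (1 : ℝ) else 0) (Ioc (0 : ℝ) 1) := by
        refine Measure.integrableOn_of_bounded (M := 1) (by simp)
          (Measurable.ite measurableSet_Iio measurable_const measurable_const).aestronglyMeasurable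
          (ae_of_all _ fun τ => ?_)
        split_ifs <;> norm_num
      rw [e1, integral_sub (by simp) hi, hs, h, abs_of_nonpos (by linarith)]
      simp
  have hout : ∀ τ, |Vs g τ - lam| ≤ ∫ x in Icc (0 : Fin n → ℝ) 1, F τ x := by
    intro τ
    have hA : MeasurableSet {x : Fin n → ℝ | τ < g x} := measurableSet_lt measurable_const hg
    have e1 : Vs g τ = ∫ x in Icc (0 : Fin n → ℝ) 1, (if τ < g x then (1 : ℝ) else 0) := by
      have e2 : (fun x : Fin n → ℝ => if τ < g x then (1 : ℝ) else 0) =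
          ({x : Fin n → ℝ | τ < g x}).indicator 1 := by
        funext x
        by_cases h : τ < g x
        · rw [if_pos h, indicator_of_mem (show x ∈ {x : Fin n → ℝ | τ < g x} from h)]; rfl
        · rw [if_neg h, indicator_of_notMem (show x ∉ {x : Fin n → ℝ | τ < g x} from h)]
      rw [e2, integral_indicator_one hA, measureReal_restrict_apply hA]
      unfold Vs Measure.real
      congr 2
      ext x
      simp only [mem_setOf_eq, mem_inter_iff]
      tauto
    have e3 : lam = ∫ x in Icc (0 : Fin n → ℝ) 1, E.indicator (fun _ => (1 : ℝ)) x := by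
      have e4 : E.indicator (fun _ => (1 : ℝ)) = E.indicator 1 := rfl
      rw [e4, integral_indicator_one hE, measureReal_restrict_apply hE,
        inter_eq_left.mpr hsub]
      unfold Measure.real
      rw [hvol, ENNReal.toReal_ofReal hl]
    have hi1 : IntegrableOn (fun x : Fin n → ℝ => if τ < g x then (1 : ℝ) else 0)
        (Icc (0 : Fin n → ℝ) 1) :=
      intQ (M := 1) (Measurable.ite hA measurable_const measurable_const)
        (fun x _ => by split_ifs <;> norm_num)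
    have hi2 : IntegrableOn (fun x : Fin n → ℝ => E.indicator (fun _ => (1 : ℝ)) x)
        (Icc (0 : Fin n → ℝ) 1) :=
      intQ (M := 1) hind (fun x _ => by rcases hind01 x with h | h <;> rw [h] <;> norm_num)
    calc |Vs g τ - lam| = |∫ x in Icc (0 : Fin n → ℝ) 1,
          ((if τ < g x then (1 : ℝ) else 0) - E.indicator (fun _ => (1 : ℝ)) x)| := by
            rw [integral_sub hi1 hi2, ← e1, ← e3]
      _ ≤ _ := abs_integral_le_integral_abs
  have hlam1 : lam ≤ 1 := by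
    have h1 := volrS_le hsub
    unfold Measure.real at h1
    rwa [hvol, ENNReal.toReal_ofReal hl] at h1
  have hsq : ∀ τ, (Vs g τ - lam) ^ 2 ≤ ∫ x in Icc (0 : Fin n → ℝ) 1, F τ x := by
    intro τ
    refine le_trans ?_ (hout τ)
    obtain ⟨v0, v1⟩ := Vs_mem g τ
    have h1 : |Vs g τ - lam| ≤ 1 := by rw [abs_le]; constructor <;> linarith
    calc (Vs g τ - lam) ^ 2 = |Vs g τ - lam| * |Vs g τ - lam| := by rw [← sq, sq_abs]
      _ ≤ 1 * |Vs g τ - lam| := mul_le_mul_of_nonneg_right h1 (abs_nonneg _)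
      _ = _ := one_mul _
  have hm1 : IntegrableOn (fun τ => (Vs g τ - lam) ^ 2) (Ioc (0 : ℝ) 1) := by
    refine Measure.integrableOn_of_bounded (M := 1) (by simp)
      (((Vs_anti g).measurable.sub measurable_const).pow_const 2).aestronglyMeasurable
      (ae_of_all _ fun τ => ?_)
    obtain ⟨v0, v1⟩ := Vs_mem g τ
    rw [Real.norm_eq_abs, abs_of_nonneg (sq_nonneg _)]
    nlinarith
  unfold G
  rw [intervalIntegral.integral_of_le zero_le_one]
  calc ∫ τ in Ioc (0 : ℝ) 1, (Vs g τ - lam) ^ 2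
      ≤ ∫ τ in Ioc (0 : ℝ) 1, ∫ x in Icc (0 : Fin n → ℝ) 1, F τ x :=
        integral_mono hm1 hFint.integral_prod_left fun τ => hsq τ
    _ = ∫ x in Icc (0 : Fin n → ℝ) 1, ∫ τ in Ioc (0 : ℝ) 1, F τ x := hswap
    _ = _ := by
        congr 1
        funext x
        exact hin x

/-- comparison of `G` for two functions -/
theorem G_comp {n : ℕ} (lam b : ℝ) (u g : (Fin n → ℝ) → ℝ) (hl0 : 0 ≤ lam) (hl1 : lam ≤ 1)
    (h : ∀ τ, |Vs u τ - Vs g τ| ≤ b) : G lam u ≤ 2 * G lam g + 2 * b ^ 2 := by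
  have hm : ∀ f : (Fin n → ℝ) → ℝ, IntervalIntegrable (fun τ => (Vs f τ - lam) ^ 2) volume 0 1 := by
    intro f
    refine intervalInt (M := 1) (((Vs_anti f).measurable.sub measurable_const).pow_const 2) ?_
    intro τ
    obtain ⟨v0, v1⟩ := Vs_mem f τ
    rw [abs_of_nonneg (sq_nonneg _)]
    nlinarith
  unfold G
  have h1 : ∫ s in (0 : ℝ)..1, (2 * (Vs g s - lam) ^ 2 + 2 * b ^ 2) =
      2 * (∫ s in (0 : ℝ)..1, (Vs g s - lam) ^ 2) + 2 * b ^ 2 := by
    rw [intervalIntegral.integral_add ((hm g).const_mul 2) intervalIntegrable_const,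
      intervalIntegral.integral_const_mul]
    simp
  rw [← h1]
  refine intervalIntegral.integral_mono_on zero_le_one (hm u)
    (((hm g).const_mul 2).add intervalIntegrable_const) fun τ _ => ?_
  have h2 := h τ
  have h3 : (Vs u τ - Vs g τ) ^ 2 ≤ b ^ 2 := sq_le_sq' (abs_le.mp h2).1 (abs_le.mp h2).2
  nlinarith [sq_nonneg ((Vs u τ - Vs g τ) - (Vs g τ - lam))]

/-- the transpose of a matrix acting on Euclidean space -/
noncomputable def Lm {n : ℕ} (M : Fin n → Fin n → ℝ) (w : EuclideanSpace ℝ (Fin n)) :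
    EuclideanSpace ℝ (Fin n) := WithLp.toLp 2 (fun j => ∑ i, w i * M i j)

theorem Lm_apply {n : ℕ} (M : Fin n → Fin n → ℝ) (w : EuclideanSpace ℝ (Fin n)) (j : Fin n) :
    Lm M w j = ∑ i, w i * M i j := rfl

theorem norm_Lm {n : ℕ} {K : ℝ} (hK : 0 ≤ K) (M : Fin n → Fin n → ℝ) (hM : ∀ i j, |M i j| ≤ K)
    (w : EuclideanSpace ℝ (Fin n)) : ‖Lm M w‖ ≤ n * K * ‖w‖ := by
  have h1 : ‖Lm M w‖ ^ 2 ≤ (n * K * ‖w‖) ^ 2 := by
    rw [EuclideanSpace.norm_sq_eq]
    calc ∑ j, ‖Lm M w j‖ ^ 2 ≤ ∑ _j : Fin n, (n * K ^ 2) * ‖w‖ ^ 2 := by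
          refine Finset.sum_le_sum fun j _ => ?_
          rw [Lm_apply, Real.norm_eq_abs, sq_abs]
          have h2 := Finset.sum_mul_sq_le_sq_mul_sq Finset.univ (fun i => w i) (fun i => M i j)
          have h3 : ∑ i, M i j ^ 2 ≤ n * K ^ 2 := by
            calc ∑ i, M i j ^ 2 ≤ ∑ _i : Fin n, K ^ 2 := by
                  refine Finset.sum_le_sum fun i _ => ?_
                  rw [← sq_abs]
                  exact pow_le_pow_left₀ (abs_nonneg _) (hM i j) 2
              _ = n * K ^ 2 := by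
                  rw [Finset.sum_const, Finset.card_univ, Fintype.card_fin, nsmul_eq_mul]
          have h4 : ∑ i, w i ^ 2 = ‖w‖ ^ 2 := by
            rw [EuclideanSpace.norm_sq_eq]
            refine Finset.sum_congr rfl fun i _ => ?_
            rw [Real.norm_eq_abs, sq_abs]
          rw [h4] at h2
          refine h2.trans ?_
          rw [mul_comm]
          exact mul_le_mul_of_nonneg_right h3 (sq_nonneg _)
      _ = (n * K * ‖w‖) ^ 2 := by
          rw [Finset.sum_const, Finset.card_univ, Fintype.card_fin, nsmul_eq_mul]; ring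
  exact le_of_sq_le_sq h1 (by positivity)

theorem pointwise {n : ℕ} {K : ℝ} (hK : 0 ≤ K) (v w : Fin n → ℝ) (M : Fin n → Fin n → ℝ)
    (hM : ∀ i j, |M i j| ≤ K) (s : ℝ) (hv : ∀ j, v j = w j + s * ∑ i, w i * M i j)
    (hs : |s| * (n * K) ≤ 1 / 2) (d e : ℝ) (hd : |d - 1 - s * ∑ i, M i i| ≤ e) (he : e ≤ 1 / 2) :
    √(∑ i, w i ^ 2) * d ≤ √(∑ i, v i ^ 2) + s * (√(∑ i, v i ^ 2) * ∑ i, M i i -
      ∑ i, ∑ j, v i * v j / √(∑ i, v i ^ 2) * M i j) +
      (2 * e + 6 * (s ^ 2 * (n * K) ^ 2)) * √(∑ i, v i ^ 2) := by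
  set V : EuclideanSpace ℝ (Fin n) := WithLp.toLp 2 v with hV
  set W : EuclideanSpace ℝ (Fin n) := WithLp.toLp 2 w with hW
  have hVn : ‖V‖ = √(∑ i, v i ^ 2) := by
    rw [EuclideanSpace.norm_eq]
    congr 1
    refine Finset.sum_congr rfl fun i _ => ?_
    rw [Real.norm_eq_abs, sq_abs]
  have hWn : ‖W‖ = √(∑ i, w i ^ 2) := by
    rw [EuclideanSpace.norm_eq]
    congr 1
    refine Finset.sum_congr rfl fun i _ => ?_
    rw [Real.norm_eq_abs, sq_abs]
  have hVW : V = W + s • Lm M W := by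
    ext j
    show v j = w j + s * Lm M W j
    rw [Lm_apply]
    exact hv j
  have hLV : Lm M V = Lm M W + s • Lm M (Lm M W) := by
    ext j
    show Lm M V j = Lm M W j + s * Lm M (Lm M W) j
    rw [Lm_apply, Lm_apply, Lm_apply, Finset.mul_sum, ← Finset.sum_add_distrib]
    refine Finset.sum_congr rfl fun i _ => ?_
    have : V i = W i + s * Lm M W i := by rw [hVW]; rfl
    rw [this]
    ring
  have hN : 0 ≤ (n : ℝ) * K := by positivity
  obtain ⟨-, hip⟩ := ip_ineq V W (Lm M V) (Lm M W) (Lm M (Lm M W)) s (n * K) hN hVW hLV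
    (norm_Lm hK M hM V) (norm_Lm hK M hM W) (norm_Lm hK M hM _) hs
  have hin : inner ℝ V (Lm M V) = ∑ i, ∑ j, v i * v j * M i j := by
    rw [PiLp.inner_apply]
    have h1 : ∀ j, inner ℝ (V j) (Lm M V j) = ∑ i, v i * v j * M i j := by
      intro j
      rw [Lm_apply]
      show (∑ i, V i * M i j) * (v j) = _
      rw [Finset.sum_mul]
      refine Finset.sum_congr rfl fun i _ => ?_
      show v i * M i j * v j = _
      ring
    rw [Finset.sum_congr rfl fun j _ => h1 j]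
    rw [Finset.sum_comm]
  have hp : |inner ℝ V (Lm M V) / ‖V‖| ≤ n * K * ‖V‖ := by
    rw [abs_div, abs_of_nonneg (norm_nonneg V)]
    refine div_le_of_le_mul₀ (norm_nonneg _) (by positivity) ?_
    calc |inner ℝ V (Lm M V)| ≤ ‖V‖ * ‖Lm M V‖ := abs_real_inner_le_norm _ _
      _ ≤ ‖V‖ * (n * K * ‖V‖) := mul_le_mul_of_nonneg_left (norm_Lm hK M hM V) (norm_nonneg _)
      _ = n * K * ‖V‖ * ‖V‖ := by ring
  have hT : |∑ i, M i i| ≤ n * K := by
    calc |∑ i, M i i| ≤ ∑ i, |M i i| := Finset.abs_sum_le_sum_abs _ _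
      _ ≤ ∑ _i : Fin n, K := Finset.sum_le_sum fun i _ => hM i i
      _ = n * K := by
          rw [Finset.sum_const, Finset.card_univ, Fintype.card_fin, nsmul_eq_mul]
  have hfin := det_mul_ineq ‖W‖ ‖V‖ (inner ℝ V (Lm M V) / ‖V‖) s (∑ i, M i i) d e (n * K)
    (norm_nonneg _) hN hip hp hT hd he hs
  rw [hin] at hfin
  have hsum : (∑ i, ∑ j, v i * v j * M i j) / ‖V‖ = ∑ i, ∑ j, v i * v j / ‖V‖ * M i j := by
    rw [Finset.sum_div]
    refine Finset.sum_congr rfl fun i _ => ?_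
    rw [Finset.sum_div]
    refine Finset.sum_congr rfl fun j _ => ?_
    ring
  rw [hsum, hVn, hWn] at hfin
  exact hfin

theorem grad_comp {n : ℕ} {K : ℝ} {X : Fin n → (Fin n → ℝ) → ℝ} (hX : Fld n K X) (s : ℝ)
    {g u : (Fin n → ℝ) → ℝ} (hu : ContDiff ℝ 1 u) (h : ∀ x, u (psi X s x) = g x)
    (x : Fin n → ℝ) (j : Fin n) :
    D g j x = D u j (psi X s x) + s * ∑ i, D u i (psi X s x) * D (X i) j x := by
  have h1 : HasFDerivAt u (fderiv ℝ u (psi X s x)) (psi X s x) :=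
    (hu.differentiable (by simp)).differentiableAt.hasFDerivAt
  have h2 := h1.comp x (hasFDerivAt_psi hX s x)
  have h3 : (u ∘ psi X s) = g := funext h
  rw [h3] at h2
  have h4 : D g j x = fderiv ℝ u (psi X s x) (dpsi X s x (Pi.single j (1 : ℝ))) := by
    unfold D
    rw [h2.fderiv]
    rfl
  rw [h4, fderiv_eq_sum]
  have h5 : ∀ i, dpsi X s x (Pi.single j (1 : ℝ)) i = (Pi.single j (1 : ℝ) : Fin n → ℝ) i +
      s * D (X i) j x := by
    intro i
    rw [dpsi_apply]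
    congr 2
    rw [Finset.sum_eq_single j]
    · simp
    · intro b _ hb
      rw [Pi.single_eq_of_ne hb, zero_mul]
    · intro hj
      exact absurd (Finset.mem_univ j) hj
  simp only [h5, add_mul]
  rw [Finset.sum_add_distrib]
  congr 1
  · rw [Finset.sum_eq_single j]
    · simp
    · intro b _ hb
      rw [Pi.single_eq_of_ne hb, zero_mul]
    · intro hj
      exact absurd (Finset.mem_univ j) hj
  · rw [Finset.mul_sum]
    refine Finset.sum_congr rfl fun i _ => ?_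
    ring

theorem continuous_gn {n : ℕ} {g : (Fin n → ℝ) → ℝ} (hg : ContDiff ℝ 1 g) : Continuous (gn g) := by
  unfold gn
  refine Real.continuous_sqrt.comp (continuous_finsetSum _ fun i _ => ?_)
  exact (continuous_D hg i).pow 2

theorem abs_D_le_gn {n : ℕ} (g : (Fin n → ℝ) → ℝ) (i : Fin n) (x : Fin n → ℝ) :
    |D g i x| ≤ gn g x := by
  unfold gn
  apply Real.abs_le_sqrt
  exact Finset.single_le_sum (f := fun i => D g i x ^ 2) (fun j _ => sq_nonneg _)
    (Finset.mem_univ i)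

/-- integrand of the first variation -/
noncomputable def fvi {n : ℕ} (g : (Fin n → ℝ) → ℝ) (X : Fin n → (Fin n → ℝ) → ℝ)
    (x : Fin n → ℝ) : ℝ :=
  gn g x * ∑ i, D (X i) i x - ∑ i, ∑ j, D g i x * D g j x / gn g x * D (X i) j x

theorem measurable_fvi {n : ℕ} {K : ℝ} {g : (Fin n → ℝ) → ℝ} {X : Fin n → (Fin n → ℝ) → ℝ}
    (hg : ContDiff ℝ 1 g) (hX : Fld n K X) : Measurable (fvi g X) := by
  have h1 : ∀ i, Measurable (D g i) := fun i => (continuous_D hg i).measurable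
  have h2 : ∀ i j, Measurable (D (X i) j) := fun i j => (continuous_D (hX.c1 i) j).measurable
  have h3 : Measurable (gn g) := (continuous_gn hg).measurable
  unfold fvi
  refine Measurable.sub (h3.mul (Finset.measurable_fun_sum _ fun i _ => h2 i i)) ?_
  refine Finset.measurable_fun_sum _ fun i _ => Finset.measurable_fun_sum _ fun j _ => ?_
  exact (((h1 i).mul (h1 j)).div h3).mul (h2 i j)

theorem abs_fvi_le {n : ℕ} {K : ℝ} {g : (Fin n → ℝ) → ℝ} {X : Fin n → (Fin n → ℝ) → ℝ}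
    (hX : Fld n K X) (x : Fin n → ℝ) :
    |fvi g X x| ≤ (n * K + n * (n * K)) * gn g x := by
  have hgn : 0 ≤ gn g x := Real.sqrt_nonneg _
  have h1 : |∑ i, D (X i) i x| ≤ n * K := by
    calc |∑ i, D (X i) i x| ≤ ∑ i, |D (X i) i x| := Finset.abs_sum_le_sum_abs _ _
      _ ≤ ∑ _i : Fin n, K := Finset.sum_le_sum fun i _ => hX.bd i i x
      _ = n * K := by
          rw [Finset.sum_const, Finset.card_univ, Fintype.card_fin, nsmul_eq_mul]
  have h2 : ∀ i j, |D g i x * D g j x / gn g x * D (X i) j x| ≤ gn g x * K := by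
    intro i j
    rw [abs_mul, abs_div, abs_mul, abs_of_nonneg hgn]
    refine mul_le_mul ?_ (hX.bd i j x) (abs_nonneg _) hgn
    refine div_le_of_le_mul₀ hgn hgn ?_
    exact mul_le_mul (abs_D_le_gn g i x) (abs_D_le_gn g j x) (abs_nonneg _) hgn
  have h3 : |∑ i, ∑ j, D g i x * D g j x / gn g x * D (X i) j x| ≤ n * (n * (gn g x * K)) := by
    calc |∑ i, ∑ j, D g i x * D g j x / gn g x * D (X i) j x|
        ≤ ∑ i, |∑ j, D g i x * D g j x / gn g x * D (X i) j x| := Finset.abs_sum_le_sum_abs _ _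
      _ ≤ ∑ _i : Fin n, n * (gn g x * K) := by
          refine Finset.sum_le_sum fun i _ => ?_
          calc |∑ j, D g i x * D g j x / gn g x * D (X i) j x|
              ≤ ∑ j, |D g i x * D g j x / gn g x * D (X i) j x| := Finset.abs_sum_le_sum_abs _ _
            _ ≤ ∑ _j : Fin n, gn g x * K := Finset.sum_le_sum fun j _ => h2 i j
            _ = n * (gn g x * K) := by
                rw [Finset.sum_const, Finset.card_univ, Fintype.card_fin, nsmul_eq_mul]
      _ = n * (n * (gn g x * K)) := by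
          rw [Finset.sum_const, Finset.card_univ, Fintype.card_fin, nsmul_eq_mul]
  unfold fvi
  calc |gn g x * ∑ i, D (X i) i x - ∑ i, ∑ j, D g i x * D g j x / gn g x * D (X i) j x|
      ≤ |gn g x * ∑ i, D (X i) i x| + |∑ i, ∑ j, D g i x * D g j x / gn g x * D (X i) j x| :=
        abs_sub _ _
    _ ≤ gn g x * (n * K) + n * (n * (gn g x * K)) := by
        refine add_le_add ?_ h3
        rw [abs_mul, abs_of_nonneg hgn]
        exact mul_le_mul_of_nonneg_left h1 hgn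
    _ = _ := by ring

theorem intgn {n : ℕ} {g : (Fin n → ℝ) → ℝ} (hg : ContDiff ℝ 1 g) :
    IntegrableOn (gn g) (Icc (0 : Fin n → ℝ) 1) :=
  (continuous_gn hg).continuousOn.integrableOn_compact isCompact_Icc

theorem intfvi {n : ℕ} {K : ℝ} {g : (Fin n → ℝ) → ℝ} {X : Fin n → (Fin n → ℝ) → ℝ}
    (hg : ContDiff ℝ 1 g) (hX : Fld n K X) :
    IntegrableOn (fvi g X) (Icc (0 : Fin n → ℝ) 1) := by
  refine Integrable.mono' ((intgn hg).const_mul (n * K + n * (n * K)))
    (measurable_fvi hg hX).aestronglyMeasurable (ae_of_all _ fun x => ?_)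
  rw [Real.norm_eq_abs]
  exact abs_fvi_le hX x

/-- one step -/
theorem step {n : ℕ} (hn : 1 ≤ n) {K : ℝ} (hK : 0 < K) {ε0 c0 : ℝ} (hc0 : 0 ≤ c0)
    (hdet : ∀ (r : ℝ) (B : Fin n → Fin n → ℝ), 0 ≤ r → r ≤ ε0 → (∀ i j, |B i j| ≤ r) →
      |fdet n B - 1 - ∑ i, B i i| ≤ c0 * r ^ 2)
    {P H C lam : ℝ} (hHyp : Hyp P H C lam) (_hP : 0 ≤ P) (hH : 0 ≤ H) (hC : 0 ≤ C) (hl : 0 ≤ lam)
    {δ : ℝ} {E : Set (Fin n → ℝ)} {g : (Fin n → ℝ) → ℝ} (hδ : δ ≤ 1)
    (hN : NearMin n lam P δ E g) {X : Fin n → (Fin n → ℝ) → ℝ} (hX : Fld n K X)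
    (s : ℝ) (hs1 : |s| * (n * K) ≤ 1 / 2) (hs2 : |s| * K ≤ ε0) (hs3 : c0 * (|s| * K) ^ 2 ≤ 1 / 4)
    (hs4 : |s| ≤ 1) :
    -(1 + H + 2 * C) * δ - s ^ 2 * (H * (c0 * K ^ 2) + 2 * C * (n * K + c0 * K ^ 2) ^ 2 +
        (2 * (c0 * K ^ 2) + 6 * (n * K) ^ 2) * (P + 1)) ≤
      s * (FV g X - H * ∫ x in Icc (0 : Fin n → ℝ) 1, g x * ∑ i, D (X i) i x) := by
  have hg1 : ContDiff ℝ 1 g := hN.smooth.of_le (by norm_cast)
  have hT : ∀ x, |∑ i, D (X i) i x| ≤ n * K := by
    intro x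
    calc |∑ i, D (X i) i x| ≤ ∑ i, |D (X i) i x| := Finset.abs_sum_le_sum_abs _ _
      _ ≤ ∑ _i : Fin n, K := Finset.sum_le_sum fun i _ => hX.bd i i x
      _ = n * K := by
          rw [Finset.sum_const, Finset.card_univ, Fintype.card_fin, nsmul_eq_mul]
  set e : ℝ := c0 * (|s| * K) ^ 2 with he
  have he2 : e = c0 * K ^ 2 * s ^ 2 := by
    rw [he, mul_pow, sq_abs]; ring
  have he0 : 0 ≤ e := by positivity
  have hdt : ∀ x, |dt X s x - 1 - s * ∑ i, D (X i) i x| ≤ e := by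
    intro x
    have h1 := hdet (|s| * K) (fun i j => s * D (X i) j x) (by positivity) hs2
      (fun i j => by rw [abs_mul]; exact mul_le_mul_of_nonneg_left (hX.bd i j x) (abs_nonneg _))
    rw [Finset.mul_sum]
    exact h1
  have hsT : ∀ x, |s * ∑ i, D (X i) i x| ≤ |s| * (n * K) := by
    intro x
    rw [abs_mul]
    exact mul_le_mul_of_nonneg_left (hT x) (abs_nonneg _)
  have hdpos : ∀ x, 0 < dt X s x := by
    intro x
    have h1 := abs_le.mp (hdt x)
    have h2 := abs_le.mp (hsT x)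
    linarith [h1.1, h2.1]
  obtain ⟨Ψ, hΨ, hΨc⟩ := exists_homeo hn hX hK.le s hs1 fun x => (hdpos x).ne'
  set u : (Fin n → ℝ) → ℝ := fun y => g (Ψ.symm y) with hu_def
  have hu : ContDiff ℝ 1 u := hg1.comp hΨc
  have huΨ : ∀ x, u (psi X s x) = g x := by
    intro x
    rw [← hΨ]
    show g (Ψ.symm (Ψ x)) = g x
    rw [Ψ.symm_apply_apply]
  have hu01 : ∀ y, 0 ≤ u y ∧ u y ≤ 1 := fun y => hN.mem _
  have hsK : |s| * K ≤ 1 / 2 := by
    have h1 : (1 : ℝ) ≤ n := by exact_mod_cast hn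
    have h2 : |s| * K ≤ |s| * (n * K) := by
      apply mul_le_mul_of_nonneg_left _ (abs_nonneg _)
      nlinarith
    linarith
  have hmemQ : ∀ x, Ψ x ∈ Icc (0 : Fin n → ℝ) 1 ↔ x ∈ Icc (0 : Fin n → ℝ) 1 := by
    intro x
    rw [hΨ]
    exact mem_cube hX s hsK x
  have himg : ∀ p : (Fin n → ℝ) → Prop, Ψ '' {x | x ∈ Icc (0 : Fin n → ℝ) 1 ∧ p x} =
      {y | y ∈ Icc (0 : Fin n → ℝ) 1 ∧ p (Ψ.symm y)} := by
    intro p
    ext y
    constructor
    · rintro ⟨x, ⟨hx1, hx2⟩, rfl⟩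
      refine ⟨(hmemQ x).mpr hx1, ?_⟩
      rw [Ψ.symm_apply_apply]
      exact hx2
    · rintro ⟨hy1, hy2⟩
      refine ⟨Ψ.symm y, ⟨?_, hy2⟩, Ψ.apply_symm_apply y⟩
      rw [← hmemQ, Ψ.apply_symm_apply]
      exact hy1
  have himgQ : Ψ '' Icc (0 : Fin n → ℝ) 1 = Icc (0 : Fin n → ℝ) 1 := by
    have h1 := himg fun _ => True
    simp only [and_true] at h1
    exact h1
  have cov : ∀ (S : Set (Fin n → ℝ)) (F : (Fin n → ℝ) → ℝ), MeasurableSet S →
      ∫ y in Ψ '' S, F y = ∫ x in S, dt X s x * F (Ψ x) := by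
    intro S F hS
    have h1 := integral_image_eq_integral_abs_det_fderiv_smul volume hS (f := Ψ)
      (f' := dpsi X s) (fun x _ => by
        have h2 : (Ψ : (Fin n → ℝ) → (Fin n → ℝ)) = psi X s := funext hΨ
        rw [h2]
        exact (hasFDerivAt_psi hX s x).hasFDerivWithinAt) Ψ.injective.injOn F
    rw [h1]
    congr 1
    funext x
    rw [det_dpsi, abs_of_pos (hdpos x), smul_eq_mul]
  have hdtc := continuous_dt hX s
  -- total variation
  have hTVu : TV u ≤ TV g + s * FV g X + (2 * e + 6 * (s ^ 2 * (n * K) ^ 2)) * TV g := by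
    have h1 : TV u = ∫ x in Icc (0 : Fin n → ℝ) 1, dt X s x * gn u (Ψ x) := by
      unfold TV
      rw [← cov _ _ measurableSet_Icc, himgQ]
    have h2 : ∀ x, dt X s x * gn u (Ψ x) ≤ gn g x + s * fvi g X x +
        (2 * e + 6 * (s ^ 2 * (n * K) ^ 2)) * gn g x := by
      intro x
      have h3 := pointwise hK.le (fun j => D g j x) (fun j => D u j (psi X s x))
        (fun i j => D (X i) j x) (fun i j => hX.bd i j x) s
        (fun j => grad_comp hX s hu huΨ x j) hs1 (dt X s x) e (hdt x) (by linarith)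
      rw [hΨ, mul_comm]
      exact h3
    have hi1 : IntegrableOn (fun x => dt X s x * gn u (Ψ x)) (Icc (0 : Fin n → ℝ) 1) :=
      (hdtc.mul ((continuous_gn hu).comp Ψ.continuous)).continuousOn.integrableOn_compact
        isCompact_Icc
    have hi2 := intgn hg1
    have hi3 := intfvi hg1 hX
    have hi4 : Integrable (fun x => gn g x + s * fvi g X x +
        (2 * e + 6 * (s ^ 2 * (n * K) ^ 2)) * gn g x)
        (volume.restrict (Icc (0 : Fin n → ℝ) 1)) :=
      Integrable.add (Integrable.add hi2 (Integrable.const_mul hi3 s))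
        (Integrable.const_mul hi2 (2 * e + 6 * (s ^ 2 * (n * K) ^ 2)))
    rw [h1]
    calc ∫ x in Icc (0 : Fin n → ℝ) 1, dt X s x * gn u (Ψ x)
        ≤ ∫ x in Icc (0 : Fin n → ℝ) 1, (gn g x + s * fvi g X x +
            (2 * e + 6 * (s ^ 2 * (n * K) ^ 2)) * gn g x) :=
          integral_mono hi1 hi4 h2
      _ = _ := by
          have ha : Integrable (fun x => gn g x + s * fvi g X x)
              (volume.restrict (Icc (0 : Fin n → ℝ) 1)) := hi2.add (hi3.const_mul s)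
          rw [integral_add ha (hi2.const_mul _), integral_add hi2 (hi3.const_mul s),
            integral_const_mul, integral_const_mul]
          rfl
  have hTVg0 : 0 ≤ TV g := integral_nonneg fun x => Real.sqrt_nonneg _
  -- integral of u
  have hgm : Measurable g := hg1.continuous.measurable
  have hDm : Measurable (fun x : Fin n → ℝ => ∑ i, D (X i) i x) :=
    Finset.measurable_fun_sum _ fun i _ => (continuous_D (hX.c1 i) i).measurable
  have hig : IntegrableOn g (Icc (0 : Fin n → ℝ) 1) :=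
    intQ (M := 1) hgm fun x _ => by rw [abs_of_nonneg (hN.mem x).1]; exact (hN.mem x).2
  have higT : IntegrableOn (fun x => g x * ∑ i, D (X i) i x) (Icc (0 : Fin n → ℝ) 1) :=
    intQ (M := 1 * (n * K)) (hgm.mul hDm) fun x _ => by
      rw [abs_mul]
      refine mul_le_mul ?_ (hT x) (abs_nonneg _) zero_le_one
      rw [abs_of_nonneg (hN.mem x).1]; exact (hN.mem x).2
  have hIu : (∫ x in Icc (0 : Fin n → ℝ) 1, g x) +
      s * (∫ x in Icc (0 : Fin n → ℝ) 1, g x * ∑ i, D (X i) i x) - e ≤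
      ∫ x in Icc (0 : Fin n → ℝ) 1, u x := by
    have h1 : ∫ x in Icc (0 : Fin n → ℝ) 1, u x =
        ∫ x in Icc (0 : Fin n → ℝ) 1, dt X s x * u (Ψ x) := by
      rw [← cov _ _ measurableSet_Icc, himgQ]
    have h2 : ∀ x, g x + s * (g x * ∑ i, D (X i) i x) - e ≤ dt X s x * u (Ψ x) := by
      intro x
      rw [hΨ, huΨ]
      obtain ⟨g0, g1⟩ := hN.mem x
      have h3 := (abs_le.mp (hdt x)).1
      have h4 : (1 + s * ∑ i, D (X i) i x - e) * g x ≤ dt X s x * g x :=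
        mul_le_mul_of_nonneg_right (by linarith) g0
      have h5 : e * g x ≤ e * 1 := mul_le_mul_of_nonneg_left g1 he0
      nlinarith
    have hi1 : IntegrableOn (fun x => dt X s x * u (Ψ x)) (Icc (0 : Fin n → ℝ) 1) :=
      (hdtc.mul (hu.continuous.comp Ψ.continuous)).continuousOn.integrableOn_compact isCompact_Icc
    have hic : Integrable (fun _ : Fin n → ℝ => e) (volume.restrict (Icc (0 : Fin n → ℝ) 1)) :=
      integrable_const_iff.mpr (Or.inr ⟨by rw [Measure.restrict_apply_univ, vol_Q]; simp⟩)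
    have ha : Integrable (fun x => g x + s * (g x * ∑ i, D (X i) i x))
        (volume.restrict (Icc (0 : Fin n → ℝ) 1)) := hig.add (higT.const_mul s)
    have h6 : ∫ x in Icc (0 : Fin n → ℝ) 1, (g x + s * (g x * ∑ i, D (X i) i x) - e) =
        (∫ x in Icc (0 : Fin n → ℝ) 1, g x) +
      s * (∫ x in Icc (0 : Fin n → ℝ) 1, g x * ∑ i, D (X i) i x) - e := by
      rw [integral_sub ha hic, integral_add hig (higT.const_mul s), integral_const_mul]
      rw [setIntegral_const, volr_Q, one_smul]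
    rw [h1, ← h6]
    exact integral_mono (ha.sub hic) hi1 h2
  -- volumes
  have hindm : Measurable (E.indicator (fun _ => (1 : ℝ))) := measurable_const.indicator hN.meas
  have hindb : ∀ x, |E.indicator (fun _ => (1 : ℝ)) x| ≤ 1 := by
    intro x
    by_cases h : x ∈ E
    · rw [indicator_of_mem h]; norm_num
    · rw [indicator_of_notMem h]; norm_num
  have hiE : IntegrableOn (E.indicator (fun _ => (1 : ℝ))) (Icc (0 : Fin n → ℝ) 1) :=
    intQ hindm fun x _ => hindb x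
  have hlamE : lam = ∫ x in Icc (0 : Fin n → ℝ) 1, E.indicator (fun _ => (1 : ℝ)) x := by
    have e4 : E.indicator (fun _ => (1 : ℝ)) = E.indicator 1 := rfl
    rw [e4, integral_indicator_one hN.meas, measureReal_restrict_apply hN.meas,
      inter_eq_left.mpr hN.sub]
    unfold Measure.real
    rw [hN.vol, ENNReal.toReal_ofReal hl]
  have hIg : lam - δ ≤ ∫ x in Icc (0 : Fin n → ℝ) 1, g x := by
    have h1 : |(∫ x in Icc (0 : Fin n → ℝ) 1, g x) - lam| ≤ δ := by
      refine le_trans ?_ hN.l1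
      conv_lhs => rw [hlamE]
      rw [← integral_sub hig hiE]
      exact abs_integral_le_integral_abs
    linarith [(abs_le.mp h1).1]
  have hlam1 : lam ≤ 1 := by
    have h1 := volrS_le hN.sub
    unfold Measure.real at h1
    rwa [hN.vol, ENNReal.toReal_ofReal hl] at h1
  have hGg : G lam g ≤ δ := (G_le hl hN.meas hN.sub hN.vol hgm hN.mem).trans hN.l1
  have hVs : ∀ τ, |Vs u τ - Vs g τ| ≤ |s| * (n * K + c0 * K ^ 2) := by
    intro τ
    set A : Set (Fin n → ℝ) := {x | x ∈ Icc (0 : Fin n → ℝ) 1 ∧ τ < g x} with hA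
    have hAm : MeasurableSet A := measurableSet_Icc.inter (measurableSet_lt measurable_const hgm)
    have hAsub : A ⊆ Icc (0 : Fin n → ℝ) 1 := fun _ hx => hx.1
    have hAfin : volume A ≠ ⊤ := ne_top_of_le_ne_top ENNReal.one_ne_top (volS_le hAsub)
    have h1 : Vs u τ = ∫ x in A, dt X s x := by
      have h2 : Vs u τ = ∫ y in Ψ '' A, (1 : ℝ) := by
        rw [setIntegral_const, smul_eq_mul, mul_one]
        unfold Vs Measure.real
        rw [hA, himg]
      rw [h2, cov A (fun _ => 1) hAm]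
      simp
    have h3 : Vs g τ = ∫ x in A, (1 : ℝ) := by
      rw [setIntegral_const, smul_eq_mul, mul_one]
      rfl
    have hi1 : IntegrableOn (fun x => dt X s x) A :=
      (hdtc.continuousOn.integrableOn_compact (isCompact_Icc (a := (0 : Fin n → ℝ)) (b := 1))).mono_set
        hAsub
    have hi2 : IntegrableOn (fun _ : Fin n → ℝ => (1 : ℝ)) A :=
      integrableOn_const hAfin
    rw [h1, h3, ← integral_sub hi1 hi2]
    have h4 := norm_setIntegral_le_of_norm_le_const (μ := volume) (s := A)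
      (f := fun x => dt X s x - 1) (C := |s| * (n * K + c0 * K ^ 2)) (lt_top_iff_ne_top.mpr hAfin)
      (fun x _ => by
        rw [Real.norm_eq_abs]
        have h5 := abs_le.mp (hdt x)
        have h6 := abs_le.mp (hsT x)
        have h7 : e ≤ |s| * (c0 * K ^ 2) := by
          rw [he2]
          have h8 : s ^ 2 ≤ |s| := by
            rw [← sq_abs, sq]
            exact mul_le_of_le_one_left (abs_nonneg _) hs4
          have h9 : 0 ≤ c0 * K ^ 2 := by positivity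
          nlinarith
        rw [abs_le]
        constructor <;> linarith [h5.1, h5.2, h6.1, h6.2])
    rw [Real.norm_eq_abs] at h4
    refine h4.trans ?_
    have h10 := volrS_le hAsub
    have h11 : 0 ≤ |s| * (n * K + c0 * K ^ 2) := by positivity
    calc |s| * (n * K + c0 * K ^ 2) * volume.real A ≤ |s| * (n * K + c0 * K ^ 2) * 1 :=
          mul_le_mul_of_nonneg_left h10 h11
      _ = _ := mul_one _
  have hGu := G_comp lam (|s| * (n * K + c0 * K ^ 2)) u g hl hlam1 hVs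
  rw [mul_pow, sq_abs] at hGu
  have hyp := hHyp n u hn hu hu01
  have htv := hN.tv
  have hTVg1 : TV g ≤ P + 1 := by linarith
  have k1 : (2 * e + 6 * (s ^ 2 * (n * K) ^ 2)) * TV g ≤
      s ^ 2 * ((2 * (c0 * K ^ 2) + 6 * (n * K) ^ 2) * (P + 1)) := by
    have h1 : (2 * e + 6 * (s ^ 2 * (n * K) ^ 2)) = s ^ 2 * (2 * (c0 * K ^ 2) + 6 * (n * K) ^ 2) := by
      rw [he2]; ring
    rw [h1, mul_assoc]
    apply mul_le_mul_of_nonneg_left _ (sq_nonneg _)
    apply mul_le_mul_of_nonneg_left hTVg1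
    positivity
  have k2 : C * G lam u ≤ C * (2 * δ + 2 * (s ^ 2 * (n * K + c0 * K ^ 2) ^ 2)) :=
    mul_le_mul_of_nonneg_left (by linarith) hC
  have k3 : H * (-δ + s * (∫ x in Icc (0 : Fin n → ℝ) 1, g x * ∑ i, D (X i) i x) -
      c0 * K ^ 2 * s ^ 2) ≤ H * ((∫ x in Icc (0 : Fin n → ℝ) 1, u x) - lam) := by
    apply mul_le_mul_of_nonneg_left _ hH
    rw [← he2]
    linarith
  set Z1 := ∫ x in Icc (0 : Fin n → ℝ) 1, g x * ∑ i, D (X i) i x
  nlinarith [hyp, k1, k2, k3, hTVu, htv]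

/-- `S_b1` with the additional hypothesis `0 ≤ lam` -/
theorem b1 : ∀ P H C lam : ℝ, Hyp P H C lam → 0 ≤ P → 0 ≤ H → 0 ≤ C → 0 ≤ lam →
  ∀ (n : ℕ) (K : ℝ), 1 ≤ n → 0 < K → ∃ A : ℝ, 0 ≤ A ∧
  ∀ (δ : ℝ) (E : Set (Fin n → ℝ)) (g : (Fin n → ℝ) → ℝ), 0 < δ → δ ≤ 1 → NearMin n lam P δ E g →
  ∀ X : Fin n → (Fin n → ℝ) → ℝ, (∀ i, ContDiff ℝ 1 (X i)) → (∀ i j x, |D (X i) j x| ≤ K) →
  (∀ i x, x i = 0 → X i x = 0) → (∀ i x, x i = 1 → X i x = 0) →
  |FV g X - H * ∫ x in Icc (0 : Fin n → ℝ) 1, g x * ∑ i, D (X i) i x| ≤ A * √δ := by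
  intro P H C lam hHyp hP hH hC hl n K hn hK
  obtain ⟨ε0, c0, hε0, hc0, hdet⟩ := det_expand n
  have hn1 : (1 : ℝ) ≤ n := by exact_mod_cast hn
  set s0 : ℝ := min (1 / (2 * (n * K))) (min (ε0 / K) (min (1 / (K * (1 + 4 * c0))) 1)) with hs0
  have hs0pos : 0 < s0 := by
    refine lt_min (by positivity) (lt_min (by positivity) (lt_min (by positivity) one_pos))
  have a1 : s0 ≤ 1 / (2 * (n * K)) := min_le_left _ _
  have a2 : s0 ≤ ε0 / K := (min_le_right _ _).trans (min_le_left _ _)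
  have a3 : s0 ≤ 1 / (K * (1 + 4 * c0)) :=
    (min_le_right _ _).trans ((min_le_right _ _).trans (min_le_left _ _))
  have a4 : s0 ≤ 1 := (min_le_right _ _).trans ((min_le_right _ _).trans (min_le_right _ _))
  set B : ℝ := H * (c0 * K ^ 2) + 2 * C * (n * K + c0 * K ^ 2) ^ 2 +
        (2 * (c0 * K ^ 2) + 6 * (n * K) ^ 2) * (P + 1) with hB
  have hB0 : 0 ≤ B := by positivity
  refine ⟨(1 + H + 2 * C) / s0 + s0 * B, by positivity, ?_⟩
  intro δ E g hδ0 hδ1 hN X hX1 hX2 hX3 hX4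
  have hX : Fld n K X := ⟨hX1, hX2, hX3, hX4⟩
  set Z := FV g X - H * ∫ x in Icc (0 : Fin n → ℝ) 1, g x * ∑ i, D (X i) i x with hZ
  have hsq : √δ ^ 2 = δ := Real.sq_sqrt hδ0.le
  have hsqpos : 0 < √δ := Real.sqrt_pos.mpr hδ0
  have hsq1 : √δ ≤ 1 := Real.sqrt_le_one.mpr hδ1
  have main : ∀ s : ℝ, |s| = s0 * √δ → -(1 + H + 2 * C) * δ - s ^ 2 * B ≤ s * Z := by
    intro s hs
    have hs' : |s| ≤ s0 := by
      rw [hs]
      exact mul_le_of_le_one_right hs0pos.le hsq1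
    have b1' : |s| * (n * K) ≤ 1 / 2 := by
      have h1 : |s| * (n * K) ≤ 1 / (2 * (n * K)) * (n * K) :=
        mul_le_mul_of_nonneg_right (hs'.trans a1) (by positivity)
      have h2 : 1 / (2 * (n * K)) * (n * K) = 1 / 2 := by
        have : (n : ℝ) * K ≠ 0 := by positivity
        field_simp
      linarith
    have b2' : |s| * K ≤ ε0 := by
      have h1 : |s| * K ≤ ε0 / K * K := mul_le_mul_of_nonneg_right (hs'.trans a2) hK.le
      rwa [div_mul_cancel₀ _ hK.ne'] at h1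
    have b3' : c0 * (|s| * K) ^ 2 ≤ 1 / 4 := by
      have h1 : |s| * K ≤ 1 / (K * (1 + 4 * c0)) * K :=
        mul_le_mul_of_nonneg_right (hs'.trans a3) hK.le
      have h2 : 1 / (K * (1 + 4 * c0)) * K = 1 / (1 + 4 * c0) := by
        field_simp
      rw [h2] at h1
      have h3 : (|s| * K) ^ 2 ≤ (1 / (1 + 4 * c0)) ^ 2 :=
        pow_le_pow_left₀ (by positivity) h1 2
      have h4 : c0 * (|s| * K) ^ 2 ≤ c0 * (1 / (1 + 4 * c0)) ^ 2 :=
        mul_le_mul_of_nonneg_left h3 hc0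
      have h5 : c0 * (1 / (1 + 4 * c0)) ^ 2 ≤ 1 / 4 := by
        rw [one_div, inv_pow, ← div_eq_mul_inv, div_le_iff₀ (by positivity)]
        nlinarith
      linarith
    exact step hn hK hc0 hdet hHyp hP hH hC hl hδ1 hN hX s b1' b2' b3' (hs'.trans a4)
  have hs0a : |s0 * √δ| = s0 * √δ := abs_of_pos (by positivity)
  have m1 := main (s0 * √δ) hs0a
  have m2 := main (-(s0 * √δ)) (by rw [abs_neg, hs0a])
  have hss : (s0 * √δ) ^ 2 = s0 ^ 2 * δ := by rw [mul_pow, hsq]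
  rw [hss] at m1
  rw [neg_sq, hss] at m2
  have key : s0 * √δ * |Z| ≤ s0 * √δ * (((1 + H + 2 * C) / s0 + s0 * B) * √δ) := by
    have h1 : s0 * √δ * (((1 + H + 2 * C) / s0 + s0 * B) * √δ) =
        (1 + H + 2 * C) * δ + s0 ^ 2 * δ * B := by
      have h2 : s0 * √δ * (((1 + H + 2 * C) / s0 + s0 * B) * √δ) =
        √δ ^ 2 * (s0 * ((1 + H + 2 * C) / s0) + s0 * (s0 * B)) := by ring
      rw [h2, hsq, mul_div_cancel₀ _ hs0pos.ne']
      ring
    rw [h1]
    rcases abs_cases Z with ⟨h3, _⟩ | ⟨h3, _⟩ <;> rw [h3] <;> nlinarith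
  exact le_of_mul_le_mul_left key (by positivity)

end Pool.Agent.H825.Cube
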