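import Pool.Agent.H194.Cube.Defs

/-!
# Cube profile: transfer of the first variation (`S_b2`)
-/

set_option autoImplicit false

namespace Pool.Agent.H221.Cube

open MeasureTheory Set Filter Topology ProbabilityTheory
open scoped ContDiff ENNReal
open Pool.Agent.H194.Cube

/-! ### Finite-dimensional inequalities -/

section vec
variable {n : ℕ}

theorem cs (a b : Fin n → ℝ) : |∑ j, a j * b j| ≤ √(∑ j, a j ^ 2) * √(∑ j, b j ^ 2) := by
  rw [← Real.sqrt_mul (Finset.sum_nonneg fun j _ => sq_nonneg _), ← Real.sqrt_sq_eq_abs]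
  exact Real.sqrt_le_sqrt (Finset.sum_mul_sq_le_sq_mul_sq _ _ _)

theorem comp_le (a : Fin n → ℝ) (i : Fin n) : |a i| ≤ √(∑ j, a j ^ 2) := by
  rw [← Real.sqrt_sq_eq_abs]
  exact Real.sqrt_le_sqrt (Finset.single_le_sum (f := fun j => a j ^ 2)
    (fun j _ => sq_nonneg _) (Finset.mem_univ i))

/-- the pointwise inequality -/
theorem ptw (w m c : Fin n → ℝ) (i : Fin n) (hm : ∑ j, m j ^ 2 = 1 ∨ m = 0) :
    |w i * (∑ j, w j * c j) / √(∑ j, w j ^ 2) + √(∑ j, w j ^ 2) * (m i * ∑ j, m j * c j) -
      m i * (∑ j, w j * c j) - w i * ∑ j, m j * c j| ≤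
      2 * (√(∑ j, w j ^ 2) - ∑ j, w j * m j) * √(∑ j, c j ^ 2) := by
  set r := √(∑ j, w j ^ 2) with hr
  set C := √(∑ j, c j ^ 2) with hC
  have hr0 : 0 ≤ r := Real.sqrt_nonneg _
  have hC0 : 0 ≤ C := Real.sqrt_nonneg _
  have hrsq : r ^ 2 = ∑ j, w j ^ 2 := Real.sq_sqrt (Finset.sum_nonneg fun j _ => sq_nonneg _)
  rcases eq_or_lt_of_le hr0 with h0 | hpos
  · have hw : ∀ j, w j = 0 := by
      intro j
      have h1 := comp_le w j
      rw [← hr, ← h0] at h1
      exact abs_nonpos_iff.1 h1
    simp [hw, ← h0]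
  rcases hm with hm | hm
  · have key : w i * (∑ j, w j * c j) / r + r * (m i * ∑ j, m j * c j) -
        m i * (∑ j, w j * c j) - w i * ∑ j, m j * c j =
        (w i - r * m i) * (∑ j, (w j - r * m j) * c j) / r := by
      have h1 : ∑ j, (w j - r * m j) * c j = (∑ j, w j * c j) - r * ∑ j, m j * c j := by
        rw [Finset.mul_sum, ← Finset.sum_sub_distrib]
        exact Finset.sum_congr rfl fun j _ => by ring
      rw [h1]
      field_simp
      ring
    rw [key, abs_div, abs_mul, abs_of_pos hpos, div_le_iff₀ hpos]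
    have h2 : |∑ j, (w j - r * m j) * c j| ≤ √(∑ j, (w j - r * m j) ^ 2) * √(∑ j, c j ^ 2) :=
      cs (fun j => w j - r * m j) c
    have h3 : |w i - r * m i| ≤ √(∑ j, (w j - r * m j) ^ 2) :=
      comp_le (fun j => w j - r * m j) i
    set T := √(∑ j, (w j - r * m j) ^ 2) with hT
    have hT0 : 0 ≤ T := Real.sqrt_nonneg _
    have hTsq : T ^ 2 = 2 * r * (r - ∑ j, w j * m j) := by
      rw [hT, Real.sq_sqrt (Finset.sum_nonneg fun j _ => sq_nonneg _)]
      have h4 : ∑ j, (w j - r * m j) ^ 2 =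
          (∑ j, w j ^ 2) - 2 * r * (∑ j, w j * m j) + r ^ 2 * ∑ j, m j ^ 2 := by
        rw [Finset.mul_sum, Finset.mul_sum, ← Finset.sum_sub_distrib, ← Finset.sum_add_distrib]
        exact Finset.sum_congr rfl fun j _ => by ring
      rw [h4, hm, ← hrsq]
      ring
    calc |w i - r * m i| * |∑ j, (w j - r * m j) * c j| ≤ T * (T * C) :=
          mul_le_mul h3 h2 (abs_nonneg _) hT0
      _ = T ^ 2 * C := by ring
      _ = 2 * (r - ∑ j, w j * m j) * C * r := by rw [hTsq]; ring
  · subst hm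
    simp only [Pi.zero_apply, zero_mul, mul_zero, Finset.sum_const_zero, sub_zero, add_zero]
    rw [abs_div, abs_mul, abs_of_pos hpos, div_le_iff₀ hpos]
    have h2 := cs w c
    have h3 := comp_le w i
    rw [← hr] at h2 h3
    rw [← hC] at h2
    calc |w i| * |∑ j, w j * c j| ≤ r * (r * C) := mul_le_mul h3 h2 (abs_nonneg _) hr0
      _ ≤ 2 * r * C * r := by nlinarith [mul_nonneg (mul_nonneg hr0 hr0) hC0]

end vec

/-! ### Calculus -/

section calculus
variable {n : ℕ}

theorem D_cont {g : (Fin n → ℝ) → ℝ} (hg : ContDiff ℝ 1 g) (i : Fin n) : Continuous (D g i) :=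
  (hg.continuous_fderiv (by norm_num)).clm_apply continuous_const

theorem gn_cont {g : (Fin n → ℝ) → ℝ} (hg : ContDiff ℝ 1 g) : Continuous (gn g) := by
  unfold gn
  exact (continuous_finsetSum _ fun i _ => (D_cont hg i).pow 2).sqrt

theorem gn_nonneg (g : (Fin n → ℝ) → ℝ) (x : Fin n → ℝ) : 0 ≤ gn g x := Real.sqrt_nonneg _

/-- the matrix `D_i g D_j g / |∇ g|` -/
noncomputable def AA (g : (Fin n → ℝ) → ℝ) (i j : Fin n) (x : Fin n → ℝ) : ℝ :=
  D g i x * D g j x / gn g x

theorem AA_le (g : (Fin n → ℝ) → ℝ) (i j : Fin n) (x : Fin n → ℝ) : |AA g i j x| ≤ gn g x := by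
  unfold AA
  have h1 : |D g i x| ≤ gn g x := comp_le (fun j => D g j x) i
  have h2 : |D g j x| ≤ gn g x := comp_le (fun j => D g j x) j
  rcases eq_or_lt_of_le (gn_nonneg g x) with h0 | h0
  · rw [← h0, div_zero, abs_zero]
  · rw [abs_div, abs_mul, abs_of_pos h0, div_le_iff₀ h0]
    exact mul_le_mul h1 h2 (abs_nonneg _) h0.le

theorem AA_cont {g : (Fin n → ℝ) → ℝ} (hg : ContDiff ℝ 1 g) (i j : Fin n) :
    Continuous (AA g i j) := by
  rw [continuous_iff_continuousAt]
  intro x
  by_cases h : gn g x = 0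
  · have h1 : AA g i j x = 0 := by
      unfold AA
      rw [h, div_zero]
    change Tendsto _ _ _
    rw [h1]
    refine squeeze_zero_norm (fun y => ?_) (by
      have h2 := (gn_cont hg).tendsto x
      rw [h] at h2
      exact h2)
    exact AA_le g i j y
  · exact ((D_cont hg i).continuousAt.mul (D_cont hg j).continuousAt).div
      (gn_cont hg).continuousAt h

end calculus

/-! ### Periodicity and parity -/

section par
variable {n : ℕ}

/-- `f` is multiplied by `s` by the reflection in the coordinate `k` -/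
def Pa (s : ℝ) (f : (Fin n → ℝ) → ℝ) (k : Fin n) : Prop :=
  ∀ x, f (Function.update x k (-x k)) = s * f x

theorem Pa.mul {s t : ℝ} {f g : (Fin n → ℝ) → ℝ} {k : Fin n} (hf : Pa s f k) (hg : Pa t g k) :
    Pa (s * t) (fun x => f x * g x) k := by
  intro x
  change f _ * g _ = s * t * (f x * g x)
  rw [hf, hg]
  ring

theorem Pa.evn {s : ℝ} {f : (Fin n → ℝ) → ℝ} {k : Fin n} (hf : Pa s f k) (hs : s = 1) :
    Evn f k := by
  intro x
  rw [hf, hs, one_mul]

theorem pa_of_evn {f : (Fin n → ℝ) → ℝ} {k : Fin n} (hf : Evn f k) : Pa 1 f k := by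
  intro x
  rw [hf, one_mul]

theorem pa_of_odd {f : (Fin n → ℝ) → ℝ} {k : Fin n} (hf : Odd' f k) : Pa (-1) f k := by
  intro x
  rw [hf, neg_one_mul]

/-- the sign of the reflection -/
def sgn' (j k : Fin n) : ℝ := if j = k then -1 else 1

theorem sgn_sq (j k : Fin n) : sgn' j k * sgn' j k = 1 := by
  unfold sgn'
  split_ifs <;> norm_num

theorem sgn_comm (j k : Fin n) : sgn' j k = sgn' k j := by
  unfold sgn'
  by_cases h : j = k
  · rw [if_pos h, if_pos h.symm]
  · rw [if_neg h, if_neg (Ne.symm h)]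

theorem D_pa_evn (hS : SymFacts) {g : (Fin n → ℝ) → ℝ} (hg : ContDiff ℝ 1 g) {k : Fin n}
    (h : Evn g k) (j : Fin n) : Pa (sgn' j k) (D g j) k := by
  unfold sgn'
  by_cases hjk : j = k
  · rw [if_pos hjk, hjk]
    exact pa_of_odd (hS.evn_same n g k hg h)
  · rw [if_neg hjk]
    exact pa_of_evn (hS.evn_diff n g k j (Ne.symm hjk) hg h)

theorem D_pa_odd (hS : SymFacts) {g : (Fin n → ℝ) → ℝ} (hg : ContDiff ℝ 1 g) {k : Fin n}
    (h : Odd' g k) (j : Fin n) : Pa (-(sgn' j k)) (D g j) k := by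
  unfold sgn'
  by_cases hjk : j = k
  · rw [if_pos hjk, hjk, neg_neg]
    exact pa_of_evn (hS.odd_same n g k hg h)
  · rw [if_neg hjk]
    exact pa_of_odd (hS.odd_diff n g k j (Ne.symm hjk) hg h)

theorem gn_evn (hS : SymFacts) {g : (Fin n → ℝ) → ℝ} (hg : ContDiff ℝ 1 g) {k : Fin n}
    (h : Evn g k) : Evn (gn g) k := by
  intro x
  unfold gn
  congr 1
  refine Finset.sum_congr rfl fun j _ => ?_
  rw [D_pa_evn hS hg h j, mul_pow, sq (sgn' j k), sgn_sq, one_mul]

theorem AA_pa (hS : SymFacts) {g : (Fin n → ℝ) → ℝ} (hg : ContDiff ℝ 1 g) {k : Fin n}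
    (h : Evn g k) (i j : Fin n) : Pa (sgn' i k * sgn' j k) (AA g i j) k := by
  intro x
  unfold AA
  rw [D_pa_evn hS hg h i, D_pa_evn hS hg h j, gn_evn hS hg h]
  ring

theorem gn_per (hS : SymFacts) {g : (Fin n → ℝ) → ℝ} (h : Per g) : Per (gn g) := by
  intro x i
  unfold gn
  congr 1
  exact Finset.sum_congr rfl fun j _ => by rw [hS.per n g j h x i]

theorem AA_per (hS : SymFacts) {g : (Fin n → ℝ) → ℝ} (h : Per g) (i j : Fin n) :
    Per (AA g i j) := by
  intro x k
  unfold AA
  rw [hS.per n g i h x k, hS.per n g j h x k, gn_per hS h x k]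

end par

/-! ### Heat flow -/

section heat
variable {n : ℕ}

theorem per_sum {ι : Type} (s : Finset ι) (g : ι → (Fin n → ℝ) → ℝ) (hp : ∀ j, Per (g j)) :
    Per (fun y => ∑ j ∈ s, g j y) := by
  intro x i
  exact Finset.sum_congr rfl fun j _ => hp j x i

theorem heat_sum (hA : HeatA) (σ : ℝ) {ι : Type} (s : Finset ι) (g : ι → (Fin n → ℝ) → ℝ)
    (hc : ∀ j, Continuous (g j)) (hp : ∀ j, Per (g j)) (x : Fin n → ℝ) :
    heat σ (fun y => ∑ j ∈ s, g j y) x = ∑ j ∈ s, heat σ (g j) x := by
  classical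
  induction s using Finset.induction_on with
  | empty =>
    simp only [Finset.sum_empty]
    exact hA.const n σ 0 x
  | insert a s ha ih =>
    simp only [Finset.sum_insert ha]
    rw [hA.add n σ (g a) (fun y => ∑ j ∈ s, g j y) x (hc a) (hp a)
      (continuous_finsetSum _ fun j _ => hc j) (per_sum s g hp), ih]

theorem heat_cont (hA : HeatA) (σ : ℝ) {g : (Fin n → ℝ) → ℝ} (hc : Continuous g) (hp : Per g) :
    Continuous (heat σ g) :=
  (hA.cont n g hc hp).comp (continuous_const.prodMk continuous_id)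

theorem per_cmul {g : (Fin n → ℝ) → ℝ} (hp : Per g) (c : ℝ) : Per (fun y => c * g y) :=
  fun x i => congrArg (fun t => c * t) (hp x i)

theorem per_add {g k : (Fin n → ℝ) → ℝ} (hp : Per g) (hk : Per k) : Per (fun y => g y + k y) :=
  fun x i => congrArg₂ (fun t u => t + u) (hp x i) (hk x i)

/-- the main pointwise estimate -/
theorem heat_ptw (hA : HeatA) (hB : HeatB) (hS : SymFacts) (σ : ℝ) {g : (Fin n → ℝ) → ℝ}
    (hg : ContDiff ℝ 1 g) (hp : Per g) (i : Fin n) (x : Fin n → ℝ) (c : Fin n → ℝ) :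
    |∑ j, (heat σ (AA g i j) x - AA (heat σ g) i j x) * c j| ≤
      3 * (heat σ (gn g) x - gn (heat σ g) x) * √(∑ j, c j ^ 2) := by
  set f := heat σ g with hf
  have hDf : ∀ j, D f j x = heat σ (D g j) x := fun j => hB.comm n σ g j x hg hp
  set F := gn f x with hF
  have hF0 : 0 ≤ F := gn_nonneg f x
  set m : Fin n → ℝ := fun j => D f j x / F with hm
  set nc := ∑ j, m j * c j with hnc
  set C := √(∑ j, c j ^ 2) with hC
  have hC0 : 0 ≤ C := Real.sqrt_nonneg _
  have hFsq : F ^ 2 = ∑ j, D f j x ^ 2 :=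
    Real.sq_sqrt (Finset.sum_nonneg fun j _ => sq_nonneg _)
  have hmm : (∑ j, m j ^ 2 = 1 ∧ 0 < F) ∨ (m = 0 ∧ F = 0) := by
    rcases eq_or_lt_of_le hF0 with h0 | h0
    · right
      refine ⟨?_, h0.symm⟩
      funext j
      rw [hm]
      change D f j x / F = 0
      rw [← h0, div_zero]
    · left
      refine ⟨?_, h0⟩
      rw [hm]
      simp only [div_pow]
      rw [← Finset.sum_div, ← hFsq]
      field_simp
  have hDF : ∀ j, D f j x = F * m j := by
    intro j
    rcases hmm with ⟨-, h⟩ | ⟨-, h⟩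
    · rw [hm]
      change _ = F * (D f j x / F)
      field_simp
    · have h1 : |D f j x| ≤ gn f x := comp_le (fun j => D f j x) j
      rw [← hF, h] at h1
      rw [abs_nonpos_iff.1 h1, h, zero_mul]
  have hm1 : ∑ j, m j ^ 2 = 1 ∨ m = 0 := by
    rcases hmm with ⟨h, -⟩ | ⟨h, -⟩
    · exact Or.inl h
    · exact Or.inr h
  -- the functions
  have hDc : ∀ j, Continuous (D g j) := fun j => D_cont hg j
  have hDp : ∀ j, Per (D g j) := fun j => hS.per n g j hp
  have hAc : ∀ j, Continuous (AA g i j) := fun j => AA_cont hg i j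
  have hAp : ∀ j, Per (AA g i j) := fun j => AA_per hS hp i j
  have hgc := gn_cont hg
  have hgp := gn_per hS hp
  set S : (Fin n → ℝ) → ℝ := fun y => ∑ j, c j * AA g i j y with hSd
  set U : (Fin n → ℝ) → ℝ := fun y => ∑ j, c j * D g j y with hUd
  set V : (Fin n → ℝ) → ℝ := fun y => ∑ j, m j * D g j y with hVd
  have hSc : Continuous S := continuous_finsetSum _ fun j _ => continuous_const.mul (hAc j)
  have hUc : Continuous U := continuous_finsetSum _ fun j _ => continuous_const.mul (hDc j)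
  have hVc : Continuous V := continuous_finsetSum _ fun j _ => continuous_const.mul (hDc j)
  have hSp : Per S := per_sum _ _ fun j => per_cmul (hAp j) _
  have hUp : Per U := per_sum _ _ fun j => per_cmul (hDp j) _
  have hVp : Per V := per_sum _ _ fun j => per_cmul (hDp j) _
  have eS : heat σ S x = ∑ j, c j * heat σ (AA g i j) x := by
    rw [hSd, heat_sum hA σ Finset.univ (fun j y => c j * AA g i j y)
      (fun j => continuous_const.mul (hAc j)) (fun j => per_cmul (hAp j) _)]
    exact Finset.sum_congr rfl fun j _ => hA.smul n σ (c j) _ x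
  have eU : heat σ U x = ∑ j, c j * D f j x := by
    rw [hUd, heat_sum hA σ Finset.univ (fun j y => c j * D g j y)
      (fun j => continuous_const.mul (hDc j)) (fun j => per_cmul (hDp j) _)]
    exact Finset.sum_congr rfl fun j _ => by rw [hA.smul n σ (c j) _ x, hDf]
  have eV : heat σ V x = ∑ j, m j * D f j x := by
    rw [hVd, heat_sum hA σ Finset.univ (fun j y => m j * D g j y)
      (fun j => continuous_const.mul (hDc j)) (fun j => per_cmul (hDp j) _)]
    exact Finset.sum_congr rfl fun j _ => by rw [hA.smul n σ (m j) _ x, hDf]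
  -- the two functions
  set h1 : (Fin n → ℝ) → ℝ := fun y =>
    S y + ((m i * nc) * gn g y + ((-m i) * U y + (-nc) * D g i y)) with hh1
  set h2 : (Fin n → ℝ) → ℝ := fun y => (2 * C) * gn g y + (-(2 * C)) * V y with hh2
  have hle : ∀ y, |h1 y| ≤ h2 y := by
    intro y
    have hpt := ptw (fun j => D g j y) m c i hm1
    have e1 : h1 y = D g i y * (∑ j, D g j y * c j) / √(∑ j, D g j y ^ 2) +
        √(∑ j, D g j y ^ 2) * (m i * ∑ j, m j * c j) -
      m i * (∑ j, D g j y * c j) - D g i y * ∑ j, m j * c j := by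
      have k1 : S y = D g i y * (∑ j, D g j y * c j) / √(∑ j, D g j y ^ 2) := by
        rw [hSd]
        change ∑ j, c j * AA g i j y = _
        rw [Finset.mul_sum, Finset.sum_div]
        refine Finset.sum_congr rfl fun j _ => ?_
        unfold AA gn
        ring
      have k2 : U y = ∑ j, D g j y * c j := by
        rw [hUd]
        exact Finset.sum_congr rfl fun j _ => mul_comm _ _
      rw [hh1]
      change S y + ((m i * nc) * gn g y + ((-m i) * U y + (-nc) * D g i y)) = _
      rw [k1, k2, hnc]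
      unfold gn
      ring
    have e2 : h2 y = 2 * (√(∑ j, D g j y ^ 2) - ∑ j, D g j y * m j) * √(∑ j, c j ^ 2) := by
      have k3 : V y = ∑ j, D g j y * m j := by
        rw [hVd]
        exact Finset.sum_congr rfl fun j _ => mul_comm _ _
      rw [hh2]
      change (2 * C) * gn g y + (-(2 * C)) * V y = _
      rw [k3, hC]
      unfold gn
      ring
    rw [e1, e2]
    exact hpt
  have c1 : Continuous fun y => (-m i) * U y + (-nc) * D g i y :=
    (continuous_const.mul hUc).add (continuous_const.mul (hDc i))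
  have p1 : Per fun y => (-m i) * U y + (-nc) * D g i y :=
    per_add (per_cmul hUp _) (per_cmul (hDp i) _)
  have c2 : Continuous fun y => (m i * nc) * gn g y + ((-m i) * U y + (-nc) * D g i y) :=
    (continuous_const.mul hgc).add c1
  have p2 : Per fun y => (m i * nc) * gn g y + ((-m i) * U y + (-nc) * D g i y) :=
    per_add (per_cmul hgp _) p1
  have hc1 : Continuous h1 := hSc.add c2
  have hp1 : Per h1 := per_add hSp p2
  have hc2 : Continuous h2 := (continuous_const.mul hgc).add (continuous_const.mul hVc)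
  have hp2 : Per h2 := per_add (per_cmul hgp _) (per_cmul hVp _)
  have E1 : heat σ h1 x = (∑ j, c j * heat σ (AA g i j) x) + ((m i * nc) * heat σ (gn g) x +
      ((-m i) * (∑ j, c j * D f j x) + (-nc) * D f i x)) := by
    rw [hh1, hA.add n σ S _ x hSc hSp c2 p2, eS,
      hA.add n σ (fun y => (m i * nc) * gn g y) _ x (continuous_const.mul hgc)
        (per_cmul hgp _) c1 p1,
      hA.add n σ (fun y => (-m i) * U y) (fun y => (-nc) * D g i y) x (continuous_const.mul hUc)
        (per_cmul hUp _) (continuous_const.mul (hDc i)) (per_cmul (hDp i) _),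
      hA.smul, hA.smul, hA.smul, eU, hDf]
  have E2 : heat σ h2 x = (2 * C) * heat σ (gn g) x + (-(2 * C)) * ∑ j, m j * D f j x := by
    rw [hh2, hA.add n σ (fun y => (2 * C) * gn g y) (fun y => (-(2 * C)) * V y) x
      (continuous_const.mul hgc) (per_cmul hgp _) (continuous_const.mul hVc) (per_cmul hVp _),
      hA.smul, hA.smul, eV]
  have hup : heat σ h1 x ≤ heat σ h2 x :=
    hA.mono n σ h1 h2 x hc1 hp1 hc2 hp2 fun y => (le_abs_self _).trans (hle y)
  have hlo : heat σ (fun y => (-1) * h1 y) x ≤ heat σ h2 x :=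
    hA.mono n σ _ h2 x (continuous_const.mul hc1) (per_cmul hp1 _) hc2 hp2 fun y => by
      rw [neg_one_mul]
      exact (neg_le_abs _).trans (hle y)
  rw [hA.smul] at hlo
  have habs : |heat σ h1 x| ≤ heat σ h2 x := abs_le.2 ⟨by linarith, hup⟩
  -- evaluate
  have hFm : ∑ j, m j * D f j x = F := by
    rcases hmm with ⟨h, -⟩ | ⟨h, h'⟩
    · have : ∑ j, m j * D f j x = F * ∑ j, m j ^ 2 := by
        rw [Finset.mul_sum]
        exact Finset.sum_congr rfl fun j _ => by rw [hDF]; ring
      rw [this, h, mul_one]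
    · rw [h, h']
      simp
  have hFc : ∑ j, c j * D f j x = F * nc := by
    rw [hnc, Finset.mul_sum]
    exact Finset.sum_congr rfl fun j _ => by rw [hDF]; ring
  have hB2 : ∑ j, AA f i j x * c j = F * (m i * nc) := by
    rcases hmm with ⟨-, h⟩ | ⟨h, h'⟩
    · rw [hnc, Finset.mul_sum, Finset.mul_sum]
      refine Finset.sum_congr rfl fun j _ => ?_
      unfold AA
      rw [← hF, hDF i, hDF j]
      field_simp
    · rw [h', zero_mul]
      refine Finset.sum_eq_zero fun j _ => ?_
      unfold AA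
      rw [← hF, h', div_zero, zero_mul]
  set mm := heat σ (gn g) x with hmmd
  set Q := ∑ j, c j * heat σ (AA g i j) x with hQ
  rw [E1, E2, hFm, hFc, hDF i] at habs
  have hfin : ∑ j, (heat σ (AA g i j) x - AA f i j x) * c j = Q - F * (m i * nc) := by
    rw [← hB2, hQ, ← Finset.sum_sub_distrib]
    exact Finset.sum_congr rfl fun j _ => by ring
  have hgap : 0 ≤ mm - F := by
    have := hB.jensen n σ g x hg hp
    rw [hmmd, hF, hf]
    linarith
  have hmi : |m i * nc| ≤ C := by
    rcases hmm with ⟨h, -⟩ | ⟨h, -⟩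
    · have k1 := comp_le m i
      have k2 := cs m c
      rw [h, Real.sqrt_one] at k1 k2
      rw [one_mul, ← hC, ← hnc] at k2
      rw [abs_mul]
      calc |m i| * |nc| ≤ 1 * C := mul_le_mul k1 k2 (abs_nonneg _) zero_le_one
        _ = C := one_mul C
    · rw [h]
      simp [hC0]
  rw [hfin]
  have k3 : Q - F * (m i * nc) = (Q + ((m i * nc) * mm + ((-m i) * (F * nc) + (-nc) * (F * m i)))) -
      (mm - F) * (m i * nc) := by ring
  have k4 : |(mm - F) * (m i * nc)| ≤ (mm - F) * C := by
    rw [abs_mul, abs_of_nonneg hgap]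
    exact mul_le_mul_of_nonneg_left hmi hgap
  rw [k3]
  calc |(Q + ((m i * nc) * mm + ((-m i) * (F * nc) + (-nc) * (F * m i)))) - (mm - F) * (m i * nc)|
      ≤ |Q + ((m i * nc) * mm + ((-m i) * (F * nc) + (-nc) * (F * m i)))| +
        |(mm - F) * (m i * nc)| := abs_sub _ _
    _ ≤ (2 * C * mm + -(2 * C) * F) + (mm - F) * C := add_le_add habs k4
    _ = 3 * (mm - F) * C := by ring

end heat

/-! ### The statement -/

theorem s_b2 (hA : HeatA) (hB : HeatB) (_hC : HeatC) (hD : HeatD) (hBox : BoxFacts)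
    (hS : SymFacts) : S_b2 := by
  intro n i σ K g y hσ hK hg hsym hy hyp hyo hye hyK
  have hg1 : ContDiff ℝ 1 g := hg.of_le (by exact_mod_cast le_top)
  have hgp : Per g := hsym.1
  set f := heat σ g with hf
  set Y := heat σ y with hY
  have hf1 : ContDiff ℝ 1 f := hB.smooth1 n σ g hg1 hgp
  have hfp : Per f := hA.per n σ g hgp
  have hfe : ∀ k, Evn f k := fun k => hA.evn n σ g k (hsym.2 k)
  have hY1 : ContDiff ℝ 1 Y := hB.smooth1 n σ y hy hyp
  have hYp : Per Y := hA.per n σ y hyp
  -- parity of the derivatives of an odd field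
  have hpar : ∀ z : (Fin n → ℝ) → ℝ, ContDiff ℝ 1 z → Odd' z i → (∀ j, j ≠ i → Evn z j) →
      ∀ j k, Pa (sgn' i k * sgn' j k) (D z j) k := by
    intro z hz hzo hze j k
    by_cases hk : i = k
    · have h1 : sgn' i k = -1 := if_pos hk
      rw [h1, neg_one_mul, ← hk]
      have h2 := D_pa_odd hS hz hzo j
      exact h2
    · have h1 : sgn' i k = 1 := if_neg hk
      rw [h1, one_mul]
      exact D_pa_evn hS hz (hze k (Ne.symm hk)) j
  have hYo : Odd' Y i := hA.odd n σ y i hyo
  have hYe : ∀ j, j ≠ i → Evn Y j := fun j hj => hA.evn n σ y j (hye j hj)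
  -- from the cube to the box
  have hbox : ∀ (h z : (Fin n → ℝ) → ℝ), ContDiff ℝ 1 h → (∀ k, Evn h k) → ContDiff ℝ 1 z →
      Odd' z i → (∀ j, j ≠ i → Evn z j) → 2 ^ n * fv h i z =
        ∫ x in Icc (-1 : Fin n → ℝ) 1, (gn h x * D z i x - ∑ j, AA h i j x * D z j x) := by
    intro h z hh hhe hz hzo hze
    have hc : Continuous fun x => gn h x * D z i x - ∑ j, AA h i j x * D z j x :=
      ((gn_cont hh).mul (D_cont hz i)).sub
        (continuous_finsetSum _ fun j _ => (AA_cont hh i j).mul (D_cont hz j))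
    rw [hBox.half n _ hc]
    · rfl
    · intro k x
      have h1 : gn h (Function.update x k (-x k)) = gn h x := gn_evn hS hh (hhe k) x
      have h2 : D z i (Function.update x k (-x k)) = D z i x := by
        rw [hpar z hz hzo hze i k x, sgn_sq, one_mul]
      change gn h (Function.update x k (-x k)) * D z i (Function.update x k (-x k)) -
        ∑ j, AA h i j (Function.update x k (-x k)) * D z j (Function.update x k (-x k)) =
        gn h x * D z i x - ∑ j, AA h i j x * D z j x
      rw [h1, h2]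
      congr 1
      refine Finset.sum_congr rfl fun j _ => ?_
      rw [AA_pa hS hh (hhe k) i j x, hpar z hz hzo hze j k x]
      have h3 := sgn_sq i k
      have h4 := sgn_sq j k
      calc sgn' i k * sgn' j k * AA h i j x * (sgn' i k * sgn' j k * D z j x)
          = (sgn' i k * sgn' i k) * (sgn' j k * sgn' j k) * (AA h i j x * D z j x) := by ring
        _ = AA h i j x * D z j x := by rw [h3, h4]; ring
  have hI1 := hbox g Y hg1 hsym.2 hY1 hYo hYe
  have hI2 := hbox f y hf1 hfe hy hyo hye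
  -- continuity, integrability
  have hci : ∀ {h : (Fin n → ℝ) → ℝ}, Continuous h →
      IntegrableOn h (Icc (-1 : Fin n → ℝ) 1) := fun hc => hc.continuousOn.integrableOn_compact
    isCompact_Icc
  have hgc := gn_cont hg1
  have hgnp := gn_per hS hgp
  have hmc : Continuous (heat σ (gn g)) := heat_cont hA σ hgc hgnp
  have hMc : ∀ j, Continuous (heat σ (AA g i j)) := fun j =>
    heat_cont hA σ (AA_cont hg1 i j) (AA_per hS hgp i j)
  have hyD := fun j => D_cont hy j
  have hYD := fun j => D_cont hY1 j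
  -- adjointness
  have hadj : ∀ (h : (Fin n → ℝ) → ℝ) (j : Fin n), Continuous h → Per h →
      ∫ x in Icc (-1 : Fin n → ℝ) 1, h x * D Y j x =
        ∫ x in Icc (-1 : Fin n → ℝ) 1, heat σ h x * D y j x := by
    intro h j hc hp
    rw [hD.adj n σ h (D y j) hc hp (hyD j) (hS.per n y j hyp)]
    refine setIntegral_congr_fun measurableSet_Icc fun x _ => ?_
    rw [hY, hB.comm n σ y j x hy hyp]
  have hI1' : 2 ^ n * fv g i Y = ∫ x in Icc (-1 : Fin n → ℝ) 1,
      (heat σ (gn g) x * D y i x - ∑ j, heat σ (AA g i j) x * D y j x) := by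
    have c1 : IntegrableOn (fun x => gn g x * D Y i x) (Icc (-1 : Fin n → ℝ) 1) :=
      hci (hgc.mul (hYD i))
    have c2 : IntegrableOn (fun x => ∑ j, AA g i j x * D Y j x) (Icc (-1 : Fin n → ℝ) 1) :=
      hci (continuous_finsetSum _ fun j _ => (AA_cont hg1 i j).mul (hYD j))
    have c3 : IntegrableOn (fun x => heat σ (gn g) x * D y i x) (Icc (-1 : Fin n → ℝ) 1) :=
      hci (hmc.mul (hyD i))
    have c4 : IntegrableOn (fun x => ∑ j, heat σ (AA g i j) x * D y j x)
        (Icc (-1 : Fin n → ℝ) 1) :=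
      hci (continuous_finsetSum _ fun j _ => (hMc j).mul (hyD j))
    have c5 : ∀ j ∈ (Finset.univ : Finset (Fin n)),
        IntegrableOn (fun x => AA g i j x * D Y j x) (Icc (-1 : Fin n → ℝ) 1) :=
      fun j _ => hci ((AA_cont hg1 i j).mul (hYD j))
    have c6 : ∀ j ∈ (Finset.univ : Finset (Fin n)),
        IntegrableOn (fun x => heat σ (AA g i j) x * D y j x) (Icc (-1 : Fin n → ℝ) 1) :=
      fun j _ => hci ((hMc j).mul (hyD j))
    rw [hI1, integral_sub c1 c2, integral_sub c3 c4, integral_finsetSum _ c5,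
      integral_finsetSum _ c6, hadj (gn g) i hgc hgnp]
    congr 1
    exact Finset.sum_congr rfl fun j _ => hadj (AA g i j) j (AA_cont hg1 i j) (AA_per hS hgp i j)
  have hdiff : 2 ^ n * (fv g i Y - fv f i y) = ∫ x in Icc (-1 : Fin n → ℝ) 1,
      ((heat σ (gn g) x - gn f x) * D y i x -
        ∑ j, (heat σ (AA g i j) x - AA f i j x) * D y j x) := by
    have c1 : IntegrableOn (fun x => heat σ (gn g) x * D y i x -
        ∑ j, heat σ (AA g i j) x * D y j x) (Icc (-1 : Fin n → ℝ) 1) :=
      hci ((hmc.mul (hyD i)).sub (continuous_finsetSum _ fun j _ => (hMc j).mul (hyD j)))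
    have c2 : IntegrableOn (fun x => gn f x * D y i x - ∑ j, AA f i j x * D y j x)
        (Icc (-1 : Fin n → ℝ) 1) :=
      hci (((gn_cont hf1).mul (hyD i)).sub
        (continuous_finsetSum _ fun j _ => (AA_cont hf1 i j).mul (hyD j)))
    rw [mul_sub, hI1', hI2, ← integral_sub c1 c2]
    refine setIntegral_congr_fun measurableSet_Icc fun x _ => ?_
    change (heat σ (gn g) x * D y i x - ∑ j, heat σ (AA g i j) x * D y j x) -
      (gn f x * D y i x - ∑ j, AA f i j x * D y j x) = _
    have h1 : ∑ j, (heat σ (AA g i j) x - AA f i j x) * D y j x =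
        ∑ j, heat σ (AA g i j) x * D y j x - ∑ j, AA f i j x * D y j x := by
      rw [← Finset.sum_sub_distrib]
      exact Finset.sum_congr rfl fun j _ => by ring
    rw [h1]
    ring
  -- the bound
  have hgap : ∀ x, 0 ≤ heat σ (gn g) x - gn f x := fun x => by
    have := hB.jensen n σ g x hg1 hgp
    rw [hf]
    linarith
  have hpt : ∀ x, ‖(heat σ (gn g) x - gn f x) * D y i x -
      ∑ j, (heat σ (AA g i j) x - AA f i j x) * D y j x‖ ≤
      4 * K * (heat σ (gn g) x - gn f x) := by
    intro x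
    have h1 : |D y i x| ≤ K := (comp_le (fun j => D y j x) i).trans (hyK x)
    have h2 := heat_ptw hA hB hS σ hg1 hgp i x (fun j => D y j x)
    have h3 : √(∑ j, D y j x ^ 2) ≤ K := hyK x
    rw [Real.norm_eq_abs]
    have h4 : |(heat σ (gn g) x - gn f x) * D y i x| ≤ (heat σ (gn g) x - gn f x) * K := by
      rw [abs_mul, abs_of_nonneg (hgap x)]
      exact mul_le_mul_of_nonneg_left h1 (hgap x)
    have h5 : 3 * (heat σ (gn g) x - gn f x) * √(∑ j, D y j x ^ 2) ≤
        3 * (heat σ (gn g) x - gn f x) * K :=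
      mul_le_mul_of_nonneg_left h3 (mul_nonneg (by norm_num) (hgap x))
    calc _ ≤ |(heat σ (gn g) x - gn f x) * D y i x| +
          |∑ j, (heat σ (AA g i j) x - AA f i j x) * D y j x| := abs_sub _ _
      _ ≤ (heat σ (gn g) x - gn f x) * K + 3 * (heat σ (gn g) x - gn f x) * K :=
          add_le_add h4 (h2.trans h5)
      _ = 4 * K * (heat σ (gn g) x - gn f x) := by ring
  have hgapc : Continuous fun x => heat σ (gn g) x - gn f x := hmc.sub (gn_cont hf1)
  have hle : |2 ^ n * (fv g i Y - fv f i y)| ≤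
      ∫ x in Icc (-1 : Fin n → ℝ) 1, 4 * K * (heat σ (gn g) x - gn f x) := by
    rw [hdiff, ← Real.norm_eq_abs]
    exact norm_integral_le_of_norm_le (hci (continuous_const.mul hgapc))
      (Filter.Eventually.of_forall fun x => hpt x)
  have hgnE : ∀ k, Evn (gn g) k := fun k => gn_evn hS hg1 (hsym.2 k)
  have hgape : ∀ k, Evn (fun x => heat σ (gn g) x - gn f x) k := by
    intro k x
    have h1 : heat σ (gn g) (Function.update x k (-x k)) = heat σ (gn g) x :=
      hA.evn n σ (gn g) k (hgnE k) x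
    have h2 : gn f (Function.update x k (-x k)) = gn f x := gn_evn hS hf1 (hfe k) x
    change heat σ (gn g) (Function.update x k (-x k)) - gn f (Function.update x k (-x k)) =
      heat σ (gn g) x - gn f x
    rw [h1, h2]
  have hTV : ∫ x in Icc (0 : Fin n → ℝ) 1, (heat σ (gn g) x - gn f x) = TV g - TV f := by
    rw [integral_sub (hmc.continuousOn.integrableOn_compact isCompact_Icc)
      ((gn_cont hf1).continuousOn.integrableOn_compact isCompact_Icc),
      hD.mass n σ (gn g) hgc ⟨hgnp, hgnE⟩]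
    rfl
  rw [integral_const_mul, hBox.half n _ hgapc hgape, hTV, abs_mul,
    abs_of_pos (by positivity : (0 : ℝ) < 2 ^ n)] at hle
  have h2n : (0 : ℝ) < 2 ^ n := by positivity
  have hfin : 2 ^ n * |fv g i Y - fv f i y| ≤ 2 ^ n * (4 * K * (TV g - TV f)) := by
    calc _ ≤ _ := hle
      _ = _ := by ring
  exact le_of_mul_le_mul_left hfin h2n

end Pool.Agent.H221.Cube
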