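import Pool.Agent.H194.Cube.Defs

/-! Corner cube in dimension 3: `S_box` (subtask 5254, for helper194). -/

set_option autoImplicit false

namespace Pool.Agent.H553.Cube

open MeasureTheory Set Filter Topology Pool.Agent.H194.Cube
open scoped ContDiff ENNReal

theorem vol_box (r : ℝ) (h0 : 0 ≤ r) :
    volume {x : Fin 3 → ℝ | ∀ i, x i ∈ Ioo (0 : ℝ) r} = ENNReal.ofReal (r ^ 3) := by
  have h1 : {x : Fin 3 → ℝ | ∀ i, x i ∈ Ioo (0 : ℝ) r} = Set.pi univ fun _ => Ioo (0 : ℝ) r := by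
    ext x; simp [Set.mem_ofPred_eq, Set.mem_pi]
  rw [h1, Real.volume_pi_Ioo]
  simp only [sub_zero]
  rw [← ENNReal.ofReal_prod_of_nonneg (fun _ _ => h0)]
  simp [Finset.prod_const]

theorem box_field (r : ℝ) (h0 : 0 ≤ r) (φ : (Fin 3 → ℝ) → (Fin 3 → ℝ)) (hφ : ContDiff ℝ 1 φ)
    (hs : tsupport φ ⊆ {x : Fin 3 → ℝ | ∀ i, x i ∈ Set.Ioo (0:ℝ) 1})
    (hb : ∀ x, ∑ i, (φ x i) ^ 2 ≤ 1) :
    ∫ x in {x : Fin 3 → ℝ | ∀ i, x i ∈ Ioo (0 : ℝ) r}, ∑ i, fderiv ℝ φ x (Pi.single i 1) i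
      ≤ 3 * r ^ 2 := by
  have hset : ∫ x in {x : Fin 3 → ℝ | ∀ i, x i ∈ Ioo (0 : ℝ) r},
      ∑ i, fderiv ℝ φ x (Pi.single i 1) i =
      ∫ x in Icc (fun _ : Fin 3 => (0 : ℝ)) (fun _ => r), ∑ i, fderiv ℝ φ x (Pi.single i 1) i := by
    have h1 : {x : Fin 3 → ℝ | ∀ i, x i ∈ Ioo (0 : ℝ) r} =
        Set.pi univ fun _ => Ioo (0 : ℝ) r := by
      ext x; simp [Set.mem_ofPred_eq, Set.mem_pi]
    rw [h1]
    exact setIntegral_congr_set
      (Measure.univ_pi_Ioo_ae_eq_Icc (μ := fun _ : Fin 3 => (volume : Measure ℝ)))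
  rw [hset]
  have hdiv := integral_divergence_of_hasFDerivAt_off_countable (n := 2)
    (fun _ : Fin 3 => (0 : ℝ)) (fun _ => r) (fun _ => h0) φ (fun x => fderiv ℝ φ x) ∅
    countable_empty hφ.continuous.continuousOn
    (fun x _ => (hφ.differentiable one_ne_zero x).hasFDerivAt) (by
      have hc : Continuous fun x => ∑ i : Fin 3, fderiv ℝ φ x (Pi.single i 1) i := by
        refine continuous_finsetSum _ fun i _ => ?_
        exact (continuous_apply i).comp ((hφ.continuous_fderiv one_ne_zero).clm_apply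
          continuous_const)
      exact hc.continuousOn.integrableOn_compact isCompact_Icc)
  refine (le_of_eq hdiv).trans ?_
  have hz : ∀ x : Fin 3 → ℝ, (∃ i, x i = 0) → φ x = 0 := by
    rintro x ⟨i, hi⟩
    by_contra hne
    have := hs (subset_tsupport φ (Function.mem_support.2 hne)) i
    rw [hi] at this
    exact lt_irrefl _ this.1
  have hle : ∀ x : Fin 3 → ℝ, ∀ i, φ x i ≤ 1 := by
    intro x i
    have h1 : φ x i ^ 2 ≤ ∑ j, (φ x j) ^ 2 :=
      Finset.single_le_sum (f := fun j => φ x j ^ 2) (fun j _ => sq_nonneg _) (Finset.mem_univ i)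
    nlinarith [hb x, h1, sq_nonneg (φ x i - 1)]
  have hterm : ∀ i : Fin 3,
      ((∫ x in Icc ((fun _ : Fin 3 => (0 : ℝ)) ∘ i.succAbove) ((fun _ : Fin 3 => r) ∘ i.succAbove),
          φ (i.insertNth r x) i) -
        ∫ x in Icc ((fun _ : Fin 3 => (0 : ℝ)) ∘ i.succAbove) ((fun _ : Fin 3 => r) ∘ i.succAbove),
          φ (i.insertNth 0 x) i) ≤ r ^ 2 := by
    intro i
    have h2 : (∫ x in Icc ((fun _ : Fin 3 => (0 : ℝ)) ∘ i.succAbove)
        ((fun _ : Fin 3 => r) ∘ i.succAbove), φ (i.insertNth 0 x) i) = 0 := by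
      have : ∀ x : Fin 2 → ℝ, φ (i.insertNth 0 x) i = 0 := by
        intro x
        rw [hz (i.insertNth 0 x) ⟨i, by simp⟩]
        rfl
      simp [this]
    rw [h2, sub_zero]
    have hfin : volume (Icc ((fun _ : Fin 3 => (0 : ℝ)) ∘ i.succAbove)
        ((fun _ : Fin 3 => r) ∘ i.succAbove)) ≠ ⊤ := isCompact_Icc.measure_lt_top.ne
    have hcont : Continuous fun x : Fin 2 → ℝ => φ (i.insertNth r x) i := by
      refine (continuous_apply i).comp (hφ.continuous.comp ?_)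
      exact continuous_const.finInsertNth i continuous_id
    have h3 : ∫ x in Icc ((fun _ : Fin 3 => (0 : ℝ)) ∘ i.succAbove)
        ((fun _ : Fin 3 => r) ∘ i.succAbove), φ (i.insertNth r x) i ≤
        ∫ x in Icc ((fun _ : Fin 3 => (0 : ℝ)) ∘ i.succAbove)
        ((fun _ : Fin 3 => r) ∘ i.succAbove), (1 : ℝ) := by
      refine setIntegral_mono ?_ ?_ ?_
      · exact hcont.continuousOn.integrableOn_compact isCompact_Icc
      · exact integrableOn_const hfin
      · intro x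
        exact hle _ i
    refine h3.trans ?_
    rw [setIntegral_const, measureReal_def, Real.volume_Icc_pi]
    simp only [Function.comp, sub_zero, Finset.prod_const, Finset.card_univ, Fintype.card_fin,
      smul_eq_mul, mul_one]
    rw [← ENNReal.ofReal_pow h0, ENNReal.toReal_ofReal (by positivity)]
  calc ∑ i : Fin 3, _ ≤ ∑ _i : Fin 3, r ^ 2 := Finset.sum_le_sum fun i _ => hterm i
    _ = 3 * r ^ 2 := by simp

theorem s_box : S_box := by
  intro r h0 h1
  unfold Iprof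
  refine iInf₂_le_of_le {x : Fin 3 → ℝ | ∀ i, x i ∈ Ioo (0 : ℝ) r} ?_ ?_
  · have h1 : {x : Fin 3 → ℝ | ∀ i, x i ∈ Ioo (0 : ℝ) r} =
        Set.pi univ fun _ => Ioo (0 : ℝ) r := by
      ext x; simp [Set.mem_ofPred_eq, Set.mem_pi]
    rw [h1]
    exact MeasurableSet.univ_pi fun _ => measurableSet_Ioo
  refine iInf₂_le_of_le ?_ (vol_box r h0) ?_
  · intro x hx i
    exact ⟨(hx i).1, (hx i).2.trans_le h1⟩
  unfold Peri
  refine iSup₂_le fun φ hφ => iSup₂_le fun _ hs => iSup_le fun hb => ?_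
  exact ENNReal.ofReal_le_ofReal (box_field r h0 φ hφ hs hb)

end Pool.Agent.H553.Cube
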