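import Pool.Agent.H194.Cube.Defs

/-!
# CUBE PROFILE (MP_b7645d_gt): `BoxFacts` and `SymFacts`

Periodic and even functions on `Fin n → ℝ`.  (by helper603)
-/

set_option autoImplicit false

namespace Pool.Agent.H603.Cube

open MeasureTheory Set Filter Topology
open scoped ContDiff ENNReal Pointwise
open Pool.Agent.H194.Cube

/-! ## The reflection in the `i`-th coordinate -/

/-- the reflection in the `i`-th coordinate -/
noncomputable def Rf {n : ℕ} (i : Fin n) : (Fin n → ℝ) →L[ℝ] (Fin n → ℝ) :=
  ContinuousLinearMap.id ℝ (Fin n → ℝ) -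
    (ContinuousLinearMap.single ℝ (fun _ : Fin n => ℝ) i).comp
      ((2 : ℝ) • ContinuousLinearMap.proj (R := ℝ) (φ := fun _ : Fin n => ℝ) i)

theorem Rf_apply {n : ℕ} (i : Fin n) (x : Fin n → ℝ) : Rf i x = Function.update x i (-x i) := by
  ext j
  by_cases h : j = i
  · subst h
    simp [Rf]
    ring
  · simp [Rf, h]

theorem Rf_single_same {n : ℕ} (i : Fin n) :
    Rf i (Pi.single i (1 : ℝ) : Fin n → ℝ) = -(Pi.single i (1 : ℝ) : Fin n → ℝ) := by
  rw [Rf_apply]
  ext j
  by_cases h : j = i
  · subst h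
    simp
  · simp [h]

theorem Rf_single_diff {n : ℕ} {i j : Fin n} (h : i ≠ j) :
    Rf i (Pi.single j (1 : ℝ) : Fin n → ℝ) = (Pi.single j (1 : ℝ) : Fin n → ℝ) := by
  rw [Rf_apply]
  ext k
  by_cases hk : k = i
  · subst hk
    simp [h]
  · simp [hk]

theorem D_comp {n : ℕ} {g : (Fin n → ℝ) → ℝ} (hg : ContDiff ℝ 1 g) (i j : Fin n) (x : Fin n → ℝ) :
    D (fun y => g (Function.update y i (-y i))) j x = fderiv ℝ g (Function.update x i (-x i))
      (Rf i (Pi.single j (1 : ℝ) : Fin n → ℝ)) := by
  have h1 : (fun y => g (Function.update y i (-y i))) = g ∘ (Rf i) := by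
    funext y
    simp [Rf_apply]
  unfold D
  rw [h1, fderiv_comp x (hg.differentiable one_ne_zero _) (Rf i).differentiableAt,
    ContinuousLinearMap.fderiv, Rf_apply]
  rfl

theorem symFacts : SymFacts where
  per := by
    intro n g i hg x j
    unfold D
    have h1 : (fun y => g (y + Pi.single j 2)) = g := by
      funext y
      exact hg y j
    conv_rhs => rw [← h1]
    rw [fderiv_comp_add_right]
  evn_same := by
    intro n g i hg he x
    have h1 : (fun y => g (Function.update y i (-y i))) = g := funext he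
    have h2 := D_comp hg i i x
    rw [h1, Rf_single_same, map_neg] at h2
    unfold D at h2 ⊢
    rw [h2, neg_neg]
  odd_same := by
    intro n g i hg he x
    have h1 : (fun y => g (Function.update y i (-y i))) = fun y => -g y := funext he
    have h2 := D_comp hg i i x
    rw [h1, Rf_single_same, map_neg] at h2
    unfold D at h2 ⊢
    rw [fderiv_fun_neg, _root_.neg_apply] at h2
    exact (neg_injective h2).symm
  evn_diff := by
    intro n g i j hij hg he x
    have h1 : (fun y => g (Function.update y i (-y i))) = g := funext he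
    have h2 := D_comp hg i j x
    rw [h1, Rf_single_diff hij] at h2
    exact h2.symm
  odd_diff := by
    intro n g i j hij hg he x
    have h1 : (fun y => g (Function.update y i (-y i))) = fun y => -g y := funext he
    have h2 := D_comp hg i j x
    rw [h1, Rf_single_diff hij] at h2
    unfold D at h2 ⊢
    rw [fderiv_fun_neg, _root_.neg_apply] at h2
    exact h2.symm
  odd_zero := by
    intro n g i x hp ho hx
    have h1 := ho x
    rcases hx with hx | hx
    · rw [hx, neg_zero, ← hx, Function.update_eq_self] at h1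
      linarith
    · have h2 : Function.update x i (-x i) + Pi.single i 2 = x := by
        ext j
        by_cases h : j = i
        · subst h
          simp [hx]
          norm_num
        · simp [h]
      have h3 := hp (Function.update x i (-x i)) i
      rw [h2] at h3
      linarith

/-! ## Periodic functions -/

theorem per_int {n : ℕ} {g : (Fin n → ℝ) → ℝ} (hg : Per g) (k : Fin n → ℤ) (x : Fin n → ℝ) :
    g (x + fun i => (k i : ℝ) * 2) = g x := by
  have h1 : ∀ i, Function.Periodic g (Pi.single i (2 : ℝ) : Fin n → ℝ) := fun i x => hg x i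
  have h2 : ∀ s : Finset (Fin n), Function.Periodic g (∑ i ∈ s, k i • (Pi.single i (2 : ℝ) : Fin n → ℝ)) := by
    intro s
    induction s using Finset.induction_on with
    | empty => intro x; simp
    | insert i s hi ih =>
      rw [Finset.sum_insert hi]
      exact ((h1 i).zsmul (k i)).add_period ih
  have h3 : (fun i => (k i : ℝ) * 2) = ∑ i, k i • (Pi.single i (2 : ℝ) : Fin n → ℝ) := by
    ext j
    rw [Finset.sum_apply]
    rw [Finset.sum_eq_single j]
    · simp
    · intro b _ hb
      simp [hb.symm]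
    · simp
  rw [h3]
  exact h2 _ x

theorem bdd {n : ℕ} {g : (Fin n → ℝ) → ℝ} (hc : Continuous g) (hg : Per g) : ∃ M, ∀ x, |g x| ≤ M := by
  have hK : IsCompact (Icc (0 : Fin n → ℝ) 2) := isCompact_Icc
  obtain ⟨M, hM⟩ := hK.exists_bound_of_continuousOn hc.continuousOn
  refine ⟨M, fun x => ?_⟩
  have h1 := per_int hg (fun i => -⌊x i / 2⌋) x
  rw [← h1]
  apply hM
  constructor
  · intro i
    have := Int.floor_le (x i / 2)
    simp only [Pi.zero_apply, Pi.add_apply, Int.cast_neg]
    linarith
  · intro i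
    have := Int.lt_floor_add_one (x i / 2)
    simp only [Pi.ofNat_apply, Pi.add_apply, Int.cast_neg]
    linarith

/-! ## The period cell -/

/-- the basis `2 e_i` -/
noncomputable def bas (n : ℕ) : Module.Basis (Fin n) ℝ (Fin n → ℝ) :=
  (Pi.basisFun ℝ (Fin n)).unitsSMul fun _ => Units.mk0 2 two_ne_zero

theorem fd_eq (n : ℕ) : ZSpan.fundamentalDomain (bas n) = Set.pi univ fun _ => Ico (0 : ℝ) 2 := by
  ext x
  simp only [ZSpan.mem_fundamentalDomain, bas, Module.Basis.repr_unitsSMul, Pi.basisFun_repr, Set.mem_pi, mem_univ,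
    forall_true_left]
  refine forall_congr' fun i => ?_
  rw [Units.smul_def, Units.val_inv_eq_inv_val, Units.val_mk0, smul_eq_mul, mem_Ico, mem_Ico]
  constructor
  · rintro ⟨h1, h2⟩
    constructor <;> linarith
  · rintro ⟨h1, h2⟩
    constructor <;> linarith

theorem per_span {n : ℕ} {g : (Fin n → ℝ) → ℝ} (hg : Per g) {v : Fin n → ℝ}
    (hv : v ∈ Submodule.span ℤ (Set.range (bas n))) : ∀ x, g (v + x) = g x := by
  induction hv using Submodule.span_induction with
  | mem v hv =>
    obtain ⟨i, rfl⟩ := hv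
    intro x
    have h1 : bas n i = Pi.single i 2 := by
      rw [bas, Module.Basis.unitsSMul_apply, Pi.basisFun_apply, Units.smul_def, Units.val_mk0]
      ext j
      by_cases h : j = i
      · subst h
        simp
      · simp [h]
    rw [h1, add_comm]
    exact hg x i
  | zero => intro x; simp
  | add v w _ _ h1 h2 =>
    intro x
    rw [add_assoc, h1, h2]
  | smul a v _ h =>
    have h1 : Function.Periodic g v := fun x => by rw [add_comm]; exact h x
    intro x
    rw [add_comm]
    exact h1.zsmul a x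

theorem cell {n : ℕ} {g : (Fin n → ℝ) → ℝ} (hg : Per g) (a : Fin n → ℝ) :
    ∫ x in Icc a (a + 2), g x = ∫ x in ZSpan.fundamentalDomain (bas n), g x := by
  have h1 := ZSpan.isAddFundamentalDomain' (bas n) (volume : Measure (Fin n → ℝ))
  have h2 : IsAddFundamentalDomain (Submodule.span ℤ (Set.range (bas n))).toAddSubgroup (a +ᵥ ZSpan.fundamentalDomain (bas n))
      (volume : Measure (Fin n → ℝ)) := h1.vadd_of_comm a
  have h3 : (a +ᵥ ZSpan.fundamentalDomain (bas n)) =ᵐ[volume] Icc a (a + 2) := by
    have h4 : (a +ᵥ ZSpan.fundamentalDomain (bas n)) = Set.pi univ fun i => Ico (a i) ((a + 2) i) := by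
      rw [fd_eq]
      ext x
      rw [Set.mem_vadd_set_iff_neg_vadd_mem]
      simp only [Set.mem_pi, mem_univ, forall_true_left, mem_Ico, vadd_eq_add, Pi.add_apply, Pi.neg_apply, Pi.ofNat_apply]
      refine forall_congr' fun i => ?_
      constructor
      · rintro ⟨h1, h2⟩
        constructor <;> linarith
      · rintro ⟨h1, h2⟩
        constructor <;> linarith
    rw [h4]
    exact Measure.univ_pi_Ico_ae_eq_Icc
  have : Countable (Submodule.span ℤ (Set.range (bas n))).toAddSubgroup :=
    inferInstanceAs (Countable (Submodule.span ℤ (Set.range (bas n))))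
  rw [← setIntegral_congr_set h3]
  apply h2.setIntegral_eq h1
  intro v x
  exact per_span hg v.2 x

theorem shift {n : ℕ} {g : (Fin n → ℝ) → ℝ} (z : Fin n → ℝ) (hg : Per g) :
    ∫ x in Icc (-1 : Fin n → ℝ) 1, g (x + z) = ∫ x in Icc (-1 : Fin n → ℝ) 1, g x := by
  have h1 : (fun x : Fin n → ℝ => x + z) ⁻¹' (Icc (z - 1) (z - 1 + 2)) = Icc (-1 : Fin n → ℝ) 1 := by
    rw [Set.preimage_add_const_Icc]
    congr 1
    · ring
    · ext i
      simp only [Pi.sub_apply, Pi.add_apply, Pi.ofNat_apply]
      ring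
  have h2 := (measurePreserving_add_right (volume : Measure (Fin n → ℝ)) z).setIntegral_preimage_emb
    (measurableEmbedding_addRight z) g (Icc (z - 1) (z - 1 + 2))
  rw [h1] at h2
  rw [h2, cell hg]
  have h3 : Icc (-1 : Fin n → ℝ) 1 = Icc (-1) (-1 + 2) := by
    congr 1
    ext i
    simp
    norm_num
  rw [h3, cell hg]

/-! ## Even functions -/

theorem evn_abs {n : ℕ} {g : (Fin n → ℝ) → ℝ} (hg : ∀ i, Evn g i) (x : Fin n → ℝ) : g (fun i => |x i|) = g x := by
  have h1 : ∀ s : Finset (Fin n), g (fun i => if i ∈ s then |x i| else x i) = g x := by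
    intro s
    induction s using Finset.induction_on with
    | empty => simp
    | insert i s hi ih =>
      rw [← ih]
      rcases le_total 0 (x i) with h | h
      · congr 1
        funext j
        by_cases hj : j = i
        · subst hj
          simp [hi, abs_of_nonneg h]
        · simp [hj]
      · rw [← hg i (fun i => if i ∈ s then |x i| else x i)]
        congr 1
        funext j
        by_cases hj : j = i
        · subst hj
          simp [hi, abs_of_nonpos h]
        · simp [hj]
  simpa using h1 Finset.univ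

theorem map_abs : (volume.restrict (Icc (-1 : ℝ) 1)).map (fun t => |t|) =
    (2 : ℝ≥0∞) • volume.restrict (Icc (0 : ℝ) 1) := by
  ext s hs
  have hm : Measurable (fun t : ℝ => |t|) := measurable_id.abs
  rw [Measure.map_apply hm hs, Measure.restrict_apply (hm hs), Measure.smul_apply, smul_eq_mul,
    Measure.restrict_apply hs]
  have h1 : (fun t : ℝ => |t|) ⁻¹' s ∩ Icc (-1 : ℝ) 1 = (s ∩ Icc 0 1) ∪ (Neg.neg ⁻¹' (s ∩ Ioc 0 1)) := by
    ext t
    simp only [mem_inter_iff, mem_preimage, mem_Icc, mem_union, mem_Ioc]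
    rcases le_or_gt 0 t with ht | ht
    · rw [abs_of_nonneg ht]
      constructor
      · rintro ⟨h1, h2, h3⟩
        exact Or.inl ⟨h1, ht, h3⟩
      · rintro (⟨h1, h2, h3⟩ | ⟨h1, h2, h3⟩)
        · exact ⟨h1, by linarith, h3⟩
        · linarith
    · rw [abs_of_neg ht]
      constructor
      · rintro ⟨h1, h2, h3⟩
        exact Or.inr ⟨h1, by linarith, by linarith⟩
      · rintro (⟨h1, h2, h3⟩ | ⟨h1, h2, h3⟩)
        · linarith
        · exact ⟨h1, by linarith, by linarith⟩
  have h2 : MeasurableSet (Neg.neg ⁻¹' (s ∩ Ioc (0 : ℝ) 1)) := (hs.inter measurableSet_Ioc).preimage measurable_neg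
  rw [h1, measure_union _ h2]
  · have h3 : volume (Neg.neg ⁻¹' (s ∩ Ioc (0 : ℝ) 1)) = volume (s ∩ Ioc (0 : ℝ) 1) :=
      (Measure.measurePreserving_neg (volume : Measure ℝ)).measure_preimage (hs.inter measurableSet_Ioc).nullMeasurableSet
    have h4 : volume (s ∩ Ioc (0 : ℝ) 1) = volume (s ∩ Icc (0 : ℝ) 1) :=
      measure_congr ((ae_eq_refl s).inter Ioc_ae_eq_Icc)
    rw [h3, h4, two_mul]
  · rw [Set.disjoint_left]
    rintro t ⟨-, h3, -⟩ ⟨-, h4, -⟩
    linarith

theorem pi_two (n : ℕ) : Measure.pi (fun _ : Fin n => (2 : ℝ≥0∞) • volume.restrict (Icc (0 : ℝ) 1)) =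
    (2 : ℝ≥0∞) ^ n • Measure.pi (fun _ : Fin n => volume.restrict (Icc (0 : ℝ) 1)) := by
  have : SigmaFinite ((2 : ℝ≥0∞) • (volume : Measure ℝ).restrict (Icc (0 : ℝ) 1)) := by
    rw [← map_abs]
    infer_instance
  refine Measure.pi_eq (μ := fun _ : Fin n => (2 : ℝ≥0∞) • volume.restrict (Icc (0 : ℝ) 1)) fun s _ => ?_
  rw [Measure.smul_apply, Measure.pi_pi]
  simp only [Measure.smul_apply, smul_eq_mul]
  rw [Finset.prod_mul_distrib]
  simp

theorem half {n : ℕ} {g : (Fin n → ℝ) → ℝ} (hc : Continuous g) (hg : ∀ i, Evn g i) :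
    ∫ x in Icc (-1 : Fin n → ℝ) 1, g x = 2 ^ n * ∫ x in Icc (0 : Fin n → ℝ) 1, g x := by
  have h1 : (volume : Measure (Fin n → ℝ)).restrict (Icc (-1 : Fin n → ℝ) 1) =
      Measure.pi (fun _ : Fin n => volume.restrict (Icc (-1 : ℝ) 1)) := by
    rw [volume_pi, ← Measure.restrict_pi_pi, ← pi_univ_Icc]
    rfl
  have h2 : (volume : Measure (Fin n → ℝ)).restrict (Icc (0 : Fin n → ℝ) 1) =
      Measure.pi (fun _ : Fin n => volume.restrict (Icc (0 : ℝ) 1)) := by
    rw [volume_pi, ← Measure.restrict_pi_pi, ← pi_univ_Icc]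
    rfl
  have : SigmaFinite ((2 : ℝ≥0∞) • (volume : Measure ℝ).restrict (Icc (0 : ℝ) 1)) := by
    rw [← map_abs]
    infer_instance
  have h3 : (Measure.pi (fun _ : Fin n => volume.restrict (Icc (-1 : ℝ) 1))).map (fun x i => |x i|) =
      (2 : ℝ≥0∞) ^ n • Measure.pi (fun _ : Fin n => volume.restrict (Icc (0 : ℝ) 1)) := by
    rw [← pi_two, ← map_abs]
    exact Measure.pi_map_pi (fun i => (measurable_id.abs).aemeasurable)
  have h4 : ∫ x in Icc (-1 : Fin n → ℝ) 1, g x = ∫ x in Icc (-1 : Fin n → ℝ) 1, g (fun i => |x i|) := by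
    simp only [evn_abs hg]
  rw [h4, h1, h2]
  have h5 : Measurable (fun (x : Fin n → ℝ) (i : Fin n) => |x i|) :=
    measurable_pi_lambda _ fun i => (measurable_pi_apply i).abs
  rw [← integral_map h5.aemeasurable hc.aestronglyMeasurable, h3, integral_smul_measure]
  simp

/-! ## The divergence theorem on the period cell -/

theorem cont_D {n : ℕ} {g : (Fin n → ℝ) → ℝ} (hg : ContDiff ℝ 1 g) (i : Fin n) : Continuous (D g i) := by
  unfold D
  exact (hg.continuous_fderiv one_ne_zero).clm_apply continuous_const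

theorem div {n : ℕ} {g : (Fin n → ℝ) → ℝ} (i : Fin n) (hg : ContDiff ℝ 1 g) (hp : Per g) :
    ∫ x in Icc (-1 : Fin n → ℝ) 1, D g i x = 0 := by
  obtain ⟨M, hM⟩ := bdd (cont_D hg i) (symFacts.per n g i hp)
  set e : Fin n → ℝ := Pi.single i (1 : ℝ) with he
  have hfin : (volume.restrict (Icc (-1 : Fin n → ℝ) 1)) Set.univ < ⊤ := by
    rw [Measure.restrict_apply_univ]
    exact isCompact_Icc.measure_lt_top
  have : IsFiniteMeasure (volume.restrict (Icc (-1 : Fin n → ℝ) 1)) := ⟨hfin⟩
  have hder : ∀ (x : Fin n → ℝ) (t : ℝ), HasDerivAt (fun t : ℝ => g (x + t • e)) (D g i (x + t • e)) t := by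
    intro x t
    have h1 : HasDerivAt (fun t : ℝ => x + t • e) e t := by
      simpa using ((hasDerivAt_id t).smul_const e).const_add x
    exact (hg.differentiable one_ne_zero (x + t • e)).hasFDerivAt.comp_hasDerivAt t h1
  have hcd : ∀ t : ℝ, Continuous fun x : Fin n → ℝ => x + t • e := fun t => by fun_prop
  have key := hasDerivAt_integral_of_dominated_loc_of_deriv_le
    (μ := volume.restrict (Icc (-1 : Fin n → ℝ) 1)) (F := fun (t : ℝ) x => g (x + t • e))
    (F' := fun t x => D g i (x + t • e)) (x₀ := (0 : ℝ)) (s := univ) (bound := fun _ => M)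
    univ_mem
    (Eventually.of_forall fun t => (hg.continuous.comp (hcd t)).aestronglyMeasurable)
    (((hg.continuous.comp (hcd 0)).continuousOn.integrableOn_compact isCompact_Icc))
    (((cont_D hg i).comp (hcd 0)).aestronglyMeasurable)
    (Eventually.of_forall fun x t _ => hM _)
    (integrable_const M)
    (Eventually.of_forall fun x t _ => hder x t)
  have h2 := key.2
  simp only [zero_smul, add_zero] at h2
  have h3 : (fun t : ℝ => ∫ x in Icc (-1 : Fin n → ℝ) 1, g (x + t • e)) =
      fun _ => ∫ x in Icc (-1 : Fin n → ℝ) 1, g x := by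
    funext t
    exact shift (t • e) hp
  rw [h3] at h2
  exact h2.unique (hasDerivAt_const _ _)

theorem boxFacts : BoxFacts where
  bdd := fun _ _ hc hp => bdd hc hp
  shift := fun _ _ z _ hp => shift z hp
  half := fun _ _ hc he => half hc he
  div := fun _ _ i hg hp => div i hg hp

end Pool.Agent.H603.Cube
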