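import Mathlib
import Pool.Agent.H194.Cube.Defs

set_option autoImplicit false

namespace Pool.Agent.H628.Clt

open MeasureTheory Set Filter Topology ProbabilityTheory
open Pool.Agent.H194.Cube

/-- Lebesgue measure on the unit interval -/
noncomputable def nu : Measure ℝ := volume.restrict (Icc 0 1)

instance : IsProbabilityMeasure nu := ⟨by simp [nu]⟩

/-- Lebesgue measure on the unit cube -/
noncomputable def mu (n : ℕ) : Measure (Fin n → ℝ) := volume.restrict (Icc 0 1)

theorem mu_eq (n : ℕ) : mu n = Measure.pi (fun _ : Fin n => nu) := by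
  unfold mu nu
  rw [← Measure.restrict_pi_pi, volume_pi, pi_univ_Icc]
  rfl

instance (n : ℕ) : IsProbabilityMeasure (mu n) := by rw [mu_eq]; infer_instance

theorem append_mp (n m : ℕ) :
    MeasurePreserving (fun p : (Fin n → ℝ) × (Fin m → ℝ) => (Fin.append p.1 p.2 : Fin (n + m) → ℝ))
      ((mu n).prod (mu m)) (mu (n + m)) := by
  have hmeas : Measurable
      (fun p : (Fin n → ℝ) × (Fin m → ℝ) => (Fin.append p.1 p.2 : Fin (n + m) → ℝ)) := by
    refine measurable_pi_lambda _ fun i => ?_
    refine Fin.addCases (fun i => ?_) (fun j => ?_) i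
    · simp only [Fin.append_left]; fun_prop
    · simp only [Fin.append_right]; fun_prop
  refine ⟨hmeas, ?_⟩
  rw [mu_eq (n + m)]
  refine Eq.symm (Measure.pi_eq fun s hs => ?_)
  rw [Measure.map_apply hmeas (MeasurableSet.univ_pi hs)]
  have : (fun p : (Fin n → ℝ) × (Fin m → ℝ) => (Fin.append p.1 p.2 : Fin (n + m) → ℝ)) ⁻¹'
      (univ.pi s) = (univ.pi fun i => s (Fin.castAdd m i)) ×ˢ
        (univ.pi fun j => s (Fin.natAdd n j)) := by
    ext p
    simp only [mem_preimage, Set.mem_pi, mem_univ, true_implies, mem_prod]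
    constructor
    · intro h
      refine ⟨fun i => ?_, fun j => ?_⟩
      · simpa using h (Fin.castAdd m i)
      · simpa using h (Fin.natAdd n j)
    · rintro ⟨h1, h2⟩ i
      refine Fin.addCases (fun i => ?_) (fun j => ?_) i
      · simpa using h1 i
      · simpa using h2 j
  rw [this, Measure.prod_prod, mu_eq, mu_eq, Measure.pi_pi, Measure.pi_pi, Fin.prod_univ_add]

/-- the single summand -/
noncomputable def X (y : ℝ) : ℝ := √2 * Real.cos (Real.pi * y)

/-- the approximately Gaussian function -/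
noncomputable def Gm (m : ℕ) (y : Fin m → ℝ) : ℝ := (√m)⁻¹ * ∑ j, X (y j)

theorem X_cont : Continuous X := by unfold X; fun_prop

theorem Gm_cont (m : ℕ) : Continuous (Gm m) := by
  unfold Gm
  refine continuous_const.mul (continuous_finsetSum _ fun j _ => X_cont.comp (continuous_apply j))

theorem nu_int (f : ℝ → ℝ) : ∫ y, f y ∂nu = ∫ y in (0:ℝ)..1, f y := by
  unfold nu
  rw [intervalIntegral.integral_of_le zero_le_one, ← integral_Icc_eq_integral_Ioc]

theorem X_mean : ∫ y, X y ∂nu = 0 := by
  rw [nu_int]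
  have h : ∀ y ∈ uIcc (0:ℝ) 1, HasDerivAt (fun y => √2 * (Real.sin (Real.pi * y) / Real.pi)) (X y) y := by
    intro y _
    have h1 : HasDerivAt (fun y : ℝ => Real.pi * y) Real.pi y := by
      simpa using (hasDerivAt_id y).const_mul Real.pi
    have h2 := ((h1.sin).div_const Real.pi).const_mul (√2)
    refine h2.congr_deriv ?_
    unfold X
    field_simp
  rw [intervalIntegral.integral_eq_sub_of_hasDerivAt h (X_cont.intervalIntegrable _ _)]
  simp

/-- `cos (2 π y)` -/
noncomputable def Z (y : ℝ) : ℝ := Real.cos (2 * Real.pi * y)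

theorem Z_cont : Continuous Z := by unfold Z; fun_prop

theorem Z_mean : ∫ y, Z y ∂nu = 0 := by
  rw [nu_int]
  have h : ∀ y ∈ uIcc (0:ℝ) 1, HasDerivAt
      (fun y => Real.sin (2 * Real.pi * y) / (2 * Real.pi)) (Z y) y := by
    intro y _
    have h1 : HasDerivAt (fun y : ℝ => 2 * Real.pi * y) (2 * Real.pi) y := by
      simpa using (hasDerivAt_id y).const_mul (2 * Real.pi)
    have h2 := ((h1.sin).div_const (2 * Real.pi))
    refine h2.congr_deriv ?_
    unfold Z
    field_simp
  rw [intervalIntegral.integral_eq_sub_of_hasDerivAt h (Z_cont.intervalIntegrable _ _)]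
  simp

theorem X_sq (y : ℝ) : X y ^ 2 = 1 + Z y := by
  unfold X Z
  rw [mul_pow, Real.sq_sqrt (by norm_num), mul_assoc 2 Real.pi y, Real.cos_two_mul]
  ring

theorem int_nu {f : ℝ → ℝ} (hf : Continuous f) : Integrable f nu := by
  unfold nu
  exact hf.continuousOn.integrableOn_Icc

theorem X_var : ∫ y, (X ^ 2) y ∂nu = 1 := by
  simp only [Pi.pow_apply, X_sq]
  rw [integral_add (integrable_const _) (int_nu Z_cont), Z_mean]
  simp

/-- the law of `Gm` -/
noncomputable def law (m : ℕ) : ProbabilityMeasure ℝ :=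
  ⟨(mu m).map (Gm m), Measure.isProbabilityMeasure_map (Gm_cont m).measurable.aemeasurable⟩

noncomputable def gam : ProbabilityMeasure ℝ := ⟨gaussianReal 0 1, inferInstance⟩

theorem law_char (m : ℕ) (t : ℝ) :
    charFun ((mu m).map (Gm m)) t = (charFun (nu.map X) ((√m)⁻¹ * t)) ^ m := by
  rw [charFun_apply_real, charFun_apply_real, integral_map (Gm_cont m).measurable.aemeasurable
    (by fun_prop), integral_map X_cont.measurable.aemeasurable (by fun_prop), mu_eq]
  have h := integral_fintype_prod_eq_pow (ι := Fin m) (𝕜 := ℂ) (μ := nu)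
    (fun y => Complex.exp (((((√m)⁻¹ * t : ℝ) : ℂ)) * (X y : ℂ) * Complex.I))
  rw [Fintype.card_fin] at h
  rw [← h]
  congr 1
  ext y
  rw [← Complex.exp_sum]
  congr 1
  unfold Gm
  push_cast
  rw [Finset.mul_sum, Finset.mul_sum, Finset.sum_mul]
  refine Finset.sum_congr rfl fun j _ => ?_
  ring

theorem law_tendsto : Tendsto law atTop (𝓝 gam) := by
  rw [ProbabilityMeasure.tendsto_iff_tendsto_charFun]
  intro t
  have h := tendsto_charFun_inv_sqrt_mul_pow (P := nu) X_cont.measurable.aemeasurable X_mean X_var t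
  have e1 : charFun (gam : Measure ℝ) t = Complex.exp (-t ^ 2 / 2) := by
    change charFun (gaussianReal 0 1) t = _
    rw [charFun_gaussianReal]
    congr 1
    simp
    ring
  rw [e1]
  refine h.congr fun m => ?_
  exact (law_char m t).symm

theorem clt_tendsto (F : BoundedContinuousFunction ℝ ℝ) :
    Tendsto (fun m => ∫ y, F (Gm m y) ∂mu m) atTop (𝓝 (∫ s, F s ∂gaussianReal 0 1)) := by
  have h := (ProbabilityMeasure.tendsto_iff_forall_integral_tendsto.1 law_tendsto) F
  refine h.congr fun m => ?_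
  change ∫ s, F s ∂((mu m).map (Gm m)) = _
  rw [integral_map (Gm_cont m).measurable.aemeasurable (by fun_prop)]

end Pool.Agent.H628.Clt
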