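import Mathlib
import Pool.Agent.H194.Cube.P.CltA

set_option autoImplicit false

namespace Pool.Agent.H628.Clt

open MeasureTheory Set Filter Topology ProbabilityTheory
open Pool.Agent.H194.Cube

/-! ## the cutoff function -/

noncomputable def rho (s : ℝ) : ℝ := 6 * max 0 (s * (1 - s))

noncomputable def th (t : ℝ) : ℝ := ∫ s in (0:ℝ)..t, rho s

theorem rho_cont : Continuous rho := by unfold rho; fun_prop

theorem rho_nonneg (s : ℝ) : 0 ≤ rho s := by unfold rho; positivity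

theorem rho_le (s : ℝ) : rho s ≤ 3 / 2 := by
  unfold rho
  have : max 0 (s * (1 - s)) ≤ 1 / 4 := max_le (by norm_num) (by nlinarith [sq_nonneg (s - 1/2)])
  linarith

theorem rho_zero {s : ℝ} (h : s ≤ 0 ∨ 1 ≤ s) : rho s = 0 := by
  unfold rho
  rw [max_eq_left, mul_zero]
  rcases h with h | h <;> nlinarith

theorem th_deriv (t : ℝ) : HasDerivAt th (rho t) t :=
  intervalIntegral.integral_hasDerivAt_right (rho_cont.intervalIntegrable _ _)
    (rho_cont.stronglyMeasurableAtFilter _ _) rho_cont.continuousAt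

theorem th_cont : Continuous th := continuous_iff_continuousAt.2 fun t => (th_deriv t).continuousAt

theorem th_mono : Monotone th :=
  monotone_of_deriv_nonneg (fun t => (th_deriv t).differentiableAt)
    (fun t => by rw [(th_deriv t).deriv]; exact rho_nonneg t)

theorem th_nonpos {t : ℝ} (h : t ≤ 0) : th t = 0 := by
  unfold th
  rw [intervalIntegral.integral_congr (g := fun _ => (0:ℝ))]
  · simp
  · intro s hs
    rw [uIcc_of_ge h] at hs
    exact rho_zero (Or.inl hs.2)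

theorem th_one : th 1 = 1 := by
  unfold th
  rw [intervalIntegral.integral_congr (g := fun s : ℝ => 6 * s - 6 * s ^ 2)]
  · have h : ∀ y ∈ uIcc (0:ℝ) 1, HasDerivAt (fun y : ℝ => 3 * y ^ 2 - 2 * y ^ 3)
        (6 * y - 6 * y ^ 2) y := by
      intro y _
      refine (((hasDerivAt_pow 2 y).const_mul 3).sub ((hasDerivAt_pow 3 y).const_mul 2)).congr_deriv ?_
      norm_num
      ring
    rw [intervalIntegral.integral_eq_sub_of_hasDerivAt h
      (Continuous.intervalIntegrable (by fun_prop) _ _)]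
    norm_num
  · intro s hs
    rw [uIcc_of_le zero_le_one] at hs
    unfold rho
    beta_reduce
    rw [max_eq_right (mul_nonneg hs.1 (by linarith [hs.2]))]
    ring

theorem th_ge {t : ℝ} (h : 1 ≤ t) : th t = 1 := by
  unfold th
  rw [← intervalIntegral.integral_add_adjacent_intervals (b := 1)
    (rho_cont.intervalIntegrable _ _) (rho_cont.intervalIntegrable _ _)]
  have h1 : ∫ s in (0:ℝ)..1, rho s = 1 := th_one
  rw [h1, intervalIntegral.integral_congr (g := fun _ => (0:ℝ))]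
  · simp
  · intro s hs
    rw [uIcc_of_le h] at hs
    exact rho_zero (Or.inr hs.1)

theorem th_mem (t : ℝ) : 0 ≤ th t ∧ th t ≤ 1 := by
  constructor
  · rcases le_total t 0 with h | h
    · exact (th_nonpos h).ge
    · calc (0:ℝ) = th 0 := (th_nonpos le_rfl).symm
        _ ≤ th t := th_mono h
  · rcases le_total t 1 with h | h
    · calc th t ≤ th 1 := th_mono h
        _ = 1 := th_one
    · exact (th_ge h).le

theorem th_smooth : ContDiff ℝ 1 th := by
  rw [contDiff_one_iff_deriv]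
  refine ⟨fun t => (th_deriv t).differentiableAt, ?_⟩
  have : deriv th = rho := funext fun t => (th_deriv t).deriv
  rw [this]
  exact rho_cont

/-! ## the lifted function -/

/-- first block of coordinates -/
def p1 (n m : ℕ) : (Fin (n + m) → ℝ) →L[ℝ] (Fin n → ℝ) :=
  ContinuousLinearMap.pi fun i => ContinuousLinearMap.proj (Fin.castAdd m i)

/-- second block of coordinates -/
def p2 (n m : ℕ) : (Fin (n + m) → ℝ) →L[ℝ] (Fin m → ℝ) :=
  ContinuousLinearMap.pi fun j => ContinuousLinearMap.proj (Fin.natAdd n j)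

theorem p1_append {n m : ℕ} (x : Fin n → ℝ) (y : Fin m → ℝ) : p1 n m (Fin.append x y) = x := by
  ext i; simp [p1]

theorem p2_append {n m : ℕ} (x : Fin n → ℝ) (y : Fin m → ℝ) : p2 n m (Fin.append x y) = y := by
  ext i; simp [p2]

theorem p1_left (n m : ℕ) (i : Fin n) :
    p1 n m (Pi.single (Fin.castAdd m i) 1) = Pi.single i 1 := by
  ext k
  simp only [p1, ContinuousLinearMap.coe_pi', ContinuousLinearMap.proj_apply, Pi.single_apply,
    Fin.castAdd_inj]

theorem p2_left (n m : ℕ) (i : Fin n) :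
    p2 n m (Pi.single (Fin.castAdd m i) 1) = 0 := by
  ext k
  simp only [p2, ContinuousLinearMap.coe_pi', ContinuousLinearMap.proj_apply, Pi.single_apply,
    Pi.zero_apply, ite_eq_right_iff]
  intro h
  have := congrArg Fin.val h
  simp at this
  omega

theorem p1_right (n m : ℕ) (j : Fin m) :
    p1 n m (Pi.single (Fin.natAdd n j) 1) = 0 := by
  ext k
  simp only [p1, ContinuousLinearMap.coe_pi', ContinuousLinearMap.proj_apply, Pi.single_apply,
    Pi.zero_apply, ite_eq_right_iff]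
  intro h
  have := congrArg Fin.val h
  simp at this
  omega

theorem p2_right (n m : ℕ) (j : Fin m) :
    p2 n m (Pi.single (Fin.natAdd n j) 1) = Pi.single j 1 := by
  ext k
  simp only [p2, ContinuousLinearMap.coe_pi', ContinuousLinearMap.proj_apply, Pi.single_apply,
    Fin.natAdd_inj]

/-- the lifted function -/
noncomputable def uf {n : ℕ} (h : (Fin n → ℝ) → ℝ) (m : ℕ) (ε : ℝ) (z : Fin (n + m) → ℝ) : ℝ :=
  th ((h (p1 n m z) - Gm m (p2 n m z)) / ε)

theorem X_smooth : ContDiff ℝ 1 X := by unfold X; fun_prop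

theorem Gm_smooth (m : ℕ) : ContDiff ℝ 1 (Gm m) := by
  unfold Gm
  refine contDiff_const.mul (ContDiff.sum fun j _ => X_smooth.comp (contDiff_apply ℝ ℝ j))

theorem uf_smooth {n : ℕ} {h : (Fin n → ℝ) → ℝ} (hh : ContDiff ℝ 1 h) (m : ℕ) (ε : ℝ) :
    ContDiff ℝ 1 (uf h m ε) := by
  unfold uf
  exact th_smooth.comp (((hh.comp (p1 n m).contDiff).sub
    ((Gm_smooth m).comp (p2 n m).contDiff)).div_const _)

theorem uf_fderiv {n : ℕ} {h : (Fin n → ℝ) → ℝ} (hh : ContDiff ℝ 1 h) (m : ℕ) (ε : ℝ)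
    (z v : Fin (n + m) → ℝ) :
    fderiv ℝ (uf h m ε) z v = rho ((h (p1 n m z) - Gm m (p2 n m z)) / ε) / ε *
      (fderiv ℝ h (p1 n m z) (p1 n m v) - fderiv ℝ (Gm m) (p2 n m z) (p2 n m v)) := by
  have h1 : HasFDerivAt (fun z => h (p1 n m z)) ((fderiv ℝ h (p1 n m z)).comp (p1 n m)) z :=
    ((hh.differentiable one_ne_zero) _).hasFDerivAt.comp z (p1 n m).hasFDerivAt
  have h2 : HasFDerivAt (fun z => Gm m (p2 n m z)) ((fderiv ℝ (Gm m) (p2 n m z)).comp (p2 n m)) z :=
    (((Gm_smooth m).differentiable one_ne_zero) _).hasFDerivAt.comp z (p2 n m).hasFDerivAt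
  have h3 := (th_deriv ((h (p1 n m z) - Gm m (p2 n m z)) / ε)).comp_hasFDerivAt z
    ((h1.sub h2).mul_const ε⁻¹)
  have h4 : HasFDerivAt (uf h m ε) _ z := h3
  rw [h4.fderiv]
  simp only [smul_apply, sub_apply,
    ContinuousLinearMap.comp_apply, smul_eq_mul]
  ring

theorem uf_gn {n : ℕ} {h : (Fin n → ℝ) → ℝ} (hh : ContDiff ℝ 1 h) (m : ℕ) {ε : ℝ} (hε : 0 < ε)
    (z : Fin (n + m) → ℝ) :
    gn (uf h m ε) z = rho ((h (p1 n m z) - Gm m (p2 n m z)) / ε) / ε *
      √(gn h (p1 n m z) ^ 2 + gn (Gm m) (p2 n m z) ^ 2) := by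
  have hr : 0 ≤ rho ((h (p1 n m z) - Gm m (p2 n m z)) / ε) / ε :=
    div_nonneg (rho_nonneg _) hε.le
  unfold gn
  rw [Real.sq_sqrt (Finset.sum_nonneg fun _ _ => sq_nonneg _),
    Real.sq_sqrt (Finset.sum_nonneg fun _ _ => sq_nonneg _), Fin.sum_univ_add]
  have e1 : ∀ i : Fin n, D (uf h m ε) (Fin.castAdd m i) z =
      rho ((h (p1 n m z) - Gm m (p2 n m z)) / ε) / ε * D h i (p1 n m z) := by
    intro i
    unfold D
    rw [uf_fderiv hh, p1_left, p2_left, map_zero, sub_zero]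
  have e2 : ∀ j : Fin m, D (uf h m ε) (Fin.natAdd n j) z =
      rho ((h (p1 n m z) - Gm m (p2 n m z)) / ε) / ε * -D (Gm m) j (p2 n m z) := by
    intro j
    unfold D
    rw [uf_fderiv hh, p1_right, p2_right, map_zero, zero_sub]
  simp only [e1, e2, mul_pow, neg_sq]
  rw [← Finset.mul_sum, ← Finset.mul_sum, ← mul_add, Real.sqrt_mul (sq_nonneg _), Real.sqrt_sq hr]

/-- average of `cos (2 π y j)` -/
noncomputable def W (m : ℕ) (y : Fin m → ℝ) : ℝ := (m : ℝ)⁻¹ * ∑ j, Z (y j)

theorem W_cont (m : ℕ) : Continuous (W m) := by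
  unfold W
  exact continuous_const.mul (continuous_finsetSum _ fun j _ => Z_cont.comp (continuous_apply j))

theorem Gm_D (m : ℕ) (j : Fin m) (y : Fin m → ℝ) :
    D (Gm m) j y = (√m)⁻¹ * (√2 * (-Real.sin (Real.pi * y j) * Real.pi)) := by
  have h1 : ∀ k : Fin m, HasFDerivAt (fun y : Fin m → ℝ => X (y k))
      ((√2 * (-Real.sin (Real.pi * y k) * Real.pi)) •
        (ContinuousLinearMap.proj k : (Fin m → ℝ) →L[ℝ] ℝ)) y := by
    intro k
    have h2 : HasDerivAt X (√2 * (-Real.sin (Real.pi * y k) * Real.pi)) (y k) := by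
      have h3 : HasDerivAt (fun y : ℝ => Real.pi * y) Real.pi (y k) := by
        simpa using (hasDerivAt_id (y k)).const_mul Real.pi
      exact (h3.cos).const_mul (√2)
    have h5 : HasFDerivAt (fun y : Fin m → ℝ => y k)
        (ContinuousLinearMap.proj k : (Fin m → ℝ) →L[ℝ] ℝ) y :=
      (ContinuousLinearMap.proj k : (Fin m → ℝ) →L[ℝ] ℝ).hasFDerivAt
    exact HasDerivAt.comp_hasFDerivAt (f := fun y : Fin m → ℝ => y k) y h2 h5
  have h4 : HasFDerivAt (Gm m) _ y := (HasFDerivAt.fun_sum fun k (_ : k ∈ Finset.univ) => h1 k).const_mul (√m)⁻¹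
  unfold D
  rw [h4.fderiv]
  simp only [smul_apply, sum_apply,
    ContinuousLinearMap.proj_apply, smul_eq_mul, Pi.single_apply, mul_ite, mul_one, mul_zero,
    Finset.sum_ite_eq', Finset.mem_univ, if_true]

theorem Gm_gn (m : ℕ) (hm : 1 ≤ m) (y : Fin m → ℝ) :
    gn (Gm m) y ^ 2 = Real.pi ^ 2 * (1 - W m y) := by
  have hm' : (m : ℝ) ≠ 0 := by positivity
  unfold gn
  rw [Real.sq_sqrt (Finset.sum_nonneg fun _ _ => sq_nonneg _)]
  simp only [Gm_D, mul_pow, inv_pow]
  rw [Real.sq_sqrt (Nat.cast_nonneg m), Real.sq_sqrt (by norm_num)]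
  have e : ∀ j : Fin m, (m : ℝ)⁻¹ * (2 * ((-Real.sin (Real.pi * y j)) ^ 2 * Real.pi ^ 2)) =
      (m : ℝ)⁻¹ * Real.pi ^ 2 - (m : ℝ)⁻¹ * Real.pi ^ 2 * Z (y j) := by
    intro j
    unfold Z
    rw [mul_assoc 2 Real.pi (y j), Real.cos_two_mul, neg_sq, Real.sin_sq]
    ring
  simp only [e]
  rw [Finset.sum_sub_distrib, ← Finset.mul_sum (f := fun j => Z (y j))]
  unfold W
  simp only [Finset.sum_const, Finset.card_univ, Fintype.card_fin, nsmul_eq_mul]
  field_simp

theorem W_var (m : ℕ) (hm : 1 ≤ m) : ∫ y, W m y ^ 2 ∂mu m ≤ 1 / m := by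
  have hm' : (0 : ℝ) < m := by positivity
  have hL : MemLp Z 2 nu := by
    refine MemLp.of_bound Z_cont.aestronglyMeasurable 1 (Eventually.of_forall fun y => ?_)
    rw [Real.norm_eq_abs]
    exact Real.abs_cos_le_one _
  have hv := variance_sum_pi (μ := fun _ : Fin m => nu) (X := fun _ => Z) (fun _ => hL)
  have hZ : Var[Z; nu] ≤ 1 := by
    rw [variance_of_integral_eq_zero Z_cont.measurable.aemeasurable Z_mean]
    calc ∫ y, Z y ^ 2 ∂nu ≤ ∫ y, (1:ℝ) ∂nu := by
          refine integral_mono (int_nu (by have := Z_cont; fun_prop)) (integrable_const _) fun y => ?_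
          have := Real.abs_cos_le_one (2 * Real.pi * y)
          have h2 : |Z y| ≤ 1 := this
          rw [← sq_abs]
          nlinarith [abs_nonneg (Z y)]
      _ = 1 := by simp
  have hmean : ∫ y, (∑ j, fun y : Fin m → ℝ => Z (y j)) y ∂(Measure.pi fun _ : Fin m => nu) = 0 := by
    simp only [Finset.sum_apply]
    rw [integral_finsetSum]
    · refine Finset.sum_eq_zero fun j _ => ?_
      rw [integral_comp_eval (μ := fun _ : Fin m => nu) Z_cont.aestronglyMeasurable]
      exact Z_mean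
    · intro j _
      exact integrable_comp_eval (int_nu Z_cont)
  have hmeas : AEMeasurable (∑ j, fun y : Fin m → ℝ => Z (y j)) (Measure.pi fun _ : Fin m => nu) := by
    refine Continuous.aemeasurable ?_
    have : Continuous fun y : Fin m → ℝ => ∑ j, Z (y j) :=
      continuous_finsetSum _ fun j _ => Z_cont.comp (continuous_apply j)
    convert this using 1
    ext y
    simp
  rw [variance_of_integral_eq_zero hmeas hmean] at hv
  simp only [Finset.sum_apply] at hv
  have e : ∀ y : Fin m → ℝ, W m y ^ 2 = ((m:ℝ)⁻¹) ^ 2 * (∑ j, Z (y j)) ^ 2 := by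
    intro y; unfold W; ring
  simp only [e]
  rw [integral_const_mul, mu_eq, hv]
  simp only [Finset.sum_const, Finset.card_univ, Fintype.card_fin, nsmul_eq_mul]
  rw [inv_pow, one_div]
  calc ((m:ℝ) ^ 2)⁻¹ * (m * Var[Z; nu]) ≤ ((m:ℝ) ^ 2)⁻¹ * (m * 1) := by gcongr
    _ = (m:ℝ)⁻¹ := by field_simp

theorem W_abs (m : ℕ) (hm : 1 ≤ m) : ∫ y, |W m y| ∂mu m ≤ (√m)⁻¹ := by
  have hm' : (0 : ℝ) < m := by positivity
  have hs : 0 < √(m:ℝ) := Real.sqrt_pos.2 hm'
  have hI : ∀ f : (Fin m → ℝ) → ℝ, Continuous f → Integrable f (mu m) := by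
    intro f hf
    exact hf.continuousOn.integrableOn_Icc
  have hW := W_cont m
  have h1 : ∫ y, |W m y| ∂mu m ≤ ∫ y, (√m / 2 * W m y ^ 2 + (√m)⁻¹ / 2) ∂mu m := by
    refine integral_mono (hI _ (by fun_prop)) (hI _ (by fun_prop)) fun y => ?_
    have h2 : 0 ≤ (√m * |W m y| - 1) ^ 2 := sq_nonneg _
    have h3 : √m / 2 * W m y ^ 2 + (√m)⁻¹ / 2 - |W m y| = (√m)⁻¹ / 2 * (√m * |W m y| - 1) ^ 2 := by
      rw [← sq_abs (W m y)]
      field_simp
      ring
    have h4 : 0 ≤ (√m)⁻¹ / 2 * (√m * |W m y| - 1) ^ 2 := by positivity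
    linarith
  refine h1.trans ?_
  rw [integral_add (hI _ (by fun_prop)) (integrable_const _), integral_const_mul]
  have h5 := W_var m hm
  have h6 : √m / 2 * ∫ y, W m y ^ 2 ∂mu m ≤ √m / 2 * (1 / m) := by gcongr
  have h7 : √(m:ℝ) / 2 * (1 / m) = (√m)⁻¹ / 2 := by
    nth_rewrite 2 [← Real.mul_self_sqrt hm'.le]
    field_simp
  simp only [integral_const, probReal_univ, smul_eq_mul, one_mul]
  linarith

end Pool.Agent.H628.Clt
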