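import Mathlib
import Pool.Agent.H194.Cube.P.CltB

set_option autoImplicit false

namespace Pool.Agent.H628.Clt

open MeasureTheory Set Filter Topology ProbabilityTheory
open Pool.Agent.H194.Cube

theorem int_mu {n : ℕ} {f : (Fin n → ℝ) → ℝ} (hf : Continuous f) : Integrable f (mu n) :=
  hf.continuousOn.integrableOn_Icc

theorem K_tendsto {n : ℕ} {h w : (Fin n → ℝ) → ℝ} (hh : Continuous h) (hw : Continuous w)
    {F : ℝ → ℝ} (hF : Continuous F) {M : ℝ} (hM : ∀ t, |F t| ≤ M) :
    Tendsto (fun m => ∫ x, w x * ∫ y, F (h x - Gm m y) ∂mu m ∂mu n) atTop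
      (𝓝 (∫ x, w x * ∫ s, F (h x - s) ∂gaussianReal 0 1 ∂mu n)) := by
  obtain ⟨B, hB⟩ : ∃ B, ∀ x ∈ Icc (0 : Fin n → ℝ) 1, ‖w x‖ ≤ B :=
    isCompact_Icc.exists_bound_of_continuousOn hw.continuousOn
  refine tendsto_integral_of_dominated_convergence (fun _ => B * M) ?_ (integrable_const _) ?_ ?_
  · intro m
    refine hw.aestronglyMeasurable.mul ?_
    have hc : Continuous (fun p : (Fin n → ℝ) × (Fin m → ℝ) => F (h p.1 - Gm m p.2)) := by
      have := Gm_cont m
      fun_prop
    exact (hc.stronglyMeasurable.integral_prod_right (ν := mu m)).aestronglyMeasurable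
  · intro m
    have : ∀ᵐ x ∂mu n, x ∈ Icc (0 : Fin n → ℝ) 1 := ae_restrict_mem measurableSet_Icc
    filter_upwards [this] with x hx
    rw [norm_mul]
    refine mul_le_mul (hB x hx) ?_ (norm_nonneg _) ((norm_nonneg _).trans (hB x hx))
    calc ‖∫ y, F (h x - Gm m y) ∂mu m‖ ≤ M * (mu m).real univ :=
          norm_integral_le_of_norm_le_const (Eventually.of_forall fun y => hM _)
      _ = M := by simp
  · refine Eventually.of_forall fun x => ?_
    refine Tendsto.const_mul _ ?_
    exact clt_tendsto (BoundedContinuousFunction.ofNormedAddCommGroup (fun s => F (h x - s))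
      (by fun_prop) M (fun s => hM _))

theorem split_int {n m : ℕ} {f : (Fin (n + m) → ℝ) → ℝ} (hf : Continuous f) :
    ∫ z, f z ∂mu (n + m) = ∫ x, ∫ y, f (Fin.append x y) ∂mu m ∂mu n := by
  have hi : Integrable
      (f ∘ fun p : (Fin n → ℝ) × (Fin m → ℝ) => (Fin.append p.1 p.2 : Fin (n + m) → ℝ))
      ((mu n).prod (mu m)) :=
    ((append_mp n m).integrable_comp hf.aestronglyMeasurable).2 (int_mu hf)
  rw [← (append_mp n m).map_eq, integral_map (append_mp n m).measurable.aemeasurable
    hf.aestronglyMeasurable]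
  exact integral_prod _ hi

theorem Vs_eq {n : ℕ} {u : (Fin n → ℝ) → ℝ} (hu : Continuous u) (s : ℝ) :
    Vs u s = ∫ z, {z | s < u z}.indicator (fun _ => (1:ℝ)) z ∂mu n := by
  have hm : MeasurableSet {z | s < u z} := measurableSet_lt measurable_const hu.measurable
  rw [integral_indicator hm]
  simp only [integral_const, smul_eq_mul, mul_one, Measure.real, Measure.restrict_apply,
    MeasurableSet.univ, univ_inter]
  unfold Vs mu
  rw [Measure.restrict_apply hm, inter_comm]
  rfl

theorem Vs_le {n : ℕ} {u v : (Fin n → ℝ) → ℝ} (hu : Continuous u) (hv : Continuous v)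
    (hv0 : ∀ z, 0 ≤ v z) (s : ℝ) (huv : ∀ z, s < u z → 1 ≤ v z) : Vs u s ≤ ∫ z, v z ∂mu n := by
  rw [Vs_eq hu]
  have hm : MeasurableSet {z | s < u z} := measurableSet_lt measurable_const hu.measurable
  refine integral_mono ((integrable_const _).indicator hm) (int_mu hv) fun z => ?_
  by_cases hz : s < u z
  · rw [indicator_of_mem (show z ∈ {z | s < u z} from hz)]
    exact huv z hz
  · rw [indicator_of_notMem (show z ∉ {z | s < u z} from hz)]
    exact hv0 z

theorem le_Vs {n : ℕ} {u v : (Fin n → ℝ) → ℝ} (hu : Continuous u) (hv : Continuous v)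
    (hv1 : ∀ z, v z ≤ 1) (s : ℝ) (huv : ∀ z, u z ≤ s → v z ≤ 0) : ∫ z, v z ∂mu n ≤ Vs u s := by
  rw [Vs_eq hu]
  have hm : MeasurableSet {z | s < u z} := measurableSet_lt measurable_const hu.measurable
  refine integral_mono (int_mu hv) ((integrable_const _).indicator hm) fun z => ?_
  by_cases hz : s < u z
  · rw [indicator_of_mem (show z ∈ {z | s < u z} from hz)]
    exact hv1 z
  · rw [indicator_of_notMem (show z ∉ {z | s < u z} from hz)]
    exact huv z (not_lt.1 hz)

/-! ## Gaussian integrals -/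

theorem phi_eq (s : ℝ) : phi s = gaussianPDFReal 0 1 s := by
  unfold phi gaussianPDFReal
  simp only [NNReal.coe_one, mul_one, sub_zero]
  rw [div_eq_inv_mul]

theorem gauss_int (F : ℝ → ℝ) : ∫ s, F s ∂gaussianReal 0 1 = ∫ s, phi s * F s := by
  rw [integral_gaussianReal_eq_integral_smul one_ne_zero]
  simp only [phi_eq, smul_eq_mul]

theorem phi_int : Integrable phi := by
  have := integrable_gaussianPDFReal 0 1
  refine this.congr (Eventually.of_forall fun s => (phi_eq s).symm)

theorem phi_nonneg (s : ℝ) : 0 ≤ phi s := by unfold phi; positivity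

theorem sqrt_two_pi : 1 ≤ √(2 * Real.pi) := by
  rw [Real.one_le_sqrt]
  linarith [Real.pi_gt_three]

theorem phi_le_one (s : ℝ) : phi s ≤ 1 := by
  unfold phi
  rw [div_le_one (by positivity)]
  refine le_trans ?_ sqrt_two_pi
  rw [Real.exp_le_one_iff]
  have := sq_nonneg s
  linarith

theorem phi_deriv (t : ℝ) : HasDerivAt phi (-t * phi t) t := by
  have h1 : HasDerivAt (fun t : ℝ => -t ^ 2 / 2) (-t) t := by
    refine (((hasDerivAt_pow 2 t).neg).div_const 2).congr_deriv ?_
    norm_num
    ring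
  refine ((h1.exp).div_const (√(2 * Real.pi))).congr_deriv ?_
  unfold phi
  ring

theorem phi_lip (a b : ℝ) : |phi a - phi b| ≤ |a - b| := by
  have h : ∀ t ∈ (univ : Set ℝ), ‖deriv phi t‖ ≤ 1 := by
    intro t _
    rw [(phi_deriv t).deriv, Real.norm_eq_abs, abs_mul, abs_neg, abs_of_nonneg (phi_nonneg t)]
    unfold phi
    rw [← mul_div_assoc, div_le_one (by positivity)]
    refine le_trans ?_ sqrt_two_pi
    have h1 : t ^ 2 / 2 + 1 ≤ Real.exp (t ^ 2 / 2) := Real.add_one_le_exp _
    have h2 : |t| ≤ t ^ 2 / 2 + 1 := by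
      rw [← sq_abs]; nlinarith [sq_nonneg (|t| - 1)]
    have h3 : Real.exp (-t ^ 2 / 2) * Real.exp (t ^ 2 / 2) = 1 := by
      rw [← Real.exp_add]; ring_nf; exact Real.exp_zero
    calc |t| * Real.exp (-t ^ 2 / 2) ≤ Real.exp (t ^ 2 / 2) * Real.exp (-t ^ 2 / 2) := by
          gcongr; exact h2.trans h1
      _ = 1 := by rw [mul_comm]; exact h3
  have := Convex.norm_image_sub_le_of_norm_deriv_le (𝕜 := ℝ) (f := phi) (C := 1)
    (fun t _ => (phi_deriv t).differentiableAt) h convex_univ (mem_univ b) (mem_univ a)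
  simpa using this

theorem phi_cont : Continuous phi :=
  continuous_iff_continuousAt.2 fun t => (phi_deriv t).continuousAt

theorem gth_le (t : ℝ) {ε : ℝ} (hε : 0 < ε) :
    ∫ s, th ((t - s) / ε) ∂gaussianReal 0 1 ≤ Phi t := by
  rw [gauss_int]
  unfold Phi
  rw [← integral_indicator measurableSet_Iic]
  have hi : Integrable (fun s => phi s * th ((t - s) / ε)) := by
    refine phi_int.mul_bdd (c := 1) ?_ (Eventually.of_forall fun s => ?_)
    · have := th_cont; exact (by fun_prop : Continuous fun s => th ((t - s) / ε)).aestronglyMeasurable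
    · rw [Real.norm_eq_abs, abs_of_nonneg (th_mem _).1]; exact (th_mem _).2
  refine integral_mono hi (phi_int.indicator measurableSet_Iic) fun s => ?_
  by_cases hs : s ≤ t
  · rw [indicator_of_mem (mem_Iic.2 hs)]
    exact mul_le_of_le_one_right (phi_nonneg s) (th_mem _).2
  · rw [indicator_of_notMem (by simpa using hs)]
    have : th ((t - s) / ε) = 0 :=
      th_nonpos (div_nonpos_of_nonpos_of_nonneg (by linarith [not_le.1 hs]) hε.le)
    beta_reduce
    rw [this, mul_zero]

theorem le_gth (t : ℝ) {ε : ℝ} (hε : 0 < ε) :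
    Phi (t - ε) ≤ ∫ s, th ((t - s) / ε) ∂gaussianReal 0 1 := by
  rw [gauss_int]
  unfold Phi
  rw [← integral_indicator measurableSet_Iic]
  have hi : Integrable (fun s => phi s * th ((t - s) / ε)) := by
    refine phi_int.mul_bdd (c := 1) ?_ (Eventually.of_forall fun s => ?_)
    · have := th_cont; exact (by fun_prop : Continuous fun s => th ((t - s) / ε)).aestronglyMeasurable
    · rw [Real.norm_eq_abs, abs_of_nonneg (th_mem _).1]; exact (th_mem _).2
  refine integral_mono (phi_int.indicator measurableSet_Iic) hi fun s => ?_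
  by_cases hs : s ≤ t - ε
  · rw [indicator_of_mem (mem_Iic.2 hs)]
    have : th ((t - s) / ε) = 1 := th_ge (by rw [le_div_iff₀ hε]; linarith)
    beta_reduce
    rw [this, mul_one]
  · rw [indicator_of_notMem (by simpa using hs)]
    exact mul_nonneg (phi_nonneg s) (th_mem _).1

theorem rho_total : ∫ s, rho s = 1 := by
  rw [← setIntegral_eq_integral_of_forall_compl_eq_zero (s := Ioc 0 1),
    ← intervalIntegral.integral_of_le zero_le_one]
  · exact th_one
  · intro s hs
    rw [mem_Ioc, not_and_or, not_lt, not_le] at hs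
    exact rho_zero (hs.imp id le_of_lt)

theorem rho_eps_int (t : ℝ) {ε : ℝ} (hε : 0 < ε) : Integrable (fun s => rho ((t - s) / ε) / ε) := by
  refine Continuous.integrable_of_hasCompactSupport (by have := rho_cont; fun_prop) ?_
  refine HasCompactSupport.intro (isCompact_Icc (a := t - ε) (b := t)) fun s hs => ?_
  rw [mem_Icc, not_and_or, not_le, not_le] at hs
  rw [rho_zero, zero_div]
  rcases hs with h | h
  · right; rw [le_div_iff₀ hε]; linarith
  · left; exact div_nonpos_of_nonpos_of_nonneg (by linarith) hε.le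

theorem rho_eps_total (t : ℝ) {ε : ℝ} (hε : 0 < ε) : ∫ s, rho ((t - s) / ε) / ε = 1 := by
  rw [integral_sub_left_eq_self (fun s => rho (s / ε) / ε) volume t, integral_div,
    Measure.integral_comp_div, rho_total, abs_of_pos hε]
  simp [hε.ne']

theorem grho_le (t : ℝ) {ε : ℝ} (hε : 0 < ε) :
    ∫ s, rho ((t - s) / ε) / ε ∂gaussianReal 0 1 ≤ phi t + ε := by
  rw [gauss_int]
  have h1 : ∫ s, (phi t + ε) * (rho ((t - s) / ε) / ε) = phi t + ε := by
    rw [integral_const_mul, rho_eps_total t hε, mul_one]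
  rw [← h1]
  refine integral_mono ?_ ((rho_eps_int t hε).const_mul _) fun s => ?_
  · refine (rho_eps_int t hε).bdd_mul (c := 1) phi_cont.aestronglyMeasurable
      (Eventually.of_forall fun s => ?_)
    rw [Real.norm_eq_abs, abs_of_nonneg (phi_nonneg s)]
    exact phi_le_one s
  · by_cases hs : 0 < (t - s) / ε ∧ (t - s) / ε < 1
    · have h2 : 0 ≤ rho ((t - s) / ε) / ε := div_nonneg (rho_nonneg _) hε.le
      refine mul_le_mul_of_nonneg_right ?_ h2
      have h3 := phi_lip s t
      have h4 : |s - t| ≤ ε := by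
        rw [abs_sub_comm, abs_le]
        rw [div_lt_one hε] at hs
        have := (div_pos_iff_of_pos_right hε).1 hs.1
        constructor <;> linarith [hs.2]
      linarith [le_abs_self (phi s - phi t)]
    · rw [not_and_or, not_lt, not_lt] at hs
      beta_reduce
      rw [rho_zero hs]
      simp

end Pool.Agent.H628.Clt
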