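import Mathlib
import Pool.Agent.H194.Cube.P.CltC

/-!
# `S_clt` (task 5269): the central limit lift
-/

set_option autoImplicit false

namespace Pool.Agent.H628.Clt

open MeasureTheory Set Filter Topology ProbabilityTheory
open Pool.Agent.H194.Cube

theorem Phi_lip (hG : GaussFacts) (a b : ℝ) : |Phi a - Phi b| ≤ |a - b| := by
  have h : ∀ t ∈ (univ : Set ℝ), ‖deriv Phi t‖ ≤ 1 := by
    intro t _
    rw [(hG.deriv t).deriv, Real.norm_eq_abs, abs_of_nonneg (phi_nonneg t)]
    exact phi_le_one t
  have := Convex.norm_image_sub_le_of_norm_deriv_le (𝕜 := ℝ) (f := Phi) (C := 1)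
    (fun t _ => (hG.deriv t).differentiableAt) h convex_univ (mem_univ b) (mem_univ a)
  simpa using this

theorem Phi_cont (hG : GaussFacts) : Continuous Phi :=
  continuous_iff_continuousAt.2 fun t => (hG.deriv t).continuousAt

theorem gn_cont {n : ℕ} {h : (Fin n → ℝ) → ℝ} (hh : ContDiff ℝ 1 h) : Continuous (gn h) := by
  unfold gn D
  refine Real.continuous_sqrt.comp (continuous_finsetSum _ fun i _ => ?_)
  exact ((hh.continuous_fderiv one_ne_zero).clm_apply continuous_const).pow 2

theorem gint {n : ℕ} {h : (Fin n → ℝ) → ℝ} (hh : Continuous h)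
    {F : ℝ → ℝ} (hF : Continuous F) {M : ℝ} (hM : ∀ t, |F t| ≤ M) :
    Integrable (fun x => ∫ s, F (h x - s) ∂gaussianReal 0 1) (mu n) := by
  have hc : Continuous (fun p : (Fin n → ℝ) × ℝ => F (h p.1 - p.2)) := by fun_prop
  refine Integrable.of_bound
    (hc.stronglyMeasurable.integral_prod_right (ν := gaussianReal 0 1)).aestronglyMeasurable M
    (Eventually.of_forall fun x => ?_)
  calc ‖∫ s, F (h x - s) ∂gaussianReal 0 1‖ ≤ M * (gaussianReal 0 1).real univ :=
        norm_integral_le_of_norm_le_const (Eventually.of_forall fun y => hM _)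
    _ = M := by simp

/-- the average of `F (h - Gm)` -/
noncomputable def K {n : ℕ} (h w : (Fin n → ℝ) → ℝ) (F : ℝ → ℝ) (m : ℕ) : ℝ :=
  ∫ x, w x * ∫ y, F (h x - Gm m y) ∂mu m ∂mu n

/-- the Gaussian average of `F (h - N)` -/
noncomputable def Kg {n : ℕ} (h w : (Fin n → ℝ) → ℝ) (F : ℝ → ℝ) : ℝ :=
  ∫ x, w x * ∫ s, F (h x - s) ∂gaussianReal 0 1 ∂mu n

theorem K_split {n m : ℕ} {h w : (Fin n → ℝ) → ℝ} (hh : Continuous h) (hw : Continuous w)
    {F : ℝ → ℝ} (hF : Continuous F) :
    ∫ z, w (p1 n m z) * F (h (p1 n m z) - Gm m (p2 n m z)) ∂mu (n + m) = K h w F m := by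
  have hg := Gm_cont m
  have h1 := (p1 n m).continuous
  have h2 := (p2 n m).continuous
  rw [split_int (by fun_prop)]
  simp only [p1_append, p2_append, integral_const_mul]
  rfl

theorem th_abs (t : ℝ) : |th t| ≤ 1 := by rw [abs_of_nonneg (th_mem t).1]; exact (th_mem t).2

/-- one application of `Hyp` -/
theorem step {P H C lam : ℝ} (hyp : Hyp P H C lam) (hC : 0 ≤ C) {n : ℕ}
    {h : (Fin n → ℝ) → ℝ} (hn : 1 ≤ n) (hh : ContDiff ℝ 1 h) {ε : ℝ} (hε : 0 < ε) {m : ℕ}
    (hm : 1 ≤ m) :
    K h (fun _ => 1) (fun t => th ((t - ε) / ε)) m ≤ K h (fun _ => 1) (fun t => th ((t + ε) / ε)) m ∧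
    P + H * (K h (fun _ => 1) (fun t => th (t / ε)) m - lam) -
      C * ((K h (fun _ => 1) (fun t => th ((t + ε) / ε)) m -
        K h (fun _ => 1) (fun t => th ((t - ε) / ε)) m) +
        |K h (fun _ => 1) (fun t => th (t / ε)) m - lam|) ^ 2 ≤
    K h (fun x => √(Real.pi ^ 2 + gn h x ^ 2)) (fun t => rho (t / ε) / ε) m +
      3 / 2 / ε * Real.pi * (√m)⁻¹ := by
  have hgc := Gm_cont m
  have h1 := (p1 n m).continuous
  have h2 := (p2 n m).continuous
  have hhc := hh.continuous
  have hthc := th_cont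
  have hrc := rho_cont
  have hgn := gn_cont hh
  have hgG := gn_cont (Gm_smooth m)
  have hWc := W_cont m
  set u := uf h m ε with hu
  have huc : Continuous u := (uf_smooth hh m ε).continuous
  set a := K h (fun _ => 1) (fun t => th ((t - ε) / ε)) m with ha
  set b := K h (fun _ => 1) (fun t => th ((t + ε) / ε)) m with hb
  set c := K h (fun _ => 1) (fun t => th (t / ε)) m with hc
  have ec : ∫ z, u z ∂mu (n + m) = c := by
    rw [hc, ← K_split hhc continuous_const (by fun_prop)]
    simp only [one_mul]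
    rfl
  have ea : ∫ z, th ((h (p1 n m z) - Gm m (p2 n m z) - ε) / ε) ∂mu (n + m) = a := by
    rw [ha, ← K_split hhc continuous_const (by fun_prop)]
    simp only [one_mul]
  have eb : ∫ z, th ((h (p1 n m z) - Gm m (p2 n m z) + ε) / ε) ∂mu (n + m) = b := by
    rw [hb, ← K_split hhc continuous_const (by fun_prop)]
    simp only [one_mul]
  -- volumes of superlevel sets
  have hVb : ∀ s : ℝ, 0 ≤ s → Vs u s ≤ b := by
    intro s hs
    rw [← eb]
    refine Vs_le huc (by fun_prop) (fun z => (th_mem _).1) s fun z hz => ?_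
    have h3 : 0 < h (p1 n m z) - Gm m (p2 n m z) := by
      by_contra h3
      rw [not_lt] at h3
      have : u z = 0 := th_nonpos (div_nonpos_of_nonpos_of_nonneg h3 hε.le)
      linarith
    rw [th_ge (by rw [le_div_iff₀ hε]; linarith)]
  have hVa : ∀ s : ℝ, s < 1 → a ≤ Vs u s := by
    intro s hs
    rw [← ea]
    refine le_Vs huc (by fun_prop) (fun z => (th_mem _).2) s fun z hz => ?_
    have h3 : h (p1 n m z) - Gm m (p2 n m z) < ε := by
      by_contra h3
      rw [not_lt] at h3
      have : u z = 1 := th_ge (by rw [le_div_iff₀ hε]; linarith)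
      linarith
    rw [th_nonpos (div_nonpos_of_nonpos_of_nonneg (by linarith) hε.le)]
  have hab : a ≤ b := (hVa (1 / 2) (by norm_num)).trans (hVb (1 / 2) (by norm_num))
  refine ⟨hab, ?_⟩
  have hac : a ≤ c := by
    rw [← ea, ← ec]
    refine integral_mono (int_mu (by fun_prop)) (int_mu huc) fun z => ?_
    exact th_mono (div_le_div_of_nonneg_right (by linarith) hε.le)
  have hcb : c ≤ b := by
    rw [← eb, ← ec]
    refine integral_mono (int_mu huc) (int_mu (by fun_prop)) fun z => ?_
    exact th_mono (div_le_div_of_nonneg_right (by linarith) hε.le)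
  have hGl : G lam u ≤ ((b - a) + |c - lam|) ^ 2 := by
    unfold G
    have h3 : ∀ᵐ s : ℝ, s ∈ Set.uIoc (0:ℝ) 1 → ‖(Vs u s - lam) ^ 2‖ ≤ ((b - a) + |c - lam|) ^ 2 := by
      have h4 : ∀ᵐ s : ℝ, s ≠ 1 := by
        simp [ae_iff, measure_singleton]
      filter_upwards [h4] with s hs hs'
      rw [uIoc_of_le zero_le_one] at hs'
      have hs1 : s < 1 := lt_of_le_of_ne hs'.2 hs
      rw [Real.norm_eq_abs, abs_of_nonneg (sq_nonneg _), ← sq_abs (Vs u s - lam)]
      have h5 := hVb s hs'.1.le
      have h6 := hVa s hs1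
      refine pow_le_pow_left₀ (abs_nonneg _) ?_ 2
      calc |Vs u s - lam| = |(Vs u s - c) + (c - lam)| := by ring_nf
        _ ≤ |Vs u s - c| + |c - lam| := abs_add_le _ _
        _ ≤ (b - a) + |c - lam| := by
          gcongr
          rw [abs_le]
          constructor <;> linarith
    have h7 := intervalIntegral.norm_integral_le_of_norm_le_const_ae h3
    rw [sub_zero, abs_one, mul_one] at h7
    exact (le_abs_self _).trans h7
  -- total variation
  have hTV : TV u ≤ K h (fun x => √(Real.pi ^ 2 + gn h x ^ 2)) (fun t => rho (t / ε) / ε) m +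
      3 / 2 / ε * Real.pi * (√m)⁻¹ := by
    have e1 : TV u = ∫ z, gn u z ∂mu (n + m) := rfl
    have e2 : ∀ z, gn u z ≤ √(Real.pi ^ 2 + gn h (p1 n m z) ^ 2) *
        (rho ((h (p1 n m z) - Gm m (p2 n m z)) / ε) / ε) +
        3 / 2 / ε * Real.pi * |W m (p2 n m z)| := by
      intro z
      rw [hu, uf_gn hh m hε, Gm_gn m hm]
      have hr0 : 0 ≤ rho ((h (p1 n m z) - Gm m (p2 n m z)) / ε) / ε :=
        div_nonneg (rho_nonneg _) hε.le
      have hr1 : rho ((h (p1 n m z) - Gm m (p2 n m z)) / ε) / ε ≤ 3 / 2 / ε := by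
        gcongr
        exact rho_le _
      have h3 : √(gn h (p1 n m z) ^ 2 + Real.pi ^ 2 * (1 - W m (p2 n m z))) ≤
          √(Real.pi ^ 2 + gn h (p1 n m z) ^ 2) + Real.pi * |W m (p2 n m z)| := by
        have hpi := Real.pi_pos
        have hR : Real.pi ≤ √(Real.pi ^ 2 + gn h (p1 n m z) ^ 2) :=
          Real.le_sqrt_of_sq_le (by nlinarith [sq_nonneg (gn h (p1 n m z))])
        have hR2 := Real.sq_sqrt (show 0 ≤ Real.pi ^ 2 + gn h (p1 n m z) ^ 2 by positivity)
        refine Real.sqrt_le_iff.2 ⟨by positivity, ?_⟩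
        have h4 : Real.pi * |W m (p2 n m z)| * Real.pi ≤
            Real.pi * |W m (p2 n m z)| * √(Real.pi ^ 2 + gn h (p1 n m z) ^ 2) := by gcongr
        have h5 := neg_abs_le (W m (p2 n m z))
        have h6 : 0 ≤ Real.pi ^ 2 * (W m (p2 n m z) + |W m (p2 n m z)|) :=
          mul_nonneg (by positivity) (by linarith)
        have h7 : 0 ≤ Real.pi * |W m (p2 n m z)| * Real.pi := by positivity
        nlinarith [sq_nonneg (Real.pi * |W m (p2 n m z)|)]
      calc _ ≤ rho ((h (p1 n m z) - Gm m (p2 n m z)) / ε) / ε *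
            (√(Real.pi ^ 2 + gn h (p1 n m z) ^ 2) + Real.pi * |W m (p2 n m z)|) := by gcongr
        _ = √(Real.pi ^ 2 + gn h (p1 n m z) ^ 2) *
            (rho ((h (p1 n m z) - Gm m (p2 n m z)) / ε) / ε) +
            rho ((h (p1 n m z) - Gm m (p2 n m z)) / ε) / ε * (Real.pi * |W m (p2 n m z)|) := by ring
        _ ≤ √(Real.pi ^ 2 + gn h (p1 n m z) ^ 2) *
            (rho ((h (p1 n m z) - Gm m (p2 n m z)) / ε) / ε) +
            3 / 2 / ε * (Real.pi * |W m (p2 n m z)|) := by gcongr
        _ = _ := by ring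
    rw [e1]
    have hI1 : Integrable (fun z => √(Real.pi ^ 2 + gn h (p1 n m z) ^ 2) *
        (rho ((h (p1 n m z) - Gm m (p2 n m z)) / ε) / ε)) (mu (n + m)) := int_mu (by fun_prop)
    have hI2 : Integrable (fun z => 3 / 2 / ε * Real.pi * |W m (p2 n m z)|) (mu (n + m)) :=
      int_mu (by fun_prop)
    refine (integral_mono (int_mu (gn_cont (uf_smooth hh m ε))) (hI1.add hI2) e2).trans ?_
    simp only [Pi.add_apply]
    rw [integral_add hI1 hI2]
    have e3 := K_split (n := n) (m := m) (h := h) (w := fun x => √(Real.pi ^ 2 + gn h x ^ 2))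
      hhc (by fun_prop) (F := fun t => rho (t / ε) / ε) (by fun_prop)
    beta_reduce at e3
    rw [e3]
    gcongr
    rw [integral_const_mul, split_int (by fun_prop)]
    simp only [p2_append]
    have h8 := W_abs m hm
    simp only [integral_const, probReal_univ, smul_eq_mul, one_mul]
    gcongr
  have h9 := hyp (n + m) u (by omega) (uf_smooth hh m ε) (fun x => th_mem _)
  have e4 : ∫ x in Icc (0 : Fin (n + m) → ℝ) 1, u x = c := ec
  rw [e4] at h9
  have h10 : C * G lam u ≤ C * ((b - a) + |c - lam|) ^ 2 := by gcongr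
  linarith

/-- the limit `m → ∞` -/
theorem step2 {P H C lam : ℝ} (hyp : Hyp P H C lam) (hC : 0 ≤ C) {n : ℕ}
    {h : (Fin n → ℝ) → ℝ} (hn : 1 ≤ n) (hh : ContDiff ℝ 1 h) {ε : ℝ} (hε : 0 < ε) :
    Kg h (fun _ => 1) (fun t => th ((t - ε) / ε)) ≤ Kg h (fun _ => 1) (fun t => th ((t + ε) / ε)) ∧
    P + H * (Kg h (fun _ => 1) (fun t => th (t / ε)) - lam) -
      C * ((Kg h (fun _ => 1) (fun t => th ((t + ε) / ε)) -
        Kg h (fun _ => 1) (fun t => th ((t - ε) / ε))) +
        |Kg h (fun _ => 1) (fun t => th (t / ε)) - lam|) ^ 2 ≤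
    Kg h (fun x => √(Real.pi ^ 2 + gn h x ^ 2)) (fun t => rho (t / ε) / ε) := by
  have hthc := th_cont
  have hrc := rho_cont
  have hgn := gn_cont hh
  have ha := K_tendsto (w := fun _ => 1) hh.continuous continuous_const
    (F := fun t => th ((t - ε) / ε)) (by fun_prop) (fun t => th_abs _)
  have hb := K_tendsto (w := fun _ => 1) hh.continuous continuous_const
    (F := fun t => th ((t + ε) / ε)) (by fun_prop) (fun t => th_abs _)
  have hc := K_tendsto (w := fun _ => 1) hh.continuous continuous_const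
    (F := fun t => th (t / ε)) (by fun_prop) (fun t => th_abs _)
  have hd := K_tendsto (w := fun x => √(Real.pi ^ 2 + gn h x ^ 2)) hh.continuous (by fun_prop)
    (F := fun t => rho (t / ε) / ε) (by fun_prop) (M := 3 / 2 / ε) (fun t => by
      rw [abs_of_nonneg (div_nonneg (rho_nonneg _) hε.le)]
      gcongr
      exact rho_le _)
  have he : Tendsto (fun m : ℕ => (√(m:ℝ))⁻¹) atTop (𝓝 0) :=
    tendsto_inv_atTop_zero.comp (Real.tendsto_sqrt_atTop.comp tendsto_natCast_atTop_atTop)
  constructor
  · refine le_of_tendsto_of_tendsto ha hb ?_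
    filter_upwards [eventually_ge_atTop 1] with m hm
    exact (step hyp hC hn hh hε hm).1
  · have hL := ((((hc.sub_const lam).const_mul H).const_add P).sub
      ((((hb.sub ha).add ((hc.sub_const lam).abs)).pow 2).const_mul C))
    have hR := hd.add (he.const_mul (3 / 2 / ε * Real.pi))
    rw [mul_zero, add_zero] at hR
    refine le_of_tendsto_of_tendsto hL hR ?_
    filter_upwards [eventually_ge_atTop 1] with m hm
    exact (step hyp hC hn hh hε hm).2

/-- **The central limit lift.** -/
theorem clt (hG : GaussFacts) : S_clt := by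
  intro P H C lam hyp hH hC n h hn hh
  have hgn := gn_cont hh
  have hPc := Phi_cont hG
  have hhc := hh.continuous
  have hpc := phi_cont
  have hthc := th_cont
  have hrc := rho_cont
  set B := ∫ x in Icc (0 : Fin n → ℝ) 1, Phi (h x) with hB
  set I := ∫ x in Icc (0 : Fin n → ℝ) 1, phi (h x) * √(Real.pi ^ 2 + gn h x ^ 2) with hI
  set w : (Fin n → ℝ) → ℝ := fun x => √(Real.pi ^ 2 + gn h x ^ 2) with hw
  have hwc : Continuous w := by fun_prop
  set Wt := ∫ x, w x ∂mu n with hWt
  have hB' : B = ∫ x, Phi (h x) ∂mu n := rfl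
  have hPi : Integrable (fun x => Phi (h x)) (mu n) := int_mu (by fun_prop)
  have hsh : ∀ r : ℝ, ∫ x, (Phi (h x) + r) ∂mu n = B + r := by
    intro r
    rw [integral_add hPi (integrable_const _), hB']
    simp
  have key : ∀ ε : ℝ, 0 < ε →
      P + H * (B - ε - lam) - C * (4 * ε + |B - lam|) ^ 2 ≤ I + ε * Wt := by
    intro ε hε
    obtain ⟨h1, h2⟩ := step2 hyp hC hn hh hε
    set a := Kg h (fun _ => 1) (fun t => th ((t - ε) / ε)) with ha
    set b := Kg h (fun _ => 1) (fun t => th ((t + ε) / ε)) with hb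
    set c := Kg h (fun _ => 1) (fun t => th (t / ε)) with hc
    have hc1 : c ≤ B := by
      rw [hB', hc]
      unfold Kg
      simp only [one_mul]
      exact integral_mono (gint hhc (F := fun t => th (t / ε)) (by fun_prop) fun t => th_abs _) hPi
        fun x => gth_le (h x) hε
    have hc2 : B - ε ≤ c := by
      rw [sub_eq_add_neg, ← hsh, hc]
      unfold Kg
      simp only [one_mul]
      refine integral_mono (hPi.add (integrable_const _))
        (gint hhc (F := fun t => th (t / ε)) (by fun_prop) fun t => th_abs _) fun x => ?_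
      have h3 := le_gth (h x) hε
      have h4 := Phi_lip hG (h x) (h x - ε)
      rw [sub_sub_cancel, abs_of_pos hε] at h4
      have h5 := le_abs_self (Phi (h x) - Phi (h x - ε))
      beta_reduce
      linarith
    have hb1 : b ≤ B + ε := by
      rw [← hsh, hb]
      unfold Kg
      simp only [one_mul]
      refine integral_mono (gint hhc (F := fun t => th ((t + ε) / ε)) (by fun_prop) fun t => th_abs _)
        (hPi.add (integrable_const _)) fun x => ?_
      have h3 := gth_le (h x + ε) hε
      have h4 := Phi_lip hG (h x + ε) (h x)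
      rw [add_sub_cancel_left, abs_of_pos hε] at h4
      have h5 := le_abs_self (Phi (h x + ε) - Phi (h x))
      have h6 : ∀ s : ℝ, h x - s + ε = h x + ε - s := fun s => by ring
      simp only [h6]
      linarith
    have ha1 : B - 2 * ε ≤ a := by
      rw [sub_eq_add_neg, ← hsh, ha]
      unfold Kg
      simp only [one_mul]
      refine integral_mono (hPi.add (integrable_const _))
        (gint hhc (F := fun t => th ((t - ε) / ε)) (by fun_prop) fun t => th_abs _) fun x => ?_
      have h3 := le_gth (h x - ε) hε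
      have h4 := Phi_lip hG (h x) (h x - ε - ε)
      have h7 : h x - (h x - ε - ε) = 2 * ε := by ring
      rw [h7, abs_of_pos (show (0:ℝ) < 2 * ε by positivity)] at h4
      have h5 := le_abs_self (Phi (h x) - Phi (h x - ε - ε))
      have h6 : ∀ s : ℝ, h x - s - ε = h x - ε - s := fun s => by ring
      simp only [h6]
      linarith
    have hK : Kg h w (fun t => rho (t / ε) / ε) ≤ I + ε * Wt := by
      have e1 : I + ε * Wt = ∫ x, w x * (phi (h x) + ε) ∂mu n := by
        have e2 : ∀ x, w x * (phi (h x) + ε) = phi (h x) * w x + ε * w x := fun x => by ring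
        simp only [e2]
        rw [integral_add (int_mu (by fun_prop)) (int_mu (by fun_prop)), integral_const_mul]
        rfl
      rw [e1]
      unfold Kg
      refine integral_mono ?_ (int_mu (by fun_prop)) fun x => ?_
      · obtain ⟨M, hM⟩ : ∃ B, ∀ x ∈ Icc (0 : Fin n → ℝ) 1, ‖w x‖ ≤ B :=
          isCompact_Icc.exists_bound_of_continuousOn hwc.continuousOn
        refine (gint hhc (F := fun t => rho (t / ε) / ε) (by fun_prop) (M := 3 / 2 / ε)
          (fun t => ?_)).bdd_mul (c := M) hwc.aestronglyMeasurable ?_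
        · rw [abs_of_nonneg (div_nonneg (rho_nonneg _) hε.le)]
          gcongr
          exact rho_le _
        · exact (ae_restrict_mem measurableSet_Icc).mono fun x hx => hM x hx
      · beta_reduce
        gcongr
        exact grho_le (h x) hε
    have h3 : |c - lam| ≤ |B - lam| + ε := by
      calc |c - lam| = |(B - lam) + (c - B)| := by ring_nf
        _ ≤ |B - lam| + |c - B| := abs_add_le _ _
        _ ≤ |B - lam| + ε := by
          gcongr
          rw [abs_le]
          constructor <;> linarith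
    have h4 : ((b - a) + |c - lam|) ^ 2 ≤ (4 * ε + |B - lam|) ^ 2 := by
      refine pow_le_pow_left₀ (by have := abs_nonneg (c - lam); linarith) ?_ 2
      linarith
    have h5 : C * ((b - a) + |c - lam|) ^ 2 ≤ C * (4 * ε + |B - lam|) ^ 2 := by gcongr
    have h6 : H * (B - ε - lam) ≤ H * (c - lam) := by gcongr
    linarith
  have hL : Tendsto (fun ε : ℝ => P + H * (B - ε - lam) - C * (4 * ε + |B - lam|) ^ 2)
      (𝓝[>] 0) (𝓝 (P + H * (B - 0 - lam) - C * (4 * 0 + |B - lam|) ^ 2)) :=
    ((by fun_prop : Continuous fun ε : ℝ => P + H * (B - ε - lam) - C * (4 * ε + |B - lam|) ^ 2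
      ).tendsto 0).mono_left nhdsWithin_le_nhds
  have hR : Tendsto (fun ε : ℝ => I + ε * Wt) (𝓝[>] 0) (𝓝 (I + 0 * Wt)) :=
    ((by fun_prop : Continuous fun ε : ℝ => I + ε * Wt).tendsto 0).mono_left nhdsWithin_le_nhds
  have hfin := le_of_tendsto_of_tendsto hL hR (by
    filter_upwards [self_mem_nhdsWithin] with ε hε
    exact key ε hε)
  rw [sub_zero, mul_zero, zero_add, zero_mul, add_zero, sq_abs] at hfin
  exact hfin

end Pool.Agent.H628.Clt
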