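import Pool.Agent.H194.Cube.Defs

/-!
# CUBE PROFILE (helper194): the coarea inequality for `C¹` functions (helper404)
-/

set_option autoImplicit false

namespace Pool.Agent.H404.Cube

open MeasureTheory Set Filter Topology
open Pool.Agent.H194.Cube

noncomputable section

/-- the cutoff of the values -/
def psi (k : ℕ) (s t : ℝ) : ℝ := Real.smoothTransition (((k : ℝ) + 1) * (t - s))

/-- its derivative -/
def dpsi (k : ℕ) (s t : ℝ) : ℝ :=
  ((k : ℝ) + 1) * deriv Real.smoothTransition (((k : ℝ) + 1) * (t - s))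

theorem st_diff : Differentiable ℝ Real.smoothTransition :=
  (Real.smoothTransition.contDiff (n := 1)).differentiable (by norm_num)

theorem st_cont : Continuous (deriv Real.smoothTransition) :=
  (Real.smoothTransition.contDiff (n := 1)).continuous_deriv (by norm_num)

theorem st_nonneg (t : ℝ) : 0 ≤ deriv Real.smoothTransition t :=
  Real.smoothTransition.monotone.deriv_nonneg

theorem psi_deriv (k : ℕ) (s t : ℝ) : HasDerivAt (psi k s) (dpsi k s t) t := by
  have h1 : HasDerivAt (fun t : ℝ => ((k : ℝ) + 1) * (t - s)) (((k : ℝ) + 1) * 1) t :=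
    ((hasDerivAt_id t).sub_const s).const_mul _
  have h2 := (st_diff (((k : ℝ) + 1) * (t - s))).hasDerivAt.comp t h1
  rw [mul_one, mul_comm] at h2
  exact h2

theorem psi_deriv_s (k : ℕ) (s t : ℝ) : HasDerivAt (fun s => -psi k s t) (dpsi k s t) s := by
  have h1 : HasDerivAt (fun s : ℝ => ((k : ℝ) + 1) * (t - s)) (((k : ℝ) + 1) * -1) s :=
    ((hasDerivAt_id s).const_sub t).const_mul _
  have h2 := ((st_diff (((k : ℝ) + 1) * (t - s))).hasDerivAt.comp s h1).neg
  have e : -(deriv Real.smoothTransition (((k : ℝ) + 1) * (t - s)) * (((k : ℝ) + 1) * -1)) =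
      dpsi k s t := by
    unfold dpsi; ring
  rw [e] at h2
  exact h2

theorem dpsi_nonneg (k : ℕ) (s t : ℝ) : 0 ≤ dpsi k s t :=
  mul_nonneg (by positivity) (st_nonneg _)

theorem dpsi_cont (k : ℕ) : Continuous (fun p : ℝ × ℝ => dpsi k p.1 p.2) := by
  unfold dpsi
  exact continuous_const.mul (st_cont.comp (continuous_const.mul (continuous_snd.sub continuous_fst)))

theorem psi_contDiff (k : ℕ) (s : ℝ) : ContDiff ℝ 1 (psi k s) := by
  unfold psi
  exact (Real.smoothTransition.contDiff (n := 1)).comp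
    (contDiff_const.mul (contDiff_id.sub contDiff_const))

theorem psi_tendsto (s t : ℝ) :
    Tendsto (fun k : ℕ => psi k s t) atTop (𝓝 (if s < t then 1 else 0)) := by
  split_ifs with h
  · refine tendsto_const_nhds.congr' ?_
    have h1 : Tendsto (fun k : ℕ => ((k : ℝ) + 1) * (t - s)) atTop atTop :=
      (tendsto_atTop_add_const_right _ _ tendsto_natCast_atTop_atTop).atTop_mul_const
        (sub_pos.2 h)
    filter_upwards [h1.eventually_ge_atTop 1] with k hk
    exact (Real.smoothTransition.one_of_one_le hk).symm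
  · refine tendsto_const_nhds.congr fun k => ?_
    push Not at h
    refine (Real.smoothTransition.zero_of_nonpos ?_).symm
    exact mul_nonpos_of_nonneg_of_nonpos (by positivity) (by linarith)

theorem lint_dpsi (k : ℕ) (t : ℝ) :
    ∫⁻ s in Icc (0 : ℝ) 1, ENNReal.ofReal (dpsi k s t) ≤ 1 := by
  have hc : Continuous (fun s : ℝ => dpsi k s t) :=
    (dpsi_cont k).comp (continuous_id.prodMk continuous_const)
  have h1 : ∫ s in (0 : ℝ)..1, dpsi k s t = -psi k 1 t - -psi k 0 t :=
    intervalIntegral.integral_eq_sub_of_hasDerivAt (fun s _ => psi_deriv_s k s t)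
      (hc.intervalIntegrable _ _)
  rw [← ofReal_integral_eq_lintegral_ofReal hc.continuousOn.integrableOn_Icc
    (Eventually.of_forall fun s => dpsi_nonneg k s t), integral_Icc_eq_integral_Ioc,
    ← intervalIntegral.integral_of_le zero_le_one, h1]
  have h2 : 0 ≤ psi k 1 t := Real.smoothTransition.nonneg _
  have h3 : psi k 0 t ≤ 1 := Real.smoothTransition.le_one _
  calc ENNReal.ofReal (-psi k 1 t - -psi k 0 t) ≤ ENNReal.ofReal 1 :=
        ENNReal.ofReal_le_ofReal (by linarith)
    _ = 1 := ENNReal.ofReal_one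

section

variable {d : ℕ}

/-- the open cube -/
def Q (d : ℕ) : Set (Fin d → ℝ) := {x | ∀ i, x i ∈ Ioo (0 : ℝ) 1}

/-- divergence -/
def dv (φ : (Fin d → ℝ) → (Fin d → ℝ)) (x : Fin d → ℝ) : ℝ :=
  ∑ i, fderiv ℝ φ x (Pi.single i 1) i

theorem D_cont {u : (Fin d → ℝ) → ℝ} (hu : ContDiff ℝ 1 u) (i : Fin d) :
    Continuous (fun x => D u i x) :=
  (hu.continuous_fderiv (by norm_num)).clm_apply continuous_const

theorem gn_cont {u : (Fin d → ℝ) → ℝ} (hu : ContDiff ℝ 1 u) : Continuous (gn u) := by
  unfold gn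
  exact (continuous_finsetSum _ fun i _ => (D_cont hu i).pow 2).sqrt

theorem gn_nonneg (u : (Fin d → ℝ) → ℝ) (x : Fin d → ℝ) : 0 ≤ gn u x := by
  unfold gn
  exact Real.sqrt_nonneg _

theorem Q_sub : Q d ⊆ Icc (0 : Fin d → ℝ) 1 := fun _ hx =>
  ⟨fun i => (hx i).1.le, fun i => (hx i).2.le⟩

theorem fderiv_comp_i {φ : (Fin d → ℝ) → (Fin d → ℝ)} (hφ : ContDiff ℝ 1 φ) (i : Fin d)
    (x v : Fin d → ℝ) : fderiv ℝ φ x v i = fderiv ℝ (fun y => φ y i) x v := by
  have h := ((hφ.differentiable (by norm_num)) x)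
  rw [fderiv_apply h]
  rfl

theorem D_psi {u : (Fin d → ℝ) → ℝ} (hu : ContDiff ℝ 1 u) (k : ℕ) (s : ℝ) (x v : Fin d → ℝ) :
    fderiv ℝ (fun y => psi k s (u y)) x v = dpsi k s (u x) * fderiv ℝ u x v := by
  have h1 : HasFDerivAt u (fderiv ℝ u x) x := ((hu.differentiable (by norm_num)) x).hasFDerivAt
  have h2 := (psi_deriv k s (u x)).comp_hasFDerivAt x h1
  have h3 : fderiv ℝ (fun y => psi k s (u y)) x = dpsi k s (u x) • fderiv ℝ u x := h2.fderiv
  rw [h3]
  rfl

theorem dv_cont {φ : (Fin d → ℝ) → (Fin d → ℝ)} (hφ : ContDiff ℝ 1 φ) : Continuous (dv φ) := by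
  unfold dv
  refine continuous_finsetSum _ fun i _ => ?_
  exact (continuous_apply i).comp
    ((hφ.continuous_fderiv (by norm_num)).clm_apply continuous_const)

theorem dv_zero {φ : (Fin d → ℝ) → (Fin d → ℝ)} {x : Fin d → ℝ} (hx : x ∉ tsupport φ) :
    dv φ x = 0 := by
  unfold dv
  have h : fderiv ℝ φ x = 0 := by
    by_contra hne
    exact hx (support_fderiv_subset ℝ hne)
  rw [h]
  simp

theorem dv_supp {φ : (Fin d → ℝ) → (Fin d → ℝ)} (hc : HasCompactSupport φ) :
    HasCompactSupport (dv φ) :=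
  HasCompactSupport.intro hc fun _ hx => dv_zero hx

theorem phi_zero {φ : (Fin d → ℝ) → (Fin d → ℝ)} {x : Fin d → ℝ} (hx : x ∉ tsupport φ) :
    φ x = 0 := image_eq_zero_of_notMem_tsupport hx

theorem ibp {u : (Fin d → ℝ) → ℝ} (hu : ContDiff ℝ 1 u) (φ : (Fin d → ℝ) → (Fin d → ℝ))
    (hφ : ContDiff ℝ 1 φ) (hc : HasCompactSupport φ) (hs : tsupport φ ⊆ Q d)
    (hn : ∀ x, ∑ i, (φ x i) ^ 2 ≤ 1) (k : ℕ) (s : ℝ) :
    ∫ x, psi k s (u x) * dv φ x ≤ ∫ x in Icc (0 : Fin d → ℝ) 1, dpsi k s (u x) * gn u x := by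
  have hpu : ContDiff ℝ 1 (fun x => psi k s (u x)) := (psi_contDiff k s).comp hu
  have hφi : ∀ i, ContDiff ℝ 1 (fun x => φ x i) := fun i => contDiff_pi.1 hφ i
  have hci : ∀ i, HasCompactSupport (fun x => φ x i) := fun i =>
    HasCompactSupport.intro hc fun x hx => by rw [phi_zero hx]; rfl
  have hdpu : Continuous (fun x => dpsi k s (u x)) :=
    (dpsi_cont k).comp (continuous_const.prodMk hu.continuous)
  -- integrability
  have I1 : ∀ i, Integrable (fun x => psi k s (u x) * fderiv ℝ (fun y => φ y i) x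
      (Pi.single i 1 : Fin d → ℝ)) := by
    intro i
    refine Continuous.integrable_of_hasCompactSupport
      (hpu.continuous.mul (((hφi i).continuous_fderiv (by norm_num)).clm_apply continuous_const))
      (HasCompactSupport.intro (hci i) fun x hx => ?_)
    have h : fderiv ℝ (fun y => φ y i) x = 0 := by
      by_contra hne
      exact hx (support_fderiv_subset ℝ hne)
    rw [h]
    simp
  have I2 : ∀ i, Integrable (fun x => fderiv ℝ (fun y => psi k s (u y)) x
      (Pi.single i 1 : Fin d → ℝ) * φ x i) := by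
    intro i
    refine Continuous.integrable_of_hasCompactSupport
      (((hpu.continuous_fderiv (by norm_num)).clm_apply continuous_const).mul
        (hφi i).continuous)
      (HasCompactSupport.intro hc fun x hx => ?_)
    rw [phi_zero hx]
    simp
  have I3 : ∀ i, Integrable (fun x => psi k s (u x) * φ x i) := by
    intro i
    refine Continuous.integrable_of_hasCompactSupport
      (hpu.continuous.mul (hφi i).continuous)
      (HasCompactSupport.intro hc fun x hx => ?_)
    rw [phi_zero hx]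
    simp
  have h1 : ∀ i, ∫ x, psi k s (u x) * fderiv ℝ (fun y => φ y i) x (Pi.single i 1 : Fin d → ℝ) =
      -∫ x, fderiv ℝ (fun y => psi k s (u y)) x (Pi.single i 1 : Fin d → ℝ) * φ x i := by
    intro i
    exact integral_mul_fderiv_eq_neg_fderiv_mul_of_integrable (I2 i) (I1 i) (I3 i)
      (fun x _ => (hpu.differentiable (by norm_num)) x)
      (fun x _ => ((hφi i).differentiable (by norm_num)) x)
  have h2 : ∫ x, psi k s (u x) * dv φ x =
      ∫ x, -∑ i, dpsi k s (u x) * D u i x * φ x i := by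
    have e1 : (fun x => psi k s (u x) * dv φ x) = fun x => ∑ i, psi k s (u x) *
        fderiv ℝ (fun y => φ y i) x (Pi.single i 1 : Fin d → ℝ) := by
      funext x
      unfold dv
      rw [Finset.mul_sum]
      refine Finset.sum_congr rfl fun i _ => ?_
      rw [fderiv_comp_i hφ]
    rw [e1, integral_finsetSum _ fun i _ => I1 i]
    simp only [h1]
    rw [Finset.sum_neg_distrib, ← integral_finsetSum _ fun i _ => I2 i, ← integral_neg]
    refine integral_congr_ae (Eventually.of_forall fun x => ?_)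
    show -∑ i, _ = -∑ i, _
    refine congrArg Neg.neg (Finset.sum_congr rfl fun i _ => ?_)
    rw [D_psi hu]
    rfl
  rw [h2, ← integral_indicator measurableSet_Icc]
  refine integral_mono ?_ ?_ ?_
  · refine Integrable.neg (integrable_finsetSum _ fun i _ => ?_)
    refine (I2 i).congr (Eventually.of_forall fun x => ?_)
    show fderiv ℝ (fun y => psi k s (u y)) x (Pi.single i 1 : Fin d → ℝ) * φ x i =
      dpsi k s (u x) * D u i x * φ x i
    rw [D_psi hu]
    rfl
  · rw [integrable_indicator_iff measurableSet_Icc]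
    exact (hdpu.mul (gn_cont hu)).continuousOn.integrableOn_Icc
  · intro x
    show -∑ i, dpsi k s (u x) * D u i x * φ x i ≤ _
    by_cases hx : x ∈ tsupport φ
    · rw [indicator_of_mem (Q_sub (hs hx))]
      have e2 : ∑ i, dpsi k s (u x) * D u i x * φ x i =
          dpsi k s (u x) * ∑ i, D u i x * φ x i := by
        rw [Finset.mul_sum]
        exact Finset.sum_congr rfl fun i _ => mul_assoc _ _ _
      rw [e2, ← mul_neg]
      refine mul_le_mul_of_nonneg_left ?_ (dpsi_nonneg _ _ _)
      have h3 : (∑ i, D u i x * φ x i) ^ 2 ≤ ∑ i, D u i x ^ 2 := by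
        calc (∑ i, D u i x * φ x i) ^ 2 ≤ (∑ i, D u i x ^ 2) * ∑ i, φ x i ^ 2 :=
              Finset.sum_mul_sq_le_sq_mul_sq _ _ _
          _ ≤ (∑ i, D u i x ^ 2) * 1 :=
              mul_le_mul_of_nonneg_left (hn x) (Finset.sum_nonneg fun i _ => sq_nonneg _)
          _ = _ := mul_one _
      have h4 := Real.abs_le_sqrt h3
      exact (neg_le_abs _).trans h4
    · have : ∑ i, dpsi k s (u x) * D u i x * φ x i = 0 := by
        refine Finset.sum_eq_zero fun i _ => ?_
        rw [phi_zero hx]
        simp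
      rw [this, neg_zero]
      exact indicator_nonneg (fun y _ => mul_nonneg (dpsi_nonneg _ _ _) (gn_nonneg _ _)) x

open Classical in
theorem key {u : (Fin d → ℝ) → ℝ} (hu : ContDiff ℝ 1 u) (s : ℝ) :
    Peri d {x | x ∈ Q d ∧ s < u x} ≤ liminf (fun k : ℕ =>
      ∫⁻ x in Icc (0 : Fin d → ℝ) 1, ENNReal.ofReal (dpsi k s (u x) * gn u x)) atTop := by
  unfold Peri
  refine iSup_le fun φ => iSup_le fun hφ => iSup_le fun hc => iSup_le fun hs => iSup_le fun hn => ?_
  have hE : MeasurableSet {x | x ∈ Q d ∧ s < u x} := by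
    refine MeasurableSet.inter ?_ (measurableSet_lt measurable_const hu.continuous.measurable)
    have : Q d = ⋂ i, {x : Fin d → ℝ | x i ∈ Ioo (0 : ℝ) 1} := by
      ext x; simp [Q]
    show MeasurableSet (Q d)
    rw [this]
    exact MeasurableSet.iInter fun i => measurableSet_Ioo.preimage (measurable_pi_apply i)
  have hlim : Tendsto (fun k : ℕ => ∫ x, psi k s (u x) * dv φ x) atTop
      (𝓝 (∫ x, (if s < u x then (1 : ℝ) else 0) * dv φ x)) := by
    refine tendsto_integral_of_dominated_convergence (fun x => ‖dv φ x‖) ?_ ?_ ?_ ?_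
    · intro k
      exact (((psi_contDiff k s).comp hu).continuous.mul (dv_cont hφ)).aestronglyMeasurable
    · exact ((dv_cont hφ).integrable_of_hasCompactSupport (dv_supp hc)).norm
    · intro k
      refine Eventually.of_forall fun x => ?_
      rw [norm_mul]
      have h1 : ‖psi k s (u x)‖ ≤ 1 := by
        rw [Real.norm_eq_abs, abs_le]
        exact ⟨by linarith [Real.smoothTransition.nonneg (((k : ℝ) + 1) * (u x - s)),
          show psi k s (u x) = Real.smoothTransition (((k : ℝ) + 1) * (u x - s)) from rfl],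
          Real.smoothTransition.le_one _⟩
      exact mul_le_of_le_one_left (norm_nonneg _) h1
    · exact Eventually.of_forall fun x => (psi_tendsto s (u x)).mul_const _
  have hval : ∫ x, (if s < u x then (1 : ℝ) else 0) * dv φ x =
      ∫ x in {x | x ∈ Q d ∧ s < u x}, dv φ x := by
    rw [← integral_indicator hE]
    refine integral_congr_ae (Eventually.of_forall fun x => ?_)
    show (if s < u x then (1 : ℝ) else 0) * dv φ x = _
    by_cases hx : x ∈ tsupport φ
    · by_cases hsu : s < u x
      · rw [if_pos hsu, indicator_of_mem (show x ∈ {x | x ∈ Q d ∧ s < u x} from ⟨hs hx, hsu⟩),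
          one_mul]
      · rw [if_neg hsu, indicator_of_notMem
          (show x ∉ {x | x ∈ Q d ∧ s < u x} from fun h => hsu h.2), zero_mul]
    · rw [dv_zero hx, mul_zero]
      by_cases hm : x ∈ {x | x ∈ Q d ∧ s < u x}
      · rw [indicator_of_mem hm, dv_zero hx]
      · rw [indicator_of_notMem hm]
  rw [hval] at hlim
  have h2 := (ENNReal.tendsto_ofReal hlim).liminf_eq
  show ENNReal.ofReal (∫ x in {x | x ∈ Q d ∧ s < u x}, dv φ x) ≤ _
  rw [← h2]
  refine liminf_le_liminf (Eventually.of_forall fun k => ?_)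
  have hdpu : Continuous (fun x => dpsi k s (u x)) :=
    (dpsi_cont k).comp (continuous_const.prodMk hu.continuous)
  have hI : IntegrableOn (fun x => dpsi k s (u x) * gn u x) (Icc (0 : Fin d → ℝ) 1) :=
    (hdpu.mul (gn_cont hu)).continuousOn.integrableOn_Icc
  have h3 := ofReal_integral_eq_lintegral_ofReal hI
    (Eventually.of_forall fun x => mul_nonneg (dpsi_nonneg _ _ _) (gn_nonneg _ _))
  rw [← h3]
  exact ENNReal.ofReal_le_ofReal (ibp hu φ hφ hc hs hn k s)

/-- the averages of the bounds are at most the total variation -/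
theorem lint_TV {u : (Fin d → ℝ) → ℝ} (hu : ContDiff ℝ 1 u) (k : ℕ) :
    ∫⁻ s in Icc (0 : ℝ) 1, ∫⁻ x in Icc (0 : Fin d → ℝ) 1,
      ENNReal.ofReal (dpsi k s (u x) * gn u x) ≤ ENNReal.ofReal (TV u) := by
  have hcont : Continuous (fun p : ℝ × (Fin d → ℝ) => dpsi k p.1 (u p.2) * gn u p.2) :=
    ((dpsi_cont k).comp (continuous_fst.prodMk (hu.continuous.comp continuous_snd))).mul
      ((gn_cont hu).comp continuous_snd)
  rw [lintegral_lintegral_swap]
  · unfold TV
    rw [ofReal_integral_eq_lintegral_ofReal (gn_cont hu).continuousOn.integrableOn_Icc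
      (Eventually.of_forall fun x => gn_nonneg _ _)]
    refine lintegral_mono fun x => ?_
    have e : ∀ s : ℝ, ENNReal.ofReal (dpsi k s (u x) * gn u x) =
        ENNReal.ofReal (dpsi k s (u x)) * ENNReal.ofReal (gn u x) := fun s =>
      ENNReal.ofReal_mul (dpsi_nonneg _ _ _)
    simp only [e]
    have hm : Measurable (fun s : ℝ => ENNReal.ofReal (dpsi k s (u x))) :=
      ((dpsi_cont k).comp (continuous_id.prodMk continuous_const)).measurable.ennreal_ofReal
    rw [lintegral_mul_const _ hm]
    exact mul_le_of_le_one_left zero_le (lint_dpsi k (u x))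
  · exact hcont.measurable.ennreal_ofReal.aemeasurable

theorem lint_meas {u : (Fin d → ℝ) → ℝ} (hu : ContDiff ℝ 1 u) (k : ℕ) :
    Measurable (fun s : ℝ => ∫⁻ x in Icc (0 : Fin d → ℝ) 1,
      ENNReal.ofReal (dpsi k s (u x) * gn u x)) := by
  have hcont : Continuous (fun p : ℝ × (Fin d → ℝ) => dpsi k p.1 (u p.2) * gn u p.2) :=
    ((dpsi_cont k).comp (continuous_fst.prodMk (hu.continuous.comp continuous_snd))).mul
      ((gn_cont hu).comp continuous_snd)
  exact Measurable.lintegral_prod_right' hcont.measurable.ennreal_ofReal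

/-! ### The volumes of the superlevel sets -/

theorem Q_ae : Q d =ᵐ[volume] Icc (0 : Fin d → ℝ) 1 := by
  have h : Q d = pi univ fun i : Fin d => Ioo ((0 : Fin d → ℝ) i) ((1 : Fin d → ℝ) i) := by
    ext x; simp [Q]
  rw [h]
  exact Measure.univ_pi_Ioo_ae_eq_Icc

theorem vol_Icc : volume (Icc (0 : Fin d → ℝ) 1) = 1 := by
  rw [Real.volume_Icc_pi]
  simp

theorem vol_le (u : (Fin d → ℝ) → ℝ) (s : ℝ) :
    volume {x : Fin d → ℝ | x ∈ Icc (0 : Fin d → ℝ) 1 ∧ s < u x} ≤ 1 := by
  rw [← vol_Icc (d := d)]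
  exact measure_mono fun x hx => hx.1

theorem vol_E (u : (Fin d → ℝ) → ℝ) (s : ℝ) :
    volume {x | x ∈ Q d ∧ s < u x} = ENNReal.ofReal (Vs u s) := by
  unfold Vs
  rw [ENNReal.ofReal_toReal ((vol_le u s).trans_lt ENNReal.one_lt_top).ne]
  have h : ({x | x ∈ Q d ∧ s < u x} : Set (Fin d → ℝ)) =ᵐ[volume]
      {x : Fin d → ℝ | x ∈ Icc (0 : Fin d → ℝ) 1 ∧ s < u x} :=
    (Q_ae (d := d)).inter (ae_eq_refl {x | s < u x})
  exact measure_congr h

theorem Vs_nonneg (u : (Fin d → ℝ) → ℝ) (s : ℝ) : 0 ≤ Vs u s := ENNReal.toReal_nonneg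

theorem Vs_le (u : (Fin d → ℝ) → ℝ) (s : ℝ) : Vs u s ≤ 1 := by
  unfold Vs
  exact ENNReal.toReal_le_of_le_ofReal zero_le_one (by rw [ENNReal.ofReal_one]; exact vol_le u s)

theorem Vs_anti (u : (Fin d → ℝ) → ℝ) : Antitone (Vs u) := by
  intro s t hst
  unfold Vs
  exact ENNReal.toReal_mono ((vol_le u s).trans_lt ENNReal.one_lt_top).ne
    (measure_mono fun x hx => ⟨hx.1, hst.trans_lt hx.2⟩)

theorem int_Vs {u : (Fin d → ℝ) → ℝ} (hu : Continuous u) (hmem : ∀ x, 0 ≤ u x ∧ u x ≤ 1) :
    ∫ s in (0 : ℝ)..1, Vs u s = ∫ x in Icc (0 : Fin d → ℝ) 1, u x := by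
  rw [Integrable.integral_eq_integral_meas_lt hu.continuousOn.integrableOn_Icc
    (Eventually.of_forall fun x => (hmem x).1), intervalIntegral.integral_of_le zero_le_one]
  have e : ∀ t : ℝ, (volume.restrict (Icc (0 : Fin d → ℝ) 1)).real {a | t < u a} = Vs u t := by
    intro t
    rw [measureReal_restrict_apply (measurableSet_lt measurable_const hu.measurable)]
    unfold Vs Measure.real
    congr 2
    ext x
    exact and_comm
  simp only [e]
  refine (setIntegral_eq_of_subset_of_forall_sdiff_eq_zero measurableSet_Ioi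
    (fun t ht => ht.1) fun t ht => ?_).symm
  have ht1 : 1 < t := by
    by_contra h
    push Not at h
    exact ht.2 ⟨ht.1, h⟩
  unfold Vs
  have : {x : Fin d → ℝ | x ∈ Icc (0 : Fin d → ℝ) 1 ∧ t < u x} = ∅ := by
    ext x
    simp only [mem_ofPred_eq, mem_empty_iff_false, iff_false, not_and, not_lt]
    intro _
    exact (hmem x).2.trans ht1.le
  rw [this]
  simp

theorem coarea : S_coarea := by
  intro P H C lam _ hprof d u hd hu hmem
  -- the integrand
  have hmV : Measurable (Vs u) := (Vs_anti u).measurable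
  have hIV : IntervalIntegrable (Vs u) volume 0 1 := (Vs_anti u).intervalIntegrable
  have hIV2 : IntervalIntegrable (fun s => (Vs u s - lam) ^ 2) volume 0 1 := by
    rw [intervalIntegrable_iff_integrableOn_Ioc_of_le zero_le_one]
    refine Integrable.of_bound ((hmV.sub_const lam).pow_const 2).aestronglyMeasurable
      ((1 + |lam|) ^ 2) (Eventually.of_forall fun s => ?_)
    rw [Real.norm_eq_abs, abs_pow]
    refine pow_le_pow_left₀ (abs_nonneg _) ?_ 2
    calc |Vs u s - lam| ≤ |Vs u s| + |lam| := abs_sub _ _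
      _ ≤ 1 + |lam| := by
        rw [abs_of_nonneg (Vs_nonneg u s)]
        linarith [Vs_le u s]
  have hIp : IntervalIntegrable (fun s => P + H * (Vs u s - lam) - C * (Vs u s - lam) ^ 2)
      volume 0 1 := by
    refine IntervalIntegrable.sub (IntervalIntegrable.add intervalIntegrable_const ?_) ?_
    · exact (hIV.sub intervalIntegrable_const).const_mul H
    · exact hIV2.const_mul C
  have hval : ∫ s in (0 : ℝ)..1, (P + H * (Vs u s - lam) - C * (Vs u s - lam) ^ 2) =
      P + H * ((∫ x in Icc (0 : Fin d → ℝ) 1, u x) - lam) - C * G lam u := by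
    have i1 : IntervalIntegrable (fun s => H * (Vs u s - lam)) volume 0 1 :=
      (hIV.sub intervalIntegrable_const).const_mul H
    have i2 : IntervalIntegrable (fun s => C * (Vs u s - lam) ^ 2) volume 0 1 :=
      hIV2.const_mul C
    have i3 : IntervalIntegrable (fun _ : ℝ => P) volume 0 1 := intervalIntegrable_const
    rw [intervalIntegral.integral_sub (i3.add i1) i2, intervalIntegral.integral_add i3 i1,
      intervalIntegral.integral_const_mul, intervalIntegral.integral_const_mul,
      intervalIntegral.integral_sub hIV intervalIntegrable_const, int_Vs hu.continuous hmem]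
    unfold G
    simp
  -- the bound
  have h1 : ∫⁻ s in Icc (0 : ℝ) 1, ENNReal.ofReal
      (P + H * (Vs u s - lam) - C * (Vs u s - lam) ^ 2) ≤ ENNReal.ofReal (TV u) := by
    calc ∫⁻ s in Icc (0 : ℝ) 1, ENNReal.ofReal
          (P + H * (Vs u s - lam) - C * (Vs u s - lam) ^ 2) ≤
        ∫⁻ s in Icc (0 : ℝ) 1, liminf (fun k : ℕ => ∫⁻ x in Icc (0 : Fin d → ℝ) 1,
          ENNReal.ofReal (dpsi k s (u x) * gn u x)) atTop := by
          refine lintegral_mono fun s => ?_
          refine (hprof d hd (Vs u s) ⟨Vs_nonneg u s, Vs_le u s⟩).trans (le_trans ?_ (key hu s))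
          unfold Iprof
          have hE : MeasurableSet {x | x ∈ Q d ∧ s < u x} := by
            refine MeasurableSet.inter ?_
              (measurableSet_lt measurable_const hu.continuous.measurable)
            have : Q d = ⋂ i, {x : Fin d → ℝ | x i ∈ Ioo (0 : ℝ) 1} := by
              ext x; simp [Q]
            show MeasurableSet (Q d)
            rw [this]
            exact MeasurableSet.iInter fun i =>
              measurableSet_Ioo.preimage (measurable_pi_apply i)
          exact iInf_le_of_le {x | x ∈ Q d ∧ s < u x} (iInf_le_of_le hE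
            (iInf_le_of_le (fun x hx => hx.1) (iInf_le_of_le (vol_E u s) le_rfl)))
      _ ≤ liminf (fun k : ℕ => ∫⁻ s in Icc (0 : ℝ) 1, ∫⁻ x in Icc (0 : Fin d → ℝ) 1,
          ENNReal.ofReal (dpsi k s (u x) * gn u x)) atTop :=
          lintegral_liminf_le fun k => lint_meas hu k
      _ ≤ liminf (fun _ : ℕ => ENNReal.ofReal (TV u)) atTop :=
          liminf_le_liminf (Eventually.of_forall fun k => lint_TV hu k)
      _ = ENNReal.ofReal (TV u) := liminf_const _
  have hTV : 0 ≤ TV u := by
    unfold TV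
    exact setIntegral_nonneg measurableSet_Icc fun x _ => gn_nonneg u x
  have hIp' : IntegrableOn (fun s => P + H * (Vs u s - lam) - C * (Vs u s - lam) ^ 2)
      (Icc (0 : ℝ) 1) := by
    rw [integrableOn_Icc_iff_integrableOn_Ioc]
    rw [intervalIntegrable_iff_integrableOn_Ioc_of_le zero_le_one] at hIp
    exact hIp
  rw [← hval, intervalIntegral.integral_of_le zero_le_one, ← integral_Icc_eq_integral_Ioc,
    integral_eq_lintegral_pos_part_sub_lintegral_neg_part hIp']
  have h2 := ENNReal.toReal_mono ENNReal.ofReal_ne_top h1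
  rw [ENNReal.toReal_ofReal hTV] at h2
  have h3 : 0 ≤ (∫⁻ s in Icc (0 : ℝ) 1, ENNReal.ofReal
      (-(P + H * (Vs u s - lam) - C * (Vs u s - lam) ^ 2))).toReal := ENNReal.toReal_nonneg
  linarith

end

end

end Pool.Agent.H404.Cube
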