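import Pool.Agent.H194.Cube.Defs
import Pool.Graph.R_seed8.H48R3.CP.Upper

/-!
# The profile of the cube: complements and the upper bound by slabs
(helper249, for helper194)
-/

set_option autoImplicit false

namespace Pool.Agent.H249.Cube

open MeasureTheory Set Filter Topology
open Pool.Agent.H194.Cube

/-- the open cube -/
def U (d : ℕ) : Set (Fin d → ℝ) := {x : Fin d → ℝ | ∀ i, x i ∈ Set.Ioo (0:ℝ) 1}

theorem U_eq (d : ℕ) : U d = Set.pi univ fun _ => Ioo (0 : ℝ) 1 := by
  ext x
  constructor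
  · intro h i _
    exact h i
  · intro h i
    exact h i (mem_univ i)

theorem U_meas (d : ℕ) : MeasurableSet (U d) := by
  rw [U_eq]
  exact MeasurableSet.univ_pi fun i => measurableSet_Ioo

theorem U_vol (d : ℕ) : volume (U d) = 1 := by
  rw [U_eq, Real.volume_pi_Ioo]
  simp

section

variable {d : ℕ} {φ : (Fin d → ℝ) → (Fin d → ℝ)}

theorem comp_deriv (hφ : ContDiff ℝ 1 φ) (x : Fin d → ℝ) (i : Fin d) :
    HasFDerivAt (fun y => φ y i) ((ContinuousLinearMap.proj i).comp (fderiv ℝ φ x)) x :=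
  hasFDerivAt_pi'.1 ((hφ.differentiable (by norm_num) x).hasFDerivAt) i

theorem comp_cont (hφ : ContDiff ℝ 1 φ) (i : Fin d) (v : Fin d → ℝ) :
    Continuous fun x => fderiv ℝ φ x v i :=
  (continuous_apply i).comp ((hφ.continuous_fderiv (by norm_num)).clm_apply continuous_const)

theorem comp_int (hφ : ContDiff ℝ 1 φ) (hc : HasCompactSupport φ) (i : Fin d) (v : Fin d → ℝ) :
    Integrable fun x => fderiv ℝ φ x v i := by
  refine (comp_cont hφ i v).integrable_of_hasCompactSupport ?_
  exact (hc.fderiv_apply (𝕜 := ℝ) v).comp_left (g := fun w : Fin d → ℝ => w i) rfl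

theorem int_zero (hφ : ContDiff ℝ 1 φ) (hc : HasCompactSupport φ) (i : Fin d) (v : Fin d → ℝ) :
    ∫ x, fderiv ℝ φ x v i = 0 := by
  have h := integral_bilinear_hasLineDerivAt_right_eq_neg_left_of_integrable
    (μ := (volume : Measure (Fin d → ℝ))) (f := fun _ => (1 : ℝ)) (f' := fun _ => (0 : ℝ))
    (g := fun x => φ x i) (g' := fun x => fderiv ℝ φ x v i) (v := v)
    (B := ContinuousLinearMap.mul ℝ ℝ) ?_ ?_ ?_ ?_ ?_
  · simp only [ContinuousLinearMap.mul_apply', one_mul, zero_mul, integral_zero, neg_zero] at h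
    exact h
  · simp only [ContinuousLinearMap.mul_apply', zero_mul]
    exact integrable_zero _ _ _
  · simp only [ContinuousLinearMap.mul_apply', one_mul]
    exact comp_int hφ hc i v
  · simp only [ContinuousLinearMap.mul_apply', one_mul]
    refine ((continuous_apply i).comp hφ.continuous).integrable_of_hasCompactSupport ?_
    exact hc.comp_left (g := fun w : Fin d → ℝ => w i) rfl
  · intro x _
    exact (hasFDerivAt_const (1 : ℝ) x).hasLineDerivAt v
  · intro x _
    exact (comp_deriv hφ x i).hasLineDerivAt v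

/-- the divergence -/
noncomputable def dv (φ : (Fin d → ℝ) → (Fin d → ℝ)) (x : Fin d → ℝ) : ℝ :=
  ∑ i, fderiv ℝ φ x (Pi.single i 1) i

theorem dv_int (hφ : ContDiff ℝ 1 φ) (hc : HasCompactSupport φ) : Integrable (dv φ) := by
  unfold dv
  exact integrable_finsetSum _ fun i _ => comp_int hφ hc i _

theorem dv_zero (hφ : ContDiff ℝ 1 φ) (hc : HasCompactSupport φ) : ∫ x, dv φ x = 0 := by
  unfold dv
  rw [integral_finsetSum _ fun i _ => comp_int hφ hc i _]
  exact Finset.sum_eq_zero fun i _ => int_zero hφ hc i _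

theorem dv_neg (φ : (Fin d → ℝ) → (Fin d → ℝ)) (x : Fin d → ℝ) :
    dv (fun y => - φ y) x = - dv φ x := by
  unfold dv
  rw [← Finset.sum_neg_distrib]
  refine Finset.sum_congr rfl fun i _ => ?_
  rw [fderiv_fun_neg]
  rfl

theorem dv_U (hφ : ContDiff ℝ 1 φ) (hc : HasCompactSupport φ) (hs : tsupport φ ⊆ U d) :
    ∫ x in U d, dv φ x = 0 := by
  rw [setIntegral_eq_integral_of_forall_compl_eq_zero, dv_zero hφ hc]
  intro x hx
  unfold dv
  refine Finset.sum_eq_zero fun i _ => ?_
  rw [fderiv_of_notMem_tsupport ℝ fun h => hx (hs h)]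
  rfl

end

/-- complements -/
theorem compl : S_compl := by
  intro d t ht0 ht1
  unfold Iprof
  refine le_iInf fun E => le_iInf fun hE => le_iInf fun hEU => le_iInf fun hv => ?_
  have hEU' : E ⊆ U d := hEU
  have hvol : volume (U d \ E) = ENNReal.ofReal (1 - t) := by
    rw [measure_sdiff hEU' hE.nullMeasurableSet (by rw [hv]; exact ENNReal.ofReal_ne_top), U_vol,
      hv, ENNReal.ofReal_sub 1 ht0, ENNReal.ofReal_one]
  refine iInf_le_of_le (U d \ E) (iInf_le_of_le ((U_meas d).diff hE)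
    (iInf_le_of_le sdiff_subset (iInf_le_of_le hvol ?_)))
  unfold Peri
  refine iSup_le fun φ => iSup_le fun hφ => iSup_le fun hc => iSup_le fun hs => iSup_le fun h1 => ?_
  have hφ' : ContDiff ℝ 1 fun y => - φ y := hφ.neg
  have hc' : HasCompactSupport fun y => - φ y := hc.comp_left (g := fun w => - w) neg_zero
  have hs' : tsupport (fun y => - φ y) ⊆ {x : Fin d → ℝ | ∀ i, x i ∈ Set.Ioo (0:ℝ) 1} := by
    have e : Function.support (fun y => - φ y) = Function.support φ := Function.support_neg φ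
    rw [tsupport, e]
    exact hs
  have h1' : ∀ x, ∑ i, ((fun y => - φ y) x i) ^ 2 ≤ 1 := by
    intro x
    refine le_trans (le_of_eq (Finset.sum_congr rfl fun i _ => ?_)) (h1 x)
    change (- φ x i) ^ 2 = φ x i ^ 2
    ring
  refine le_iSup_of_le (fun y => - φ y) (le_iSup_of_le hφ' (le_iSup_of_le hc'
    (le_iSup_of_le hs' (le_iSup_of_le h1' (le_of_eq ?_)))))
  have e1 : ∫ x in U d \ E, dv φ x = ∫ x in E, dv (fun y => - φ y) x := by
    rw [setIntegral_sdiff hE (dv_int hφ hc).integrableOn hEU', dv_U hφ hc hs]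
    simp only [dv_neg]
    rw [integral_neg, zero_sub]
  exact congrArg ENNReal.ofReal e1

/-- slabs -/
theorem upper : S_upper := by
  intro d t hd ht0 ht1
  obtain ⟨n, rfl⟩ : ∃ n, d = n + 1 := ⟨d - 1, by omega⟩
  obtain ⟨E, hE, hEU, hv, h⟩ := Pool.Agent.H48R3.CP.upper n t ht0 ht1
  have hU : Pool.Agent.H48R3.CP.U (n + 1) = {x : Fin (n + 1) → ℝ | ∀ i, x i ∈ Set.Ioo (0:ℝ) 1} := rfl
  rw [hU] at hEU h
  unfold Iprof
  refine iInf_le_of_le E (iInf_le_of_le hE (iInf_le_of_le hEU (iInf_le_of_le hv ?_)))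
  unfold Peri
  refine iSup_le fun φ => iSup_le fun hφ => iSup_le fun hc => iSup_le fun hs => iSup_le fun h1 => ?_
  rw [ENNReal.ofReal_le_one]
  have h2 := h φ hφ hc hs h1
  refine le_trans (le_of_eq ?_) h2
  refine integral_congr_ae (Eventually.of_forall fun x => ?_)
  refine Finset.sum_congr rfl fun i _ => ?_
  rw [(comp_deriv hφ x i).fderiv]
  rfl

end Pool.Agent.H249.Cube
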