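import Pool.Agent.H194.Cube.P.Sum

/-!
# CUBE PROFILE: dissipation of the total variation (helper356, for helper194)
-/

set_option autoImplicit false

namespace Pool.Agent.H356.Cube

open Pool.Agent.H194.Cube
open MeasureTheory Set Filter Topology
open scoped ContDiff

section basic

variable {n : ℕ} {x : Fin n → ℝ}

lemma D_mul {f g : (Fin n → ℝ) → ℝ} (hf : DifferentiableAt ℝ f x) (hg : DifferentiableAt ℝ g x)
    (i : Fin n) : D (fun y => f y * g y) i x = f x * D g i x + g x * D f i x := by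
  unfold D
  rw [fderiv_fun_mul hf hg]
  simp only [add_apply, smul_apply, smul_eq_mul]

lemma D_sum {ι : Type} (s : Finset ι) {F : ι → (Fin n → ℝ) → ℝ}
    (h : ∀ i ∈ s, DifferentiableAt ℝ (F i) x) (j : Fin n) :
    D (fun y => ∑ i ∈ s, F i y) j x = ∑ i ∈ s, D (F i) j x := by
  unfold D
  rw [fderiv_fun_sum h]
  simp only [sum_apply]

lemma D_const_add {f : (Fin n → ℝ) → ℝ} (c : ℝ) (i : Fin n) :
    D (fun y => c + f y) i x = D f i x := by
  unfold D
  rw [fderiv_const_add]

end basic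

section ww

variable {n : ℕ}

/-- the regularised norm of the gradient -/
noncomputable def ww (η : ℝ) (f : (Fin n → ℝ) → ℝ) (x : Fin n → ℝ) : ℝ :=
  √(η ^ 2 + ∑ i, D f i x ^ 2)

lemma ww_pos {η : ℝ} (hη : 0 < η) (f : (Fin n → ℝ) → ℝ) (x : Fin n → ℝ) : 0 < ww η f x :=
  Real.sqrt_pos.2 (add_pos_of_pos_of_nonneg (by positivity)
    (Finset.sum_nonneg fun _ _ => sq_nonneg _))

lemma ww_sq (η : ℝ) (f : (Fin n → ℝ) → ℝ) (x : Fin n → ℝ) :
    ww η f x ^ 2 = η ^ 2 + ∑ i, D f i x ^ 2 :=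
  Real.sq_sqrt (add_nonneg (sq_nonneg _) (Finset.sum_nonneg fun _ _ => sq_nonneg _))

lemma ww_sq' (η : ℝ) (f : (Fin n → ℝ) → ℝ) (x : Fin n → ℝ) :
    ww η f x ^ 2 = η ^ 2 + gn f x ^ 2 := by rw [ww_sq, gn_sq]

lemma gn_le_ww (η : ℝ) (f : (Fin n → ℝ) → ℝ) (x : Fin n → ℝ) : gn f x ≤ ww η f x :=
  Real.sqrt_le_sqrt (le_add_of_nonneg_left (sq_nonneg _))

lemma ww_le {η : ℝ} (hη : 0 < η) (f : (Fin n → ℝ) → ℝ) (x : Fin n → ℝ) :
    ww η f x ≤ gn f x + η := by
  refine Real.sqrt_le_iff.2 ⟨by have := gn_nonneg f x; positivity, ?_⟩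
  rw [← gn_sq]
  nlinarith [gn_nonneg f x]

lemma ww_smooth {η : ℝ} (hη : 0 < η) {f : (Fin n → ℝ) → ℝ} (hf : ContDiff ℝ ∞ f) :
    ContDiff ℝ ∞ (ww η f) := by
  unfold ww
  refine ContDiff.sqrt (contDiff_const.add (ContDiff.sum fun i _ => (smooth_D hf i).pow 2)) ?_
  intro x
  exact (add_pos_of_pos_of_nonneg (by positivity)
    (Finset.sum_nonneg fun _ _ => sq_nonneg _)).ne'

lemma ww_D {η : ℝ} (hη : 0 < η) {f : (Fin n → ℝ) → ℝ} (hf : ContDiff ℝ ∞ f) (j : Fin n)
    (x : Fin n → ℝ) :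
    ww η f x * D (ww η f) j x = ∑ i, D f i x * D (D f i) j x := by
  have hw : DifferentiableAt ℝ (ww η f) x := ((ww_smooth hη hf).differentiable (by simp)) x
  have hD : ∀ i, DifferentiableAt ℝ (D f i) x := fun i =>
    ((smooth_D hf i).differentiable (by simp)) x
  have h1 : (fun y => ww η f y * ww η f y) = fun y => η ^ 2 + ∑ i, D f i y * D f i y := by
    funext y
    rw [← sq, ww_sq]
    exact congrArg _ (Finset.sum_congr rfl fun i _ => sq _)
  have h2 : D (fun y => ww η f y * ww η f y) j x =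
      D (fun y => η ^ 2 + ∑ i, D f i y * D f i y) j x := by rw [h1]
  rw [D_mul hw hw, D_const_add, D_sum (F := fun i y => D f i y * D f i y) _ (fun i _ => (hD i).mul (hD i))] at h2
  rw [Finset.sum_congr rfl (fun i _ => D_mul (hD i) (hD i) j)] at h2
  have h3 : ∑ i, (D f i x * D (D f i) j x + D f i x * D (D f i) j x) =
      2 * ∑ i, D f i x * D (D f i) j x := by
    rw [Finset.mul_sum]
    exact Finset.sum_congr rfl fun i _ => by ring
  rw [h3] at h2
  linarith

lemma ww_DD {η : ℝ} (hη : 0 < η) {f : (Fin n → ℝ) → ℝ} (hf : ContDiff ℝ ∞ f) (j : Fin n)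
    (x : Fin n → ℝ) :
    ww η f x * D (D (ww η f) j) j x + D (ww η f) j x ^ 2 =
      ∑ i, D f i x * D (D (D f i) j) j x + ∑ i, D (D f i) j x ^ 2 := by
  have hw : DifferentiableAt ℝ (ww η f) x := ((ww_smooth hη hf).differentiable (by simp)) x
  have hDw : DifferentiableAt ℝ (D (ww η f) j) x :=
    ((smooth_D (ww_smooth hη hf) j).differentiable (by simp)) x
  have hD : ∀ i, DifferentiableAt ℝ (D f i) x := fun i =>
    ((smooth_D hf i).differentiable (by simp)) x
  have hDD : ∀ i, DifferentiableAt ℝ (D (D f i) j) x := fun i =>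
    ((smooth_D (smooth_D hf i) j).differentiable (by simp)) x
  have h1 : (fun y => ww η f y * D (ww η f) j y) = fun y => ∑ i, D f i y * D (D f i) j y := by
    funext y
    exact ww_D hη hf j y
  have h2 : D (fun y => ww η f y * D (ww η f) j y) j x =
      D (fun y => ∑ i, D f i y * D (D f i) j y) j x := by rw [h1]
  rw [D_mul hw hDw, D_sum (F := fun i y => D f i y * D (D f i) j y) _
    (fun i _ => (hD i).mul (hDD i)),
    Finset.sum_congr rfl (fun i _ => D_mul (hD i) (hDD i) j), Finset.sum_add_distrib] at h2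
  have h3 : ∑ i, D (D f i) j x * D (D f i) j x = ∑ i, D (D f i) j x ^ 2 :=
    Finset.sum_congr rfl fun i _ => (sq _).symm
  rw [h3] at h2
  rw [← h2]
  ring

/-- the dissipation density -/
noncomputable def Bd (η : ℝ) (f : (Fin n → ℝ) → ℝ) (x : Fin n → ℝ) : ℝ :=
  (∑ i, ∑ j, D (D f i) j x ^ 2 - ∑ j, D (ww η f) j x ^ 2) / ww η f x

lemma ww_lap {η : ℝ} (hη : 0 < η) {f : (Fin n → ℝ) → ℝ} (hf : ContDiff ℝ ∞ f) (x : Fin n → ℝ) :
    (∑ i, D f i x * ∑ j, D (D (D f i) j) j x) / ww η f x =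
      ∑ j, D (D (ww η f) j) j x - Bd η f x := by
  have hpos := ww_pos hη f x
  have h1 : ww η f x * ∑ j, D (D (ww η f) j) j x + ∑ j, D (ww η f) j x ^ 2 =
      ∑ i, D f i x * ∑ j, D (D (D f i) j) j x + ∑ i, ∑ j, D (D f i) j x ^ 2 := by
    rw [Finset.mul_sum, ← Finset.sum_add_distrib, Finset.sum_congr rfl (fun j _ => ww_DD hη hf j x),
      Finset.sum_add_distrib]
    congr 1
    · rw [Finset.sum_comm]
      exact Finset.sum_congr rfl fun i _ => (Finset.mul_sum _ _ _).symm
    · rw [Finset.sum_comm]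
  unfold Bd
  rw [div_eq_iff hpos.ne', sub_mul, div_mul_cancel₀ _ hpos.ne']
  linarith

lemma cs (a b : Fin n → ℝ) : (∑ i, a i * b i) ^ 2 ≤ (∑ i, a i ^ 2) * ∑ i, b i ^ 2 :=
  Finset.sum_mul_sq_le_sq_mul_sq _ _ _

lemma ww_Dsq {η : ℝ} (hη : 0 < η) {f : (Fin n → ℝ) → ℝ} (hf : ContDiff ℝ ∞ f) (j : Fin n)
    (x : Fin n → ℝ) : D (ww η f) j x ^ 2 * ww η f x ^ 2 =
      (∑ i, D f i x * D (D f i) j x) ^ 2 := by
  rw [← ww_D hη hf j x]; ring

lemma Bd_nonneg {η : ℝ} (hη : 0 < η) {f : (Fin n → ℝ) → ℝ} (hf : ContDiff ℝ ∞ f)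
    (x : Fin n → ℝ) : 0 ≤ Bd η f x := by
  have hpos := ww_pos hη f x
  refine div_nonneg (sub_nonneg.2 ?_) hpos.le
  rw [Finset.sum_comm]
  refine Finset.sum_le_sum fun j _ => ?_
  have h1 := ww_Dsq hη hf j x
  have h2 := cs (fun i => D f i x) (fun i => D (D f i) j x)
  have h3 : (∑ i, D f i x ^ 2) * ∑ i, D (D f i) j x ^ 2 ≤
      ww η f x ^ 2 * ∑ i, D (D f i) j x ^ 2 := by
    refine mul_le_mul_of_nonneg_right ?_ (Finset.sum_nonneg fun _ _ => sq_nonneg _)
    rw [ww_sq]
    linarith [sq_nonneg η]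
  have h4 : ww η f x ^ 2 * D (ww η f) j x ^ 2 ≤ ww η f x ^ 2 * ∑ i, D (D f i) j x ^ 2 := by
    rw [mul_comm (ww η f x ^ 2) (D (ww η f) j x ^ 2), h1]
    exact h2.trans h3
  exact le_of_mul_le_mul_left h4 (by positivity)

lemma asq_eq (f : (Fin n → ℝ) → ℝ) (x : Fin n → ℝ) :
    Asq f x = ∑ i, ∑ j, D (D f i) j x ^ 2 -
      ∑ j, (∑ i, D f i x * D (D f i) j x) ^ 2 / gn f x ^ 2 := by
  unfold Asq
  congr 1
  refine Finset.sum_congr rfl fun j _ => ?_
  have h1 : ∑ i, Nn f i x * D (D f i) j x = -((∑ i, D f i x * D (D f i) j x) / gn f x) := by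
    rw [Finset.sum_div, ← Finset.sum_neg_distrib]
    refine Finset.sum_congr rfl fun i _ => ?_
    unfold Nn
    ring
  rw [h1, neg_sq, div_pow]

lemma asq_nonneg (f : (Fin n → ℝ) → ℝ) {x : Fin n → ℝ} (hx : 0 < gn f x) : 0 ≤ Asq f x := by
  rw [asq_eq, sub_nonneg, Finset.sum_comm]
  refine Finset.sum_le_sum fun j _ => ?_
  rw [div_le_iff₀ (by positivity)]
  have h2 := cs (fun i => D f i x) (fun i => D (D f i) j x)
  rw [← gn_sq] at h2
  linarith

lemma Bd_ge {η c : ℝ} (hη : 0 < η) (hc : 0 < c) {f : (Fin n → ℝ) → ℝ} (hf : ContDiff ℝ ∞ f)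
    {x : Fin n → ℝ} (hx : c ≤ gn f x) :
    1 / √(1 + η ^ 2 / c ^ 2) * (Asq f x / gn f x) ≤ Bd η f x := by
  have hpos := ww_pos hη f x
  have hg : 0 < gn f x := hc.trans_le hx
  have hA := asq_nonneg f hg
  have hr : 0 < √(1 + η ^ 2 / c ^ 2) := Real.sqrt_pos.2 (by positivity)
  have h1 : ww η f x ≤ √(1 + η ^ 2 / c ^ 2) * gn f x := by
    refine (pow_le_pow_iff_left₀ hpos.le (by positivity) two_ne_zero).1 ?_
    rw [mul_pow, Real.sq_sqrt (by positivity), ww_sq']
    have h2 : η ^ 2 ≤ η ^ 2 / c ^ 2 * gn f x ^ 2 := by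
      rw [div_mul_eq_mul_div, le_div_iff₀ (by positivity)]
      exact mul_le_mul_of_nonneg_left (pow_le_pow_left₀ hc.le hx 2) (sq_nonneg _)
    linarith
  have h3 : 1 / √(1 + η ^ 2 / c ^ 2) * (Asq f x / gn f x) ≤ Asq f x / ww η f x := by
    rw [div_mul_div_comm, one_mul]
    exact div_le_div_of_nonneg_left hA hpos h1
  refine h3.trans ?_
  unfold Bd
  refine div_le_div_of_nonneg_right ?_ hpos.le
  rw [asq_eq]
  refine sub_le_sub_left (Finset.sum_le_sum fun j _ => ?_) _
  rw [← ww_Dsq hη hf j x, le_div_iff₀ (by positivity)]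
  refine mul_le_mul_of_nonneg_left ?_ (sq_nonneg _)
  rw [ww_sq']
  linarith [sq_nonneg η]

/-! ### symmetry -/

lemma ww_evn (hS : SymFacts) (η : ℝ) {f : (Fin n → ℝ) → ℝ} (hf : ContDiff ℝ ∞ f)
    (hsym : Sym f) (k : Fin n) : Evn (ww η f) k := by
  have hf1 : ContDiff ℝ 1 f := hf.of_le (by simp)
  intro x
  unfold ww
  refine congrArg _ (congrArg _ (Finset.sum_congr rfl fun i _ => ?_))
  by_cases hik : i = k
  · subst hik
    rw [hS.evn_same n f i hf1 (hsym.2 i) x, neg_sq]
  · rw [hS.evn_diff n f k i (fun h => hik h.symm) hf1 (hsym.2 k) x]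

lemma ww_per (hS : SymFacts) (η : ℝ) {f : (Fin n → ℝ) → ℝ} (hsym : Sym f) : Per (ww η f) := by
  intro x k
  unfold ww
  refine congrArg _ (congrArg _ (Finset.sum_congr rfl fun i _ => ?_))
  rw [hS.per n f i hsym.1 x k]

lemma lap_zero (hB : BoxFacts) (hS : SymFacts) {w : (Fin n → ℝ) → ℝ} (hw : ContDiff ℝ ∞ w)
    (hsym : Sym w) (j : Fin n) : ∫ x in Icc (0 : Fin n → ℝ) 1, D (D w j) j x = 0 := by
  have hw1 : ContDiff ℝ 1 w := hw.of_le (by simp)
  have hDw1 : ContDiff ℝ 1 (D w j) := (smooth_D hw j).of_le (by simp)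
  have h1 := hB.div n (D w j) j hDw1 (hS.per n w j hsym.1)
  have h2 := hB.half n (D (D w j) j) (cont_D hDw1 j) (fun k => by
    by_cases hjk : k = j
    · subst hjk
      exact hS.odd_same n (D w k) k hDw1 (hS.evn_same n w k hw1 (hsym.2 k))
    · exact hS.evn_diff n (D w j) k j hjk hDw1 (hS.evn_diff n w k j hjk hw1 (hsym.2 k)))
  rw [h1] at h2
  exact (mul_eq_zero.1 h2.symm).resolve_left (by positivity)

/-! ### the heat flow -/

lemma heat_sum (hA : HeatA) {ι : Type} (s : Finset ι) (σ : ℝ) {h : ι → (Fin n → ℝ) → ℝ}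
    (hc : ∀ i, Continuous (h i)) (hp : ∀ i, Per (h i)) (x : Fin n → ℝ) :
    heat σ (fun y => ∑ i ∈ s, h i y) x = ∑ i ∈ s, heat σ (h i) x := by
  classical
  induction s using Finset.induction_on with
  | empty => simpa using hA.const n σ 0 x
  | insert a s ha ih =>
    have h1 : (fun y => ∑ i ∈ insert a s, h i y) = fun y => h a y + ∑ i ∈ s, h i y := by
      funext y
      rw [Finset.sum_insert ha]
    rw [h1, hA.add n σ (h a) (fun y => ∑ i ∈ s, h i y) x (hc a) (hp a)
      (continuous_finsetSum _ fun i _ => hc i) (fun y k =>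
        Finset.sum_congr rfl fun i _ => hp i y k), ih, Finset.sum_insert ha]

section flow

variable (hA : HeatA) (hHB : HeatB) (hC : HeatC) (hB : BoxFacts) (hS : SymFacts)
  {g : (Fin n → ℝ) → ℝ} (hg : ContDiff ℝ ∞ g) (hsym : Sym g)

include hA hHB hg hsym in
lemma flow_smooth (s : ℝ) : ContDiff ℝ ∞ (heat s g) ∧ Sym (heat s g) :=
  ⟨hHB.smooth n s g hg hsym.1, hA.per n s g hsym.1, fun i => hA.evn n s g i (hsym.2 i)⟩

include hHB hg hsym in
lemma flow_D (s : ℝ) (i : Fin n) : D (heat s g) i = heat s (D g i) := by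
  funext x
  exact hHB.comm n s g i x (hg.of_le (by simp)) hsym.1

include hHB hg hsym hS in
lemma flow_DD (s : ℝ) (i j : Fin n) : D (D (heat s g) i) j = heat s (D (D g i) j) := by
  rw [flow_D hHB hg hsym s i]
  funext x
  exact hHB.comm n s (D g i) j x ((smooth_D hg i).of_le (by simp)) (hS.per n g i hsym.1)

include hHB hg hsym hS in
lemma flow_DDD (s : ℝ) (i j k : Fin n) :
    D (D (D (heat s g) i) j) k = heat s (D (D (D g i) j) k) := by
  rw [flow_DD hHB hS hg hsym s i j]
  funext x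
  exact hHB.comm n s (D (D g i) j) k x ((smooth_D (smooth_D hg i) j).of_le (by simp))
    (hS.per n _ j (hS.per n g i hsym.1))

include hA hHB hC hS hg hsym in
lemma flow_time (s : ℝ) (i : Fin n) (x : Fin n → ℝ) :
    HasDerivAt (fun s => D (heat s g) i x)
      (s * ∑ j, D (D (D (heat s g) i) j) j x) s := by
  have h1 := hC.time n s (D g i) x (smooth_D hg i) (hS.per n g i hsym.1)
  rw [heat_sum hA Finset.univ s (h := fun j => D (D (D g i) j) j)
    (fun j => cont_D ((smooth_D (smooth_D hg i) j).of_le (by simp)) j)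
    (fun j => hS.per n _ j (hS.per n _ j (hS.per n g i hsym.1))) x] at h1
  have h2 : (fun s => D (heat s g) i x) = fun s => heat s (D g i) x := by
    funext s
    rw [flow_D hHB hg hsym s i]
  rw [h2]
  have h3 : ∑ j, D (D (D (heat s g) i) j) j x = ∑ j, heat s (D (D (D g i) j) j) x :=
    Finset.sum_congr rfl fun j _ => by rw [flow_DDD hHB hS hg hsym s i j j]
  rw [h3]
  exact h1

/-- the time derivative of `ww` divided by the time -/
noncomputable def Aw (η : ℝ) (f : (Fin n → ℝ) → ℝ) (x : Fin n → ℝ) : ℝ :=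
  (∑ i, D f i x * ∑ j, D (D (D f i) j) j x) / ww η f x

include hA hHB hC hS hg hsym in
lemma ww_time {η : ℝ} (hη : 0 < η) (s : ℝ) (x : Fin n → ℝ) :
    HasDerivAt (fun s => ww η (heat s g) x) (s * Aw η (heat s g) x) s := by
  have h1 : HasDerivAt (fun s => η ^ 2 + ∑ i, D (heat s g) i x ^ 2)
      (∑ i, 2 * D (heat s g) i x * (s * ∑ j, D (D (D (heat s g) i) j) j x)) s := by
    have h2 : HasDerivAt (fun s => ∑ i, D (heat s g) i x ^ 2)
        (∑ i, 2 * D (heat s g) i x * (s * ∑ j, D (D (D (heat s g) i) j) j x)) s := by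
      refine HasDerivAt.fun_sum fun i _ => ?_
      have h3 := (flow_time hA hHB hC hS hg hsym s i x).fun_pow 2
      refine h3.congr_deriv ?_
      norm_num
    exact h2.const_add (η ^ 2)
  have hpos := ww_pos hη (heat s g) x
  have hne : η ^ 2 + ∑ i, D (heat s g) i x ^ 2 ≠ 0 :=
    (add_pos_of_pos_of_nonneg (by positivity)
      (Finset.sum_nonneg fun _ _ => sq_nonneg _)).ne'
  refine (h1.sqrt hne).congr_deriv ?_
  show _ / (2 * ww η (heat s g) x) = _
  unfold Aw
  have h4 : ∑ i, 2 * D (heat s g) i x * (s * ∑ j, D (D (D (heat s g) i) j) j x) =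
      2 * (s * ∑ i, D (heat s g) i x * ∑ j, D (D (D (heat s g) i) j) j x) := by
    rw [Finset.mul_sum, Finset.mul_sum]
    exact Finset.sum_congr rfl fun i _ => by ring
  rw [h4, mul_div_mul_left _ _ two_ne_zero, mul_div_assoc]

lemma cont_Aw {η : ℝ} (hη : 0 < η) {f : (Fin n → ℝ) → ℝ} (hf : ContDiff ℝ ∞ f) :
    Continuous (Aw η f) := by
  unfold Aw
  refine Continuous.div (continuous_finsetSum _ fun i _ => (smooth_D hf i).continuous.mul
    (continuous_finsetSum _ fun j _ => (smooth_D (smooth_D (smooth_D hf i) j) j).continuous))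
    (ww_smooth hη hf).continuous (fun x => (ww_pos hη f x).ne')

lemma cont_Bd {η : ℝ} (hη : 0 < η) {f : (Fin n → ℝ) → ℝ} (hf : ContDiff ℝ ∞ f) :
    Continuous (Bd η f) := by
  unfold Bd
  refine Continuous.div ((continuous_finsetSum _ fun i _ => continuous_finsetSum _ fun j _ =>
    (smooth_D (smooth_D hf i) j).continuous.pow 2).sub (continuous_finsetSum _ fun j _ =>
    (smooth_D (ww_smooth hη hf) j).continuous.pow 2))
    (ww_smooth hη hf).continuous (fun x => (ww_pos hη f x).ne')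

include hB hS in
lemma int_Aw {η : ℝ} (hη : 0 < η) {f : (Fin n → ℝ) → ℝ} (hf : ContDiff ℝ ∞ f) (hf' : Sym f) :
    ∫ x in Icc (0 : Fin n → ℝ) 1, Aw η f x = -∫ x in Icc (0 : Fin n → ℝ) 1, Bd η f x := by
  have hw := ww_smooth hη hf
  have hws : Sym (ww η f) := ⟨ww_per hS η hf', ww_evn hS η hf hf'⟩
  have h1 : ∀ x, Aw η f x = ∑ j, D (D (ww η f) j) j x - Bd η f x := fun x => ww_lap hη hf x
  have h2 : ∀ j, IntegrableOn (fun x => D (D (ww η f) j) j x) (Icc (0 : Fin n → ℝ) 1) :=
    fun j => intOn (smooth_D (smooth_D hw j) j).continuous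
  rw [setIntegral_congr_fun measurableSet_Icc (fun x _ => h1 x),
    integral_sub (integrable_finsetSum _ fun j _ => h2 j) (intOn (cont_Bd hη hf)),
    integral_finsetSum _ (fun j _ => h2 j),
    Finset.sum_eq_zero (fun j _ => lap_zero hB hS hw hws j), zero_sub]

include hA hHB hC hB hS hg hsym in
lemma F_deriv {η : ℝ} (hη : 0 < η) (s : ℝ) :
    HasDerivAt (fun s => ∫ x in Icc (0 : Fin n → ℝ) 1, ww η (heat s g) x)
      (-(s * ∫ x in Icc (0 : Fin n → ℝ) 1, Bd η (heat s g) x)) s := by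
  have hM : ∀ i : Fin n, ∃ M, ∀ y, |∑ j, D (D (D g i) j) j y| ≤ M := fun i =>
    hB.bdd n (fun y => ∑ j, D (D (D g i) j) j y) (continuous_finsetSum _ fun j _ =>
      (smooth_D (smooth_D (smooth_D hg i) j) j).continuous) (fun y k =>
        Finset.sum_congr rfl fun j _ => hS.per n _ j (hS.per n _ j (hS.per n g i hsym.1)) y k)
  choose M hM using hM
  have hbd : ∀ (t : ℝ) (i : Fin n) (x : Fin n → ℝ),
      |∑ j, D (D (D (heat t g) i) j) j x| ≤ M i := by
    intro t i x
    have h1 := hA.bound n t (M i) (fun y => ∑ j, D (D (D g i) j) j y) x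
      (continuous_finsetSum _ fun j _ => (smooth_D (smooth_D (smooth_D hg i) j) j).continuous)
      (fun y k => Finset.sum_congr rfl fun j _ =>
        hS.per n _ j (hS.per n _ j (hS.per n g i hsym.1)) y k) (hM i)
    rw [heat_sum hA Finset.univ t (h := fun j => D (D (D g i) j) j)
      (fun j => (smooth_D (smooth_D (smooth_D hg i) j) j).continuous)
      (fun j => hS.per n _ j (hS.per n _ j (hS.per n g i hsym.1))) x] at h1
    have h3 : ∑ j, D (D (D (heat t g) i) j) j x = ∑ j, heat t (D (D (D g i) j) j) x :=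
      Finset.sum_congr rfl fun j _ => by rw [flow_DDD hHB hS hg hsym t i j j]
    rw [h3]
    exact h1
  have hAw : ∀ (t : ℝ) (x : Fin n → ℝ), |Aw η (heat t g) x| ≤ ∑ i, M i := by
    intro t x
    have hpos := ww_pos hη (heat t g) x
    unfold Aw
    rw [abs_div, abs_of_pos hpos, div_le_iff₀ hpos, Finset.sum_mul]
    refine (Finset.abs_sum_le_sum_abs _ _).trans (Finset.sum_le_sum fun i _ => ?_)
    rw [abs_mul, mul_comm]
    exact mul_le_mul (hbd t i x) ((abs_D_le _ i x).trans (gn_le_ww η _ x)) (abs_nonneg _)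
      ((abs_nonneg _).trans (hbd t i x))
  have key := hasDerivAt_integral_of_dominated_loc_of_deriv_le
    (μ := volume.restrict (Icc (0 : Fin n → ℝ) 1)) (F := fun t x => ww η (heat t g) x)
    (F' := fun t x => t * Aw η (heat t g) x) (x₀ := s) (s := Metric.ball s 1)
    (bound := fun _ => (|s| + 1) * ∑ i, M i) (Metric.ball_mem_nhds s one_pos)
    (Eventually.of_forall fun t => (ww_smooth hη
      (flow_smooth hA hHB hg hsym t).1).continuous.aestronglyMeasurable)
    (intOn (ww_smooth hη (flow_smooth hA hHB hg hsym s).1).continuous)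
    ((continuous_const.mul (cont_Aw hη
      (flow_smooth hA hHB hg hsym s).1)).aestronglyMeasurable)
    (Eventually.of_forall fun x t ht => by
      rw [Real.norm_eq_abs, abs_mul]
      have h1 : |t| ≤ |s| + 1 := by
        have h2 : |t - s| < 1 := by
          rw [← Real.dist_eq]; exact ht
        have h3 : |t| ≤ |s| + |t - s| := by
          have := abs_add_le s (t - s)
          rwa [add_sub_cancel] at this
        linarith
      exact mul_le_mul h1 (hAw t x) (abs_nonneg _) (by positivity))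
    (intOn continuous_const)
    (Eventually.of_forall fun x t _ => ww_time hA hHB hC hS hg hsym hη t x)
  refine key.2.congr_deriv ?_
  rw [integral_const_mul, int_Aw hB hS hη (flow_smooth hA hHB hg hsym s).1
    (flow_smooth hA hHB hg hsym s).2]
  ring

end flow

end ww

/-- **CUBE S_diss** -/
theorem s_diss (hA : HeatA) (hHB : HeatB) (hC : HeatC) (hB : BoxFacts) (hS : SymFacts) :
    S_diss := by
  intro n g hg hsym σ₀ σ₁ L c hσ₀ hσ hc hyp
  -- the estimate for a fixed `η`
  have main : ∀ η : ℝ, 0 < η → 1 / √(1 + η ^ 2 / c ^ 2) * L * (σ₁ ^ 2 - σ₀ ^ 2) / 2 ≤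
      TV (heat σ₀ g) + η - TV (heat σ₁ g) := by
    intro η hη
    set r : ℝ := 1 / √(1 + η ^ 2 / c ^ 2) with hr
    have hr0 : 0 < r := by
      have : 0 < √(1 + η ^ 2 / c ^ 2) := Real.sqrt_pos.2 (by positivity)
      positivity
    set F : ℝ → ℝ := fun s => ∫ x in Icc (0 : Fin n → ℝ) 1, ww η (heat s g) x with hF
    have hder : ∀ s, HasDerivAt (fun s => F s + r * L * s ^ 2 / 2)
        (-(s * ∫ x in Icc (0 : Fin n → ℝ) 1, Bd η (heat s g) x) + r * L * s) s := by
      intro s
      refine (F_deriv hA hHB hC hB hS hg hsym hη s).add ?_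
      have h1 := ((hasDerivAt_pow 2 s).const_mul (r * L)).div_const 2
      refine h1.congr_deriv ?_
      norm_num
      ring
    have hanti : AntitoneOn (fun s => F s + r * L * s ^ 2 / 2) (Icc σ₀ σ₁) := by
      refine antitoneOn_of_deriv_nonpos (convex_Icc _ _)
        (fun s _ => (hder s).continuousAt.continuousWithinAt)
        (fun s _ => (hder s).differentiableAt.differentiableWithinAt) ?_
      intro s hs
      rw [(hder s).deriv]
      rw [interior_Icc] at hs
      have hs0 : 0 < s := hσ₀.trans hs.1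
      obtain ⟨θ, hθm, hθ01, hθc, hθL⟩ := hyp s ⟨hs.1.le, hs.2.le⟩
      have hfs := flow_smooth hA hHB hg hsym s
      have h1 : r * L ≤ ∫ x in Icc (0 : Fin n → ℝ) 1, Bd η (heat s g) x := by
        have h2 : ∀ x, 0 ≤ r * (θ x * (Asq (heat s g) x / gn (heat s g) x)) ∧
            r * (θ x * (Asq (heat s g) x / gn (heat s g) x)) ≤ Bd η (heat s g) x := by
          intro x
          have hBn := Bd_nonneg hη hfs.1 x
          by_cases h0 : θ x = 0
          · rw [h0, zero_mul, mul_zero]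
            exact ⟨le_refl _, hBn⟩
          · have h3 := hθc x h0
            have hgp : 0 < gn (heat s g) x := hc.trans_le h3
            have h4 : 0 ≤ Asq (heat s g) x / gn (heat s g) x :=
              div_nonneg (asq_nonneg _ hgp) hgp.le
            have h5 := Bd_ge hη hc hfs.1 h3
            have h6 : 0 ≤ r * (Asq (heat s g) x / gn (heat s g) x) := mul_nonneg hr0.le h4
            refine ⟨mul_nonneg hr0.le (mul_nonneg (hθ01 x).1 h4), ?_⟩
            calc r * (θ x * (Asq (heat s g) x / gn (heat s g) x)) =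
                  θ x * (r * (Asq (heat s g) x / gn (heat s g) x)) := by ring
              _ ≤ 1 * (r * (Asq (heat s g) x / gn (heat s g) x)) :=
                  mul_le_mul_of_nonneg_right (hθ01 x).2 h6
              _ ≤ Bd η (heat s g) x := by rw [one_mul]; exact h5
        have h3 := integral_mono_of_nonneg (μ := volume.restrict (Icc (0 : Fin n → ℝ) 1))
          (Eventually.of_forall fun x => (h2 x).1) (intOn (cont_Bd hη hfs.1))
          (Eventually.of_forall fun x => (h2 x).2)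
        rw [integral_const_mul] at h3
        exact (mul_le_mul_of_nonneg_left hθL hr0.le).trans h3
      have h5 : s * (r * L) ≤ s * ∫ x in Icc (0 : Fin n → ℝ) 1, Bd η (heat s g) x :=
        mul_le_mul_of_nonneg_left h1 hs0.le
      linarith
    have h6 := hanti (left_mem_Icc.2 hσ.le) (right_mem_Icc.2 hσ.le) hσ.le
    simp only at h6
    have hlow : TV (heat σ₁ g) ≤ F σ₁ := by
      have hfs := flow_smooth hA hHB hg hsym σ₁
      exact integral_mono (intOn (cont_gn (hfs.1.of_le (by simp))))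
        (intOn (ww_smooth hη hfs.1).continuous) (fun x => gn_le_ww η _ x)
    have hup : F σ₀ ≤ TV (heat σ₀ g) + η := by
      have hfs := flow_smooth hA hHB hg hsym σ₀
      have h7 : ∫ x in Icc (0 : Fin n → ℝ) 1, (gn (heat σ₀ g) x + η) =
          TV (heat σ₀ g) + η := by
        rw [integral_add (intOn (cont_gn (hfs.1.of_le (by simp)))) (intOn continuous_const)]
        congr 1
        rw [setIntegral_const, smul_eq_mul]
        have : (volume : Measure (Fin n → ℝ)).real (Icc 0 1) = 1 := by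
          rw [measureReal_def, Real.volume_Icc_pi_toReal (fun i => by simp)]
          simp
        rw [this, one_mul]
      rw [← h7]
      exact integral_mono (intOn (ww_smooth hη hfs.1).continuous)
        (intOn ((cont_gn (hfs.1.of_le (by simp))).add continuous_const))
        (fun x => ww_le hη _ x)
    linarith
  -- the limit
  have hlim1 : Tendsto (fun η : ℝ => 1 / √(1 + η ^ 2 / c ^ 2) * L * (σ₁ ^ 2 - σ₀ ^ 2) / 2)
      (𝓝[>] 0) (𝓝 (1 / √(1 + 0 ^ 2 / c ^ 2) * L * (σ₁ ^ 2 - σ₀ ^ 2) / 2)) := by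
    have hcont : Continuous (fun η : ℝ =>
        1 / √(1 + η ^ 2 / c ^ 2) * L * (σ₁ ^ 2 - σ₀ ^ 2) / 2) := by
      refine Continuous.div_const ((Continuous.mul (Continuous.mul (Continuous.div
        continuous_const ?_ ?_) continuous_const)) continuous_const) _
      · exact (continuous_const.add ((continuous_pow 2).div_const _)).sqrt
      · intro η
        exact (Real.sqrt_pos.2 (by positivity)).ne'
    exact (hcont.tendsto 0).mono_left nhdsWithin_le_nhds
  have hlim2 : Tendsto (fun η : ℝ => TV (heat σ₀ g) + η - TV (heat σ₁ g))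
      (𝓝[>] 0) (𝓝 (TV (heat σ₀ g) + 0 - TV (heat σ₁ g))) := by
    have hcont : Continuous (fun η : ℝ => TV (heat σ₀ g) + η - TV (heat σ₁ g)) := by fun_prop
    exact (hcont.tendsto 0).mono_left nhdsWithin_le_nhds
  have hfin := le_of_tendsto_of_tendsto hlim1 hlim2 (by
    filter_upwards [self_mem_nhdsWithin] with η hη
    exact main η hη)
  have e1 : √(1 + (0 : ℝ) ^ 2 / c ^ 2) = 1 := by
    rw [zero_pow two_ne_zero, zero_div, add_zero, Real.sqrt_one]
  rw [e1, div_one, one_mul, add_zero] at hfin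
  exact hfin

end Pool.Agent.H356.Cube
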