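import Pool.Agent.H194.Cube.Defs

set_option autoImplicit false

namespace Pool.Agent.H984.Cube

open Pool.Agent.H194.Cube
open Set Filter Topology
open scoped ContDiff

variable {n : ℕ}


theorem D_mul {f g : (Fin n → ℝ) → ℝ} {x : Fin n → ℝ} (j : Fin n) (hf : DifferentiableAt ℝ f x)
    (hg : DifferentiableAt ℝ g x) :
    D (fun y => f y * g y) j x = D f j x * g x + f x * D g j x := by
  unfold D
  rw [fderiv_fun_mul hf hg]
  simp only [add_apply, smul_apply, smul_eq_mul]
  ring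

theorem D_add {f g : (Fin n → ℝ) → ℝ} {x : Fin n → ℝ} (j : Fin n) (hf : DifferentiableAt ℝ f x)
    (hg : DifferentiableAt ℝ g x) :
    D (fun y => f y + g y) j x = D f j x + D g j x := by
  unfold D
  rw [fderiv_fun_add hf hg]
  simp only [add_apply]

theorem D_smul {f : (Fin n → ℝ) → ℝ} {x : Fin n → ℝ} (j : Fin n) (c : ℝ)
    (hf : DifferentiableAt ℝ f x) :
    D (fun y => c * f y) j x = c * D f j x := by
  unfold D
  rw [fderiv_const_mul hf]
  simp only [smul_apply, smul_eq_mul]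

theorem D_comp {h : ℝ → ℝ} {g : (Fin n → ℝ) → ℝ} {x : Fin n → ℝ} {h' : ℝ} (j : Fin n)
    (hh : HasDerivAt h h' (g x)) (hg : DifferentiableAt ℝ g x) :
    D (fun y => h (g y)) j x = h' * D g j x := by
  have h1 : HasFDerivAt (fun y => h (g y)) (h' • fderiv ℝ g x) x :=
    hh.comp_hasFDerivAt x hg.hasFDerivAt
  unfold D
  rw [h1.fderiv]
  simp only [smul_apply, smul_eq_mul]

theorem D_sum {ι : Type*} [Fintype ι] {x : Fin n → ℝ} (j : Fin n) (F : ι → (Fin n → ℝ) → ℝ)
    (hf : ∀ k, DifferentiableAt ℝ (F k) x) :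
    D (fun y => ∑ k, F k y) j x = ∑ k, D (F k) j x := by
  have h : HasFDerivAt (fun y => ∑ k, F k y) (∑ k, fderiv ℝ (F k) x) x :=
    HasFDerivAt.fun_sum fun k _ => (hf k).hasFDerivAt
  unfold D
  rw [h.fderiv]
  simp

theorem D_congr {f g : (Fin n → ℝ) → ℝ} {x : Fin n → ℝ} (j : Fin n) (h : f =ᶠ[𝓝 x] g) :
    D f j x = D g j x := by
  unfold D
  rw [h.fderiv_eq]

theorem D_zero {f : (Fin n → ℝ) → ℝ} {x : Fin n → ℝ} (j : Fin n) (h : ∀ᶠ y in 𝓝 x, f y = 0) :
    D f j x = 0 := by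
  have h1 : f =ᶠ[𝓝 x] fun _ => (0 : ℝ) := h
  rw [D_congr j h1]
  unfold D
  simp

theorem contDiff_D {f : (Fin n → ℝ) → ℝ} (hf : ContDiff ℝ ∞ f) (j : Fin n) :
    ContDiff ℝ ∞ (D f j) := by
  unfold D
  exact (hf.fderiv_right (m := ∞) (by simp)).clm_apply contDiff_const

theorem gn_nonneg (f : (Fin n → ℝ) → ℝ) (x : Fin n → ℝ) : 0 ≤ gn f x := Real.sqrt_nonneg _

theorem gn_mul_self (f : (Fin n → ℝ) → ℝ) (x : Fin n → ℝ) :
    gn f x * gn f x = ∑ j, D f j x * D f j x := by
  unfold gn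
  rw [Real.mul_self_sqrt (Finset.sum_nonneg fun j _ => sq_nonneg _)]
  exact Finset.sum_congr rfl fun j _ => sq _

theorem gn_sq (f : (Fin n → ℝ) → ℝ) (x : Fin n → ℝ) :
    gn f x ^ 2 = ∑ j, D f j x ^ 2 := by
  unfold gn
  rw [Real.sq_sqrt (Finset.sum_nonneg fun j _ => sq_nonneg _)]

theorem abs_D_le (f : (Fin n → ℝ) → ℝ) (j : Fin n) (x : Fin n → ℝ) : |D f j x| ≤ gn f x := by
  unfold gn
  apply Real.abs_le_sqrt
  exact Finset.single_le_sum (f := fun j => D f j x ^ 2) (fun j _ => sq_nonneg _)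
    (Finset.mem_univ j)

theorem gn_le_sum (f : (Fin n → ℝ) → ℝ) (x : Fin n → ℝ) (b : ℝ) (h : ∀ j, |D f j x| ≤ b) :
    gn f x ≤ n * b := by
  rcases Nat.eq_zero_or_pos n with h0 | h0
  · subst h0
    simp [gn]
  have hb : 0 ≤ b := (abs_nonneg _).trans (h ⟨0, h0⟩)
  have hn1 : (1 : ℝ) ≤ n := by exact_mod_cast h0
  unfold gn
  apply Real.sqrt_le_iff.mpr
  refine ⟨by positivity, ?_⟩
  calc ∑ j, D f j x ^ 2 ≤ ∑ _j : Fin n, b ^ 2 := by
        apply Finset.sum_le_sum
        intro j _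
        rw [← sq_abs (D f j x)]
        exact pow_le_pow_left₀ (abs_nonneg _) (h j) 2
    _ = n * b ^ 2 := by simp
    _ ≤ (n * b) ^ 2 := by nlinarith [sq_nonneg b, mul_nonneg (sub_nonneg.mpr hn1) (sq_nonneg b)]

theorem gn_continuous {f : (Fin n → ℝ) → ℝ} (hf : ContDiff ℝ ∞ f) : Continuous (gn f) := by
  unfold gn
  exact (continuous_finsetSum _ fun j _ => (contDiff_D hf j).continuous.pow 2).sqrt

theorem gn_contDiffAt {f : (Fin n → ℝ) → ℝ} (hf : ContDiff ℝ ∞ f) {x : Fin n → ℝ}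
    (hx : 0 < gn f x) : ContDiffAt ℝ ∞ (gn f) x := by
  unfold gn
  apply ContDiffAt.sqrt
  · exact (ContDiff.sum fun j _ => (contDiff_D hf j).pow 2).contDiffAt
  · intro h
    rw [gn, h, Real.sqrt_zero] at hx
    exact lt_irrefl _ hx

theorem Nn_contDiffAt {f : (Fin n → ℝ) → ℝ} (hf : ContDiff ℝ ∞ f) (i : Fin n) {x : Fin n → ℝ}
    (hx : 0 < gn f x) : ContDiffAt ℝ ∞ (Nn f i) x := by
  unfold Nn
  exact ((contDiff_D hf i).contDiffAt.div (gn_contDiffAt hf hx) hx.ne').neg

theorem Nn_mul_gn (f : (Fin n → ℝ) → ℝ) (i : Fin n) (x : Fin n → ℝ) :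
    Nn f i x * gn f x = -D f i x := by
  unfold Nn
  by_cases h : gn f x = 0
  · have h1 := abs_D_le f i x
    rw [h] at h1
    have h2 : D f i x = 0 := abs_eq_zero.mp (le_antisymm h1 (abs_nonneg _))
    rw [h2, h]
    simp
  · field_simp

theorem abs_Nn_le (f : (Fin n → ℝ) → ℝ) (i : Fin n) (x : Fin n → ℝ) : |Nn f i x| ≤ 1 := by
  unfold Nn
  rw [abs_neg, abs_div, abs_of_nonneg (gn_nonneg f x)]
  exact div_le_one_of_le₀ (abs_D_le f i x) (gn_nonneg f x)

theorem sum_Nn_sq {f : (Fin n → ℝ) → ℝ} {x : Fin n → ℝ} (hx : 0 < gn f x) :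
    ∑ i, Nn f i x ^ 2 = 1 := by
  have h1 : ∀ i, Nn f i x ^ 2 = D f i x ^ 2 / gn f x ^ 2 := by
    intro i
    unfold Nn
    rw [neg_sq, div_pow]
  rw [Finset.sum_congr rfl fun i _ => h1 i, ← Finset.sum_div, ← gn_sq]
  exact div_self (by positivity)

theorem D_gn {f : (Fin n → ℝ) → ℝ} (hf : ContDiff ℝ ∞ f) (j : Fin n) {x : Fin n → ℝ}
    (hx : 0 < gn f x) :
    gn f x * D (gn f) j x = ∑ k, D f k x * D (D f k) j x := by
  have hd : DifferentiableAt ℝ (gn f) x := (gn_contDiffAt hf hx).differentiableAt (by simp)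
  have h1 : D (fun y => gn f y * gn f y) j x = D (gn f) j x * gn f x + gn f x * D (gn f) j x :=
    D_mul j hd hd
  have h2 : (fun y => gn f y * gn f y) = fun y => ∑ k, D f k y * D f k y :=
    funext fun y => gn_mul_self f y
  have hk : ∀ k, DifferentiableAt ℝ (D f k) x := fun k =>
    (contDiff_D hf k).contDiffAt.differentiableAt (by simp)
  have h3 : D (fun y => ∑ k, D f k y * D f k y) j x
      = ∑ k, (D (D f k) j x * D f k x + D f k x * D (D f k) j x) := by
    rw [D_sum j (fun k y => D f k y * D f k y) fun k => (hk k).mul (hk k)]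
    exact Finset.sum_congr rfl fun k _ => D_mul j (hk k) (hk k)
  rw [h2, h3] at h1
  have h4 : ∑ k, (D (D f k) j x * D f k x + D f k x * D (D f k) j x)
      = 2 * ∑ k, D f k x * D (D f k) j x := by
    rw [Finset.mul_sum]
    exact Finset.sum_congr rfl fun k _ => by ring
  rw [h4] at h1
  linarith

theorem D_Nn {f : (Fin n → ℝ) → ℝ} (hf : ContDiff ℝ ∞ f) (i j : Fin n) {x : Fin n → ℝ}
    (hx : 0 < gn f x) :
    gn f x * D (Nn f i) j x = -D (D f i) j x - Nn f i x * D (gn f) j x := by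
  have hd : DifferentiableAt ℝ (gn f) x := (gn_contDiffAt hf hx).differentiableAt (by simp)
  have hN : DifferentiableAt ℝ (Nn f i) x := (Nn_contDiffAt hf i hx).differentiableAt (by simp)
  have hk : DifferentiableAt ℝ (D f i) x := (contDiff_D hf i).contDiffAt.differentiableAt (by simp)
  have h1 := D_mul j hN hd
  have h2 : (fun y => Nn f i y * gn f y) = fun y => (-1) * D f i y :=
    funext fun y => by rw [Nn_mul_gn]; ring
  rw [h2, D_smul j (-1) hk] at h1
  linarith

theorem abs_D_gn_le {f : (Fin n → ℝ) → ℝ} (hf : ContDiff ℝ ∞ f) (j : Fin n) {x : Fin n → ℝ}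
    (hx : 0 < gn f x) (b : ℝ) (hb : ∀ k, |D (D f k) j x| ≤ b) :
    |D (gn f) j x| ≤ n * b := by
  have h1 := D_gn hf j hx
  have h2 : |gn f x * D (gn f) j x| ≤ gn f x * (n * b) := by
    rw [h1]
    calc |∑ k, D f k x * D (D f k) j x| ≤ ∑ k, |D f k x * D (D f k) j x| :=
          Finset.abs_sum_le_sum_abs _ _
      _ ≤ ∑ _k : Fin n, gn f x * b := by
          apply Finset.sum_le_sum
          intro k _
          rw [abs_mul]
          exact mul_le_mul (abs_D_le f k x) (hb k) (abs_nonneg _) hx.le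
      _ = gn f x * (n * b) := by simp; ring
  rw [abs_mul, abs_of_pos hx] at h2
  exact le_of_mul_le_mul_left h2 hx

theorem abs_D_Nn_le {f : (Fin n → ℝ) → ℝ} (hf : ContDiff ℝ ∞ f) (i j : Fin n) {x : Fin n → ℝ}
    (hx : 0 < gn f x) (b : ℝ) (hb : ∀ k, |D (D f k) j x| ≤ b) :
    gn f x * |D (Nn f i) j x| ≤ b + n * b := by
  have h1 := D_Nn hf i j hx
  have h2 : gn f x * |D (Nn f i) j x| = |gn f x * D (Nn f i) j x| := by
    rw [abs_mul, abs_of_pos hx]
  rw [h2, h1]
  have h3 := abs_D_gn_le hf j hx b hb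
  calc |-D (D f i) j x - Nn f i x * D (gn f) j x|
      ≤ |-D (D f i) j x| + |Nn f i x * D (gn f) j x| := abs_sub _ _
    _ ≤ b + n * b := by
        rw [abs_neg, abs_mul]
        have := hb i
        have h4 : |Nn f i x| * |D (gn f) j x| ≤ 1 * (n * b) :=
          mul_le_mul (abs_Nn_le f i x) h3 (abs_nonneg _) zero_le_one
        linarith

/-! ### polynomials -/

theorem abs_af_le {v : ℝ} (hv : |v| ≤ 1) : |af v| ≤ 3 := by
  unfold af
  have h1 := abs_le.mp hv
  have hz : v ^ 2 ≤ 1 := by nlinarith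
  rw [abs_mul, abs_mul]
  have h2 : |1 - v ^ 2| ≤ 1 := by rw [abs_le]; constructor <;> nlinarith
  have h3 : |1 - 4 / 5 * v ^ 2 + 3 / 10 * v ^ 4| ≤ 3 := by
    rw [abs_le]
    constructor <;> nlinarith [sq_nonneg (v ^ 2), sq_nonneg v]
  calc |v| * |1 - v ^ 2| * |1 - 4 / 5 * v ^ 2 + 3 / 10 * v ^ 4| ≤ 1 * 1 * 3 := by gcongr
    _ = 3 := by norm_num

theorem abs_af'_le {v : ℝ} (hv : |v| ≤ 1) : |af' v| ≤ 14 := by
  unfold af'
  have h1 := abs_le.mp hv
  have hz : v ^ 2 ≤ 1 := by nlinarith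
  have h0 := sq_nonneg v
  have h4 : v ^ 4 ≤ 1 := by nlinarith [sq_nonneg (v ^ 2)]
  have h40 : 0 ≤ v ^ 4 := by positivity
  have h6 : v ^ 6 ≤ 1 := by
    have : v ^ 6 = v ^ 4 * v ^ 2 := by ring
    rw [this]; nlinarith
  have h60 : 0 ≤ v ^ 6 := by positivity
  rw [abs_le]
  constructor <;> nlinarith

theorem abs_ef_le {v : ℝ} (hv : |v| ≤ 1) : |ef v| ≤ 1 := by
  unfold ef
  have h3 : |v ^ 3| ≤ 1 := by rw [abs_pow]; exact pow_le_one₀ (abs_nonneg _) hv
  have h5 : |v ^ 5| ≤ 1 := by rw [abs_pow]; exact pow_le_one₀ (abs_nonneg _) hv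
  have := abs_le.mp h3
  have := abs_le.mp h5
  rw [abs_le]
  constructor <;> linarith

theorem abs_ef'_le {v : ℝ} (hv : |v| ≤ 1) : |ef' v| ≤ 3 := by
  unfold ef'
  have h3 : |v ^ 2| ≤ 1 := by rw [abs_pow]; exact pow_le_one₀ (abs_nonneg _) hv
  have h5 : |v ^ 4| ≤ 1 := by rw [abs_pow]; exact pow_le_one₀ (abs_nonneg _) hv
  have := abs_le.mp h3
  have := abs_le.mp h5
  rw [abs_le]
  constructor <;> linarith

theorem af_hasDerivAt (v : ℝ) : HasDerivAt af (af' v) v := by
  have h : HasDerivAt (fun v : ℝ => v * (1 - v ^ 2) * (1 - 4 / 5 * v ^ 2 + 3 / 10 * v ^ 4))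
      (af' v) v := by
    have h2 : HasDerivAt (fun v : ℝ => v ^ 2) (2 * v) v := by simpa using hasDerivAt_pow 2 v
    have h4 : HasDerivAt (fun v : ℝ => v ^ 4) (4 * v ^ 3) v := by simpa using hasDerivAt_pow 4 v
    have h5 := ((hasDerivAt_id v).mul ((hasDerivAt_const v (1 : ℝ)).sub h2)).mul
      (((hasDerivAt_const v (1 : ℝ)).sub (h2.const_mul (4 / 5))).add (h4.const_mul (3 / 10)))
    refine h5.congr_deriv ?_
    simp only [id, af', Pi.mul_apply, Pi.sub_apply, Pi.add_apply]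
    ring
  exact h

theorem ef_hasDerivAt (v : ℝ) : HasDerivAt ef (ef' v) v := by
  have h : HasDerivAt (fun v : ℝ => v ^ 3 / 3 - 3 / 10 * v ^ 5) (ef' v) v := by
    have h2 : HasDerivAt (fun v : ℝ => v ^ 3) (3 * v ^ 2) v := by simpa using hasDerivAt_pow 3 v
    have h4 : HasDerivAt (fun v : ℝ => v ^ 5) (5 * v ^ 4) v := by simpa using hasDerivAt_pow 5 v
    have h5 := (h2.div_const 3).sub (h4.const_mul (3 / 10))
    refine h5.congr_deriv ?_
    simp only [ef']
    ring
  exact h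

theorem af_contDiff : ContDiff ℝ ∞ af := by
  unfold af
  fun_prop

theorem ef_contDiff : ContDiff ℝ ∞ ef := by
  unfold ef
  fun_prop

/-! ### the algebraic core -/

theorem core_alg (i : Fin n) (N Dv Dt Dy : Fin n → ℝ) (v th k k' H A A' E E' : ℝ) (hv : v = N i)
    (hDy : ∀ j, Dy j = k * (2 * A * A' * Dv j * th + A ^ 2 * Dt j) +
      (if j = i then k' * (A ^ 2 * th) else 0) + H * (E' * Dv j * th + E * Dt j)) :
    Dy i - ∑ j, v * N j * Dy j =
      th * (k * (2 * A * A') + H * E') * (Dv i - ∑ j, v * N j * Dv j) +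
      (k * A ^ 2 + H * E) * (Dt i - ∑ j, v * N j * Dt j) + k' * A ^ 2 * th * (1 - v ^ 2) := by
  have h1 : ∑ j, v * N j * Dy j =
      th * (k * (2 * A * A') + H * E') * (∑ j, v * N j * Dv j) +
      (k * A ^ 2 + H * E) * (∑ j, v * N j * Dt j) + v ^ 2 * (k' * (A ^ 2 * th)) := by
    have h2 : ∀ j, v * N j * Dy j = th * (k * (2 * A * A') + H * E') * (v * N j * Dv j) +
        (k * A ^ 2 + H * E) * (v * N j * Dt j) +
        (if j = i then v ^ 2 * (k' * (A ^ 2 * th)) else 0) := by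
      intro j
      rw [hDy j]
      split_ifs with h
      · rw [h, ← hv]; ring
      · ring
    rw [Finset.sum_congr rfl fun j _ => h2 j, Finset.sum_add_distrib, Finset.sum_add_distrib,
      ← Finset.mul_sum, ← Finset.mul_sum, Finset.sum_ite_eq' Finset.univ i]
    simp
  rw [h1, hDy i, if_pos rfl]
  ring

theorem core_cs (i : Fin n) (N Dv : Fin n → ℝ) (v : ℝ) (hv : v = N i) (hN : ∑ j, N j ^ 2 = 1) :
    (Dv i - ∑ j, v * N j * Dv j) ^ 2 ≤ (1 - v ^ 2) * ∑ j, Dv j ^ 2 := by
  have h1 : Dv i - ∑ j, v * N j * Dv j = ∑ j, ((if j = i then 1 else 0) - v * N j) * Dv j := by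
    simp only [sub_mul, Finset.sum_sub_distrib, ite_mul, one_mul, zero_mul]
    simp
  have h2 : ∑ j, ((if j = i then (1 : ℝ) else 0) - v * N j) ^ 2 = 1 - v ^ 2 := by
    have h3 : ∀ j, ((if j = i then (1 : ℝ) else 0) - v * N j) ^ 2 =
        (if j = i then (1 - 2 * v * v) else 0) + v ^ 2 * N j ^ 2 := by
      intro j
      split_ifs with h
      · rw [h, ← hv]; ring
      · ring
    rw [Finset.sum_congr rfl fun j _ => h3 j, Finset.sum_add_distrib, ← Finset.mul_sum, hN]
    simp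
    ring
  rw [h1, ← h2]
  exact Finset.sum_mul_sq_le_sq_mul_sq _ _ _

theorem core_final (hpw : S_pw) (v k H p g2 s th : ℝ) (hv : |v| ≤ 1) (hH : 30 ≤ H) (hp : 0 ≤ p)
    (hp' : p ≤ Real.pi) (hth : 0 ≤ th) (hg : 0 ≤ g2) (hs : s ^ 2 ≤ (1 - v ^ 2) * g2) :
    th * (k * (2 * af v * af' v) + H * ef' v) * s + (-(p ^ 2 + k ^ 2)) * af v ^ 2 * th * (1 - v ^ 2)
      - H * v * (th * (k * af v ^ 2 + H * ef v)) ≤ th * (g2 - (p ^ 2 * v ^ 2 + v ^ 4)) := by
  obtain ⟨hv1, hv2⟩ := abs_le.mp hv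
  have h1 := hpw v k H p hv1 hv2 hH hp hp'
  set P := k * (2 * af v * af' v) + H * ef' v with hP
  have hz : 0 ≤ 1 - v ^ 2 := by nlinarith
  have h2 : P * s ≤ g2 + (1 - v ^ 2) / 4 * P ^ 2 := by
    have h3 : (P * s) ^ 2 ≤ (g2 + (1 - v ^ 2) / 4 * P ^ 2) ^ 2 := by
      have h4 : (P * s) ^ 2 ≤ P ^ 2 * ((1 - v ^ 2) * g2) := by
        rw [mul_pow]
        exact mul_le_mul_of_nonneg_left hs (sq_nonneg _)
      nlinarith [sq_nonneg (g2 - (1 - v ^ 2) / 4 * P ^ 2)]
    have h5 : 0 ≤ g2 + (1 - v ^ 2) / 4 * P ^ 2 := by positivity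
    exact (abs_le_of_sq_le_sq h3 h5 |> fun h => (le_abs_self _).trans h)
  have h6 : P * s + (-(p ^ 2 + k ^ 2)) * af v ^ 2 * (1 - v ^ 2)
      - H * v * (k * af v ^ 2 + H * ef v) ≤ g2 - (p ^ 2 * v ^ 2 + v ^ 4) := by
    nlinarith
  have h7 := mul_le_mul_of_nonneg_left h6 hth
  nlinarith

theorem per_int {g : (Fin n → ℝ) → ℝ} (hP : Per g) (i : Fin n) (k : ℤ) (x : Fin n → ℝ) :
    g (x + k • (Pi.single i (2 : ℝ) : Fin n → ℝ)) = g x := by
  have h : Function.Periodic g (Pi.single i (2 : ℝ) : Fin n → ℝ) := fun x => hP x i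
  exact h.zsmul k x

theorem odd_int {g : (Fin n → ℝ) → ℝ} (hP : Per g) {i : Fin n} (hO : Odd' g i) {x : Fin n → ℝ}
    (k : ℤ) (hx : x i = (k : ℝ)) : g x = 0 := by
  have h1 := hO x
  have h2 : Function.update x i (-x i) = x + (-k) • (Pi.single i (2 : ℝ) : Fin n → ℝ) := by
    funext j
    by_cases h : j = i
    · subst h
      simp [hx]
      ring
    · simp [Function.update_of_ne h, Pi.single_eq_of_ne h]
  rw [h2, per_int hP] at h1
  linarith

theorem gn_evn {f : (Fin n → ℝ) → ℝ} (hs : SymFacts) (hf : ContDiff ℝ 1 f) (i : Fin n)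
    (he : Evn f i) (x : Fin n → ℝ) : gn f (Function.update x i (-x i)) = gn f x := by
  unfold gn
  congr 1
  apply Finset.sum_congr rfl
  intro j _
  by_cases h : j = i
  · subst h
    rw [hs.evn_same n f j hf he x, neg_sq]
  · rw [hs.evn_diff n f i j (Ne.symm h) hf he x]

theorem gn_per {f : (Fin n → ℝ) → ℝ} (hs : SymFacts) (hP : Per f) : Per (gn f) := by
  intro x i
  unfold gn
  congr 1
  apply Finset.sum_congr rfl
  intro j _
  rw [hs.per n f j hP x i]

theorem Nn_per {f : (Fin n → ℝ) → ℝ} (hs : SymFacts) (hP : Per f) (i : Fin n) :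
    Per (Nn f i) := by
  intro x j
  unfold Nn
  rw [hs.per n f i hP x j, gn_per hs hP x j]

theorem Nn_odd {f : (Fin n → ℝ) → ℝ} (hs : SymFacts) (hf : ContDiff ℝ 1 f) (i : Fin n)
    (he : Evn f i) : Odd' (Nn f i) i := by
  intro x
  unfold Nn
  rw [hs.evn_same n f i hf he x, gn_evn hs hf i he x, neg_div, neg_neg]

theorem Nn_evn {f : (Fin n → ℝ) → ℝ} (hs : SymFacts) (hf : ContDiff ℝ 1 f) (i j : Fin n)
    (hij : j ≠ i) (he : Evn f j) : Evn (Nn f i) j := by
  intro x
  unfold Nn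
  rw [hs.evn_diff n f j i hij hf he x, gn_evn hs hf j he x]

theorem af_neg (v : ℝ) : af (-v) = -af v := by unfold af; ring
theorem ef_neg (v : ℝ) : ef (-v) = -ef v := by unfold ef; ring

section loc

variable {f : (Fin n → ℝ) → ℝ} {σ c : ℝ}

theorem ev_small (hf : ContDiff ℝ ∞ f) {x : Fin n → ℝ}
    (hx : σ * gn f x < c) : ∀ᶠ y in 𝓝 x, σ * gn f y < c :=
  (continuous_const.mul (gn_continuous hf)).continuousAt.eventually_lt continuousAt_const hx

theorem contDiff_of (hf : ContDiff ℝ ∞ f) (hσ : 0 < σ) (hc : 0 < c)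
    (F : (Fin n → ℝ) → ℝ) (h1 : ∀ x, 0 < gn f x → ContDiffAt ℝ 1 F x)
    (h2 : ∀ x, σ * gn f x < c → F x = 0) : ContDiff ℝ 1 F := by
  rw [contDiff_iff_contDiffAt]
  intro x
  by_cases hx : 0 < gn f x
  · exact h1 x hx
  · have h0 : gn f x = 0 := le_antisymm (not_lt.mp hx) (gn_nonneg f x)
    have hev := ev_small (σ := σ) (c := c) hf (x := x) (by rw [h0, mul_zero]; exact hc)
    have h3 : F =ᶠ[𝓝 x] fun _ => (0 : ℝ) := hev.mono fun y hy => h2 y hy
    exact contDiffAt_const.congr_of_eventuallyEq h3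

end loc

/-- the cut-off -/
noncomputable def th (χ ζ : ℝ → ℝ) (σ : ℝ) (f : (Fin n → ℝ) → ℝ) (x : Fin n → ℝ) : ℝ :=
  χ (f x) * ζ (σ * gn f x)

noncomputable def qf (χ ζ : ℝ → ℝ) (σ : ℝ) (f : (Fin n → ℝ) → ℝ) (i : Fin n)
    (x : Fin n → ℝ) : ℝ := af (Nn f i x) ^ 2 * th χ ζ σ f x

noncomputable def rf (χ ζ : ℝ → ℝ) (σ : ℝ) (f : (Fin n → ℝ) → ℝ) (i : Fin n)
    (x : Fin n → ℝ) : ℝ := ef (Nn f i x) * th χ ζ σ f x

section thms

variable {f : (Fin n → ℝ) → ℝ} {σ c : ℝ} {χ ζ : ℝ → ℝ}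

theorem th_contDiffAt (hf : ContDiff ℝ ∞ f) (hχ : ContDiff ℝ 1 χ) (hζ : ContDiff ℝ 1 ζ)
    {x : Fin n → ℝ} (hx : 0 < gn f x) : ContDiffAt ℝ 1 (th χ ζ σ f) x := by
  unfold th
  have h1 : ContDiffAt ℝ 1 (fun x => χ (f x)) x :=
    (hχ.comp (hf.of_le (by exact_mod_cast le_top))).contDiffAt
  have h2 : ContDiffAt ℝ 1 (fun x => σ * gn f x) x :=
    contDiffAt_const.mul ((gn_contDiffAt hf hx).of_le (by exact_mod_cast le_top))
  have h3 : ContDiffAt ℝ 1 (fun x => ζ (σ * gn f x)) x :=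
    ContDiffAt.comp x (hζ.contDiffAt) h2
  exact h1.mul h3

theorem D_th (hf : ContDiff ℝ ∞ f) (hχ : ContDiff ℝ 1 χ) (hζ : ContDiff ℝ 1 ζ) (j : Fin n)
    {x : Fin n → ℝ} (hx : 0 < gn f x) :
    D (th χ ζ σ f) j x = deriv χ (f x) * D f j x * ζ (σ * gn f x) +
      χ (f x) * (deriv ζ (σ * gn f x) * (σ * D (gn f) j x)) := by
  have hfd : DifferentiableAt ℝ f x := hf.contDiffAt.differentiableAt (by simp)
  have hd : DifferentiableAt ℝ (gn f) x := (gn_contDiffAt hf hx).differentiableAt (by simp)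
  have h1 : D (fun y => χ (f y)) j x = deriv χ (f x) * D f j x :=
    D_comp j (hχ.contDiffAt.differentiableAt (by simp)).hasDerivAt hfd
  have hσd : DifferentiableAt ℝ (fun y => σ * gn f y) x := hd.const_mul σ
  have h2 : D (fun y => ζ (σ * gn f y)) j x
      = deriv ζ (σ * gn f x) * D (fun y => σ * gn f y) j x :=
    D_comp j (h := ζ) (g := fun y => σ * gn f y)
      (hζ.contDiffAt.differentiableAt (by simp)).hasDerivAt hσd
  have h3 : DifferentiableAt ℝ (fun y => χ (f y)) x :=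
    (hχ.contDiffAt.differentiableAt (by simp)).comp x hfd
  have h4 : DifferentiableAt ℝ (fun y => ζ (σ * gn f y)) x :=
    DifferentiableAt.comp x (hζ.contDiffAt.differentiableAt (by simp)) hσd
  have h5 := D_mul j h3 h4
  rw [h1, h2, D_smul j σ hd] at h5
  exact h5

theorem qf_contDiffAt (hf : ContDiff ℝ ∞ f) (hχ : ContDiff ℝ 1 χ) (hζ : ContDiff ℝ 1 ζ)
    (i : Fin n) {x : Fin n → ℝ} (hx : 0 < gn f x) : ContDiffAt ℝ 1 (qf χ ζ σ f i) x := by
  unfold qf
  have h1 : ContDiffAt ℝ 1 (Nn f i) x := (Nn_contDiffAt hf i hx).of_le (by exact_mod_cast le_top)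
  have h2 : ContDiffAt ℝ 1 (fun x => af (Nn f i x)) x :=
    ContDiffAt.comp x ((af_contDiff.of_le (by exact_mod_cast le_top)).contDiffAt) h1
  exact (h2.pow 2).mul (th_contDiffAt hf hχ hζ hx)

theorem rf_contDiffAt (hf : ContDiff ℝ ∞ f) (hχ : ContDiff ℝ 1 χ) (hζ : ContDiff ℝ 1 ζ)
    (i : Fin n) {x : Fin n → ℝ} (hx : 0 < gn f x) : ContDiffAt ℝ 1 (rf χ ζ σ f i) x := by
  unfold rf
  have h1 : ContDiffAt ℝ 1 (Nn f i) x := (Nn_contDiffAt hf i hx).of_le (by exact_mod_cast le_top)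
  have h2 : ContDiffAt ℝ 1 (fun x => ef (Nn f i x)) x :=
    ContDiffAt.comp x ((ef_contDiff.of_le (by exact_mod_cast le_top)).contDiffAt) h1
  exact h2.mul (th_contDiffAt hf hχ hζ hx)

theorem D_qf (hf : ContDiff ℝ ∞ f) (hχ : ContDiff ℝ 1 χ) (hζ : ContDiff ℝ 1 ζ)
    (i j : Fin n) {x : Fin n → ℝ} (hx : 0 < gn f x) :
    D (qf χ ζ σ f i) j x = 2 * af (Nn f i x) * af' (Nn f i x) * D (Nn f i) j x * th χ ζ σ f x +
      af (Nn f i x) ^ 2 * D (th χ ζ σ f) j x := by
  have h0 : DifferentiableAt ℝ (Nn f i) x := (Nn_contDiffAt hf i hx).differentiableAt (by simp)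
  have ht : DifferentiableAt ℝ (th χ ζ σ f) x :=
    (th_contDiffAt hf hχ hζ hx).differentiableAt (by simp)
  have h1 : HasDerivAt (fun v => af v ^ 2) (2 * af (Nn f i x) * af' (Nn f i x)) (Nn f i x) := by
    have := (af_hasDerivAt (Nn f i x)).pow 2
    refine this.congr_deriv ?_
    simp
  have h2 : D (fun y => af (Nn f i y) ^ 2) j x
      = 2 * af (Nn f i x) * af' (Nn f i x) * D (Nn f i) j x := D_comp j h1 h0
  have h3 : DifferentiableAt ℝ (fun y => af (Nn f i y) ^ 2) x :=
    DifferentiableAt.comp x h1.differentiableAt h0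
  have h4 := D_mul j h3 ht
  rw [h2] at h4
  exact h4

theorem D_rf (hf : ContDiff ℝ ∞ f) (hχ : ContDiff ℝ 1 χ) (hζ : ContDiff ℝ 1 ζ)
    (i j : Fin n) {x : Fin n → ℝ} (hx : 0 < gn f x) :
    D (rf χ ζ σ f i) j x = ef' (Nn f i x) * D (Nn f i) j x * th χ ζ σ f x +
      ef (Nn f i x) * D (th χ ζ σ f) j x := by
  have h0 : DifferentiableAt ℝ (Nn f i) x := (Nn_contDiffAt hf i hx).differentiableAt (by simp)
  have ht : DifferentiableAt ℝ (th χ ζ σ f) x :=
    (th_contDiffAt hf hχ hζ hx).differentiableAt (by simp)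
  have h2 : D (fun y => ef (Nn f i y)) j x
      = ef' (Nn f i x) * D (Nn f i) j x := D_comp j (ef_hasDerivAt _) h0
  have h3 : DifferentiableAt ℝ (fun y => ef (Nn f i y)) x :=
    DifferentiableAt.comp x (ef_hasDerivAt _).differentiableAt h0
  have h4 := D_mul j h3 ht
  rw [h2] at h4
  exact h4

variable (hζ0 : ∀ t, t ≤ c → ζ t = 0)

include hζ0 in
theorem th_zero {x : Fin n → ℝ} (hx : σ * gn f x < c) : th χ ζ σ f x = 0 := by
  unfold th
  rw [hζ0 _ hx.le, mul_zero]

include hζ0 in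
theorem qf_zero (i : Fin n) {x : Fin n → ℝ} (hx : σ * gn f x < c) : qf χ ζ σ f i x = 0 := by
  unfold qf
  rw [th_zero hζ0 hx, mul_zero]

include hζ0 in
theorem rf_zero (i : Fin n) {x : Fin n → ℝ} (hx : σ * gn f x < c) : rf χ ζ σ f i x = 0 := by
  unfold rf
  rw [th_zero hζ0 hx, mul_zero]

include hζ0 in
theorem D_qf_zero (hf : ContDiff ℝ ∞ f) (i j : Fin n) {x : Fin n → ℝ} (hx : σ * gn f x < c) :
    D (qf χ ζ σ f i) j x = 0 :=
  D_zero j ((ev_small hf hx).mono fun _ hy => qf_zero hζ0 i hy)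

include hζ0 in
theorem D_rf_zero (hf : ContDiff ℝ ∞ f) (i j : Fin n) {x : Fin n → ℝ} (hx : σ * gn f x < c) :
    D (rf χ ζ σ f i) j x = 0 :=
  D_zero j ((ev_small hf hx).mono fun _ hy => rf_zero hζ0 i hy)

end thms

/-! ### bounds -/

theorem bnd_q (A A' Dv Dt t b d : ℝ) (hA : |A| ≤ 3) (hA' : |A'| ≤ 14) (hDv : |Dv| ≤ b)
    (ht : |t| ≤ 1) (hDt : |Dt| ≤ d) : |2 * A * A' * Dv * t + A ^ 2 * Dt| ≤ 84 * b + 9 * d := by
  have hb : 0 ≤ b := (abs_nonneg _).trans hDv
  have hd : 0 ≤ d := (abs_nonneg _).trans hDt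
  calc |2 * A * A' * Dv * t + A ^ 2 * Dt| ≤ |2 * A * A' * Dv * t| + |A ^ 2 * Dt| := abs_add_le _ _
    _ = 2 * |A| * |A'| * |Dv| * |t| + |A| ^ 2 * |Dt| := by
        simp only [abs_mul, abs_pow, abs_two]
    _ ≤ 2 * 3 * 14 * b * 1 + 3 ^ 2 * d := by gcongr
    _ = 84 * b + 9 * d := by ring

theorem bnd_r (A A' Dv Dt t b d : ℝ) (hA : |A| ≤ 1) (hA' : |A'| ≤ 3) (hDv : |Dv| ≤ b)
    (ht : |t| ≤ 1) (hDt : |Dt| ≤ d) : |A' * Dv * t + A * Dt| ≤ 3 * b + d := by
  have hb : 0 ≤ b := (abs_nonneg _).trans hDv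
  have hd : 0 ≤ d := (abs_nonneg _).trans hDt
  calc |A' * Dv * t + A * Dt| ≤ |A' * Dv * t| + |A * Dt| := abs_add_le _ _
    _ = |A'| * |Dv| * |t| + |A| * |Dt| := by
        simp only [abs_mul]
    _ ≤ 3 * b * 1 + 1 * d := by gcongr
    _ = 3 * b + d := by ring

theorem field (hpw : S_pw) (hglue : S_glue) (hkappa : S_kappa) (hs : SymFacts) : S_field := by
  intro n H p c M χ ζ hn hH hp hpπ hc hχ hζ hχ01 hζ01 hχM hζM hζ0 hζ1
  obtain ⟨κ, κ', B, hκodd, hκper, hκB, hκder, hκcont, hκric⟩ := hkappa p hp hpπ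
  have hB : 0 ≤ B := (abs_nonneg _).trans (hκB 0).1
  have hM : 0 ≤ M := (abs_nonneg _).trans (hχM 0)
  have hH0 : 0 ≤ H := by linarith
  have hn0 : (0 : ℝ) ≤ n := Nat.cast_nonneg n
  -- constants
  obtain ⟨dθ, hdθ⟩ : ∃ dθ : ℝ, dθ = M * (1 + 2 * n) := ⟨_, rfl⟩
  obtain ⟨dv, hdv⟩ : ∃ dv : ℝ, dv = (2 + 2 * n) / c := ⟨_, rfl⟩
  have hdθ0 : 0 ≤ dθ := by rw [hdθ]; positivity
  have hdv0 : 0 ≤ dv := by rw [hdv]; positivity
  obtain ⟨K2, hK2⟩ : ∃ K2 : ℝ,
    K2 = B * (84 * dv + 9 * dθ) + 9 * B + H * (3 * dv + dθ) := ⟨_, rfl⟩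
  have hK20 : 0 ≤ K2 := by rw [hK2]; positivity
  obtain ⟨K3, hK3⟩ : ∃ K3 : ℝ, K3 = (9 * B + H) * (4 * n ^ 2 * M) := ⟨_, rfl⟩
  have hK30 : 0 ≤ K3 := by rw [hK3]; positivity
  refine ⟨1 + n * K2 + K3, by positivity, ?_⟩
  intro σ f hσ hσ1 hf hsym hD1 hD2 i
  obtain ⟨hper, hevn⟩ := hsym
  have hf1 : ContDiff ℝ 1 f := hf.of_le (by exact_mod_cast le_top)
  -- the function
  set q := qf χ ζ σ f i with hq
  set r := rf χ ζ σ f i with hr
  have hqC : ContDiff ℝ 1 q := contDiff_of hf hσ hc q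
    (fun x hx => qf_contDiffAt hf hχ hζ i hx) (fun x hx => qf_zero hζ0 i hx)
  have hrC : ContDiff ℝ 1 r := contDiff_of hf hσ hc r
    (fun x hx => rf_contDiffAt hf hχ hζ i hx) (fun x hx => rf_zero hζ0 i hx)
  have hvint : ∀ x : Fin n → ℝ, (∃ k : ℤ, x i = (k : ℝ)) → Nn f i x = 0 := by
    rintro x ⟨k, hk⟩
    exact odd_int (Nn_per hs hper i) (Nn_odd hs hf1 i (hevn i)) k hk
  have haf0 : af 0 = 0 := by unfold af; ring
  have hqint : ∀ x : Fin n → ℝ, (∃ k : ℤ, x i = (k : ℝ)) → q x = 0 ∧ ∀ j, D q j x = 0 := by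
    intro x hx
    have hv := hvint x hx
    refine ⟨by rw [hq]; unfold qf; rw [hv, haf0]; ring, fun j => ?_⟩
    rcases lt_or_ge (σ * gn f x) c with h | h
    · exact D_qf_zero hζ0 hf i j h
    · have hG : 0 < gn f x := by
        by_contra hcon
        have h0 : gn f x = 0 := le_antisymm (not_lt.mp hcon) (gn_nonneg f x)
        rw [h0] at h
        linarith
      rw [hq, D_qf hf hχ hζ i j hG, hv, haf0]
      ring
  obtain ⟨hgC, hgD⟩ := hglue n i κ κ' B q hqC hqint hκB hκder hκcont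
  -- derivative formula
  have hyD : ∀ x j, D (fun x : Fin n → ℝ => κ (x i) * q x + H * r x) j x =
      κ (x i) * D q j x + (if j = i then κ' (x i) * q x else 0) + H * D r j x := by
    intro x j
    have h1 : DifferentiableAt ℝ (fun x : Fin n → ℝ => κ (x i) * q x) x :=
      hgC.contDiffAt.differentiableAt (by simp)
    have h2 : DifferentiableAt ℝ r x := hrC.contDiffAt.differentiableAt (by simp)
    rw [D_add j h1 (h2.const_mul H), hgD x j, D_smul j H h2]
  have hχa : ∀ t, |χ t| ≤ 1 := fun t => by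
    rw [abs_of_nonneg (hχ01 t).1]; exact (hχ01 t).2
  have hζa : ∀ t, |ζ t| ≤ 1 := fun t => by
    rw [abs_of_nonneg (hζ01 t).1]; exact (hζ01 t).2
  have hth01 : ∀ x, 0 ≤ th χ ζ σ f x ∧ |th χ ζ σ f x| ≤ 1 := by
    intro x
    unfold th
    refine ⟨mul_nonneg (hχ01 _).1 (hζ01 _).1, ?_⟩
    rw [abs_mul]
    exact mul_le_one₀ (hχa _) (abs_nonneg _) (hζa _)
  refine ⟨fun x => κ (x i) * q x + H * r x, ?_, ?_, ?_, ?_, ?_, ?_⟩
  · exact hgC.add (contDiff_const.mul hrC)
  · intro x j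
    have h1 : Nn f i (x + Pi.single j 2) = Nn f i x := Nn_per hs hper i x j
    have h2 : gn f (x + Pi.single j 2) = gn f x := gn_per hs hper x j
    have h3 : f (x + Pi.single j 2) = f x := hper x j
    have h4 : κ ((x + (Pi.single j (2 : ℝ) : Fin n → ℝ)) i) = κ (x i) := by
      rw [Pi.add_apply]
      by_cases hji : i = j
      · rw [hji, Pi.single_eq_same, hκper]
      · rw [Pi.single_eq_of_ne hji, add_zero]
    simp only [hq, hr, qf, rf, th]
    rw [h1, h2, h3, h4]
  · intro x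
    have h1 : Nn f i (Function.update x i (-x i)) = -Nn f i x := Nn_odd hs hf1 i (hevn i) x
    have h2 : gn f (Function.update x i (-x i)) = gn f x := gn_evn hs hf1 i (hevn i) x
    have h3 : f (Function.update x i (-x i)) = f x := hevn i x
    simp only [hq, hr, qf, rf, th]
    rw [h1, h2, h3, Function.update_self, hκodd, af_neg, ef_neg]
    ring
  · intro j hji x
    have h1 : Nn f i (Function.update x j (-x j)) = Nn f i x := Nn_evn hs hf1 i j hji (hevn j) x
    have h2 : gn f (Function.update x j (-x j)) = gn f x := gn_evn hs hf1 j (hevn j) x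
    have h3 : f (Function.update x j (-x j)) = f x := hevn j x
    simp only [hq, hr, qf, rf, th]
    rw [h1, h2, h3, Function.update_of_ne (Ne.symm hji)]
  · -- the gradient bound
    intro x
    have key : ∀ j, |D (fun x : Fin n → ℝ => κ (x i) * q x + H * r x) j x| ≤ K2 / σ := by
      intro j
      rw [hyD x j]
      rcases lt_or_ge (σ * gn f x) c with h | h
      · rw [hq, hr, D_qf_zero hζ0 hf i j h, D_rf_zero hζ0 hf i j h, qf_zero hζ0 i h]
        simp only [mul_zero, ite_self, add_zero, abs_zero]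
        positivity
      · have hG : 0 < gn f x := by
          by_contra hcon
          have h0 : gn f x = 0 := le_antisymm (not_lt.mp hcon) (gn_nonneg f x)
          rw [h0] at h
          linarith
        have hb1 : |D (gn f) j x| ≤ n * (2 / σ ^ 2) :=
          abs_D_gn_le hf j hG _ fun k => hD2 k j x
        have hb2 : gn f x * |D (Nn f i) j x| ≤ 2 / σ ^ 2 + n * (2 / σ ^ 2) :=
          abs_D_Nn_le hf i j hG _ fun k => hD2 k j x
        have hb3 : |D (Nn f i) j x| ≤ dv / σ := by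
          have h1 : c / σ * |D (Nn f i) j x| ≤ gn f x * |D (Nn f i) j x| := by
            apply mul_le_mul_of_nonneg_right _ (abs_nonneg _)
            rw [div_le_iff₀ hσ]
            linarith
          have h2 : c / σ * |D (Nn f i) j x| ≤ c / σ * (dv / σ) := by
            refine h1.trans (hb2.trans (le_of_eq ?_))
            rw [hdv]
            field_simp
          exact le_of_mul_le_mul_left h2 (by positivity)
        have hb4 : |D (th χ ζ σ f) j x| ≤ dθ / σ := by
          rw [D_th hf hχ hζ j hG]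
          calc |deriv χ (f x) * D f j x * ζ (σ * gn f x) +
                χ (f x) * (deriv ζ (σ * gn f x) * (σ * D (gn f) j x))|
              ≤ |deriv χ (f x) * D f j x * ζ (σ * gn f x)| +
                |χ (f x) * (deriv ζ (σ * gn f x) * (σ * D (gn f) j x))| := abs_add_le _ _
            _ = |deriv χ (f x)| * |D f j x| * |ζ (σ * gn f x)| +
                |χ (f x)| * (|deriv ζ (σ * gn f x)| * (σ * |D (gn f) j x|)) := by
                simp only [abs_mul, abs_of_pos hσ]
            _ ≤ M * (1 / σ) * 1 + 1 * (M * (σ * (n * (2 / σ ^ 2)))) := by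
                have h1 := hχM (f x)
                have h2 := hD1 j x
                have h3 := hζa (σ * gn f x)
                have h4 := hχa (f x)
                have h5 := hζM (σ * gn f x)
                gcongr
            _ = dθ / σ := by
                rw [hdθ]
                field_simp
        have hv1 := abs_Nn_le f i x
        have hq1 : |D q j x| ≤ 84 * (dv / σ) + 9 * (dθ / σ) := by
          rw [hq, D_qf hf hχ hζ i j hG]
          exact bnd_q _ _ _ _ _ _ _ (abs_af_le hv1) (abs_af'_le hv1) hb3 (hth01 x).2 hb4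
        have hr1 : |D r j x| ≤ 3 * (dv / σ) + dθ / σ := by
          rw [hr, D_rf hf hχ hζ i j hG]
          exact bnd_r _ _ _ _ _ _ _ (abs_ef_le hv1) (abs_ef'_le hv1) hb3 (hth01 x).2 hb4
        have hq2 : |q x| ≤ 9 := by
          rw [hq]
          unfold qf
          rw [abs_mul, abs_pow]
          have h1 := abs_af_le hv1
          have h2 := (hth01 x).2
          calc |af (Nn f i x)| ^ 2 * |th χ ζ σ f x| ≤ 3 ^ 2 * 1 := by gcongr
            _ = 9 := by norm_num
        have h6 : |if j = i then κ' (x i) * q x else 0| ≤ 9 * B / σ := by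
          have h8 : 9 * B ≤ 9 * B / σ := by
            rw [le_div_iff₀ hσ]
            nlinarith
          split_ifs
          · rw [abs_mul]
            have h7 := (hκB (x i)).2
            calc |κ' (x i)| * |q x| ≤ B * 9 := by gcongr
              _ ≤ 9 * B / σ := by linarith
          · rw [abs_zero]; positivity
        have hκ1 := (hκB (x i)).1
        calc |κ (x i) * D q j x + (if j = i then κ' (x i) * q x else 0) + H * D r j x|
            ≤ |κ (x i) * D q j x| + |if j = i then κ' (x i) * q x else 0| + |H * D r j x| :=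
              abs_add_three _ _ _
          _ ≤ B * (84 * (dv / σ) + 9 * (dθ / σ)) + 9 * B / σ + H * (3 * (dv / σ) + dθ / σ) := by
              rw [abs_mul, abs_mul H, abs_of_nonneg hH0]
              gcongr
          _ = K2 / σ := by
              rw [hK2]
              field_simp
    refine (gn_le_sum _ x _ key).trans ?_
    rw [mul_div_assoc']
    apply div_le_div_of_nonneg_right _ hσ.le
    linarith
  · -- the inequality
    intro x hx0 hx1
    have hkey : ∀ j, D (fun x : Fin n → ℝ => κ (x i) * q x + H * r x) j x =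
      κ (x i) * D q j x + (if j = i then κ' (x i) * q x else 0) + H * D r j x := hyD x
    have hbad0 : 0 ≤ (1 + n * K2 + K3) / σ *
        (if χ (f x) ≠ 0 ∧ σ * gn f x < 2 * c then gn f x else 0) := by
      apply mul_nonneg (by positivity)
      split_ifs
      · exact gn_nonneg f x
      · exact le_rfl
    rcases lt_or_ge (σ * gn f x) c with h | h
    · have hz : ∀ j, D (fun x : Fin n → ℝ => κ (x i) * q x + H * r x) j x = 0 := by
        intro j
        rw [hkey j, hq, hr, D_qf_zero hζ0 hf i j h, D_rf_zero hζ0 hf i j h, qf_zero hζ0 i h]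
        simp
      have hy0 : κ (x i) * q x + H * r x = 0 := by
        rw [hq, hr, qf_zero hζ0 i h, rf_zero hζ0 i h]; ring
      have hζz : ζ (σ * gn f x) = 0 := hζ0 _ h.le
      simp only [hz, hy0, hζz, mul_zero, Finset.sum_const_zero, sub_zero, add_zero, zero_mul,
        zero_add]
      exact hbad0
    · have hG : 0 < gn f x := by
        by_contra hcon
        have h0 : gn f x = 0 := le_antisymm (not_lt.mp hcon) (gn_nonneg f x)
        rw [h0] at h
        linarith
      set G := gn f x with hGdef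
      set v := Nn f i x with hvdef
      have hDf : ∀ j, D f j x = -(G * Nn f j x) := by
        intro j
        have := Nn_mul_gn f j x
        rw [← hGdef] at this
        linarith
      have hN2 : ∑ j, Nn f j x ^ 2 = 1 := sum_Nn_sq hG
      have hv1 : |v| ≤ 1 := abs_Nn_le f i x
      have hric := hκric (x i) hx0 hx1
      set k := κ (x i) with hk
      set t := th χ ζ σ f x with ht
      -- e · ∇ y
      have h1 := core_alg i (fun j => Nn f j x) (fun j => D (Nn f i) j x)
        (fun j => D (th χ ζ σ f) j x)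
        (fun j => D (fun x : Fin n → ℝ => κ (x i) * q x + H * r x) j x)
        v t k (κ' (x i)) H (af v) (af' v) (ef v) (ef' v) rfl (by
          intro j
          rw [hkey j, hq, hr, D_qf hf hχ hζ i j hG, D_rf hf hχ hζ i j hG]
          rfl)
      have h2 := core_cs i (fun j => Nn f j x) (fun j => D (Nn f i) j x) v rfl hN2
      have hg2 : ∑ j, D (Nn f i) j x ^ 2 = gn (Nn f i) x ^ 2 := (gn_sq _ _).symm
      rw [hg2] at h2
      have h3 := core_final hpw v k H p (gn (Nn f i) x ^ 2) _ t hv1 hH hp.le hpπ.le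
        (hth01 x).1 (sq_nonneg _) h2
      -- the left side
      have hL : G * D (fun x : Fin n → ℝ => κ (x i) * q x + H * r x) i x -
          ∑ j, D f i x * D f j x / G * D (fun x : Fin n → ℝ => κ (x i) * q x + H * r x) j x +
          H * (D f i x * (κ (x i) * q x + H * r x)) =
          G * ((D (fun x : Fin n → ℝ => κ (x i) * q x + H * r x) i x -
            ∑ j, v * Nn f j x * D (fun x : Fin n → ℝ => κ (x i) * q x + H * r x) j x) -
            H * v * (k * q x + H * r x)) := by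
        have h4 : ∑ j, D f i x * D f j x / G *
            D (fun x : Fin n → ℝ => κ (x i) * q x + H * r x) j x =
            G * ∑ j, v * Nn f j x * D (fun x : Fin n → ℝ => κ (x i) * q x + H * r x) j x := by
          rw [Finset.mul_sum]
          apply Finset.sum_congr rfl
          intro j _
          rw [hDf i, hDf j, hvdef]
          field_simp
        rw [h4, hDf i]
        ring
      -- the error term
      set er := D (th χ ζ σ f) i x - ∑ j, v * Nn f j x * D (th χ ζ σ f) j x with her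
      have herr : |er| ≤ M * (4 * n ^ 2) / σ *
          (if χ (f x) ≠ 0 ∧ σ * G < 2 * c then 1 else 0) := by
        have h5 : er = χ (f x) * (deriv ζ (σ * G) * (σ *
            (D (gn f) i x - ∑ j, v * Nn f j x * D (gn f) j x))) := by
          have h6 : ∑ j, v * Nn f j x * D (th χ ζ σ f) j x =
              deriv χ (f x) * ζ (σ * G) * (-(G * v)) + χ (f x) * (deriv ζ (σ * G) * (σ *
                ∑ j, v * Nn f j x * D (gn f) j x)) := by
            have h7 : ∀ j, v * Nn f j x * D (th χ ζ σ f) j x =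
                deriv χ (f x) * ζ (σ * G) * (-(G * v)) * (Nn f j x ^ 2) +
                χ (f x) * (deriv ζ (σ * G) * (σ * (v * Nn f j x * D (gn f) j x))) := by
              intro j
              rw [D_th hf hχ hζ j hG, hDf j]
              ring
            rw [Finset.sum_congr rfl fun j _ => h7 j, Finset.sum_add_distrib, ← Finset.mul_sum,
              hN2, ← Finset.mul_sum, ← Finset.mul_sum, ← Finset.mul_sum]
            ring
          rw [her, h6, D_th hf hχ hζ i hG, hDf i]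
          ring
        by_cases hbad : χ (f x) ≠ 0 ∧ σ * G < 2 * c
        · rw [if_pos hbad, mul_one, h5]
          have h8 : ∀ j, |D (gn f) j x| ≤ n * (2 / σ ^ 2) := fun j =>
            abs_D_gn_le hf j hG _ fun k => hD2 k j x
          have hn1 : (1 : ℝ) ≤ n := by exact_mod_cast hn
          have h9 : |D (gn f) i x - ∑ j, v * Nn f j x * D (gn f) j x|
              ≤ 4 * n ^ 2 / σ ^ 2 := by
            calc |D (gn f) i x - ∑ j, v * Nn f j x * D (gn f) j x|
                ≤ |D (gn f) i x| + |∑ j, v * Nn f j x * D (gn f) j x| := abs_sub _ _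
              _ ≤ n * (2 / σ ^ 2) + ∑ j, |v * Nn f j x * D (gn f) j x| :=
                  add_le_add (h8 i) (Finset.abs_sum_le_sum_abs _ _)
              _ ≤ n * (2 / σ ^ 2) + ∑ _j : Fin n, 1 * 1 * (n * (2 / σ ^ 2)) := by
                  gcongr with j
                  rw [abs_mul, abs_mul]
                  have h10 := h8 j
                  have h11 := abs_Nn_le f j x
                  gcongr
              _ ≤ 4 * n ^ 2 / σ ^ 2 := by
                  simp only [Finset.sum_const, Finset.card_univ, Fintype.card_fin, nsmul_eq_mul]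
                  rw [le_div_iff₀ (by positivity)]
                  field_simp
                  nlinarith
          rw [abs_mul, abs_mul, abs_mul, abs_of_pos hσ]
          have h12 := hχa (f x)
          have h13 := hζM (σ * G)
          calc |χ (f x)| * (|deriv ζ (σ * G)| * (σ *
                |D (gn f) i x - ∑ j, v * Nn f j x * D (gn f) j x|))
              ≤ 1 * (M * (σ * (4 * n ^ 2 / σ ^ 2))) := by gcongr
            _ = M * (4 * n ^ 2) / σ := by field_simp
        · rw [if_neg hbad, mul_zero, h5]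
          have hz : χ (f x) * deriv ζ (σ * G) = 0 := by
            by_cases hχ0 : χ (f x) = 0
            · rw [hχ0, zero_mul]
            · have hge : 2 * c ≤ σ * G := by
                by_contra hcon
                exact hbad ⟨hχ0, not_le.mp hcon⟩
              have hmax : IsLocalMax ζ (σ * G) := by
                apply Filter.Eventually.of_forall
                intro t
                change ζ t ≤ ζ (σ * G)
                rw [hζ1 _ hge]
                exact (hζ01 t).2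
              rw [hmax.deriv_eq_zero, mul_zero]
          rw [← mul_assoc, hz, zero_mul, abs_zero]
      -- final
      rw [hL, h1]
      have hqx : q x = af v ^ 2 * t := rfl
      have hrx : r x = ef v * t := rfl
      have hΨ : |k * af v ^ 2 + H * ef v| ≤ 9 * B + H := by
        have h14 := abs_af_le hv1
        have h15 := abs_ef_le hv1
        have h16 : |k| ≤ B := (hκB (x i)).1
        calc |k * af v ^ 2 + H * ef v| ≤ |k * af v ^ 2| + |H * ef v| := abs_add_le _ _
          _ = |k| * |af v| ^ 2 + H * |ef v| := by rw [abs_mul, abs_mul, abs_pow, abs_of_nonneg hH0]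
          _ ≤ B * 3 ^ 2 + H * 1 := by gcongr
          _ = 9 * B + H := by ring
      have h17 : (k * af v ^ 2 + H * ef v) * er ≤
          K3 / σ * (if χ (f x) ≠ 0 ∧ σ * G < 2 * c then 1 else 0) := by
        calc (k * af v ^ 2 + H * ef v) * er ≤ |(k * af v ^ 2 + H * ef v) * er| := le_abs_self _
          _ = |k * af v ^ 2 + H * ef v| * |er| := abs_mul _ _
          _ ≤ (9 * B + H) * (M * (4 * n ^ 2) / σ *
              (if χ (f x) ≠ 0 ∧ σ * G < 2 * c then 1 else 0)) :=
              mul_le_mul hΨ herr (abs_nonneg _) (by positivity)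
          _ = K3 / σ * (if χ (f x) ≠ 0 ∧ σ * G < 2 * c then 1 else 0) := by
              rw [hK3]; ring
      have h18 : G * (K3 / σ * (if χ (f x) ≠ 0 ∧ σ * G < 2 * c then 1 else 0)) ≤
          (1 + n * K2 + K3) / σ * (if χ (f x) ≠ 0 ∧ σ * G < 2 * c then G else 0) := by
        split_ifs
        · rw [mul_one]
          have : K3 / σ ≤ (1 + n * K2 + K3) / σ := by
            apply div_le_div_of_nonneg_right _ hσ.le
            have : 0 ≤ n * K2 := by positivity
            linarith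
          nlinarith
        · simp
      have h19 : χ (f x) * ζ (σ * G) = t := rfl
      rw [h19]
      refine le_trans ?_ (add_le_add le_rfl h18)
      have h20 : t * (G * gn (Nn f i) x ^ 2 - G * (p ^ 2 * v ^ 2 + v ^ 4)) =
          G * (t * (gn (Nn f i) x ^ 2 - (p ^ 2 * v ^ 2 + v ^ 4))) := by ring
      rw [h20, ← mul_add]
      apply mul_le_mul_of_nonneg_left _ hG.le
      rw [hqx, hrx, hric]
      linarith [h3, h17]

end Pool.Agent.H984.Cube
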