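import Mathlib
import Pool.Agent.H194.Cube.Defs

/-!
# The one-dimensional Gaussian functions (`GaussFacts`)
-/

set_option autoImplicit false

namespace Pool.Agent.H870.Cube

open MeasureTheory Set Filter Topology ProbabilityTheory
open Pool.Agent.H194.Cube
open scoped ContDiff ENNReal

theorem phi_pos (t : ℝ) : 0 < phi t := by
  unfold phi; positivity

theorem phi_neg (t : ℝ) : phi (-t) = phi t := by
  unfold phi; rw [neg_sq]

theorem phi_contDiff : ContDiff ℝ ∞ phi := by
  unfold phi
  exact ((((contDiff_id.pow 2).neg).div_const 2).exp).div_const _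

theorem phi_cont : Continuous phi := phi_contDiff.continuous

theorem phi_hasDeriv (t : ℝ) : HasDerivAt phi (-t * phi t) t := by
  unfold phi
  have h1 : HasDerivAt (fun s : ℝ => -s ^ 2 / 2) (-t) t := by
    have h2 := ((hasDerivAt_pow 2 t).neg).div_const 2
    refine h2.congr_deriv ?_
    simp
    ring
  have h3 := (h1.exp).div_const (√(2 * Real.pi))
  refine h3.congr_deriv ?_
  ring

theorem phi_eq (t : ℝ) : phi t = gaussianPDFReal 0 1 t := by
  unfold phi gaussianPDFReal
  simp
  rw [div_eq_inv_mul]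
  ring

theorem phi_int : Integrable phi := by
  have h : phi = gaussianPDFReal 0 1 := funext phi_eq
  rw [h]; exact integrable_gaussianPDFReal 0 1

theorem phi_total : ∫ s, phi s = 1 := by
  have h : phi = gaussianPDFReal 0 1 := funext phi_eq
  rw [h]; exact integral_gaussianPDFReal_eq_one 0 one_ne_zero

theorem Phi_sub (a b : ℝ) : Phi b - Phi a = ∫ s in a..b, phi s := by
  unfold Phi
  exact intervalIntegral.integral_Iic_sub_Iic phi_int.integrableOn phi_int.integrableOn

theorem Phi_deriv (t : ℝ) : HasDerivAt Phi (phi t) t := by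
  have h1 : HasDerivAt (fun u => ∫ s in (0:ℝ)..u, phi s) (phi t) t :=
    intervalIntegral.integral_hasDerivAt_right (phi_cont.intervalIntegrable _ _)
      (phi_cont.stronglyMeasurableAtFilter _ _) phi_cont.continuousAt
  have h2 : Phi = fun u => (∫ s in (0:ℝ)..u, phi s) + Phi 0 := by
    funext u
    rw [← Phi_sub 0 u]; ring
  rw [h2]
  exact h1.add_const _

theorem Phi_mono : StrictMono Phi := by
  apply strictMono_of_deriv_pos
  intro t
  rw [(Phi_deriv t).deriv]
  exact phi_pos t

theorem Phi_compl (t : ℝ) : Phi t + ∫ s in Ioi t, phi s = 1 := by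
  unfold Phi
  rw [← phi_total]
  exact intervalIntegral.integral_Iic_add_Ioi phi_int.integrableOn phi_int.integrableOn

theorem Phi_neg (t : ℝ) : Phi (-t) = 1 - Phi t := by
  have h1 := Phi_compl t
  have h2 : ∫ s in Ioi t, phi s = Phi (-t) := by
    unfold Phi
    have := integral_comp_neg_Iic (-t) phi
    rw [neg_neg] at this
    rw [← this]
    simp only [phi_neg]
  linarith

theorem Phi_nonneg (t : ℝ) : 0 ≤ Phi t := by
  unfold Phi
  exact setIntegral_nonneg measurableSet_Iic (fun s _ => (phi_pos s).le)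

theorem Phi_pos (t : ℝ) : 0 < Phi t :=
  lt_of_le_of_lt (Phi_nonneg (t - 1)) (Phi_mono (by linarith))

theorem Phi_lt_one (t : ℝ) : Phi t < 1 := by
  have h := Phi_pos (-t)
  rw [Phi_neg] at h; linarith

theorem Phi_cont : Continuous Phi :=
  continuous_iff_continuousAt.2 fun t => (Phi_deriv t).continuousAt

theorem Phi_bot : Tendsto Phi atBot (𝓝 0) := by
  have h := tendsto_setIntegral_of_antitone (μ := volume) (f := phi)
    (s := fun n : ℕ => Iic (-(n : ℝ))) (fun n => measurableSet_Iic)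
    (fun a b hab => Iic_subset_Iic.2 (by simpa using hab)) ⟨0, phi_int.integrableOn⟩
  have he : (⋂ n : ℕ, Iic (-(n : ℝ))) = ∅ := by
    ext x
    simp only [mem_iInter, mem_Iic, mem_empty_iff_false, iff_false, not_forall, not_le]
    obtain ⟨n, hn⟩ := exists_nat_gt (-x)
    exact ⟨n, by linarith⟩
  rw [he, setIntegral_empty] at h
  -- h : Tendsto (fun n => Phi (-n)) atTop (𝓝 0)
  rw [tendsto_order]
  constructor
  · intro a ha
    filter_upwards with t
    exact lt_of_lt_of_le ha (Phi_nonneg t)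
  · intro a ha
    have h2 := (tendsto_order.1 h).2 a ha
    obtain ⟨n, hn⟩ := h2.exists
    filter_upwards [Iic_mem_atBot (-(n : ℝ))] with t ht
    exact lt_of_le_of_lt (Phi_mono.monotone ht) hn

theorem Phi_top : Tendsto Phi atTop (𝓝 1) := by
  have h : Tendsto (fun t => 1 - Phi (-t)) atTop (𝓝 (1 - 0)) :=
    tendsto_const_nhds.sub (Phi_bot.comp tendsto_neg_atTop_atBot)
  rw [sub_zero] at h
  refine h.congr fun t => ?_
  rw [Phi_neg]; ring

theorem Phi_surj (s : ℝ) (h0 : 0 < s) (h1 : s < 1) : ∃ t, Phi t = s := by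
  have ha := ((tendsto_order.1 Phi_bot).2 s h0).exists
  have hb := ((tendsto_order.1 Phi_top).1 s h1).exists
  obtain ⟨a, ha⟩ := ha
  obtain ⟨b, hb⟩ := hb
  exact mem_range_of_exists_le_of_exists_ge Phi_cont ⟨a, ha.le⟩ ⟨b, hb.le⟩

theorem inv_left (t : ℝ) : Function.invFun Phi (Phi t) = t :=
  Function.leftInverse_invFun Phi_mono.injective t

theorem Iga_Phi (t : ℝ) : Iga (Phi t) = phi t := by
  unfold Iga
  rw [if_pos ⟨Phi_pos t, Phi_lt_one t⟩, inv_left]

theorem inv_right (s : ℝ) (h0 : 0 < s) (h1 : s < 1) : Phi (Function.invFun Phi s) = s :=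
  Function.invFun_eq (Phi_surj s h0 h1)

theorem inv_strictMonoOn : StrictMonoOn (Function.invFun Phi) (Ioo 0 1) := by
  intro a ha b hb hab
  by_contra hc
  rw [not_lt] at hc
  have := Phi_mono.monotone hc
  rw [inv_right a ha.1 ha.2, inv_right b hb.1 hb.2] at this
  linarith

theorem inv_continuousAt (t : ℝ) : ContinuousAt (Function.invFun Phi) (Phi t) := by
  apply inv_strictMonoOn.continuousAt_of_image_mem_nhds (Ioo_mem_nhds (Phi_pos t) (Phi_lt_one t))
  have : Function.invFun Phi '' Ioo 0 1 = univ := by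
    apply eq_univ_of_forall
    intro x
    exact ⟨Phi x, ⟨Phi_pos x, Phi_lt_one x⟩, inv_left x⟩
  rw [this]; exact univ_mem

theorem inv_deriv (t : ℝ) : HasDerivAt (Function.invFun Phi) (1 / phi t) (Phi t) := by
  rw [one_div]
  apply HasDerivAt.of_local_left_inverse (f := Phi) (inv_continuousAt t)
  · rw [inv_left]; exact Phi_deriv t
  · exact (phi_pos t).ne'
  · filter_upwards [Ioo_mem_nhds (Phi_pos t) (Phi_lt_one t)] with s hs
    exact inv_right s hs.1 hs.2

theorem inv_deriv' (s : ℝ) (hs : s ∈ Ioo (0:ℝ) 1) :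
    HasDerivAt (Function.invFun Phi) (1 / phi (Function.invFun Phi s)) s := by
  obtain ⟨t, rfl⟩ := Phi_surj s hs.1 hs.2
  rw [inv_left]; exact inv_deriv t

theorem inv_smooth_nat (n : ℕ) : ContDiffOn ℝ n (Function.invFun Phi) (Ioo 0 1) := by
  induction n with
  | zero =>
    rw [Nat.cast_zero, contDiffOn_zero]
    intro s hs
    exact (inv_deriv' s hs).continuousAt.continuousWithinAt
  | succ n ih =>
    rw [Nat.cast_succ, contDiffOn_succ_iff_deriv_of_isOpen isOpen_Ioo]
    refine ⟨fun s hs => (inv_deriv' s hs).differentiableAt.differentiableWithinAt, ?_, ?_⟩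
    · intro h; exact absurd h (by simp)
    · have h1 : ContDiffOn ℝ n (fun s => 1 / phi (Function.invFun Phi s)) (Ioo 0 1) := by
        apply contDiffOn_const.div
        · exact (phi_contDiff.of_le (by exact_mod_cast le_top)).comp_contDiffOn ih
        · intro s _; exact (phi_pos _).ne'
      exact h1.congr fun s hs => (inv_deriv' s hs).deriv

theorem inv_smooth : ContDiffOn ℝ ∞ (Function.invFun Phi) (Ioo 0 1) :=
  contDiffOn_infty.2 inv_smooth_nat

theorem Iga_nhds (t : ℝ) : Iga =ᶠ[𝓝 (Phi t)] fun s => phi (Function.invFun Phi s) := by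
  filter_upwards [Ioo_mem_nhds (Phi_pos t) (Phi_lt_one t)] with s hs
  unfold Iga
  rw [if_pos ⟨hs.1, hs.2⟩]

theorem Iga_deriv (t : ℝ) : HasDerivAt Iga (-t) (Phi t) := by
  have h1 : HasDerivAt phi (-t * phi t) (Function.invFun Phi (Phi t)) := by
    rw [inv_left]; exact phi_hasDeriv t
  have h2 := h1.comp (Phi t) (inv_deriv t)
  have h3 : -t * phi t * (1 / phi t) = -t := by
    have := (phi_pos t).ne'
    field_simp
  rw [h3] at h2
  exact h2.congr_of_eventuallyEq (Iga_nhds t)

theorem Iga_out (s : ℝ) (h : ¬ (0 < s ∧ s < 1)) : Iga s = 0 := by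
  unfold Iga; rw [if_neg h]

theorem Iga_symm (s : ℝ) : Iga (1 - s) = Iga s := by
  by_cases h : 0 < s ∧ s < 1
  · obtain ⟨t, rfl⟩ := Phi_surj s h.1 h.2
    rw [← Phi_neg, Iga_Phi, Iga_Phi, phi_neg]
  · rw [Iga_out s h, Iga_out]
    intro h2
    exact h ⟨by linarith [h2.2], by linarith [h2.1]⟩

theorem Iga_nonneg (s : ℝ) : 0 ≤ Iga s := by
  unfold Iga
  split_ifs
  · exact (phi_pos _).le
  · exact le_rfl

theorem Iga_pos (s : ℝ) (h0 : 0 < s) (h1 : s < 1) : 0 < Iga s := by
  unfold Iga
  rw [if_pos ⟨h0, h1⟩]; exact phi_pos _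

theorem abs_mul_phi (t : ℝ) : 2 * |t| * phi t ≤ 1 := by
  have h1 : |t| ≤ Real.exp (t ^ 2 / 2) := by
    have := Real.add_one_le_exp (t ^ 2 / 2)
    have h2 : 0 ≤ (|t| - 1) ^ 2 := sq_nonneg _
    have h3 : |t| ^ 2 = t ^ 2 := sq_abs t
    nlinarith
  have h2 : (2:ℝ) ≤ √(2 * Real.pi) := by
    apply Real.le_sqrt_of_sq_le
    have := Real.pi_gt_three
    linarith
  unfold phi
  have h3 : -t ^ 2 / 2 = -(t ^ 2 / 2) := by ring
  rw [h3, Real.exp_neg, ← mul_div_assoc, div_le_one (by positivity)]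
  have h4 : |t| * (Real.exp (t ^ 2 / 2))⁻¹ ≤ 1 := by
    rw [← div_eq_mul_inv, div_le_one (Real.exp_pos _)]; exact h1
  nlinarith

theorem phi_bot : Tendsto phi atBot (𝓝 0) := by
  have h : Tendsto (fun t => Real.exp (-t ^ 2 / 2)) atBot (𝓝 0) := by
    apply Real.tendsto_exp_atBot.comp
    have h1 : Tendsto (fun t : ℝ => t ^ 2) atBot atTop := by
      have := (tendsto_pow_atTop (α := ℝ) two_ne_zero).comp tendsto_neg_atBot_atTop
      refine this.congr fun t => ?_
      simp
    have h2 : Tendsto (fun t : ℝ => -(t ^ 2 / 2)) atBot atBot :=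
      tendsto_neg_atTop_atBot.comp (h1.atTop_div_const (by norm_num))
    refine h2.congr fun t => ?_
    ring
  have h2 := h.div_const (√(2 * Real.pi))
  rw [zero_div] at h2
  exact h2

theorem phi_sq_le (t : ℝ) : phi t ^ 2 ≤ Phi t := by
  have hmono : Monotone (fun t => Phi t - phi t ^ 2) := by
    have hd : ∀ t, HasDerivAt (fun t => Phi t - phi t ^ 2) (phi t * (1 + 2 * t * phi t)) t := by
      intro t
      have := (Phi_deriv t).sub ((phi_hasDeriv t).pow 2)
      refine this.congr_deriv ?_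
      simp
      ring
    apply monotone_of_deriv_nonneg (fun t => (hd t).differentiableAt)
    intro t
    rw [(hd t).deriv]
    apply mul_nonneg (phi_pos t).le
    have h1 := abs_mul_phi t
    have h2 : -|t| ≤ t := neg_abs_le t
    have h3 := phi_pos t
    nlinarith
  have hlim : Tendsto (fun t => Phi t - phi t ^ 2) atBot (𝓝 0) := by
    have := Phi_bot.sub (phi_bot.pow 2)
    simpa using this
  have h := hmono.le_of_tendsto hlim t
  linarith

theorem Iga_sqrt (s : ℝ) (hs : 0 ≤ s) : Iga s ≤ √s := by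
  by_cases h : 0 < s ∧ s < 1
  · obtain ⟨t, rfl⟩ := Phi_surj s h.1 h.2
    rw [Iga_Phi]
    exact Real.le_sqrt_of_sq_le (phi_sq_le t)
  · rw [Iga_out s h]; exact Real.sqrt_nonneg _

theorem Iga_cont_zero : ContinuousAt Iga 0 := by
  have h0 : Iga 0 = 0 := Iga_out 0 (by simp)
  have hb : ∀ s, Iga s ≤ √|s| := by
    intro s
    by_cases hs : 0 ≤ s
    · rw [abs_of_nonneg hs]; exact Iga_sqrt s hs
    · rw [Iga_out s (fun h => hs h.1.le)]; exact Real.sqrt_nonneg _
  unfold ContinuousAt
  rw [h0]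
  apply squeeze_zero Iga_nonneg hb
  have : Tendsto (fun s : ℝ => √|s|) (𝓝 0) (𝓝 (√|0|)) :=
    (Real.continuous_sqrt.comp continuous_abs).tendsto 0
  simpa using this

theorem Iga_cont : Continuous Iga := by
  rw [continuous_iff_continuousAt]
  intro s
  rcases lt_trichotomy s 0 with h | h | h
  · have : Iga =ᶠ[𝓝 s] fun _ => 0 := by
      filter_upwards [Iio_mem_nhds h] with x hx
      exact Iga_out x (fun h2 => absurd h2.1 (not_lt.2 (le_of_lt hx)))
    exact (continuousAt_const).congr this.symm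
  · rw [h]; exact Iga_cont_zero
  · rcases lt_trichotomy s 1 with h1 | h1 | h1
    · obtain ⟨t, rfl⟩ := Phi_surj s h h1
      exact (Iga_deriv t).continuousAt
    · rw [h1]
      have h2 : Iga = fun s => Iga (1 - s) := funext fun s => (Iga_symm s).symm
      rw [h2]
      have h3 : ContinuousAt (fun s : ℝ => 1 - s) 1 := by fun_prop
      have h4 : ContinuousAt Iga (1 - 1) := by rw [sub_self]; exact Iga_cont_zero
      exact ContinuousAt.comp (f := fun s : ℝ => 1 - s) (g := Iga) h4 h3
    · have : Iga =ᶠ[𝓝 s] fun _ => 0 := by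
        filter_upwards [Ioi_mem_nhds h1] with x hx
        exact Iga_out x (fun h2 => absurd h2.2 (not_lt.2 (le_of_lt hx)))
      exact (continuousAt_const).congr this.symm

theorem gaussFacts : GaussFacts where
  mem t := ⟨Phi_pos t, Phi_lt_one t⟩
  deriv := Phi_deriv
  surj := Phi_surj
  mono := Phi_mono
  neg := Phi_neg
  iga := Iga_Phi
  iga_cont := Iga_cont
  iga_sqrt := Iga_sqrt
  iga_symm := Iga_symm
  iga_nonneg := Iga_nonneg
  iga_pos := Iga_pos
  iga_deriv := Iga_deriv
  inv_deriv := inv_deriv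
  inv_left := inv_left
  inv_smooth := inv_smooth

end Pool.Agent.H870.Cube
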