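import Pool.Agent.H194.Cube.Defs

/-!
# CUBE: `S_glue`, `S_kappa`, `S_asq`
-/

set_option autoImplicit false

namespace Pool.Agent.H323.Cube

open MeasureTheory Set Filter Topology ProbabilityTheory
open scoped ContDiff ENNReal
open Pool.Agent.H194.Cube

/-! ## `S_glue` -/

lemma isOpen_nonint : IsOpen {t : ℝ | ∀ k : ℤ, t ≠ (k : ℝ)} := by
  have h : {t : ℝ | ∀ k : ℤ, t ≠ (k : ℝ)} = (Set.range ((↑) : ℤ → ℝ))ᶜ := by
    ext t
    simp only [mem_ofPred_eq, mem_compl_iff, mem_range, not_exists]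
    exact ⟨fun h k hk => h k hk.symm, fun h k hk => h k hk.symm⟩
  rw [h]
  exact Int.isClosedEmbedding_coe_real.isClosed_range.isOpen_compl

lemma clm_zero {n : ℕ} (L : (Fin n → ℝ) →L[ℝ] ℝ)
    (h : ∀ j, L (Pi.single j (1 : ℝ) : Fin n → ℝ) = 0) : L = 0 := by
  ext y
  have hy : y = ∑ j, y j • (Pi.single j (1 : ℝ) : Fin n → ℝ) := by
    ext k
    simp [Finset.sum_apply, Pi.single_apply]
  rw [hy, map_sum]
  simp [h]

theorem glue : S_glue := by
  intro n i κ κ' B q hq hz hB hd hc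
  have hB0 : 0 ≤ B := (abs_nonneg _).trans (hB 0).1
  have hqd : ∀ x, HasFDerivAt q (fderiv ℝ q x) x := fun x =>
    (hq.differentiable one_ne_zero x).hasFDerivAt
  have hqc : Continuous (fderiv ℝ q) := hq.continuous_fderiv one_ne_zero
  have hz1 : ∀ x : Fin n → ℝ, (∃ k : ℤ, x i = (k : ℝ)) → q x = 0 := fun x hx => (hz x hx).1
  have hz2 : ∀ x : Fin n → ℝ, (∃ k : ℤ, x i = (k : ℝ)) → fderiv ℝ q x = 0 := fun x hx =>
    clm_zero _ (hz x hx).2
  let P : (Fin n → ℝ) →L[ℝ] ℝ := ContinuousLinearMap.proj i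
  let F' : (Fin n → ℝ) → (Fin n → ℝ) →L[ℝ] ℝ := fun x =>
    κ (x i) • fderiv ℝ q x + q x • (κ' (x i) • P)
  have hF : ∀ x, HasFDerivAt (fun x : Fin n → ℝ => κ (x i) * q x) (F' x) x := by
    intro x
    by_cases hx : ∃ k : ℤ, x i = (k : ℝ)
    · have h1 : F' x = 0 := by
        show κ (x i) • fderiv ℝ q x + q x • (κ' (x i) • P) = 0
        rw [hz1 x hx, hz2 x hx, smul_zero, zero_smul, add_zero]
      rw [h1]
      have h2 := hqd x
      rw [hz2 x hx] at h2
      rw [hasFDerivAt_iff_isLittleO] at h2 ⊢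
      refine Asymptotics.IsBigO.trans_isLittleO ?_ h2
      refine Asymptotics.IsBigO.of_bound B (Eventually.of_forall fun y => ?_)
      rw [hz1 x hx]
      simp only [mul_zero, sub_zero, zero_apply, norm_mul, Real.norm_eq_abs]
      exact mul_le_mul_of_nonneg_right (hB _).1 (abs_nonneg _)
    · push Not at hx
      have h1 : HasFDerivAt (fun y : Fin n → ℝ => κ (y i)) (κ' (x i) • P) x :=
        (hd (x i) hx).comp_hasFDerivAt x (P.hasFDerivAt)
      exact h1.mul (hqd x)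
  have hFc : Continuous F' := by
    rw [continuous_iff_continuousAt]
    intro x
    by_cases hx : ∃ k : ℤ, x i = (k : ℝ)
    · have h1 : F' x = 0 := by
        show κ (x i) • fderiv ℝ q x + q x • (κ' (x i) • P) = 0
        rw [hz1 x hx, hz2 x hx, smul_zero, zero_smul, add_zero]
      rw [ContinuousAt, h1]
      apply squeeze_zero_norm (a := fun y => B * ‖fderiv ℝ q y‖ + ‖q y‖ * (B * ‖P‖))
      · intro y
        refine (norm_add_le _ _).trans ?_
        rw [norm_smul, norm_smul, norm_smul]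
        have h2 := (hB (y i)).1
        have h3 := (hB (y i)).2
        rw [← Real.norm_eq_abs] at h2 h3
        gcongr
      · have h2 : Tendsto (fun y => B * ‖fderiv ℝ q y‖ + ‖q y‖ * (B * ‖P‖)) (𝓝 x)
            (𝓝 (B * ‖fderiv ℝ q x‖ + ‖q x‖ * (B * ‖P‖))) := by
          refine ((hqc.tendsto x).norm.const_mul B).add ?_
          exact ((hq.continuous.tendsto x).norm).mul_const _
        rwa [hz1 x hx, hz2 x hx, norm_zero, norm_zero, mul_zero, zero_mul, add_zero] at h2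
    · push Not at hx
      have h1 : ContinuousAt (fun y : Fin n → ℝ => κ (y i)) x :=
        ContinuousAt.comp (f := fun y : Fin n → ℝ => y i) (hd (x i) hx).continuousAt
          (continuous_apply i).continuousAt
      have h2 : ContinuousAt (fun y : Fin n → ℝ => κ' (y i)) x :=
        ContinuousAt.comp (f := fun y : Fin n → ℝ => y i)
          (hc.continuousAt (isOpen_nonint.mem_nhds hx)) (continuous_apply i).continuousAt
      exact (h1.smul hqc.continuousAt).add (hq.continuous.continuousAt.smul (h2.smul continuousAt_const))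
  refine ⟨contDiff_one_iff_hasFDerivAt.2 ⟨F', hFc, hF⟩, fun x j => ?_⟩
  show fderiv ℝ (fun x : Fin n → ℝ => κ (x i) * q x) x (Pi.single j (1 : ℝ) : Fin n → ℝ) = _
  rw [(hF x).fderiv]
  show κ (x i) * D q j x + q x * (κ' (x i) * (Pi.single j (1 : ℝ) : Fin n → ℝ) i) = _
  rcases eq_or_ne j i with rfl | h
  · rw [Pi.single_eq_same, if_pos rfl]; ring
  · rw [Pi.single_eq_of_ne h.symm, if_neg h]; ring

/-! ## `S_kappa` -/

theorem kappa : S_kappa := by
  intro p hp hpi
  let κ : ℝ → ℝ := fun t => if Int.fract t = 0 then 0 else -(p * Real.tan (p * (Int.fract t - 1 / 2)))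
  let T : ℝ := p * Real.tan (p / 2)
  have hκdef : ∀ t, Int.fract t ≠ 0 → κ t = -(p * Real.tan (p * (Int.fract t - 1 / 2))) :=
    fun t ht => if_neg ht
  have hκ0 : ∀ t, Int.fract t = 0 → κ t = 0 := fun t ht => if_pos ht
  have hT : 0 ≤ T := mul_nonneg hp.le (Real.tan_nonneg_of_nonneg_of_le_pi_div_two (by linarith) (by linarith))
  have hfr : ∀ t : ℝ, (∀ k : ℤ, t ≠ (k : ℝ)) → Int.fract t ≠ 0 := by
    intro t ht h
    exact ht ⌊t⌋ (by rw [Int.fract] at h; linarith)
  have hbd : ∀ t, |κ t| ≤ T := by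
    intro t
    by_cases h : Int.fract t = 0
    · rw [hκ0 t h, abs_zero]; exact hT
    · rw [hκdef t h, abs_neg, abs_mul, abs_of_pos hp]
      refine mul_le_mul_of_nonneg_left ?_ hp.le
      have h1 := Int.fract_nonneg t
      have h2 := (Int.fract_lt_one t).le
      have h3 : p * (Int.fract t - 1 / 2) ≤ p / 2 := by nlinarith
      have h4 : -(p / 2) ≤ p * (Int.fract t - 1 / 2) := by nlinarith
      have hmono := Real.strictMonoOn_tan.monotoneOn
      have hm1 : p / 2 ∈ Ioo (-(Real.pi / 2)) (Real.pi / 2) := ⟨by linarith, by linarith⟩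
      have hm2 : -(p / 2) ∈ Ioo (-(Real.pi / 2)) (Real.pi / 2) := ⟨by linarith, by linarith⟩
      have hm3 : p * (Int.fract t - 1 / 2) ∈ Ioo (-(Real.pi / 2)) (Real.pi / 2) :=
        ⟨by linarith, by linarith⟩
      rw [abs_le]
      refine ⟨?_, hmono hm3 hm1 h3⟩
      rw [← Real.tan_neg]
      exact hmono hm2 hm3 h4
  have hder : ∀ t : ℝ, (∀ k : ℤ, t ≠ (k : ℝ)) → HasDerivAt κ (-(p ^ 2 + κ t ^ 2)) t := by
    intro t ht
    have h0 := hfr t ht
    have h1 := Int.fract_nonneg t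
    have h2 := Int.fract_lt_one t
    have h1' : 0 < Int.fract t := lt_of_le_of_ne h1 (Ne.symm h0)
    have hfl : (⌊t⌋ : ℝ) < t := by rw [Int.fract] at h1'; linarith
    have hfl2 : t < (⌊t⌋ : ℝ) + 1 := Int.lt_floor_add_one t
    have hev : κ =ᶠ[𝓝 t] fun s => -(p * Real.tan (p * ((s - (⌊t⌋ : ℝ)) - 1 / 2))) := by
      filter_upwards [Ioo_mem_nhds hfl hfl2] with s hs
      have hfs : ⌊s⌋ = ⌊t⌋ := Int.floor_eq_iff.2 ⟨hs.1.le, hs.2⟩
      have hfs' : Int.fract s = s - (⌊t⌋ : ℝ) := by rw [Int.fract, hfs]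
      have hs0 : Int.fract s ≠ 0 := by
        rw [hfs']
        have := hs.1
        exact (by linarith : (0 : ℝ) < s - (⌊t⌋ : ℝ)).ne'
      rw [hκdef s hs0, hfs']
    refine HasDerivAt.congr_of_eventuallyEq ?_ hev
    have hm1 : -(Real.pi / 2) < p * ((t - (⌊t⌋ : ℝ)) - 1 / 2) := by
      have h3 : (0 : ℝ) < t - (⌊t⌋ : ℝ) := by linarith
      nlinarith
    have hm2 : p * ((t - (⌊t⌋ : ℝ)) - 1 / 2) < Real.pi / 2 := by
      have h3 : t - (⌊t⌋ : ℝ) < 1 := by linarith
      nlinarith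
    have hcos : 0 < Real.cos (p * ((t - (⌊t⌋ : ℝ)) - 1 / 2)) := Real.cos_pos_of_mem_Ioo ⟨hm1, hm2⟩
    have h3 : HasDerivAt (fun s : ℝ => p * ((s - (⌊t⌋ : ℝ)) - 1 / 2)) (p * 1) t :=
      (((hasDerivAt_id t).sub_const _).sub_const _).const_mul p
    have h40 : HasDerivAt (fun s : ℝ => Real.tan (p * ((s - (⌊t⌋ : ℝ)) - 1 / 2)))
        (1 / Real.cos (p * (t - ↑⌊t⌋ - 1 / 2)) ^ 2 * (p * 1)) t :=
      HasDerivAt.comp t (Real.hasDerivAt_tan hcos.ne') h3
    have h4 : HasDerivAt (fun s : ℝ => -(p * Real.tan (p * ((s - (⌊t⌋ : ℝ)) - 1 / 2))))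
        (-(p * (1 / Real.cos (p * (t - ↑⌊t⌋ - 1 / 2)) ^ 2 * (p * 1)))) t :=
      (h40.const_mul p).fun_neg
    refine h4.congr_deriv ?_
    have hkt : κ t = -(p * Real.tan (p * ((t - (⌊t⌋ : ℝ)) - 1 / 2))) := by
      rw [hκdef t h0, Int.fract]
    rw [hkt, Real.tan_eq_sin_div_cos]
    have h5 := Real.sin_sq_add_cos_sq (p * ((t - (⌊t⌋ : ℝ)) - 1 / 2))
    generalize Real.sin (p * ((t - (⌊t⌋ : ℝ)) - 1 / 2)) = a at *
    generalize Real.cos (p * ((t - (⌊t⌋ : ℝ)) - 1 / 2)) = b at *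
    field_simp
    linear_combination h5
  refine ⟨κ, fun t => -(p ^ 2 + κ t ^ 2), T + (p ^ 2 + T ^ 2), ?_, ?_, ?_, hder, ?_, fun t _ _ => rfl⟩
  · intro t
    by_cases h : Int.fract t = 0
    · rw [hκ0 t h, hκ0 (-t) (Int.fract_neg_eq_zero.2 h), neg_zero]
    · have h1 : Int.fract (-t) ≠ 0 := fun h2 => h (Int.fract_neg_eq_zero.1 h2)
      rw [hκdef t h, hκdef (-t) h1, Int.fract_neg h]
      have : p * (1 - Int.fract t - 1 / 2) = -(p * (Int.fract t - 1 / 2)) := by ring
      rw [this, Real.tan_neg]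
      ring
  · intro t
    have h2 : Int.fract (t + 2) = Int.fract t := by
      exact_mod_cast Int.fract_add_intCast t 2
    show (if Int.fract (t + 2) = 0 then 0 else -(p * Real.tan (p * (Int.fract (t + 2) - 1 / 2)))) = κ t
    rw [h2]
  · intro t
    have h1 := hbd t
    have h2 : κ t ^ 2 ≤ T ^ 2 := by
      rw [← sq_abs]
      exact pow_le_pow_left₀ (abs_nonneg _) h1 2
    refine ⟨h1.trans (by nlinarith [sq_nonneg p, sq_nonneg T]), ?_⟩
    rw [abs_neg, abs_of_nonneg (by positivity)]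
    linarith
  · intro t ht
    refine ContinuousAt.continuousWithinAt ?_
    have h1 := (hder t ht).continuousAt
    exact (continuousAt_const.add (h1.pow 2)).neg

/-! ## `S_asq` -/

theorem asq : S_asq := by
  intro n f x hf hg
  have hDd : ∀ i, Differentiable ℝ (D f i) := by
    intro i
    have h1 : ContDiff ℝ ∞ (D f i) := (hf.fderiv_right (m := ∞) (by simp)).clm_apply contDiff_const
    exact h1.differentiable (by simp)
  have hDh : ∀ i, HasFDerivAt (D f i) (fderiv ℝ (D f i) x) x := fun i => (hDd i x).hasFDerivAt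
  have hS0 : 0 < ∑ i, D f i x ^ 2 := by
    by_contra h
    push Not at h
    have : gn f x = 0 := Real.sqrt_eq_zero_of_nonpos h
    linarith
  have hgsq : gn f x ^ 2 = ∑ i, D f i x ^ 2 := Real.sq_sqrt hS0.le
  have hS : HasFDerivAt (fun y => ∑ i, D f i y ^ 2)
      (∑ i, (D f i x • fderiv ℝ (D f i) x + D f i x • fderiv ℝ (D f i) x)) x := by
    have : HasFDerivAt (fun y => ∑ i, D f i y * D f i y)
      (∑ i, (D f i x • fderiv ℝ (D f i) x + D f i x • fderiv ℝ (D f i) x)) x :=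
      HasFDerivAt.fun_sum fun i _ => (hDh i).mul (hDh i)
    simpa only [sq] using this
  have hgd : HasFDerivAt (gn f) ((1 / (2 * √(∑ i, D f i x ^ 2))) •
      (∑ i, (D f i x • fderiv ℝ (D f i) x + D f i x • fderiv ℝ (D f i) x))) x := hS.sqrt hS0.ne'
  -- the derivative of the gradient norm
  have hDg : ∀ j, D (gn f) j x = (∑ k, D f k x * D (D f k) j x) / gn f x := by
    intro j
    show fderiv ℝ (gn f) x (Pi.single j (1 : ℝ) : Fin n → ℝ) = _
    rw [hgd.fderiv]
    simp only [smul_apply, sum_apply, add_apply, smul_eq_mul]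
    change 1 / (2 * gn f x) * ∑ k, (D f k x * D (D f k) j x + D f k x * D (D f k) j x) = _
    rw [Finset.sum_add_distrib]
    field_simp
    ring
  have hN : ∀ i j, D (Nn f i) j x =
      -((D (D f i) j x * gn f x - D f i x * D (gn f) j x) / gn f x ^ 2) := by
    intro i j
    have h0 : HasFDerivAt (gn f) (fderiv ℝ (gn f) x) x := hgd.differentiableAt.hasFDerivAt
    have h1 : HasFDerivAt (fun y => -(D f i y * (gn f y)⁻¹))
        (-(D f i x • ((-(gn f x ^ 2)⁻¹) • fderiv ℝ (gn f) x) + (gn f x)⁻¹ • fderiv ℝ (D f i) x)) x :=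
      ((hDh i).mul ((hasDerivAt_inv hg.ne').comp_hasFDerivAt x h0)).fun_neg
    have h2 : Nn f i = fun y => -(D f i y * (gn f y)⁻¹) := by
      funext y
      rw [Nn, div_eq_mul_inv]
    show fderiv ℝ (Nn f i) x (Pi.single j (1 : ℝ) : Fin n → ℝ) = _
    rw [h2, h1.fderiv]
    simp only [smul_apply, add_apply, neg_apply, smul_eq_mul]
    change -(D f i x * (-(gn f x ^ 2)⁻¹ * D (gn f) j x) + (gn f x)⁻¹ * D (D f i) j x) = _
    field_simp
    ring
  have hN2 : ∀ i j, D (Nn f i) j x =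
      (-D (D f i) j x + Nn f i x * ∑ k, Nn f k x * D (D f k) j x) / gn f x := by
    intro i j
    rw [hN, hDg]
    simp only [Nn]
    have : ∑ k, -(D f k x / gn f x) * D (D f k) j x = -((∑ k, D f k x * D (D f k) j x) / gn f x) := by
      rw [Finset.sum_div, ← Finset.sum_neg_distrib]
      exact Finset.sum_congr rfl fun k _ => by ring
    rw [this]
    field_simp
    ring
  have hNsum : ∑ i, Nn f i x ^ 2 = 1 := by
    simp only [Nn, neg_sq, div_pow]
    rw [← Finset.sum_div, ← hgsq]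
    exact div_self (pow_ne_zero 2 hg.ne')
  have hgn : ∀ i, gn (Nn f i) x ^ 2 = ∑ j, D (Nn f i) j x ^ 2 := fun i =>
    Real.sq_sqrt (Finset.sum_nonneg fun j _ => sq_nonneg _)
  have key : ∑ i, ∑ j, D (Nn f i) j x ^ 2 = Asq f x / gn f x ^ 2 := by
    simp only [hN2, div_pow, ← Finset.sum_div]
    congr 1
    rw [Asq, Finset.sum_comm (γ := Fin n), Finset.sum_comm (γ := Fin n) (f := fun i j => D (D f i) j x ^ 2),
      ← Finset.sum_sub_distrib]
    refine Finset.sum_congr rfl fun j _ => ?_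
    set S := ∑ k, Nn f k x * D (D f k) j x with hSdef
    have h1 : ∀ i, (-D (D f i) j x + Nn f i x * S) ^ 2 =
        D (D f i) j x ^ 2 - 2 * S * (Nn f i x * D (D f i) j x) + S ^ 2 * Nn f i x ^ 2 := fun i => by ring
    simp only [h1, Finset.sum_add_distrib, Finset.sum_sub_distrib, ← Finset.mul_sum]
    rw [← hSdef, hNsum]
    ring
  simp only [hgn]
  rw [key]
  field_simp

end Pool.Agent.H323.Cube
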