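import Pool.Agent.H194.Cube.Defs

/-!
CUBE PROFILE project (helper194): the gradient bound `S_grad`.
-/

set_option autoImplicit false

open MeasureTheory Set Filter Topology ProbabilityTheory
open scoped ContDiff ENNReal NNReal

namespace Pool.Agent.H551.Cube

open Pool.Agent.H194.Cube

instance prob_gs (n : ℕ) : IsProbabilityMeasure (gs n) := by
  unfold gs
  infer_instance

/-- the linear functional -/
noncomputable def lin {n : ℕ} (e : Fin n → ℝ) (z : Fin n → ℝ) : ℝ := ∑ i, e i * z i

theorem lin_cont {n : ℕ} (e : Fin n → ℝ) : Continuous (lin e) := by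
  unfold lin
  fun_prop

/-- the law of a unit linear functional -/
theorem law {n : ℕ} {e : Fin n → ℝ} (he : ∑ i, e i ^ 2 = 1) :
    (gs n).map (lin e) = gaussianReal 0 1 := by
  have hm : Measurable (lin e) := (lin_cont e).measurable
  have hp : IsProbabilityMeasure ((gs n).map (lin e)) :=
    Measure.isProbabilityMeasure_map hm.aemeasurable
  apply Measure.ext_of_charFun
  funext t
  rw [charFun_gaussianReal, charFun_apply_real, integral_map hm.aemeasurable
    (by fun_prop)]
  have h1 : ∀ z : Fin n → ℝ, Complex.exp (t * (lin e z : ℂ) * Complex.I) =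
      ∏ i, Complex.exp (((t * e i : ℝ) : ℂ) * (z i : ℂ) * Complex.I) := by
    intro z
    rw [← Complex.exp_sum]
    congr 1
    unfold lin
    push_cast
    rw [Finset.mul_sum, Finset.sum_mul]
    refine Finset.sum_congr rfl fun i _ => ?_
    ring
  simp_rw [h1]
  unfold gs
  rw [integral_fintype_prod_eq_prod
    (fun (i : Fin n) (x : ℝ) => Complex.exp (((t * e i : ℝ) : ℂ) * (x : ℂ) * Complex.I))]
  have h2 : ∀ i, ∫ x : ℝ, Complex.exp (((t * e i : ℝ) : ℂ) * (x : ℂ) * Complex.I) ∂gaussianReal 0 1 =
      Complex.exp (-((t * e i) ^ 2 / 2 : ℝ)) := by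
    intro i
    rw [← charFun_apply_real, charFun_gaussianReal]
    congr 1
    push_cast
    ring
  simp_rw [h2]
  rw [← Complex.exp_sum]
  congr 1
  have h3 : ∑ i, -(((t * e i) ^ 2 / 2 : ℝ) : ℂ) = ((-(t ^ 2 / 2 * ∑ i, e i ^ 2) : ℝ) : ℂ) := by
    push_cast
    rw [Finset.mul_sum, ← Finset.sum_neg_distrib]
    refine Finset.sum_congr rfl fun i _ => ?_
    ring
  rw [h3, he]
  push_cast
  ring

theorem phi_eq (u : ℝ) : gaussianPDFReal 0 1 u = phi u := by
  unfold gaussianPDFReal phi
  simp
  ring_nf

theorem phi_even (u : ℝ) : phi (-u) = phi u := by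
  unfold phi
  rw [neg_sq]

theorem phi_int : Integrable phi := by
  have h := integrable_gaussianPDFReal 0 1
  refine h.congr (Eventually.of_forall fun u => phi_eq u)

theorem phi_deriv (u : ℝ) : HasDerivAt (fun t => -phi t) (u * phi u) u := by
  unfold phi
  have h1 : HasDerivAt (fun t : ℝ => -t ^ 2 / 2) (-u) u := by
    have := ((hasDerivAt_pow 2 u).neg).div_const 2
    refine this.congr_deriv ?_
    push_cast
    ring
  have h2 := (h1.exp.div_const (√(2 * Real.pi))).neg
  refine h2.congr_deriv ?_
  ring

theorem integrable_id_phi : Integrable (fun u : ℝ => u * phi u) := by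
  have h1 : Integrable (fun x : ℝ => x) (gaussianReal 0 1) :=
    (memLp_id_gaussianReal 1).integrable (by norm_num)
  rw [gaussianReal_of_var_ne_zero 0 one_ne_zero] at h1
  have h2 := (integrable_withDensity_iff_integrable_smul' (measurable_gaussianPDF 0 1)
    (Eventually.of_forall fun _ => gaussianPDF_lt_top)).1 h1
  refine h2.congr (Eventually.of_forall fun u => ?_)
  simp only [toReal_gaussianPDF, smul_eq_mul, phi_eq]
  ring

theorem phi_tendsto : Tendsto phi atTop (𝓝 0) := by
  unfold phi
  have h1 : Tendsto (fun t : ℝ => -t ^ 2 / 2) atTop atBot := by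
    have h2 : Tendsto (fun t : ℝ => t ^ 2) atTop atTop := tendsto_pow_atTop two_ne_zero
    have h3 := (tendsto_neg_atTop_atBot.comp h2).atBot_div_const (r := 2) two_pos
    exact h3
  have h2 := (Real.tendsto_exp_atBot.comp h1).div_const (√(2 * Real.pi))
  rw [zero_div] at h2
  exact h2

/-- the expectation of the positive part -/
theorem pos_part (h : ℝ) : ∫ u, max (u + h) 0 ∂gaussianReal 0 1 = phi h + h * Phi h := by
  rw [integral_gaussianReal_eq_integral_smul one_ne_zero]
  have h1 : ∀ u : ℝ, gaussianPDFReal 0 1 u • max (u + h) 0 =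
      (Ioi (-h)).indicator (fun u => u * phi u + h * phi u) u := by
    intro u
    rw [phi_eq, smul_eq_mul]
    by_cases hu : -h < u
    · rw [indicator_of_mem (show u ∈ Ioi (-h) from hu), max_eq_left (by linarith)]
      ring
    · rw [indicator_of_notMem (show u ∉ Ioi (-h) from hu), max_eq_right (by linarith [not_lt.1 hu]),
        mul_zero]
  simp_rw [h1]
  rw [integral_indicator measurableSet_Ioi, integral_add integrable_id_phi.integrableOn
    (phi_int.const_mul h).integrableOn]
  have h2 : ∫ u in Ioi (-h), u * phi u = phi h := by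
    have h3 := integral_Ioi_of_hasDerivAt_of_tendsto' (a := -h) (f := fun t => -phi t) (m := 0)
      (fun x _ => phi_deriv x) integrable_id_phi.integrableOn (by simpa using phi_tendsto.neg)
    rw [h3, phi_even]
    ring
  have h3 : ∫ u in Ioi (-h), h * phi u = h * Phi h := by
    rw [integral_const_mul]
    congr 1
    have h4 := integral_comp_neg_Ioi (-h) phi
    simp only [phi_even, neg_neg] at h4
    rw [h4]
    rfl
  rw [h2, h3]

/-- the gradient bound -/
theorem s_grad (hB : HeatB) (hC : HeatC) (hG : GaussFacts) : S_grad := by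
  intro n σ g x hσ hg hp hg01 hf0 hf1
  set f := heat σ g x with hf
  obtain ⟨h, hh⟩ := hG.surj f hf0 hf1
  set v : Fin n → ℝ := fun i => D (heat σ g) i x with hv
  have hgn : gn (heat σ g) x = √(∑ i, v i ^ 2) := rfl
  rcases eq_or_lt_of_le (Real.sqrt_nonneg (∑ i, v i ^ 2)) with h0 | h0
  · rw [hgn, ← h0, mul_zero]
    exact hG.iga_nonneg _
  set N : ℝ := √(∑ i, v i ^ 2) with hN
  have hN2 : N ^ 2 = ∑ i, v i ^ 2 := Real.sq_sqrt (Finset.sum_nonneg fun i _ => sq_nonneg _)
  set e : Fin n → ℝ := fun i => v i / N with he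
  have he1 : ∑ i, e i ^ 2 = 1 := by
    simp only [he, div_pow]
    rw [← Finset.sum_div, ← hN2]
    field_simp
  have hlaw := law he1
  have hm : Measurable (lin e) := (lin_cont e).measurable
  have hid : Integrable (fun x : ℝ => x) (gaussianReal 0 1) :=
    (memLp_id_gaussianReal 1).integrable (by norm_num)
  have hlin : Integrable (lin e) (gs n) := by
    rw [← hlaw] at hid
    exact (integrable_map_measure (by fun_prop) hm.aemeasurable).1 hid
  have hgc : Continuous g := hg.continuous
  have hgm : Measurable fun z : Fin n → ℝ => g (x + σ • z) := by fun_prop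
  have hgi : Integrable (fun z : Fin n → ℝ => g (x + σ • z)) (gs n) := by
    refine Integrable.of_bound hgm.aestronglyMeasurable 1 (Eventually.of_forall fun z => ?_)
    rw [Real.norm_eq_abs, abs_le]
    constructor <;> linarith [(hg01 (x + σ • z)).1, (hg01 (x + σ • z)).2]
  have hbdd : ∀ (k : (Fin n → ℝ) → ℝ), Integrable k (gs n) →
      Integrable (fun z : Fin n → ℝ => g (x + σ • z) * k z) (gs n) := by
    intro k hk
    refine hk.bdd_mul (c := 1) hgm.aestronglyMeasurable (Eventually.of_forall fun z => ?_)
    rw [Real.norm_eq_abs, abs_le]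
    constructor <;> linarith [(hg01 (x + σ • z)).1, (hg01 (x + σ • z)).2]
  -- the coordinates
  have hcoord : ∀ i : Fin n, Integrable (fun z : Fin n → ℝ => z i) (gs n) := by
    intro i
    have h1 := measurePreserving_eval (fun _ : Fin n => gaussianReal 0 1) i
    exact h1.integrable_comp_of_integrable hid
  have hsum : σ * N = ∫ z, g (x + σ • z) * lin e z ∂gs n := by
    have h1 : ∀ z : Fin n → ℝ, g (x + σ • z) * lin e z = ∑ i, e i * (g (x + σ • z) * z i) := by
      intro z
      unfold lin
      rw [Finset.mul_sum]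
      refine Finset.sum_congr rfl fun i _ => ?_
      ring
    simp_rw [h1]
    rw [integral_finsetSum _ fun i _ => (hbdd _ (hcoord i)).const_mul (e i)]
    have h2 : ∀ i, ∫ z, e i * (g (x + σ • z) * z i) ∂gs n = σ * (v i ^ 2 / N) := by
      intro i
      rw [integral_const_mul, hC.stein n σ g i x hg hp, ← hB.comm n σ g i x hg hp]
      simp only [he, hv]
      ring
    simp_rw [h2]
    rw [← Finset.mul_sum, ← Finset.sum_div, ← hN2]
    field_simp
  have hle : ∫ z, g (x + σ • z) * lin e z ∂gs n ≤
      ∫ z, (max (lin e z + h) 0 - h * g (x + σ • z)) ∂gs n := by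
    have hmax : Integrable (fun z => max (lin e z + h) 0) (gs n) :=
      (hlin.add (integrable_const h)).sup (integrable_const 0)
    refine integral_mono (hbdd _ hlin) (hmax.sub (hgi.const_mul h)) fun z => ?_
    have h1 := (hg01 (x + σ • z)).1
    have h2 := (hg01 (x + σ • z)).2
    have h3 := le_max_left (lin e z + h) 0
    have h4 := le_max_right (lin e z + h) 0
    show g (x + σ • z) * lin e z ≤ max (lin e z + h) 0 - h * g (x + σ • z)
    have h5 : g (x + σ • z) * (lin e z + h) ≤ g (x + σ • z) * max (lin e z + h) 0 :=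
      mul_le_mul_of_nonneg_left h3 h1
    have h6 : g (x + σ • z) * max (lin e z + h) 0 ≤ 1 * max (lin e z + h) 0 :=
      mul_le_mul_of_nonneg_right h2 h4
    linarith
  have hmax : Integrable (fun z => max (lin e z + h) 0) (gs n) :=
    (hlin.add (integrable_const h)).sup (integrable_const 0)
  rw [integral_sub hmax (hgi.const_mul h), integral_const_mul] at hle
  have hmap : ∫ z, max (lin e z + h) 0 ∂gs n = phi h + h * Phi h := by
    rw [← pos_part, ← hlaw, integral_map hm.aemeasurable (by fun_prop)]
  rw [hmap, ← hsum] at hle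
  have hfe : ∫ z, g (x + σ • z) ∂gs n = f := rfl
  rw [hfe, hh] at hle
  have h7 : Iga f = phi h := by rw [← hh]; exact hG.iga h
  rw [hgn, h7]
  linarith

end Pool.Agent.H551.Cube
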