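import Pool.Agent.H194.Cube.Defs

/-!
# CUBE PROFILE project (helper194): basic facts on Gaussian averages
-/

set_option autoImplicit false

namespace Pool.Agent.H665.Cube

open MeasureTheory Set Filter Topology ProbabilityTheory
open Pool.Agent.H194.Cube
open scoped ContDiff ENNReal

instance prob_gs (n : ℕ) : IsProbabilityMeasure (gs n) := by
  unfold gs
  infer_instance

instance pos_gauss : (gaussianReal 0 1).IsOpenPosMeasure :=
  (gaussianReal_absolutelyContinuous' 0 one_ne_zero).isOpenPosMeasure

instance pos_gs (n : ℕ) : (gs n).IsOpenPosMeasure := by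
  unfold gs
  infer_instance

theorem cont_aux {n : ℕ} {g : (Fin n → ℝ) → ℝ} (hg : Continuous g) (σ : ℝ) (x : Fin n → ℝ) :
    Continuous fun z : Fin n → ℝ => g (x + σ • z) :=
  hg.comp (continuous_const.add (continuous_const_smul σ))

theorem intg (hB : BoxFacts) {n : ℕ} {g : (Fin n → ℝ) → ℝ} (hg : Continuous g) (hp : Per g)
    (σ : ℝ) (x : Fin n → ℝ) : Integrable (fun z : Fin n → ℝ => g (x + σ • z)) (gs n) := by
  obtain ⟨M, hM⟩ := hB.bdd n g hg hp
  exact Integrable.of_bound (cont_aux hg σ x).aestronglyMeasurable M
    (Eventually.of_forall fun z => hM _)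

/-- the reflection -/
def rfl' {n : ℕ} (i : Fin n) (z : Fin n → ℝ) : Fin n → ℝ := fun j => if j = i then -z j else z j

theorem rfl_eq {n : ℕ} (i : Fin n) (z : Fin n → ℝ) : rfl' i z = Function.update z i (-z i) := by
  funext j
  unfold rfl'
  by_cases h : j = i
  · subst h; simp
  · rw [if_neg h, Function.update_of_ne h]

theorem rfl_inv {n : ℕ} (i : Fin n) : Function.Involutive (rfl' i) := by
  intro z
  funext j
  unfold rfl'
  by_cases h : j = i
  · simp [h]
  · simp [h]

theorem rfl_mp {n : ℕ} (i : Fin n) : MeasurePreserving (rfl' i) (gs n) (gs n) := by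
  have h : ∀ j : Fin n, MeasurePreserving (fun t : ℝ => if j = i then -t else t)
      (gaussianReal 0 1) (gaussianReal 0 1) := by
    intro j
    by_cases hj : j = i
    · simp only [hj, if_true]
      refine ⟨measurable_neg, ?_⟩
      have := gaussianReal_map_neg (μ := 0) (v := 1)
      rwa [neg_zero] at this
    · simp only [hj, if_false]
      exact MeasurePreserving.id _
  exact measurePreserving_pi _ _ h

theorem rfl_emb {n : ℕ} (i : Fin n) : MeasurableEmbedding (rfl' i) :=
  (MeasurableEquiv.ofInvolutive (rfl' i) (rfl_inv i) (rfl_mp i).measurable).measurableEmbedding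

theorem rfl_add {n : ℕ} (i : Fin n) (σ : ℝ) (x z : Fin n → ℝ) :
    Function.update x i (-x i) + σ • rfl' i z =
      Function.update (x + σ • z) i (-(x + σ • z) i) := by
  rw [rfl_eq]
  funext j
  by_cases h : j = i
  · subst h
    simp only [Pi.add_apply, Pi.smul_apply, Function.update_self, smul_eq_mul]
    ring
  · simp only [Pi.add_apply, Pi.smul_apply, Function.update_of_ne h]

/-- **HeatA** -/
theorem heatA (hB : BoxFacts) : HeatA where
  per := by
    intro n σ g hg x i
    unfold heat
    congr 1
    funext z
    rw [add_right_comm, hg]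
  evn := by
    intro n σ g i hg x
    unfold heat
    rw [← (rfl_mp i).integral_comp (rfl_emb i)]
    congr 1
    funext z
    rw [rfl_add, hg]
  odd := by
    intro n σ g i hg x
    unfold heat
    rw [← (rfl_mp i).integral_comp (rfl_emb i), ← integral_neg]
    congr 1
    funext z
    rw [rfl_add, hg]
  mono := by
    intro n σ g k x hg hgp hk hkp h
    exact integral_mono (intg hB hg hgp σ x) (intg hB hk hkp σ x) fun z => h _
  bound := by
    intro n σ M g x hg hgp h
    have := norm_integral_le_of_norm_le_const (μ := gs n) (f := fun z => g (x + σ • z)) (C := M)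
      (Eventually.of_forall fun z => h _)
    simpa [heat] using this
  cont := by
    intro n g hg hgp
    obtain ⟨M, hM⟩ := hB.bdd n g hg hgp
    unfold heat
    refine continuous_of_dominated (bound := fun _ => M) (fun p => ?_) (fun p => ?_)
      (integrable_const M) ?_
    · exact (cont_aux hg p.1 p.2).aestronglyMeasurable
    · exact Eventually.of_forall fun z => hM _
    · refine Eventually.of_forall fun z => ?_
      exact hg.comp (continuous_snd.add (continuous_fst.smul continuous_const))
  zero := by
    intro n g x
    unfold heat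
    simp
  pos := by
    intro n σ g x hσ hg hgp h0 hy
    obtain ⟨y, hy⟩ := hy
    unfold heat
    rw [integral_pos_iff_support_of_nonneg (fun z => h0 _) (intg hB hg hgp σ x)]
    refine IsOpen.measure_pos _ ?_ ⟨σ⁻¹ • (y - x), ?_⟩
    · exact (cont_aux hg σ x).isOpen_support
    · rw [Function.mem_support, smul_inv_smul₀ hσ.ne', add_sub_cancel]
      exact hy.ne'
  const := by
    intro n σ c x
    unfold heat
    simp
  add := by
    intro n σ g k x hg hgp hk hkp
    exact integral_add (intg hB hg hgp σ x) (intg hB hk hkp σ x)
  smul := by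
    intro n σ c g x
    exact integral_const_mul c _

end Pool.Agent.H665.Cube
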