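import Pool.Agent.H194.Cube.Defs

/-!
# CUBE HeatB: derivatives of the heat flow (helper746)
-/

set_option autoImplicit false

namespace Pool.Agent.H746.Cube

open MeasureTheory Set Filter Topology ProbabilityTheory
open scoped ContDiff ENNReal
open Pool.Agent.H194.Cube

/-- 2-periodic vector valued functions -/
def PerE {n : ℕ} {E : Type} (g : (Fin n → ℝ) → E) : Prop := ∀ x i, g (x + Pi.single i 2) = g x

/-- Gaussian average of a vector valued function -/
noncomputable def heatE {n : ℕ} {E : Type} [NormedAddCommGroup E] [NormedSpace ℝ E] (σ : ℝ)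
    (g : (Fin n → ℝ) → E) (x : Fin n → ℝ) : E := ∫ z, g (x + σ • z) ∂gs n

instance gs_prob (n : ℕ) : IsProbabilityMeasure (gs n) := by
  unfold gs
  infer_instance

section

variable {n : ℕ} {E : Type} [NormedAddCommGroup E] [NormedSpace ℝ E]

theorem perE_bdd (hB : BoxFacts) {g : (Fin n → ℝ) → E} (hg : Continuous g) (hp : PerE g) :
    ∃ M, ∀ x, ‖g x‖ ≤ M := by
  obtain ⟨M, hM⟩ := hB.bdd n (fun x => ‖g x‖) hg.norm (fun x i => congrArg norm (hp x i))
  refine ⟨M, fun x => ?_⟩
  have := hM x
  rwa [abs_of_nonneg (norm_nonneg _)] at this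

theorem perE_fderiv {g : (Fin n → ℝ) → E} (hp : PerE g) : PerE (fderiv ℝ g) := by
  intro x i
  have h : (fun y => g (y + Pi.single i 2)) = g := by
    funext y
    exact hp y i
  calc fderiv ℝ g (x + Pi.single i 2) = fderiv ℝ (fun y => g (y + Pi.single i 2)) x := by
        rw [fderiv_comp_add_right]
    _ = fderiv ℝ g x := by rw [h]

theorem aesm_comp {g : (Fin n → ℝ) → E} (hg : Continuous g) (σ : ℝ) (x : Fin n → ℝ) :
    AEStronglyMeasurable (fun z => g (x + σ • z)) (gs n) := by
  have : Continuous fun z : Fin n → ℝ => g (x + σ • z) := by fun_prop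
  exact this.aestronglyMeasurable

theorem int_comp (hB : BoxFacts) {g : (Fin n → ℝ) → E} (hg : Continuous g) (hp : PerE g) (σ : ℝ)
    (x : Fin n → ℝ) : Integrable (fun z => g (x + σ • z)) (gs n) := by
  obtain ⟨M, hM⟩ := perE_bdd hB hg hp
  exact (integrable_const M).mono' (aesm_comp hg σ x) (Eventually.of_forall fun z => hM _)

theorem heatE_cont (hB : BoxFacts) {g : (Fin n → ℝ) → E} (hg : Continuous g) (hp : PerE g)
    (σ : ℝ) : Continuous (heatE σ g) := by
  obtain ⟨M, hM⟩ := perE_bdd hB hg hp
  unfold heatE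
  refine continuous_of_dominated (fun x => aesm_comp hg σ x)
    (fun x => Eventually.of_forall fun z => hM _) (integrable_const M)
    (Eventually.of_forall fun z => ?_)
  fun_prop

theorem heatE_fderiv (hB : BoxFacts) {g : (Fin n → ℝ) → E} (hg : ContDiff ℝ 1 g) (hp : PerE g)
    (σ : ℝ) (x : Fin n → ℝ) : HasFDerivAt (heatE σ g) (heatE σ (fderiv ℝ g) x) x := by
  have hc : Continuous (fderiv ℝ g) := hg.continuous_fderiv one_ne_zero
  obtain ⟨M, hM⟩ := perE_bdd hB hc (perE_fderiv hp)
  unfold heatE
  refine hasFDerivAt_integral_of_dominated_of_fderiv_le (𝕜 := ℝ)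
    (F := fun x z => g (x + σ • z)) (F' := fun x z => fderiv ℝ g (x + σ • z))
    (bound := fun _ => M) (s := univ) univ_mem
    (Eventually.of_forall fun y => aesm_comp hg.continuous σ y)
    (int_comp hB hg.continuous hp σ x) (aesm_comp hc σ x)
    (Eventually.of_forall fun z y _ => hM _) (integrable_const M)
    (Eventually.of_forall fun z y _ => ?_)
  have h1 : HasFDerivAt g (fderiv ℝ g (y + σ • z)) (y + σ • z) :=
    ((hg.differentiable one_ne_zero) (y + σ • z)).hasFDerivAt
  exact (hasFDerivAt_comp_add_right (σ • z)).2 h1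

end

theorem heatE_contDiff (hB : BoxFacts) {n : ℕ} (σ : ℝ) (k : ℕ) :
    ∀ (E : Type) [NormedAddCommGroup E] [NormedSpace ℝ E] (g : (Fin n → ℝ) → E),
      ContDiff ℝ k g → PerE g → ContDiff ℝ k (heatE σ g) := by
  induction k with
  | zero =>
    intro E _ _ g hg hp
    rw [Nat.cast_zero, contDiff_zero] at hg ⊢
    exact heatE_cont hB hg hp σ
  | succ k ih =>
    intro E _ _ g hg hp
    have hg1 : ContDiff ℝ 1 g := hg.of_le (by
      rw [Nat.cast_add, Nat.cast_one]
      exact le_add_self)
    have hfd : fderiv ℝ (heatE σ g) = heatE σ (fderiv ℝ g) := by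
      funext x
      exact (heatE_fderiv hB hg1 hp σ x).fderiv
    rw [Nat.cast_add, Nat.cast_one] at hg ⊢
    rw [contDiff_succ_iff_fderiv] at hg ⊢
    refine ⟨fun x => (heatE_fderiv hB hg1 hp σ x).differentiableAt, fun h => ?_, ?_⟩
    · exact absurd h (by
        intro h'
        exact (WithTop.coe_ne_top (a := ((k : ℕ) : ℕ∞))) h')
    · rw [hfd]
      exact ih _ _ hg.2.2 (perE_fderiv hp)

theorem heatB (hB : BoxFacts) : HeatB where
  comm n σ g i x hg hp := by
    unfold D
    have h1 : HasFDerivAt (heat σ g) (heatE σ (fderiv ℝ g) x) x := heatE_fderiv hB hg hp σ x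
    rw [h1.fderiv]
    unfold heatE heat
    exact ContinuousLinearMap.integral_apply
      (int_comp hB (hg.continuous_fderiv one_ne_zero) (perE_fderiv hp) σ x) _
  smooth1 n σ g hg hp := heatE_contDiff hB σ 1 ℝ g (by exact_mod_cast hg) hp
  smooth n σ g hg hp := by
    rw [contDiff_infty] at hg ⊢
    intro k
    exact heatE_contDiff hB σ k ℝ g (hg k) hp
  jensen n σ g x hg hp := by
    have hc : Continuous (fderiv ℝ g) := hg.continuous_fderiv one_ne_zero
    let V : (Fin n → ℝ) → EuclideanSpace ℝ (Fin n) := fun y => WithLp.toLp 2 fun i => D g i y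
    have hV : Continuous V := by
      refine (PiLp.continuous_toLp 2 _).comp (continuous_pi fun i => ?_)
      exact hc.clm_apply continuous_const
    have hVp : PerE V := by
      intro y i
      show WithLp.toLp 2 (fun j => fderiv ℝ g (y + Pi.single i 2) _) = WithLp.toLp 2 _
      rw [perE_fderiv hp y i]
      rfl
    have hnorm : ∀ y, ‖V y‖ = gn g y := by
      intro y
      rw [EuclideanSpace.norm_eq]
      unfold gn
      refine congrArg Real.sqrt (Finset.sum_congr rfl fun i _ => ?_)
      rw [Real.norm_eq_abs, sq_abs]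
    have hint := int_comp hB hV hVp σ x
    have hcomp : ∀ i, D (heat σ g) i x = (heatE σ V x) i := by
      intro i
      have h1 : HasFDerivAt (heat σ g) (heatE σ (fderiv ℝ g) x) x := heatE_fderiv hB hg hp σ x
      unfold D
      rw [h1.fderiv]
      unfold heatE
      rw [ContinuousLinearMap.integral_apply (int_comp hB hc (perE_fderiv hp) σ x)]
      have h2 := (EuclideanSpace.proj (𝕜 := ℝ) i : EuclideanSpace ℝ (Fin n) →L[ℝ] ℝ).integral_comp_comm
        hint
      exact h2
    have hgn : gn (heat σ g) x = ‖heatE σ V x‖ := by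
      rw [EuclideanSpace.norm_eq]
      unfold gn
      refine congrArg Real.sqrt (Finset.sum_congr rfl fun i _ => ?_)
      rw [hcomp i, Real.norm_eq_abs, sq_abs]
    rw [hgn]
    unfold heatE heat
    refine (norm_integral_le_integral_norm _).trans (le_of_eq ?_)
    refine integral_congr_ae (Eventually.of_forall fun z => ?_)
    exact hnorm _

end Pool.Agent.H746.Cube
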