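import Pool.Agent.H194.Cube.Defs

/-!
# The heat flow is self-adjoint on the period cell (helper264, task HeatD of helper194)
-/

set_option autoImplicit false

namespace Pool.Agent.H264.Cube

open MeasureTheory Set Filter Topology ProbabilityTheory
open Pool.Agent.H194.Cube

instance gs_prob (n : ℕ) : IsProbabilityMeasure (gs n) := by
  unfold gs
  infer_instance

lemma gs_neg (n : ℕ) : MeasurePreserving (fun z : Fin n → ℝ => -z) (gs n) (gs n) := by
  have h1 : MeasurePreserving (fun t : ℝ => -t) (gaussianReal 0 1) (gaussianReal 0 1) := by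
    refine ⟨measurable_neg, ?_⟩
    rw [gaussianReal_map_neg, neg_zero]
  exact measurePreserving_pi _ _ fun _ => h1

lemma integral_neg_gs (n : ℕ) (F : (Fin n → ℝ) → ℝ) : ∫ z, F (-z) ∂gs n = ∫ z, F z ∂gs n :=
  (gs_neg n).integral_comp (MeasurableEquiv.neg (Fin n → ℝ)).measurableEmbedding F

lemma per_mul_shift {n : ℕ} {g k : (Fin n → ℝ) → ℝ} (hg : Per g) (hk : Per k) (w : Fin n → ℝ) :
    Per (fun x => g (x + w) * k x) := by
  intro x i
  change g (x + Pi.single i 2 + w) * k (x + Pi.single i 2) = g (x + w) * k x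
  rw [hk, add_right_comm, hg]

/-- Fubini for the heat flow -/
lemma fub (hB : BoxFacts) {n : ℕ} (σ : ℝ) {g k : (Fin n → ℝ) → ℝ} (hg : Continuous g)
    (hgp : Per g) (hk : Continuous k) (hkp : Per k) :
    ∫ x in Icc (-1 : Fin n → ℝ) 1, heat σ g x * k x =
      ∫ z, (∫ x in Icc (-1 : Fin n → ℝ) 1, g (x + σ • z) * k x) ∂gs n := by
  obtain ⟨M, hM⟩ := hB.bdd n g hg hgp
  obtain ⟨L, hL⟩ := hB.bdd n k hk hkp
  have h1 : ∀ x, heat σ g x * k x = ∫ z, g (x + σ • z) * k x ∂gs n := fun x => by
    unfold heat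
    rw [integral_mul_const]
  simp only [h1]
  have hfin : IsFiniteMeasure ((volume : Measure (Fin n → ℝ)).restrict (Icc (-1) 1)) :=
    ⟨by rw [Measure.restrict_apply_univ]; exact isCompact_Icc.measure_lt_top⟩
  refine integral_integral_swap (f := fun x z => g (x + σ • z) * k x) ?_
  refine Integrable.of_bound (C := |M| * |L|) ?_ ?_
  · apply Continuous.aestronglyMeasurable
    change Continuous fun p : (Fin n → ℝ) × (Fin n → ℝ) => g (p.1 + σ • p.2) * k p.1
    exact (hg.comp (continuous_fst.add (continuous_snd.const_smul σ))).mul (hk.comp continuous_fst)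
  · refine Eventually.of_forall fun p => ?_
    change ‖g (p.1 + σ • p.2) * k p.1‖ ≤ |M| * |L|
    rw [norm_mul, Real.norm_eq_abs, Real.norm_eq_abs]
    exact mul_le_mul ((hM _).trans (le_abs_self M)) ((hL _).trans (le_abs_self L)) (abs_nonneg _)
      (abs_nonneg _)

theorem adj (hB : BoxFacts) (n : ℕ) (σ : ℝ) (g k : (Fin n → ℝ) → ℝ) (hg : Continuous g)
    (hgp : Per g) (hk : Continuous k) (hkp : Per k) :
    ∫ x in Icc (-1 : Fin n → ℝ) 1, heat σ g x * k x =
      ∫ x in Icc (-1 : Fin n → ℝ) 1, g x * heat σ k x := by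
  have h1 := fub hB σ hg hgp hk hkp
  have h2 := fub hB σ hk hkp hg hgp
  have h3 : ∀ x, g x * heat σ k x = heat σ k x * g x := fun x => mul_comm _ _
  simp only [h3]
  rw [h1, h2, ← integral_neg_gs]
  refine integral_congr_ae (Eventually.of_forall fun z => ?_)
  change ∫ x in Icc (-1 : Fin n → ℝ) 1, g (x + σ • (-z)) * k x =
    ∫ x in Icc (-1 : Fin n → ℝ) 1, k (x + σ • z) * g x
  have h4 := hB.shift n (fun x => g (x + σ • (-z)) * k x) (σ • z)
    ((hg.comp (continuous_id.add continuous_const)).mul hk) (per_mul_shift hgp hkp _)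
  rw [← h4]
  refine integral_congr_ae (Eventually.of_forall fun x => ?_)
  change g (x + σ • z + σ • (-z)) * k (x + σ • z) = k (x + σ • z) * g x
  rw [smul_neg, add_neg_cancel_right, mul_comm]

theorem heatD (hB : BoxFacts) (_hS : SymFacts) (hA : HeatA) : HeatD := by
  refine ⟨adj hB, fun n σ g hg hs => ?_⟩
  have h1 := adj hB n σ g (fun _ => 1) hg hs.1 continuous_const (fun _ _ => rfl)
  simp only [mul_one, hA.const] at h1
  have hcont : Continuous (heat σ g) :=
    (hA.cont n g hg hs.1).comp (continuous_const.prodMk continuous_id)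
  rw [hB.half n (heat σ g) hcont (fun i => hA.evn n σ g i (hs.2 i)), hB.half n g hg hs.2] at h1
  exact mul_left_cancel₀ (by positivity) h1

end Pool.Agent.H264.Cube
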