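import Mathlib
import Pool.Agent.H194.Cube.Defs

/-!
# The total variation decreases along the heat flow, and the `L¹` distance (helper34)

Statements `S_dec` and `S_L1` of `Pool.Agent.H194.Cube.Defs`.
-/

set_option autoImplicit false

namespace Pool.Agent.H34.Cube

open MeasureTheory Set Filter Topology ProbabilityTheory
open Pool.Agent.H194.Cube
open scoped ContDiff ENNReal

variable {n : ℕ}

instance isProb_gs (n : ℕ) : IsProbabilityMeasure (gs n) := by
  unfold gs
  infer_instance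

theorem continuous_D {g : (Fin n → ℝ) → ℝ} (hg : ContDiff ℝ 1 g) (i : Fin n) :
    Continuous (D g i) := by
  unfold D
  exact (hg.continuous_fderiv (by norm_num)).clm_apply continuous_const

theorem continuous_gn {g : (Fin n → ℝ) → ℝ} (hg : ContDiff ℝ 1 g) : Continuous (gn g) := by
  unfold gn
  exact (continuous_finsetSum _ fun i _ => (continuous_D hg i).pow 2).sqrt

theorem gn_nonneg (g : (Fin n → ℝ) → ℝ) (x : Fin n → ℝ) : 0 ≤ gn g x := Real.sqrt_nonneg _

theorem per_gn (hS : SymFacts) {g : (Fin n → ℝ) → ℝ} (hP : Per g) : Per (gn g) := by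
  intro x i
  unfold gn
  congr 1
  refine Finset.sum_congr rfl fun j _ => ?_
  rw [hS.per n g j hP x i]

theorem evn_gn (hS : SymFacts) {g : (Fin n → ℝ) → ℝ} (hg : ContDiff ℝ 1 g)
    (hE : ∀ i, Evn g i) (i : Fin n) : Evn (gn g) i := by
  intro x
  unfold gn
  congr 1
  refine Finset.sum_congr rfl fun j _ => ?_
  by_cases h : i = j
  · subst h
    rw [hS.evn_same n g i hg (hE i) x, neg_sq]
  · rw [hS.evn_diff n g i j h hg (hE i) x]

theorem continuous_heat (hA : HeatA) {g : (Fin n → ℝ) → ℝ} (hg : Continuous g) (hP : Per g)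
    (σ : ℝ) : Continuous (heat σ g) := by
  have h1 := hA.cont n g hg hP
  exact h1.comp (continuous_const.prodMk continuous_id)

theorem integrableOn_box {g : (Fin n → ℝ) → ℝ} (hg : Continuous g) (a b : Fin n → ℝ) :
    IntegrableOn g (Icc a b) :=
  hg.continuousOn.integrableOn_compact isCompact_Icc

/-- **The total variation decreases.** -/
theorem dec (hA : HeatA) (hB : HeatB) (hD : HeatD) (hS : SymFacts) : S_dec := by
  intro n σ g hg hsym
  have hc := continuous_gn hg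
  have hpg : Per (gn g) := per_gn hS hsym.1
  have hsg : Sym (gn g) := ⟨hpg, evn_gn hS hg hsym.2⟩
  have h1 := hD.mass n σ (gn g) hc hsg
  unfold TV
  rw [← h1]
  refine setIntegral_mono_on
    (integrableOn_box (continuous_gn (hB.smooth1 n σ g hg hsym.1)) _ _)
    (integrableOn_box (continuous_heat hA hc hpg σ) _ _) measurableSet_Icc ?_
  intro x _
  exact hB.jensen n σ g x hg hsym.1

/-- the derivative in the direction `z` -/
noncomputable def dv (g : (Fin n → ℝ) → ℝ) (z x : Fin n → ℝ) : ℝ := ∑ i, D g i x * z i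

theorem fderiv_eq (g : (Fin n → ℝ) → ℝ) (z x : Fin n → ℝ) : fderiv ℝ g x z = dv g z x := by
  have hz : z = ∑ i, z i • (Pi.single i (1 : ℝ) : Fin n → ℝ) := by
    funext j
    rw [Finset.sum_apply, Finset.sum_eq_single j]
    · simp
    · intro b _ hb
      simp [Ne.symm hb]
    · simp
  conv_lhs => rw [hz]
  rw [map_sum]
  unfold dv D
  refine Finset.sum_congr rfl fun i _ => ?_
  rw [map_smul, smul_eq_mul, mul_comm]

theorem continuous_dv {g : (Fin n → ℝ) → ℝ} (hg : ContDiff ℝ 1 g) (z : Fin n → ℝ) :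
    Continuous (dv g z) := by
  unfold dv
  exact continuous_finsetSum _ fun i _ => (continuous_D hg i).mul continuous_const

theorem continuous_dv2 {g : (Fin n → ℝ) → ℝ} (hg : ContDiff ℝ 1 g) :
    Continuous (fun p : (Fin n → ℝ) × (Fin n → ℝ) => dv g p.2 p.1) := by
  unfold dv
  exact continuous_finsetSum _ fun i _ =>
    ((continuous_D hg i).comp continuous_fst).mul ((continuous_apply i).comp continuous_snd)

theorem per_dv (hS : SymFacts) {g : (Fin n → ℝ) → ℝ} (hP : Per g) (z : Fin n → ℝ) :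
    Per (dv g z) := by
  intro x i
  unfold dv
  refine Finset.sum_congr rfl fun j _ => ?_
  rw [hS.per n g j hP x i]

/-- fundamental theorem of calculus along a segment -/
theorem ftc {g : (Fin n → ℝ) → ℝ} (hg : ContDiff ℝ 1 g) (z x : Fin n → ℝ) (σ : ℝ) :
    ∫ s in (0 : ℝ)..σ, dv g z (x + s • z) = g (x + σ • z) - g x := by
  have h1 : ∀ s : ℝ, HasDerivAt (fun s : ℝ => g (x + s • z)) (dv g z (x + s • z)) s := by
    intro s
    have h2 : HasDerivAt (fun s : ℝ => x + s • z) z s := by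
      have h3 := ((hasDerivAt_id s).smul_const z).const_add x
      simpa using h3
    have h4 := ((hg.differentiable (by norm_num)) (x + s • z)).hasFDerivAt.comp_hasDerivAt s h2
    rw [fderiv_eq] at h4
    exact h4
  have hc : Continuous (fun s : ℝ => dv g z (x + s • z)) :=
    (continuous_dv hg z).comp (continuous_const.add (continuous_id.smul continuous_const))
  rw [intervalIntegral.integral_eq_sub_of_hasDerivAt (fun s _ => h1 s) (hc.intervalIntegrable 0 σ)]
  simp

theorem enorm_diff_le {g : (Fin n → ℝ) → ℝ} (hg : ContDiff ℝ 1 g) (z x : Fin n → ℝ) {σ : ℝ}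
    (hσ : 0 ≤ σ) :
    ‖g (x + σ • z) - g x‖ₑ ≤ ∫⁻ s in Ioc (0 : ℝ) σ, ‖dv g z (x + s • z)‖ₑ := by
  rw [← ftc hg z x σ, intervalIntegral.integral_of_le hσ]
  exact enorm_integral_le_lintegral_enorm _

/-- shifts do not change the integral over the period cell -/
theorem shift_enorm (hX : BoxFacts) {h : (Fin n → ℝ) → ℝ} (hc : Continuous h) (hP : Per h)
    (w : Fin n → ℝ) :
    ∫⁻ x in Icc (-1 : Fin n → ℝ) 1, ‖h (x + w)‖ₑ = ∫⁻ x in Icc (-1 : Fin n → ℝ) 1, ‖h x‖ₑ := by
  have h1 := hX.shift n (fun x => ‖h x‖) w hc.norm (fun x i => by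
    show ‖h (x + Pi.single i 2)‖ = ‖h x‖
    rw [hP x i])
  have h2 : IntegrableOn (fun x => h (x + w)) (Icc (-1 : Fin n → ℝ) 1) :=
    integrableOn_box (hc.comp (continuous_id.add continuous_const)) _ _
  have h3 : IntegrableOn h (Icc (-1 : Fin n → ℝ) 1) := integrableOn_box hc _ _
  rw [← ofReal_integral_norm_eq_lintegral_enorm h2, ← ofReal_integral_norm_eq_lintegral_enorm h3, h1]

theorem fixed_z (hX : BoxFacts) (hS : SymFacts) {g : (Fin n → ℝ) → ℝ} (hg : ContDiff ℝ 1 g)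
    (hP : Per g) (z : Fin n → ℝ) {σ : ℝ} (hσ : 0 ≤ σ) :
    ∫⁻ x in Icc (-1 : Fin n → ℝ) 1, ‖g (x + σ • z) - g x‖ₑ ≤
      ENNReal.ofReal σ * ∫⁻ x in Icc (-1 : Fin n → ℝ) 1, ‖dv g z x‖ₑ := by
  have hm : Continuous (fun p : (Fin n → ℝ) × ℝ => dv g z (p.1 + p.2 • z)) :=
    (continuous_dv hg z).comp (continuous_fst.add (continuous_snd.smul continuous_const))
  calc ∫⁻ x in Icc (-1 : Fin n → ℝ) 1, ‖g (x + σ • z) - g x‖ₑ
      ≤ ∫⁻ x in Icc (-1 : Fin n → ℝ) 1, ∫⁻ s in Ioc (0 : ℝ) σ, ‖dv g z (x + s • z)‖ₑ :=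
        lintegral_mono fun x => enorm_diff_le hg z x hσ
    _ = ∫⁻ s in Ioc (0 : ℝ) σ, ∫⁻ x in Icc (-1 : Fin n → ℝ) 1, ‖dv g z (x + s • z)‖ₑ :=
        lintegral_lintegral_swap hm.measurable.enorm.aemeasurable
    _ = ∫⁻ _ in Ioc (0 : ℝ) σ, ∫⁻ x in Icc (-1 : Fin n → ℝ) 1, ‖dv g z x‖ₑ :=
        lintegral_congr fun s => shift_enorm hX (continuous_dv hg z) (per_dv hS hP z) (s • z)
    _ = ENNReal.ofReal σ * ∫⁻ x in Icc (-1 : Fin n → ℝ) 1, ‖dv g z x‖ₑ := by
        rw [lintegral_const, Measure.restrict_apply_univ, Real.volume_Ioc, sub_zero, mul_comm]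

/-- mean of the absolute value of a linear form -/
theorem gauss_dot (v : Fin n → ℝ) :
    ∫⁻ z, ‖∑ i, v i * z i‖ₑ ∂gs n ≤ ENNReal.ofReal (√(∑ i, v i ^ 2)) := by
  have hmem1 : ∀ i : Fin n, MemLp (fun t : ℝ => v i * t) 2 (gaussianReal 0 1) := fun i =>
    (memLp_id_gaussianReal' (μ := 0) (v := 1) 2 (by norm_num)).const_mul (v i)
  have hmem : ∀ i : Fin n, MemLp (fun z : Fin n → ℝ => v i * z i) 2 (gs n) := by
    intro i
    exact (hmem1 i).comp_measurePreserving (measurePreserving_eval (fun _ : Fin n => gaussianReal 0 1) i)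
  have hY : MemLp (∑ i, fun z : Fin n → ℝ => v i * z i) 2 (gs n) :=
    memLp_finsetSum' _ fun i _ => hmem i
  have hvar : Var[∑ i, fun z : Fin n → ℝ => v i * z i; gs n] = ∑ i, v i ^ 2 := by
    unfold gs
    rw [variance_sum_pi (X := fun i (t : ℝ) => v i * t) hmem1]
    refine Finset.sum_congr rfl fun i _ => ?_
    rw [variance_const_mul]
    have := variance_id_gaussianReal (μ := 0) (v := 1)
    have h2 : Var[fun t : ℝ => t; gaussianReal 0 1] = 1 := by
      exact this
    rw [h2, mul_one]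
  have hmean : ∫ z, (∑ i, fun z : Fin n → ℝ => v i * z i) z ∂gs n = 0 := by
    simp only [Finset.sum_apply]
    rw [integral_finsetSum]
    · refine Finset.sum_eq_zero fun i _ => ?_
      have h3 := (measurePreserving_eval (fun _ : Fin n => gaussianReal 0 1) i)
      have h4 : ∫ z : Fin n → ℝ, v i * z i ∂gs n = ∫ t, v i * t ∂gaussianReal 0 1 := by
        have h5 := h3.map_eq
        rw [← h5, integral_map h3.measurable.aemeasurable]
        · rfl
        · exact (measurable_const.mul measurable_id).aestronglyMeasurable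
      rw [h4, integral_const_mul, integral_id_gaussianReal, mul_zero]
    · intro i _
      exact (hmem i).integrable (by norm_num)
  have hsq : ∫ z, (∑ i, v i * z i) ^ 2 ∂gs n = ∑ i, v i ^ 2 := by
    have h1 := variance_eq_sub hY
    rw [hvar, hmean] at h1
    have h2 : ∫ z, (∑ i, v i * z i) ^ 2 ∂gs n =
        ∫ z, ((∑ i, fun z : Fin n → ℝ => v i * z i) ^ 2) z ∂gs n := by
      refine integral_congr_ae (Eventually.of_forall fun z => ?_)
      show _ = ((∑ i, fun z : Fin n → ℝ => v i * z i) z) ^ 2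
      rw [Finset.sum_apply]
    rw [h2]
    linarith
  have hY' : MemLp (fun z : Fin n → ℝ => ∑ i, v i * z i) 2 (gs n) := by
    have e : (fun z : Fin n → ℝ => ∑ i, v i * z i) = ∑ i, fun z : Fin n → ℝ => v i * z i := by
      funext z
      rw [Finset.sum_apply]
    rw [e]
    exact hY
  have hYn : MemLp (fun z : Fin n → ℝ => ‖∑ i, v i * z i‖) 2 (gs n) := hY'.norm
  have h5 := variance_nonneg (fun z : Fin n → ℝ => ‖∑ i, v i * z i‖) (gs n)
  rw [variance_eq_sub hYn] at h5
  have h6 : ∫ z, ((fun z : Fin n → ℝ => ‖∑ i, v i * z i‖) ^ 2) z ∂gs n = ∑ i, v i ^ 2 := by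
    rw [← hsq]
    refine integral_congr_ae (Eventually.of_forall fun z => ?_)
    show ‖∑ i, v i * z i‖ ^ 2 = _
    rw [Real.norm_eq_abs, sq_abs]
  rw [h6] at h5
  rw [← ofReal_integral_norm_eq_lintegral_enorm (hY'.integrable (by norm_num))]
  refine ENNReal.ofReal_le_ofReal ?_
  refine Real.le_sqrt_of_sq_le ?_
  linarith

/-- the `L¹` distance on the period cell -/
theorem box_L1 (hA : HeatA) (hX : BoxFacts) (hS : SymFacts) {g : (Fin n → ℝ) → ℝ}
    (hg : ContDiff ℝ 1 g) (hP : Per g) {σ : ℝ} (hσ : 0 ≤ σ) :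
    ∫ x in Icc (-1 : Fin n → ℝ) 1, |heat σ g x - g x| ≤
      σ * ∫ x in Icc (-1 : Fin n → ℝ) 1, gn g x := by
  have hgc : Continuous g := hg.continuous
  have hch := continuous_heat hA hgc hP σ
  obtain ⟨M, hM⟩ := hX.bdd n g hgc hP
  have hi1 : IntegrableOn (fun x => heat σ g x - g x) (Icc (-1 : Fin n → ℝ) 1) :=
    integrableOn_box (hch.sub hgc) _ _
  have hi2 : IntegrableOn (gn g) (Icc (-1 : Fin n → ℝ) 1) := integrableOn_box (continuous_gn hg) _ _
  have hcz : ∀ x : Fin n → ℝ, Continuous (fun z : Fin n → ℝ => g (x + σ • z)) := fun x =>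
    hgc.comp (continuous_const.add (continuous_id.const_smul σ))
  have hiz : ∀ x : Fin n → ℝ, Integrable (fun z : Fin n → ℝ => g (x + σ • z)) (gs n) := fun x =>
    Integrable.of_bound (hcz x).aestronglyMeasurable M (Eventually.of_forall fun z => hM _)
  have h1 : ∀ x : Fin n → ℝ, ‖heat σ g x - g x‖ₑ ≤ ∫⁻ z, ‖g (x + σ • z) - g x‖ₑ ∂gs n := by
    intro x
    have h2 : heat σ g x - g x = ∫ z, (g (x + σ • z) - g x) ∂gs n := by
      rw [integral_sub (hiz x) (integrable_const _), integral_const, probReal_univ, one_smul]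
      rfl
    rw [h2]
    exact enorm_integral_le_lintegral_enorm _
  have hm1 : Continuous (fun p : (Fin n → ℝ) × (Fin n → ℝ) => g (p.1 + σ • p.2) - g p.1) :=
    (hgc.comp (continuous_fst.add (continuous_snd.const_smul σ))).sub
      (hgc.comp continuous_fst)
  have h3 : ∫⁻ x in Icc (-1 : Fin n → ℝ) 1, ‖heat σ g x - g x‖ₑ ≤
      ENNReal.ofReal σ * ∫⁻ x in Icc (-1 : Fin n → ℝ) 1, ENNReal.ofReal (gn g x) := by
    calc ∫⁻ x in Icc (-1 : Fin n → ℝ) 1, ‖heat σ g x - g x‖ₑ
        ≤ ∫⁻ x in Icc (-1 : Fin n → ℝ) 1, ∫⁻ z, ‖g (x + σ • z) - g x‖ₑ ∂gs n :=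
          lintegral_mono h1
      _ = ∫⁻ z, (∫⁻ x in Icc (-1 : Fin n → ℝ) 1, ‖g (x + σ • z) - g x‖ₑ) ∂gs n :=
          lintegral_lintegral_swap hm1.measurable.enorm.aemeasurable
      _ ≤ ∫⁻ z, (ENNReal.ofReal σ * ∫⁻ x in Icc (-1 : Fin n → ℝ) 1, ‖dv g z x‖ₑ) ∂gs n :=
          lintegral_mono fun z => fixed_z hX hS hg hP z hσ
      _ = ENNReal.ofReal σ * ∫⁻ z, (∫⁻ x in Icc (-1 : Fin n → ℝ) 1, ‖dv g z x‖ₑ) ∂gs n :=
          lintegral_const_mul' _ _ ENNReal.ofReal_ne_top
      _ = ENNReal.ofReal σ * ∫⁻ x in Icc (-1 : Fin n → ℝ) 1, ∫⁻ z, ‖dv g z x‖ₑ ∂gs n := by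
          rw [lintegral_lintegral_swap]
          exact ((continuous_dv2 hg).comp (continuous_swap)).measurable.enorm.aemeasurable
      _ ≤ ENNReal.ofReal σ * ∫⁻ x in Icc (-1 : Fin n → ℝ) 1, ENNReal.ofReal (gn g x) := by
          gcongr with x
          exact gauss_dot (fun i => D g i x)
  have h4 : ∫⁻ x in Icc (-1 : Fin n → ℝ) 1, ENNReal.ofReal (gn g x) =
      ENNReal.ofReal (∫ x in Icc (-1 : Fin n → ℝ) 1, gn g x) :=
    (ofReal_integral_eq_lintegral_ofReal hi2 (Eventually.of_forall fun x => gn_nonneg g x)).symm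
  have h5 : 0 ≤ ∫ x in Icc (-1 : Fin n → ℝ) 1, gn g x := integral_nonneg fun x => gn_nonneg g x
  rw [h4, ← ENNReal.ofReal_mul hσ, ← ofReal_integral_norm_eq_lintegral_enorm hi1] at h3
  exact (ENNReal.ofReal_le_ofReal_iff (mul_nonneg hσ h5)).1 h3

/-- **The `L¹` distance.** -/
theorem L1 (hA : HeatA) (hX : BoxFacts) (hS : SymFacts) : S_L1 := by
  intro n σ g hσ hg hsym
  have hgc : Continuous g := hg.continuous
  have hch := continuous_heat hA hgc hsym.1 σ
  have h1 := box_L1 hA hX hS hg hsym.1 hσ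
  rw [hX.half n (fun x => |heat σ g x - g x|) (hch.sub hgc).abs ?_,
    hX.half n (gn g) (continuous_gn hg) (evn_gn hS hg hsym.2)] at h1
  · have h2 : (0 : ℝ) < 2 ^ n := by positivity
    unfold TV
    have h3 : σ * (2 ^ n * ∫ x in Icc (0 : Fin n → ℝ) 1, gn g x) =
        2 ^ n * (σ * ∫ x in Icc (0 : Fin n → ℝ) 1, gn g x) := by ring
    rw [h3] at h1
    exact le_of_mul_le_mul_left h1 h2
  · intro i x
    show |heat σ g (Function.update x i (-x i)) - g (Function.update x i (-x i))| = _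
    rw [hA.evn n σ g i (hsym.2 i) x, hsym.2 i x]

end Pool.Agent.H34.Cube
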