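import Pool.Agent.H194.Cube.Defs

/-!
# CUBE : `S_mass` from `S_L1`

Helper file for the project of helper194 on MP_b7645d_gt.
-/

set_option autoImplicit false

namespace Pool.Agent.H996.Cube

open MeasureTheory Set Filter Topology
open scoped ContDiff ENNReal
open Pool.Agent.H194.Cube

/-- the restricted measure on the unit cube -/
noncomputable abbrev mu (n : ℕ) : Measure (Fin n → ℝ) := volume.restrict (Icc (0 : Fin n → ℝ) 1)

lemma vol_cube (n : ℕ) : volume (Icc (0 : Fin n → ℝ) 1) = 1 := by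
  rw [Real.volume_Icc_pi]
  simp

instance (n : ℕ) : IsProbabilityMeasure (mu n) := ⟨by
  rw [Measure.restrict_apply_univ, vol_cube]⟩

lemma integrable_cont {n : ℕ} {f : (Fin n → ℝ) → ℝ} (hf : Continuous f) :
    Integrable f (mu n) :=
  (hf.continuousOn.integrableOn_compact isCompact_Icc)

lemma integrable_ind {n : ℕ} {E : Set (Fin n → ℝ)} (hE : MeasurableSet E) :
    Integrable (E.indicator (fun _ => (1 : ℝ))) (mu n) :=
  (integrable_const (1 : ℝ)).indicator hE

/-- the kernel of the layer cake formula -/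
noncomputable def kk {n : ℕ} (u : (Fin n → ℝ) → ℝ) (E : Set (Fin n → ℝ)) (s : ℝ)
    (x : Fin n → ℝ) : ℝ :=
  |{y : Fin n → ℝ | s < u y}.indicator (fun _ => (1 : ℝ)) x - E.indicator (fun _ => (1 : ℝ)) x|

lemma kk_nonneg {n : ℕ} (u : (Fin n → ℝ) → ℝ) (E : Set (Fin n → ℝ)) (s : ℝ)
    (x : Fin n → ℝ) : 0 ≤ kk u E s x := abs_nonneg _

lemma kk_le {n : ℕ} (u : (Fin n → ℝ) → ℝ) (E : Set (Fin n → ℝ)) (s : ℝ)
    (x : Fin n → ℝ) : kk u E s x ≤ 1 := by
  unfold kk
  by_cases h1 : x ∈ {y : Fin n → ℝ | s < u y} <;> by_cases h2 : x ∈ E <;>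
    simp [h1, h2, indicator_of_mem, indicator_of_notMem]

lemma kk_meas {n : ℕ} {u : (Fin n → ℝ) → ℝ} {E : Set (Fin n → ℝ)} (hu : Measurable u)
    (hE : MeasurableSet E) : Measurable (fun p : ℝ × (Fin n → ℝ) => kk u E p.1 p.2) := by
  unfold kk
  have h1 : MeasurableSet {p : ℝ × (Fin n → ℝ) | p.1 < u p.2} :=
    measurableSet_lt measurable_fst (hu.comp measurable_snd)
  have h2 : MeasurableSet {p : ℝ × (Fin n → ℝ) | p.2 ∈ E} := measurable_snd hE
  have e1 : (fun p : ℝ × (Fin n → ℝ) =>
      {y : Fin n → ℝ | p.1 < u y}.indicator (fun _ => (1 : ℝ)) p.2) =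
      {p : ℝ × (Fin n → ℝ) | p.1 < u p.2}.indicator (fun _ => (1 : ℝ)) := by
    funext p
    rfl
  have e2 : (fun p : ℝ × (Fin n → ℝ) => E.indicator (fun _ => (1 : ℝ)) p.2) =
      {p : ℝ × (Fin n → ℝ) | p.2 ∈ E}.indicator (fun _ => (1 : ℝ)) := by
    funext p
    rfl
  have m1 : Measurable (fun p : ℝ × (Fin n → ℝ) =>
      {y : Fin n → ℝ | p.1 < u y}.indicator (fun _ => (1 : ℝ)) p.2) := by
    rw [e1]
    exact measurable_const.indicator h1
  have m2 : Measurable (fun p : ℝ × (Fin n → ℝ) => E.indicator (fun _ => (1 : ℝ)) p.2) := by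
    rw [e2]
    exact measurable_const.indicator h2
  exact (m1.sub m2).abs

/-- the inner integral -/
lemma kk_int {n : ℕ} (u : (Fin n → ℝ) → ℝ) (E : Set (Fin n → ℝ)) (x : Fin n → ℝ)
    (h0 : 0 ≤ u x) (h1 : u x ≤ 1) :
    ∫ s in Ioc (0 : ℝ) 1, kk u E s x = |u x - E.indicator (fun _ => (1 : ℝ)) x| := by
  by_cases hx : x ∈ E
  · rw [indicator_of_mem hx]
    have e : (fun s : ℝ => kk u E s x) = (Ici (u x)).indicator (fun _ => (1 : ℝ)) := by
      funext s
      unfold kk
      rw [indicator_of_mem hx]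
      by_cases hs : s < u x
      · rw [indicator_of_mem (show x ∈ {y : Fin n → ℝ | s < u y} from hs),
          indicator_of_notMem (show s ∉ Ici (u x) from not_le.mpr hs)]
        simp
      · rw [indicator_of_notMem (show x ∉ {y : Fin n → ℝ | s < u y} from hs),
          indicator_of_mem (show s ∈ Ici (u x) from not_lt.mp hs)]
        simp
    rw [e, integral_indicator measurableSet_Ici, Measure.restrict_restrict measurableSet_Ici,
      integral_const]
    have hvol : volume (Ici (u x) ∩ Ioc (0 : ℝ) 1) = ENNReal.ofReal (1 - u x) := by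
      refine le_antisymm ?_ ?_
      · calc volume (Ici (u x) ∩ Ioc (0 : ℝ) 1) ≤ volume (Icc (u x) 1) := by
              apply measure_mono
              intro s hs
              exact ⟨hs.1, hs.2.2⟩
          _ = ENNReal.ofReal (1 - u x) := Real.volume_Icc
      · calc ENNReal.ofReal (1 - u x) = volume (Ioc (u x) 1) := Real.volume_Ioc.symm
          _ ≤ volume (Ici (u x) ∩ Ioc (0 : ℝ) 1) := by
              apply measure_mono
              intro s hs
              exact ⟨hs.1.le, lt_of_le_of_lt h0 hs.1, hs.2⟩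
    rw [measureReal_def, Measure.restrict_apply_univ, hvol, ENNReal.toReal_ofReal (by linarith),
      abs_of_nonpos (by linarith)]
    simp
  · rw [indicator_of_notMem hx]
    have e : (fun s : ℝ => kk u E s x) = (Iio (u x)).indicator (fun _ => (1 : ℝ)) := by
      funext s
      unfold kk
      rw [indicator_of_notMem hx]
      by_cases hs : s < u x
      · rw [indicator_of_mem (show x ∈ {y : Fin n → ℝ | s < u y} from hs),
          indicator_of_mem (show s ∈ Iio (u x) from hs)]
        simp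
      · rw [indicator_of_notMem (show x ∉ {y : Fin n → ℝ | s < u y} from hs),
          indicator_of_notMem (show s ∉ Iio (u x) from hs)]
        simp
    rw [e, integral_indicator measurableSet_Iio, Measure.restrict_restrict measurableSet_Iio,
      integral_const]
    have hvol : volume (Iio (u x) ∩ Ioc (0 : ℝ) 1) = ENNReal.ofReal (u x) := by
      refine le_antisymm ?_ ?_
      · calc volume (Iio (u x) ∩ Ioc (0 : ℝ) 1) ≤ volume (Icc 0 (u x)) := by
              apply measure_mono
              intro s hs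
              exact ⟨hs.2.1.le, hs.1.le⟩
          _ = ENNReal.ofReal (u x) := by rw [Real.volume_Icc, sub_zero]
      · calc ENNReal.ofReal (u x) = volume (Ioo 0 (u x)) := by rw [Real.volume_Ioo, sub_zero]
          _ ≤ volume (Iio (u x) ∩ Ioc (0 : ℝ) 1) := by
              apply measure_mono
              intro s hs
              exact ⟨hs.2, hs.1, (hs.2.trans_le h1).le⟩
    rw [measureReal_def, Measure.restrict_apply_univ, hvol, ENNReal.toReal_ofReal h0,
      sub_zero, abs_of_nonneg h0]
    simp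

/-- `Vs` as an integral -/
lemma Vs_eq {n : ℕ} {u : (Fin n → ℝ) → ℝ} (hu : Measurable u) (s : ℝ) :
    Vs u s = ∫ x, {y : Fin n → ℝ | s < u y}.indicator (fun _ => (1 : ℝ)) x ∂mu n := by
  have hm : MeasurableSet {y : Fin n → ℝ | s < u y} := measurableSet_lt measurable_const hu
  rw [integral_indicator hm, Measure.restrict_restrict hm, integral_const, measureReal_def,
    Measure.restrict_apply_univ]
  unfold Vs
  have : {x : Fin n → ℝ | x ∈ Icc (0 : Fin n → ℝ) 1 ∧ s < u x} =
      {y : Fin n → ℝ | s < u y} ∩ Icc (0 : Fin n → ℝ) 1 := by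
    ext x
    exact and_comm
  rw [this]
  simp

lemma Vs_nonneg {n : ℕ} (u : (Fin n → ℝ) → ℝ) (s : ℝ) : 0 ≤ Vs u s := ENNReal.toReal_nonneg

lemma Vs_le_one {n : ℕ} (u : (Fin n → ℝ) → ℝ) (s : ℝ) : Vs u s ≤ 1 := by
  unfold Vs
  have h : volume {x : Fin n → ℝ | x ∈ Icc (0 : Fin n → ℝ) 1 ∧ s < u x} ≤ 1 := by
    rw [← vol_cube n]
    apply measure_mono
    intro x hx
    exact hx.1
  have := ENNReal.toReal_mono ENNReal.one_ne_top h
  simpa using this

/-- comparison of the deviation with the `L¹` distance -/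
lemma G_le {n : ℕ} {u : (Fin n → ℝ) → ℝ} {E : Set (Fin n → ℝ)} {lam : ℝ} (hu : Measurable u)
    (hE : MeasurableSet E) (hsub : E ⊆ Icc (0 : Fin n → ℝ) 1) (hvol : volume E = ENNReal.ofReal lam)
    (hl0 : 0 < lam) (hl1 : lam < 1) (h01 : ∀ x, 0 ≤ u x ∧ u x ≤ 1) :
    G lam u ≤ ∫ x, |u x - E.indicator (fun _ => (1 : ℝ)) x| ∂mu n := by
  have hlam : lam = ∫ x, E.indicator (fun _ => (1 : ℝ)) x ∂mu n := by
    rw [integral_indicator hE, Measure.restrict_restrict hE, integral_const, measureReal_def,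
      Measure.restrict_apply_univ, inter_eq_left.mpr hsub, hvol, ENNReal.toReal_ofReal hl0.le]
    simp
  -- joint measurability and integrability
  have hkm := kk_meas hu hE
  have hkint : Integrable (fun p : ℝ × (Fin n → ℝ) => kk u E p.1 p.2)
      ((volume.restrict (Ioc (0 : ℝ) 1)).prod (mu n)) := by
    refine Integrable.of_bound hkm.aestronglyMeasurable 1 ?_
    filter_upwards with p
    rw [Real.norm_eq_abs, abs_of_nonneg (kk_nonneg _ _ _ _)]
    exact kk_le _ _ _ _
  -- the bound for every `s`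
  have hb : ∀ s, (Vs u s - lam) ^ 2 ≤ ∫ x, kk u E s x ∂mu n := by
    intro s
    have hm : MeasurableSet {y : Fin n → ℝ | s < u y} := measurableSet_lt measurable_const hu
    have h1 : |Vs u s - lam| ≤ ∫ x, kk u E s x ∂mu n := by
      rw [Vs_eq hu s, hlam, ← integral_sub (integrable_ind hm) (integrable_ind hE)]
      exact abs_integral_le_integral_abs
    have h2 : |Vs u s - lam| ≤ 1 := by
      rw [abs_le]
      constructor <;> linarith [Vs_nonneg u s, Vs_le_one u s]
    calc (Vs u s - lam) ^ 2 = |Vs u s - lam| * |Vs u s - lam| := by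
          rw [← sq_abs, sq]
      _ ≤ |Vs u s - lam| * 1 := mul_le_mul_of_nonneg_left h2 (abs_nonneg _)
      _ = |Vs u s - lam| := mul_one _
      _ ≤ _ := h1
  unfold G
  rw [intervalIntegral.integral_of_le zero_le_one]
  calc ∫ s in Ioc (0 : ℝ) 1, (Vs u s - lam) ^ 2
      ≤ ∫ s in Ioc (0 : ℝ) 1, ∫ x, kk u E s x ∂mu n := by
        refine integral_mono_of_nonneg ?_ ?_ ?_
        · filter_upwards with s
          exact sq_nonneg _
        · exact hkint.integral_prod_left
        · filter_upwards with s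
          exact hb s
    _ = ∫ x, (∫ s in Ioc (0 : ℝ) 1, kk u E s x) ∂mu n := by
        exact integral_integral_swap hkint
    _ = ∫ x, |u x - E.indicator (fun _ => (1 : ℝ)) x| ∂mu n := by
        refine integral_congr_ae ?_
        filter_upwards with x
        exact kk_int u E x (h01 x).1 (h01 x).2

/-! ## The truncated level function -/

lemma gn_comp {n : ℕ} {f : (Fin n → ℝ) → ℝ} {Xi xi : ℝ → ℝ} (hf : ContDiff ℝ 1 f)
    (hX : ∀ t, HasDerivAt Xi (xi t) t) (h0 : ∀ t, 0 ≤ xi t) {c : ℝ} (hc : 0 ≤ c)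
    (x : Fin n → ℝ) :
    gn (fun y => c * Xi (f y)) x = c * (xi (f x) * gn f x) := by
  have hfd : HasFDerivAt f (fderiv ℝ f x) x :=
    (hf.differentiable one_ne_zero x).hasFDerivAt
  have h1 : HasFDerivAt (fun y => Xi (f y)) (xi (f x) • fderiv ℝ f x) x :=
    (hX (f x)).comp_hasFDerivAt x hfd
  have h2 : HasFDerivAt (fun y => c * Xi (f y)) (c • (xi (f x) • fderiv ℝ f x)) x :=
    h1.const_mul c
  have hD : ∀ i, D (fun y => c * Xi (f y)) i x = (c * xi (f x)) * D f i x := by
    intro i
    unfold D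
    rw [h2.fderiv]
    simp only [FunLike.coe_smul, Pi.smul_apply, smul_eq_mul]
    ring
  unfold gn
  have h3 : ∑ i, D (fun y => c * Xi (f y)) i x ^ 2 = (c * xi (f x)) ^ 2 * ∑ i, D f i x ^ 2 := by
    rw [Finset.mul_sum]
    apply Finset.sum_congr rfl
    intro i _
    rw [hD i, mul_pow]
  rw [h3, Real.sqrt_mul (sq_nonneg _), Real.sqrt_sq (mul_nonneg hc (h0 _)), mul_assoc]

theorem mass (h1 : S_L1) (hA : HeatA) (hB : HeatB) (_hBox : BoxFacts) : S_mass := by
  intro P H C lam hyp hP hH0 hC hl0 hl1 n δ σ m χ E g hn hσ hδ hδ1 hχc hχ hm hm2 hN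
  have hg1 : ContDiff ℝ 1 g := hN.smooth.of_le (by exact_mod_cast le_top)
  have hgc : Continuous g := hN.smooth.continuous
  have hper : Per g := hN.sym.1
  have hf1 : ContDiff ℝ 1 (heat σ g) := hB.smooth1 n σ g hg1 hper
  have hfc : Continuous (heat σ g) := hf1.continuous
  have hf0 : ∀ x, 0 ≤ heat σ g x := by
    intro x
    have h := hA.mono n σ (fun _ => 0) g x continuous_const (fun _ _ => rfl) hgc hper
      (fun y => (hN.mem y).1)
    rwa [hA.const] at h
  have hfle : ∀ x, heat σ g x ≤ 1 := by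
    intro x
    have h := hA.mono n σ g (fun _ => 1) x hgc hper continuous_const (fun _ _ => rfl)
      (fun y => (hN.mem y).2)
    rwa [hA.const] at h
  have hm0 : 0 < m := by linarith
  -- the level function
  obtain ⟨Xi, hXi⟩ : ∃ Xi : ℝ → ℝ, Xi = fun t => ∫ s in (0 : ℝ)..t, χ s := ⟨_, rfl⟩
  have hXd : ∀ t, HasDerivAt Xi (χ t) t := by
    intro t
    rw [hXi]
    exact (hχc.integral_hasStrictDerivAt 0 t).hasDerivAt
  have hint : ∀ a b : ℝ, IntervalIntegrable χ volume a b := fun a b => hχc.intervalIntegrable a b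
  have hXm : Xi 1 = m := by rw [hXi, hm]
  have hX0 : ∀ t, 0 ≤ t → 0 ≤ Xi t := by
    intro t ht
    rw [hXi]
    exact intervalIntegral.integral_nonneg ht (fun s _ => (hχ s).1)
  have hXle : ∀ t, 0 ≤ t → Xi t ≤ t := by
    intro t ht
    rw [hXi]
    calc ∫ s in (0 : ℝ)..t, χ s ≤ ∫ s in (0 : ℝ)..t, (1 : ℝ) :=
          intervalIntegral.integral_mono_on ht (hint _ _) intervalIntegrable_const
            (fun s _ => (hχ s).2)
      _ = t := by simp
  have hXdiff : ∀ t, m - Xi t = ∫ s in t..(1 : ℝ), χ s := by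
    intro t
    rw [← hXm, hXi]
    exact intervalIntegral.integral_interval_sub_left (hint _ _) (hint _ _)
  have hXlem : ∀ t, t ≤ 1 → 0 ≤ m - Xi t := by
    intro t ht
    rw [hXdiff t]
    exact intervalIntegral.integral_nonneg ht (fun s _ => (hχ s).1)
  have hXge : ∀ t, t ≤ 1 → m - Xi t ≤ 1 - t := by
    intro t ht
    rw [hXdiff t]
    calc ∫ s in t..(1 : ℝ), χ s ≤ ∫ s in t..(1 : ℝ), (1 : ℝ) :=
          intervalIntegral.integral_mono_on ht (hint _ _) intervalIntegrable_const
            (fun s _ => (hχ s).2)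
      _ = 1 - t := by simp
  have hXC : ContDiff ℝ 1 Xi := by
    rw [contDiff_one_iff_deriv]
    refine ⟨fun t => (hXd t).differentiableAt, ?_⟩
    have : deriv Xi = χ := funext fun t => (hXd t).deriv
    rw [this]
    exact hχc
  -- the test function
  obtain ⟨u, hu⟩ : ∃ u : (Fin n → ℝ) → ℝ, u = fun x => 1 / m * Xi (heat σ g x) := ⟨_, rfl⟩
  have huC : ContDiff ℝ 1 u := by
    rw [hu]
    exact contDiff_const.mul (hXC.comp hf1)
  have hu01 : ∀ x, 0 ≤ u x ∧ u x ≤ 1 := by
    intro x
    rw [hu]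
    constructor
    · exact mul_nonneg (by positivity) (hX0 _ (hf0 x))
    · have := hXlem _ (hfle x)
      simp only
      rw [one_div, inv_mul_le_iff₀ hm0]
      linarith
  have hH := hyp n u hn huC hu01
  have hTV : TV u = 1 / m * ∫ x in Icc (0 : Fin n → ℝ) 1, χ (heat σ g x) * gn (heat σ g) x := by
    unfold TV
    rw [← integral_const_mul, hu]
    refine integral_congr_ae ?_
    filter_upwards with x
    exact gn_comp hf1 hXd (fun t => (hχ t).1) (by positivity) x
  -- the `L¹` distance
  have hlam : lam = ∫ x, E.indicator (fun _ => (1 : ℝ)) x ∂mu n := by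
    rw [integral_indicator hN.meas, Measure.restrict_restrict hN.meas, integral_const,
      measureReal_def, Measure.restrict_apply_univ, inter_eq_left.mpr hN.sub, hN.vol,
      ENNReal.toReal_ofReal hl0.le]
    simp
  have huI : Integrable u (mu n) := integrable_cont huC.continuous
  have hEI := integrable_ind (n := n) hN.meas
  have hfI : Integrable (heat σ g) (mu n) := integrable_cont hfc
  have hgI : Integrable g (mu n) := integrable_cont hgc
  have hA1 : m * ∫ x, |u x - E.indicator (fun _ => (1 : ℝ)) x| ∂mu n ≤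
      σ * (P + 1) + δ := by
    calc m * ∫ x, |u x - E.indicator (fun _ => (1 : ℝ)) x| ∂mu n
        = ∫ x, m * |u x - E.indicator (fun _ => (1 : ℝ)) x| ∂mu n := by
          rw [integral_const_mul]
      _ ≤ ∫ x, (|heat σ g x - g x| + |g x - E.indicator (fun _ => (1 : ℝ)) x|) ∂mu n := by
          refine integral_mono ((huI.sub hEI).abs.const_mul m)
            ((hfI.sub hgI).abs.add (hgI.sub hEI).abs) ?_
          intro x
          have hpt : m * |u x - E.indicator (fun _ => (1 : ℝ)) x| ≤
              |heat σ g x - E.indicator (fun _ => (1 : ℝ)) x| := by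
            have hmu : m * u x = Xi (heat σ g x) := by
              rw [hu]
              simp only
              field_simp
            by_cases hx : x ∈ E
            · rw [indicator_of_mem hx, abs_of_nonpos (by linarith [(hu01 x).2]),
                abs_of_nonpos (by linarith [hfle x])]
              have := hXge _ (hfle x)
              rw [← hmu] at this
              nlinarith
            · rw [indicator_of_notMem hx, sub_zero, sub_zero, abs_of_nonneg (hu01 x).1,
                abs_of_nonneg (hf0 x), hmu]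
              exact hXle _ (hf0 x)
          calc m * |u x - E.indicator (fun _ => (1 : ℝ)) x|
              ≤ |heat σ g x - E.indicator (fun _ => (1 : ℝ)) x| := hpt
            _ ≤ |heat σ g x - g x| + |g x - E.indicator (fun _ => (1 : ℝ)) x| :=
                abs_sub_le _ _ _
      _ = (∫ x in Icc (0 : Fin n → ℝ) 1, |heat σ g x - g x|) +
          ∫ x in Icc (0 : Fin n → ℝ) 1, |g x - E.indicator (fun _ => (1 : ℝ)) x| :=
          integral_add (hfI.sub hgI).abs (hgI.sub hEI).abs
      _ ≤ σ * TV g + δ := add_le_add (h1 n σ g hσ.le hg1 hN.sym) hN.l1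
      _ ≤ σ * (P + 1) + δ := by
          have : TV g ≤ P + 1 := hN.tv.trans (by linarith)
          nlinarith
  have hA2 : |(∫ x in Icc (0 : Fin n → ℝ) 1, u x) - lam| ≤
      ∫ x, |u x - E.indicator (fun _ => (1 : ℝ)) x| ∂mu n := by
    rw [hlam, ← integral_sub huI hEI]
    exact abs_integral_le_integral_abs
  have hA3 := G_le huC.continuous.measurable hN.meas hN.sub hN.vol hl0 hl1 hu01
  -- conclusion
  obtain ⟨I, hI⟩ : ∃ I : ℝ, I = ∫ x, |u x - E.indicator (fun _ => (1 : ℝ)) x| ∂mu n := ⟨_, rfl⟩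
  obtain ⟨T, hT⟩ : ∃ T : ℝ,
    T = ∫ x in Icc (0 : Fin n → ℝ) 1, χ (heat σ g x) * gn (heat σ g) x := ⟨_, rfl⟩
  rw [← hI] at hA1 hA2 hA3
  rw [← hT] at hTV ⊢
  rw [hTV] at hH
  have hI0 : 0 ≤ I := le_trans (abs_nonneg _) hA2
  have h5 : -I ≤ (∫ x in Icc (0 : Fin n → ℝ) 1, u x) - lam := by
    have := neg_abs_le ((∫ x in Icc (0 : Fin n → ℝ) 1, u x) - lam)
    linarith
  have h6 : -(H * I) ≤ H * ((∫ x in Icc (0 : Fin n → ℝ) 1, u x) - lam) := by
    have := mul_le_mul_of_nonneg_left h5 hH0
    linarith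
  have h7 : C * G lam u ≤ C * I := mul_le_mul_of_nonneg_left hA3 hC
  have h8 : P - H * I - C * I ≤ 1 / m * T := by linarith
  have h9 : m * (P - H * I - C * I) ≤ T := by
    have := mul_le_mul_of_nonneg_left h8 hm0.le
    rwa [← mul_assoc, mul_one_div_cancel hm0.ne', one_mul] at this
  have h10 : (H + C) * (m * I) ≤ (H + C) * (σ * (P + 1) + δ) :=
    mul_le_mul_of_nonneg_left hA1 (by linarith)
  have h11 : 0 ≤ (H + C) * (σ * (P + 1) + δ) := by positivity
  nlinarith

end Pool.Agent.H996.Cube
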