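import Pool.Agent.H194.Cube.Defs

/-!
CUBE PROFILE project (helper194): the profile is nonincreasing in the dimension (`S_mono`).
-/

set_option autoImplicit false

open MeasureTheory Set Filter Topology ProbabilityTheory
open scoped ContDiff ENNReal NNReal

namespace Pool.Agent.H551.CubeM

open Pool.Agent.H194.Cube

variable {d : ℕ}

/-- adding a first coordinate -/
def cn (y : ℝ) (x : Fin d → ℝ) : Fin (d + 1) → ℝ := Fin.cons (α := fun _ => ℝ) y x

theorem cn_zero (y : ℝ) (x : Fin d → ℝ) : cn y x 0 = y := rfl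

theorem cn_succ (y : ℝ) (x : Fin d → ℝ) (i : Fin d) : cn y x i.succ = x i := rfl

/-- the linear part -/
noncomputable def Lc (d : ℕ) : (Fin d → ℝ) →L[ℝ] (Fin (d + 1) → ℝ) :=
  ContinuousLinearMap.pi (Fin.cons (α := fun _ => (Fin d → ℝ) →L[ℝ] ℝ) 0
    fun i => ContinuousLinearMap.proj i)

theorem Lc_zero (x : Fin d → ℝ) : Lc d x 0 = 0 := rfl

theorem Lc_succ (x : Fin d → ℝ) (i : Fin d) : Lc d x i.succ = x i := rfl

theorem cn_eq (y : ℝ) (x : Fin d → ℝ) : cn y x = y • Pi.single 0 1 + Lc d x := by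
  funext j
  refine Fin.cases ?_ (fun i => ?_) j
  · rw [cn_zero]
    simp [Lc_zero]
  · rw [cn_succ]
    simp [Lc_succ, Pi.single_apply, Fin.succ_ne_zero]

theorem Lc_single (i : Fin d) : Lc d (Pi.single i 1) = Pi.single i.succ 1 := by
  funext j
  refine Fin.cases ?_ (fun k => ?_) j
  · rw [Lc_zero]
    simp [Pi.single_apply, (Fin.succ_ne_zero i).symm]
  · rw [Lc_succ]
    simp [Pi.single_apply]

theorem cn_cont : Continuous fun p : (Fin d → ℝ) × ℝ => cn p.2 p.1 := by
  simp_rw [cn_eq]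
  fun_prop

theorem cn_deriv (y : ℝ) (x : Fin d → ℝ) : HasFDerivAt (cn y) (Lc d) x := by
  have h1 : cn y = fun x : Fin d → ℝ => y • Pi.single 0 1 + Lc d x := funext fun x => cn_eq y x
  rw [h1]
  exact (Lc d).hasFDerivAt.const_add _

theorem cn_deriv' (y : ℝ) (x : Fin d → ℝ) :
    HasDerivAt (fun y => cn y x) (Pi.single 0 1 : Fin (d + 1) → ℝ) y := by
  have h1 : (fun y => cn y x) = fun y : ℝ => y • (Pi.single 0 1 : Fin (d + 1) → ℝ) + Lc d x :=
    funext fun y => cn_eq y x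
  rw [h1]
  have h2 := ((hasDerivAt_id y).smul_const (Pi.single 0 1 : Fin (d + 1) → ℝ)).add_const (Lc d x)
  simpa using h2

/-- dropping the first coordinate -/
noncomputable def Tl (d : ℕ) : (Fin (d + 1) → ℝ) →L[ℝ] (Fin d → ℝ) :=
  ContinuousLinearMap.pi fun i => ContinuousLinearMap.proj i.succ

theorem Tl_apply (v : Fin (d + 1) → ℝ) (i : Fin d) : Tl d v i = v i.succ := rfl

theorem Tl_cn (y : ℝ) (x : Fin d → ℝ) : Tl d (cn y x) = x := rfl

/-- the open cube -/
def Uc (d : ℕ) : Set (Fin d → ℝ) := {x | ∀ i, x i ∈ Ioo (0 : ℝ) 1}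

section field

variable {φ : (Fin (d + 1) → ℝ) → (Fin (d + 1) → ℝ)}

/-- the average of the field -/
noncomputable def Yf (φ : (Fin (d + 1) → ℝ) → (Fin (d + 1) → ℝ)) (x : Fin d → ℝ) :
    Fin (d + 1) → ℝ := ∫ y in Icc (0 : ℝ) 1, φ (cn y x)

/-- the derivative of the average -/
noncomputable def Yf' (φ : (Fin (d + 1) → ℝ) → (Fin (d + 1) → ℝ)) (x : Fin d → ℝ) :
    (Fin d → ℝ) →L[ℝ] (Fin (d + 1) → ℝ) :=
  ∫ y in Icc (0 : ℝ) 1, (fderiv ℝ φ (cn y x)).comp (Lc d)

theorem Yf_deriv (h1 : ContDiff ℝ 1 φ) (h2 : HasCompactSupport φ) (x : Fin d → ℝ) :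
    HasFDerivAt (Yf φ) (Yf' φ x) x := by
  obtain ⟨M, hM⟩ := (h1.continuous_fderiv one_ne_zero).bounded_above_of_compact_support
    (h2.fderiv (𝕜 := ℝ))
  have hφc := h1.continuous
  have hφ'c := h1.continuous_fderiv one_ne_zero
  have hc : ∀ x : Fin d → ℝ, Continuous fun y : ℝ => cn y x := fun x =>
    cn_cont.comp (by fun_prop : Continuous fun y : ℝ => (x, y))
  refine hasFDerivAt_integral_of_dominated_of_fderiv_le (𝕜 := ℝ)
    (μ := volume.restrict (Icc (0 : ℝ) 1)) (F := fun (x : Fin d → ℝ) (y : ℝ) => φ (cn y x))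
    (F' := fun (x : Fin d → ℝ) (y : ℝ) => (fderiv ℝ φ (cn y x)).comp (Lc d)) (x₀ := x)
    (bound := fun _ => M * ‖Lc d‖)
    (s := univ) univ_mem ?_ ?_ ?_ ?_ ?_ ?_
  · exact Eventually.of_forall fun x => (hφc.comp (hc x)).aestronglyMeasurable
  · exact (hφc.comp (hc x)).continuousOn.integrableOn_compact isCompact_Icc
  · exact ((hφ'c.comp (hc x)).clm_comp continuous_const).aestronglyMeasurable
  · refine Eventually.of_forall fun y x _ => ?_
    refine (ContinuousLinearMap.opNorm_comp_le _ _).trans ?_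
    exact mul_le_mul_of_nonneg_right (hM _) (norm_nonneg _)
  · exact integrable_const _
  · refine Eventually.of_forall fun y x _ => ?_
    have h3 : HasFDerivAt φ (fderiv ℝ φ (cn y x)) (cn y x) :=
      ((h1.differentiable one_ne_zero) _).hasFDerivAt
    exact h3.comp x (cn_deriv y x)

theorem Yf'_cont (h1 : ContDiff ℝ 1 φ) : Continuous (Yf' φ) := by
  have h2 : Continuous (Function.uncurry fun (x : Fin d → ℝ) (y : ℝ) =>
      (fderiv ℝ φ (cn y x)).comp (Lc d)) :=
    (((h1.continuous_fderiv one_ne_zero)).comp cn_cont).clm_comp continuous_const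
  exact continuous_parametric_integral_of_continuous h2 isCompact_Icc

/-- the averaged field -/
noncomputable def Xf (φ : (Fin (d + 1) → ℝ) → (Fin (d + 1) → ℝ)) (x : Fin d → ℝ) : Fin d → ℝ :=
  Tl d (Yf φ x)

theorem Xf_deriv (h1 : ContDiff ℝ 1 φ) (h2 : HasCompactSupport φ) (x : Fin d → ℝ) :
    HasFDerivAt (Xf φ) ((Tl d).comp (Yf' φ x)) x :=
  (Tl d).hasFDerivAt.comp x (Yf_deriv h1 h2 x)

theorem Xf_smooth (h1 : ContDiff ℝ 1 φ) (h2 : HasCompactSupport φ) : ContDiff ℝ 1 (Xf φ) := by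
  rw [contDiff_one_iff_hasFDerivAt]
  exact ⟨_, continuous_const.clm_comp (Yf'_cont h1), fun x => Xf_deriv h1 h2 x⟩

theorem Xf_supp (h1 : ContDiff ℝ 1 φ) {x : Fin d → ℝ} (hx : Xf φ x ≠ 0) :
    x ∈ Tl d '' tsupport φ := by
  by_contra hcon
  apply hx
  have h3 : ∀ y, φ (cn y x) = 0 := by
    intro y
    by_contra h4
    exact hcon ⟨cn y x, subset_tsupport _ h4, Tl_cn y x⟩
  unfold Xf Yf
  simp [h3]

theorem Xf_tsupport (h1 : ContDiff ℝ 1 φ) (h2 : HasCompactSupport φ) :
    tsupport (Xf φ) ⊆ Tl d '' tsupport φ := by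
  have hK : IsCompact (Tl d '' tsupport φ) := h2.isCompact.image (Tl d).continuous
  exact closure_minimal (fun x hx => Xf_supp h1 hx) hK.isClosed

theorem Xf_compact (h1 : ContDiff ℝ 1 φ) (h2 : HasCompactSupport φ) :
    HasCompactSupport (Xf φ) := by
  have hK : IsCompact (Tl d '' tsupport φ) := h2.isCompact.image (Tl d).continuous
  exact hK.of_isClosed_subset (isClosed_tsupport _) (Xf_tsupport h1 h2)

theorem Xf_apply (h1 : ContDiff ℝ 1 φ) (x : Fin d → ℝ) (i : Fin d) :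
    Xf φ x i = ∫ y in Icc (0 : ℝ) 1, φ (cn y x) i.succ := by
  have hc : Continuous fun y : ℝ => cn y x :=
    cn_cont.comp (by fun_prop : Continuous fun y : ℝ => (x, y))
  have hint : IntegrableOn (fun y : ℝ => φ (cn y x)) (Icc (0 : ℝ) 1) :=
    (h1.continuous.comp hc).continuousOn.integrableOn_compact isCompact_Icc
  have h3 := (ContinuousLinearMap.proj (R := ℝ) (φ := fun _ : Fin (d + 1) => ℝ)
    i.succ).integral_comp_comm hint
  exact h3.symm

theorem Xf_norm (h1 : ContDiff ℝ 1 φ) (h4 : ∀ x, ∑ i, (φ x i) ^ 2 ≤ 1) (x : Fin d → ℝ) :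
    ∑ i, (Xf φ x i) ^ 2 ≤ 1 := by
  have hc : Continuous fun y : ℝ => cn y x :=
    cn_cont.comp (by fun_prop : Continuous fun y : ℝ => (x, y))
  have hci : ∀ i : Fin (d + 1), Continuous fun y : ℝ => φ (cn y x) i := fun i =>
    (continuous_apply i).comp (h1.continuous.comp hc)
  have hvol : volume.real (Icc (0 : ℝ) 1) = 1 := by simp
  have hint : ∀ f : ℝ → ℝ, Continuous f → IntegrableOn f (Icc (0 : ℝ) 1) := fun f hf =>
    hf.continuousOn.integrableOn_compact isCompact_Icc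
  -- Jensen for the square
  have hJ : ∀ f : ℝ → ℝ, Continuous f → (∫ y in Icc (0 : ℝ) 1, f y) ^ 2 ≤
      ∫ y in Icc (0 : ℝ) 1, f y ^ 2 := by
    intro f hf
    set a := ∫ y in Icc (0 : ℝ) 1, f y with ha
    have h5 : 0 ≤ ∫ y in Icc (0 : ℝ) 1, (f y - a) ^ 2 := integral_nonneg fun y => sq_nonneg _
    have h6 : ∫ y in Icc (0 : ℝ) 1, (f y - a) ^ 2 =
        (∫ y in Icc (0 : ℝ) 1, f y ^ 2) - 2 * a * a + a ^ 2 := by
      have e1 : ∀ y, (f y - a) ^ 2 = (f y ^ 2 - 2 * a * f y) + a ^ 2 := by intro y; ring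
      simp_rw [e1]
      have c1 : Continuous (fun y => f y ^ 2) := hf.pow 2
      have c2 : Continuous (fun y => 2 * a * f y) := continuous_const.mul hf
      have c3 : Continuous (fun y => f y ^ 2 - 2 * a * f y) := c1.sub c2
      rw [integral_add (hint _ c3) (hint _ continuous_const),
        integral_sub (hint _ c1) (hint _ c2), integral_const_mul,
        setIntegral_const, hvol, ← ha, one_smul]
    rw [h6] at h5
    nlinarith
  calc ∑ i, (Xf φ x i) ^ 2 ≤ ∑ i : Fin d, ∫ y in Icc (0 : ℝ) 1, φ (cn y x) i.succ ^ 2 := by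
        refine Finset.sum_le_sum fun i _ => ?_
        rw [Xf_apply h1]
        exact hJ _ (hci i.succ)
    _ = ∫ y in Icc (0 : ℝ) 1, ∑ i : Fin d, φ (cn y x) i.succ ^ 2 := by
        rw [integral_finsetSum _ fun i _ => hint _ ((hci i.succ).pow 2)]
    _ ≤ ∫ y in Icc (0 : ℝ) 1, (1 : ℝ) := by
        refine setIntegral_mono (hint _ (continuous_finsetSum _ fun i _ => (hci i.succ).pow 2))
          (hint _ continuous_const) fun y => ?_
        have h5 := h4 (cn y x)
        rw [Fin.sum_univ_succ] at h5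
        linarith [sq_nonneg (φ (cn y x) 0)]
    _ = 1 := by rw [setIntegral_const, hvol, one_smul]

/-- the divergence -/
noncomputable def dv {m : ℕ} (φ : (Fin m → ℝ) → (Fin m → ℝ)) (x : Fin m → ℝ) : ℝ :=
  ∑ i, fderiv ℝ φ x (Pi.single i 1) i

theorem dv_cont {m : ℕ} {φ : (Fin m → ℝ) → (Fin m → ℝ)} (h1 : ContDiff ℝ 1 φ) :
    Continuous (dv φ) := by
  unfold dv
  refine continuous_finsetSum _ fun i _ => ?_
  exact (continuous_apply i).comp
    ((h1.continuous_fderiv one_ne_zero).clm_apply continuous_const)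

theorem dv_supp {m : ℕ} {φ : (Fin m → ℝ) → (Fin m → ℝ)} (h2 : HasCompactSupport φ) :
    HasCompactSupport (dv φ) := by
  refine (h2.fderiv (𝕜 := ℝ)).mono' ?_
  intro x hx
  apply subset_tsupport
  intro h
  apply hx
  unfold dv
  simp [h]

/-- the divergence of the average -/
theorem dv_Xf (h1 : ContDiff ℝ 1 φ) (h2 : HasCompactSupport φ)
    (h3 : tsupport φ ⊆ Uc (d + 1)) (x : Fin d → ℝ) :
    dv (Xf φ) x = ∫ y in Icc (0 : ℝ) 1, dv φ (cn y x) := by
  have hc : Continuous fun y : ℝ => cn y x :=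
    cn_cont.comp (by fun_prop : Continuous fun y : ℝ => (x, y))
  have hφ'c : Continuous fun y : ℝ => fderiv ℝ φ (cn y x) :=
    (h1.continuous_fderiv one_ne_zero).comp hc
  have hint : IntegrableOn (fun y : ℝ => (fderiv ℝ φ (cn y x)).comp (Lc d)) (Icc (0 : ℝ) 1) :=
    (hφ'c.clm_comp continuous_const).continuousOn.integrableOn_compact isCompact_Icc
  have hci : ∀ i : Fin (d + 1), Continuous fun y : ℝ => fderiv ℝ φ (cn y x) (Pi.single i 1) i :=
    fun i => (continuous_apply i).comp (hφ'c.clm_apply continuous_const)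
  have e1 : ∀ i : Fin d, fderiv ℝ (Xf φ) x (Pi.single i 1) i =
      ∫ y in Icc (0 : ℝ) 1, fderiv ℝ φ (cn y x) (Pi.single i.succ 1) i.succ := by
    intro i
    rw [(Xf_deriv h1 h2 x).fderiv, ContinuousLinearMap.comp_apply, Tl_apply]
    unfold Yf'
    have e2 := ((ContinuousLinearMap.proj (R := ℝ) (φ := fun _ : Fin (d + 1) => ℝ) i.succ).comp
      (ContinuousLinearMap.apply ℝ (Fin (d + 1) → ℝ)
        (Pi.single i 1 : Fin d → ℝ))).integral_comp_comm hint
    have e3 : ∀ y, ((ContinuousLinearMap.proj (R := ℝ) (φ := fun _ : Fin (d + 1) => ℝ) i.succ).comp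
        (ContinuousLinearMap.apply ℝ (Fin (d + 1) → ℝ) (Pi.single i 1 : Fin d → ℝ)))
          ((fderiv ℝ φ (cn y x)).comp (Lc d)) =
          fderiv ℝ φ (cn y x) (Pi.single i.succ 1) i.succ := by
      intro y
      rw [← Lc_single]
      rfl
    simp_rw [e3] at e2
    rw [e2]
    rfl
  -- the derivative in the first direction
  have e0 : ∫ y in Icc (0 : ℝ) 1, fderiv ℝ φ (cn y x) (Pi.single 0 1) 0 = 0 := by
    have h5 : ∀ y : ℝ, HasDerivAt (fun y => φ (cn y x) 0)
        (fderiv ℝ φ (cn y x) (Pi.single 0 1) 0) y := by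
      intro y
      have h6 : HasFDerivAt φ (fderiv ℝ φ (cn y x)) (cn y x) :=
        ((h1.differentiable one_ne_zero) _).hasFDerivAt
      have h7 := h6.comp_hasDerivAt y (cn_deriv' y x)
      exact (hasDerivAt_pi.1 h7) 0
    rw [integral_Icc_eq_integral_Ioc, ← intervalIntegral.integral_of_le zero_le_one,
      intervalIntegral.integral_eq_sub_of_hasDerivAt (fun y _ => h5 y)
        ((hci 0).intervalIntegrable _ _)]
    have h8 : ∀ y : ℝ, (y = 0 ∨ y = 1) → φ (cn y x) = 0 := by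
      intro y hy
      by_contra h9
      have h10 := h3 (subset_tsupport _ h9) 0
      rw [cn_zero, mem_Ioo] at h10
      rcases hy with rfl | rfl
      · exact lt_irrefl _ h10.1
      · exact lt_irrefl _ h10.2
    rw [h8 1 (Or.inr rfl), h8 0 (Or.inl rfl)]
    simp
  unfold dv
  simp_rw [e1]
  have e4 : ∀ y : ℝ, ∑ i, fderiv ℝ φ (cn y x) (Pi.single i 1) i =
      fderiv ℝ φ (cn y x) (Pi.single 0 1) 0 +
        ∑ i : Fin d, fderiv ℝ φ (cn y x) (Pi.single i.succ 1) i.succ := fun y =>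
    Fin.sum_univ_succ _
  simp_rw [e4]
  have hin : ∀ f : ℝ → ℝ, Continuous f → IntegrableOn f (Icc (0 : ℝ) 1) := fun f hf =>
    hf.continuousOn.integrableOn_compact isCompact_Icc
  rw [integral_add (hin _ (hci 0)) (hin _ (continuous_finsetSum _ fun i _ => hci i.succ)), e0,
    zero_add, integral_finsetSum _ fun i _ => hin _ (hci i.succ)]

end field

/-- the extended set -/
def ext (E : Set (Fin d → ℝ)) : Set (Fin (d + 1) → ℝ) := {x | x 0 ∈ Ioo (0 : ℝ) 1 ∧ Tl d x ∈ E}

/-- the measurable equivalence -/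
noncomputable def me (d : ℕ) : (Fin (d + 1) → ℝ) ≃ᵐ ℝ × (Fin d → ℝ) :=
  MeasurableEquiv.piFinSuccAbove (fun _ => ℝ) 0

theorem me_apply (x : Fin (d + 1) → ℝ) : me d x = (x 0, Tl d x) := by
  rfl

theorem me_symm (y : ℝ) (x : Fin d → ℝ) : (me d).symm (y, x) = cn y x := by
  rw [MeasurableEquiv.symm_apply_eq, me_apply]
  rfl

theorem me_mp : MeasurePreserving (me d) := volume_preserving_piFinSuccAbove (fun _ => ℝ) 0

theorem ext_eq (E : Set (Fin d → ℝ)) : ext E = me d ⁻¹' (Ioo (0 : ℝ) 1 ×ˢ E) := by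
  ext x
  rw [mem_preimage, me_apply, mem_prod]
  rfl

theorem ext_meas {E : Set (Fin d → ℝ)} (hE : MeasurableSet E) : MeasurableSet (ext E) := by
  rw [ext_eq]
  exact (me d).measurable (measurableSet_Ioo.prod hE)

theorem ext_vol (E : Set (Fin d → ℝ)) : volume (ext E) = volume E := by
  rw [ext_eq, me_mp.measure_preimage_equiv, Measure.volume_eq_prod, Measure.prod_prod,
    Real.volume_Ioo]
  simp

theorem int_ext {E : Set (Fin d → ℝ)} {h : (Fin (d + 1) → ℝ) → ℝ} (hc : Continuous h)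
    (hs : HasCompactSupport h) :
    ∫ x in ext E, h x = ∫ x in E, ∫ y in Icc (0 : ℝ) 1, h (cn y x) := by
  have h1 : Integrable h := hc.integrable_of_hasCompactSupport hs
  have e1 : ∫ x in ext E, h x = ∫ p in Ioo (0 : ℝ) 1 ×ˢ E, h ((me d).symm p) := by
    rw [ext_eq, ← me_mp.setIntegral_preimage_emb (me d).measurableEmbedding]
    simp
  have h2 : Integrable (fun p => h ((me d).symm p)) (volume : Measure (ℝ × (Fin d → ℝ))) :=
    (me_mp.symm (me d)).integrable_comp_of_integrable h1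
  rw [e1, Measure.volume_eq_prod, ← Measure.prod_restrict, integral_prod_symm]
  · refine integral_congr_ae (Eventually.of_forall fun x => ?_)
    simp only [me_symm]
    rw [integral_Icc_eq_integral_Ioo]
  · rw [Measure.prod_restrict]
    exact h2.integrableOn

theorem S_mono_proof : S_mono := by
  intro d t _ _
  unfold Iprof
  refine le_iInf fun E => le_iInf fun hE => le_iInf fun hEU => le_iInf fun hvol => ?_
  refine iInf_le_of_le (ext E) (iInf_le_of_le (ext_meas hE) (iInf_le_of_le ?_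
    (iInf_le_of_le ((ext_vol E).trans hvol) ?_)))
  · intro x hx i
    refine Fin.cases ?_ (fun k => ?_) i
    · exact hx.1
    · exact hEU hx.2 k
  · unfold Peri
    refine iSup_le fun φ => iSup_le fun h1 => iSup_le fun h2 => iSup_le fun h3 =>
      iSup_le fun h4 => ?_
    refine le_iSup_of_le (Xf φ) (le_iSup_of_le (Xf_smooth h1 h2) (le_iSup_of_le
      (Xf_compact h1 h2) (le_iSup_of_le ?_ (le_iSup_of_le (Xf_norm h1 h4) ?_))))
    · intro x hx
      obtain ⟨z, hz, rfl⟩ := Xf_tsupport h1 h2 hx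
      exact fun i => h3 hz i.succ
    · apply ENNReal.ofReal_le_ofReal
      apply le_of_eq
      have e1 := int_ext (E := E) (dv_cont h1) (dv_supp h2)
      have e2 : ∀ x, ∫ y in Icc (0 : ℝ) 1, dv φ (cn y x) = dv (Xf φ) x := fun x =>
        (dv_Xf h1 h2 h3 x).symm
      simp_rw [e2] at e1
      exact e1

end Pool.Agent.H551.CubeM
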