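import Pool.Agent.H194.Cube.Defs
import Pool.Graph.R_seed8.H48R3.CP.Limit

set_option autoImplicit false

namespace Pool.Agent.H726.Cube

open MeasureTheory Set Filter Topology Metric
open scoped ContDiff ENNReal Convolution

/-! ### the zigzag function -/

/-- even integers -/
def Ev : Set ℝ := Set.range fun k : ℤ => 2 * (k : ℝ)

/-- distance to the even integers -/
noncomputable def tri (x : ℝ) : ℝ := infDist x Ev

theorem Ev_ne : Ev.Nonempty := ⟨_, ⟨0, rfl⟩⟩

theorem tri_lip (x y : ℝ) : |tri x - tri y| ≤ |x - y| := by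
  have h := (lipschitz_infDist_pt Ev).dist_le_mul x y
  rwa [NNReal.coe_one, one_mul, Real.dist_eq, Real.dist_eq] at h

theorem tri_cont : Continuous tri := (lipschitz_infDist_pt Ev).continuous

theorem tri_iff (x c : ℝ) : c ≤ tri x ↔ ∀ k : ℤ, c ≤ |x - 2 * k| := by
  rw [tri, le_infDist Ev_ne]
  constructor
  · intro h k
    have := h ⟨k, rfl⟩
    rwa [Real.dist_eq] at this
  · rintro h _ ⟨k, rfl⟩
    rw [Real.dist_eq]
    exact h k

theorem tri_le (x : ℝ) (k : ℤ) : tri x ≤ |x - 2 * k| := (tri_iff x (tri x)).1 le_rfl k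

theorem tri_per (x : ℝ) : tri (x + 2) = tri x := by
  apply le_antisymm
  · rw [tri_iff]
    intro k
    have h := tri_le (x + 2) (k + 1)
    have e : x + 2 - 2 * ((k + 1 : ℤ) : ℝ) = x - 2 * k := by push_cast; ring
    rwa [e] at h
  · rw [tri_iff]
    intro k
    have h := tri_le x (k - 1)
    have e : x - 2 * ((k - 1 : ℤ) : ℝ) = x + 2 - 2 * k := by push_cast; ring
    rwa [e] at h

theorem tri_neg (x : ℝ) : tri (-x) = tri x := by
  apply le_antisymm
  · rw [tri_iff]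
    intro k
    have h := tri_le (-x) (-k)
    have e : -x - 2 * ((-k : ℤ) : ℝ) = -(x - 2 * k) := by push_cast; ring
    rwa [e, abs_neg] at h
  · rw [tri_iff]
    intro k
    have h := tri_le x (-k)
    have e : x - 2 * ((-k : ℤ) : ℝ) = -(-x - 2 * k) := by push_cast; ring
    rwa [e, abs_neg] at h

theorem tri_nonneg (x : ℝ) : 0 ≤ tri x := infDist_nonneg

theorem tri_id {x : ℝ} (h0 : 0 ≤ x) (h1 : x ≤ 1) : tri x = x := by
  apply le_antisymm
  · have h := tri_le x 0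
    rwa [Int.cast_zero, mul_zero, sub_zero, abs_of_nonneg h0] at h
  · rw [tri_iff]
    intro k
    rcases le_or_gt k 0 with hk | hk
    · have hk' : (k : ℝ) ≤ 0 := by exact_mod_cast hk
      rw [abs_of_nonneg (by linarith)]
      linarith
    · have hk' : (1 : ℝ) ≤ k := by exact_mod_cast hk
      rw [abs_of_nonpos (by linarith)]
      linarith

/-! ### mollification -/

/-- bump function on the line -/
noncomputable def bp (κ : ℝ) (hκ : 0 < κ) : ContDiffBump (0 : ℝ) :=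
  ⟨κ / 2, κ, by positivity, by linarith⟩

/-- the mollified zigzag function -/
noncomputable def ms (κ : ℝ) (hκ : 0 < κ) (x : ℝ) : ℝ :=
  ∫ t, (bp κ hκ).normed volume t * tri (x - t)

theorem ms_eq (κ : ℝ) (hκ : 0 < κ) :
    ms κ hκ = ((bp κ hκ).normed volume ⋆[ContinuousLinearMap.lsmul ℝ ℝ, volume] tri) := by
  funext x
  simp [ms, MeasureTheory.convolution]

theorem ms_smooth (κ : ℝ) (hκ : 0 < κ) : ContDiff ℝ ∞ (ms κ hκ) := by
  rw [ms_eq]
  exact (bp κ hκ).hasCompactSupport_normed.contDiff_convolution_left _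
    (bp κ hκ).contDiff_normed tri_cont.locallyIntegrable

theorem ms_per (κ : ℝ) (hκ : 0 < κ) (x : ℝ) : ms κ hκ (x + 2) = ms κ hκ x := by
  unfold ms
  congr 1
  funext t
  rw [show x + 2 - t = (x - t) + 2 by ring, tri_per]

theorem ms_neg (κ : ℝ) (hκ : 0 < κ) (x : ℝ) : ms κ hκ (-x) = ms κ hκ x := by
  unfold ms
  rw [← integral_neg_eq_self]
  congr 1
  funext t
  rw [(bp κ hκ).normed_neg, show -x - -t = -(x - t) by ring, tri_neg]

theorem ms_near (κ : ℝ) (hκ : 0 < κ) (x : ℝ) : |ms κ hκ x - tri x| ≤ κ := by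
  rw [ms_eq, ← Real.dist_eq]
  apply ContDiffBump.dist_normed_convolution_le tri_cont.aestronglyMeasurable
  intro y hy
  rw [Real.dist_eq]
  refine (tri_lip y x).trans ?_
  rw [← Real.dist_eq]
  exact (mem_ball.1 hy).le

theorem ms_int (κ : ℝ) (hκ : 0 < κ) (x : ℝ) :
    Integrable fun t => (bp κ hκ).normed volume t * tri (x - t) := by
  apply Continuous.integrable_of_hasCompactSupport
  · exact (bp κ hκ).continuous_normed.mul (tri_cont.comp (continuous_const.sub continuous_id))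
  · exact (bp κ hκ).hasCompactSupport_normed.mul_right

theorem ms_lip (κ : ℝ) (hκ : 0 < κ) (x y : ℝ) : |ms κ hκ x - ms κ hκ y| ≤ |x - y| := by
  unfold ms
  rw [← integral_sub (ms_int κ hκ x) (ms_int κ hκ y)]
  have h1 : ∀ t, |(bp κ hκ).normed volume t * tri (x - t) -
      (bp κ hκ).normed volume t * tri (y - t)| ≤ (bp κ hκ).normed volume t * |x - y| := by
    intro t
    rw [← mul_sub, abs_mul, abs_of_nonneg ((bp κ hκ).nonneg_normed t)]
    apply mul_le_mul_of_nonneg_left _ ((bp κ hκ).nonneg_normed t)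
    refine (tri_lip _ _).trans (le_of_eq ?_)
    congr 1
    ring
  calc |∫ t, ((bp κ hκ).normed volume t * tri (x - t) - (bp κ hκ).normed volume t * tri (y - t))|
      ≤ ∫ t, |(bp κ hκ).normed volume t * tri (x - t) -
        (bp κ hκ).normed volume t * tri (y - t)| := abs_integral_le_integral_abs
    _ ≤ ∫ t, (bp κ hκ).normed volume t * |x - y| := by
        apply integral_mono ((ms_int κ hκ x).sub (ms_int κ hκ y)).abs _ h1
        exact (bp κ hκ).integrable_normed.mul_const _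
    _ = |x - y| := by
        rw [integral_mul_const, (bp κ hκ).integral_normed, one_mul]

theorem ms_deriv (κ : ℝ) (hκ : 0 < κ) (x : ℝ) : |deriv (ms κ hκ) x| ≤ 1 := by
  have h : LipschitzWith 1 (ms κ hκ) := by
    apply LipschitzWith.of_dist_le_mul
    intro a b
    rw [NNReal.coe_one, one_mul, Real.dist_eq, Real.dist_eq]
    exact ms_lip κ hκ a b
  have h2 := norm_deriv_le_of_lipschitz (x₀ := x) h
  rwa [NNReal.coe_one] at h2


/-! ### composition -/

section comp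

variable {n : ℕ}

/-- the coordinate change -/
noncomputable def Ψ (n : ℕ) (δ κ : ℝ) (hκ : 0 < κ) (x : Fin n → ℝ) : Fin n → ℝ :=
  fun i => 2 * δ + (1 - 4 * δ) * ms κ hκ (x i)

/-- indicator function -/
noncomputable def chi (E : Set (Fin n → ℝ)) : (Fin n → ℝ) → ℝ := E.indicator (fun _ => (1 : ℝ))

/-- the mollified indicator function -/
noncomputable def hh (E : Set (Fin n → ℝ)) (δ : ℝ) (hδ : 0 < δ) : (Fin n → ℝ) → ℝ :=
  Pool.Agent.H48R3.CP.conv (chi E) (Pool.Agent.H48R3.CP.eta n δ hδ)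

theorem hh_smooth (E : Set (Fin n → ℝ)) (hE : MeasurableSet E)
    (hEU : E ⊆ Pool.Agent.H48R3.CP.U n) (δ : ℝ) (hδ : 0 < δ) : ContDiff ℝ ∞ (hh E δ hδ) := by
  unfold hh
  rw [Pool.Agent.H48R3.CP.conv_eq]
  exact (Pool.Agent.H48R3.CP.eta_supp δ hδ).contDiff_convolution_right
    (ContinuousLinearMap.mul ℝ ℝ) (Pool.Agent.H48R3.CP.int_ind E hE hEU).locallyIntegrable
    (Pool.Agent.H48R3.CP.bump n δ hδ).contDiff_normed

theorem Ψ_smooth (δ κ : ℝ) (hκ : 0 < κ) : ContDiff ℝ ∞ (Ψ n δ κ hκ) := by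
  unfold Ψ
  rw [contDiff_pi]
  intro i
  exact contDiff_const.add (contDiff_const.mul ((ms_smooth κ hκ).comp (contDiff_apply ℝ ℝ i)))

theorem Ψ_deriv (δ κ : ℝ) (hκ : 0 < κ) (x : Fin n → ℝ) (i : Fin n) :
    fderiv ℝ (Ψ n δ κ hκ) x (Pi.single i (1 : ℝ)) =
      ((1 - 4 * δ) * deriv (ms κ hκ) (x i)) • (Pi.single i (1 : ℝ) : Fin n → ℝ) := by
  have h1 : ∀ j, HasFDerivAt (fun x : Fin n → ℝ => Ψ n δ κ hκ x j)
      (((1 - 4 * δ) * deriv (ms κ hκ) (x j)) • (ContinuousLinearMap.proj j :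
        (Fin n → ℝ) →L[ℝ] ℝ)) x := by
    intro j
    have h2 : HasDerivAt (ms κ hκ) (deriv (ms κ hκ) (x j)) (x j) :=
      (((ms_smooth κ hκ).differentiable (by simp)) _).hasDerivAt
    have h3 : HasFDerivAt (fun x : Fin n → ℝ => x j) (ContinuousLinearMap.proj j :
        (Fin n → ℝ) →L[ℝ] ℝ) x := (ContinuousLinearMap.proj j : (Fin n → ℝ) →L[ℝ] ℝ).hasFDerivAt
    have h4 := h2.comp_hasFDerivAt x h3
    have h5 := (h4.const_mul (1 - 4 * δ)).const_add (2 * δ)
    rw [smul_smul] at h5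
    exact h5
  have h6 : HasFDerivAt (Ψ n δ κ hκ) (ContinuousLinearMap.pi fun j =>
      (((1 - 4 * δ) * deriv (ms κ hκ) (x j)) • (ContinuousLinearMap.proj j :
        (Fin n → ℝ) →L[ℝ] ℝ))) x := hasFDerivAt_pi.2 h1
  rw [h6.fderiv]
  funext j
  simp only [ContinuousLinearMap.coe_pi', FunLike.coe_smul, Pi.smul_apply,
    ContinuousLinearMap.proj_apply, smul_eq_mul]
  rcases eq_or_ne j i with h | h
  · rw [h]
  · rw [Pi.single_eq_of_ne h, mul_zero, mul_zero]

theorem D_comp {h : (Fin n → ℝ) → ℝ} (hh : ContDiff ℝ ∞ h) (δ κ : ℝ) (hκ : 0 < κ)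
    (x : Fin n → ℝ) (i : Fin n) :
    Pool.Agent.H194.Cube.D (fun x => h (Ψ n δ κ hκ x)) i x =
      ((1 - 4 * δ) * deriv (ms κ hκ) (x i)) * Pool.Agent.H194.Cube.D h i (Ψ n δ κ hκ x) := by
  have h1 : HasFDerivAt h (fderiv ℝ h (Ψ n δ κ hκ x)) (Ψ n δ κ hκ x) :=
    (hh.differentiable (by simp) _).hasFDerivAt
  have h2 : HasFDerivAt (Ψ n δ κ hκ) (fderiv ℝ (Ψ n δ κ hκ) x) x :=
    ((Ψ_smooth δ κ hκ).differentiable (by simp) _).hasFDerivAt
  have h3 := (h1.comp x h2).fderiv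
  unfold Pool.Agent.H194.Cube.D
  have h4 : (fun x => h (Ψ n δ κ hκ x)) = h ∘ Ψ n δ κ hκ := rfl
  rw [h4, h3, ContinuousLinearMap.comp_apply, Ψ_deriv, map_smul, smul_eq_mul]

theorem gn_comp {h : (Fin n → ℝ) → ℝ} (hh : ContDiff ℝ ∞ h) (δ κ : ℝ) (hκ : 0 < κ)
    (hδ0 : 0 ≤ 1 - 4 * δ) (x : Fin n → ℝ) :
    Pool.Agent.H194.Cube.gn (fun x => h (Ψ n δ κ hκ x)) x ≤
      (1 - 4 * δ) * Pool.Agent.H194.Cube.gn h (Ψ n δ κ hκ x) := by
  unfold Pool.Agent.H194.Cube.gn
  rw [← Real.sqrt_sq hδ0, ← Real.sqrt_mul (sq_nonneg _)]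
  apply Real.sqrt_le_sqrt
  rw [Finset.mul_sum]
  refine Finset.sum_le_sum fun i _ => ?_
  rw [D_comp hh, mul_pow, mul_pow]
  have h1 : deriv (ms κ hκ) (x i) ^ 2 ≤ 1 := by
    have := ms_deriv κ hκ (x i)
    rw [sq_le_one_iff_abs_le_one]
    exact this
  have h2 := sq_nonneg (Pool.Agent.H194.Cube.D h i (Ψ n δ κ hκ x))
  have h3 := sq_nonneg (1 - 4 * δ)
  have h4 : (1 - 4 * δ) ^ 2 * deriv (ms κ hκ) (x i) ^ 2 ≤ (1 - 4 * δ) ^ 2 := by nlinarith
  exact mul_le_mul_of_nonneg_right h4 h2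

theorem cont_D {h : (Fin n → ℝ) → ℝ} (hh : ContDiff ℝ ∞ h) (i : Fin n) :
    Continuous (Pool.Agent.H194.Cube.D h i) := by
  have h1 : Continuous (fderiv ℝ h) := hh.continuous_fderiv (by simp)
  exact h1.clm_apply continuous_const

theorem cont_gn {h : (Fin n → ℝ) → ℝ} (hh : ContDiff ℝ ∞ h) :
    Continuous (Pool.Agent.H194.Cube.gn h) := by
  unfold Pool.Agent.H194.Cube.gn
  exact Real.continuous_sqrt.comp (continuous_finsetSum _ fun i _ => (cont_D hh i).pow 2)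

theorem Ψ_near (δ κ : ℝ) (hκ : 0 < κ) (hδ0 : 0 ≤ δ) (hδ1 : δ ≤ 1 / 4) {x : Fin n → ℝ}
    (hx : x ∈ Icc (0 : Fin n → ℝ) 1) (i : Fin n) :
    |Ψ n δ κ hκ x i - Pool.Agent.H48R3.CP.T n δ x i| ≤ κ := by
  have h1 := ms_near κ hκ (x i)
  rw [tri_id (hx.1 i) (hx.2 i)] at h1
  have e : Ψ n δ κ hκ x i - Pool.Agent.H48R3.CP.T n δ x i =
      (1 - 4 * δ) * (ms κ hκ (x i) - x i) := by
    simp only [Ψ, Pool.Agent.H48R3.CP.T, Pi.add_apply, Pi.smul_apply, smul_eq_mul]
    ring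
  rw [e, abs_mul, abs_of_nonneg (by linarith : 0 ≤ 1 - 4 * δ)]
  have := abs_nonneg (ms κ hκ (x i) - x i)
  nlinarith

theorem kp (j : ℕ) : (0 : ℝ) < 1 / ((j : ℝ) + 1) := by positivity

/-- limit of the integrals -/
theorem lim_int (w : (Fin n → ℝ) → ℝ) (hw : Continuous w) (F : ℝ → (Fin n → ℝ) → ℝ)
    (hF : ∀ x, Continuous fun t => F t x) (hFm : Measurable (Function.uncurry F))
    (hFb : ∀ t x, |F t x| ≤ |t| + 1)
    (δ : ℝ) (hδ0 : 0 ≤ δ) (hδ1 : δ ≤ 1 / 4) :
    Tendsto (fun j : ℕ => ∫ x in Icc (0 : Fin n → ℝ) 1,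
      F (w (Ψ n δ (1 / ((j : ℝ) + 1)) (kp j) x)) x) atTop
      (𝓝 (∫ x in Icc (0 : Fin n → ℝ) 1, F (w (Pool.Agent.H48R3.CP.T n δ x)) x)) := by
  have hcpt : IsCompact (Icc (fun _ => -1 : Fin n → ℝ) (fun _ => 2)) := isCompact_Icc
  obtain ⟨C, hC⟩ := hcpt.exists_bound_of_continuousOn hw.continuousOn
  have hmem : ∀ (j : ℕ) (x : Fin n → ℝ), x ∈ Icc (0 : Fin n → ℝ) 1 →
      Ψ n δ (1 / ((j : ℝ) + 1)) (kp j) x ∈ Icc (fun _ => -1 : Fin n → ℝ) (fun _ => 2) := by
    intro j x hx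
    have hk1 : 1 / ((j : ℝ) + 1) ≤ 1 := by
      rw [div_le_one (by positivity)]
      have : (0 : ℝ) ≤ j := Nat.cast_nonneg j
      linarith
    have hT : ∀ i, 0 ≤ Pool.Agent.H48R3.CP.T n δ x i ∧ Pool.Agent.H48R3.CP.T n δ x i ≤ 1 := by
      intro i
      have h1 : 0 ≤ x i := hx.1 i
      have h2 : x i ≤ 1 := hx.2 i
      simp only [Pool.Agent.H48R3.CP.T, Pi.add_apply, Pi.smul_apply, smul_eq_mul]
      constructor <;> nlinarith
    constructor
    · intro i
      have h3 := abs_le.1 (Ψ_near δ _ (kp j) hδ0 hδ1 hx i)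
      have h4 := hT i
      show (-1 : ℝ) ≤ _
      linarith [h3.1]
    · intro i
      have h3 := abs_le.1 (Ψ_near δ _ (kp j) hδ0 hδ1 hx i)
      have h4 := hT i
      show _ ≤ (2 : ℝ)
      linarith [h3.2]
  have hfin : IsFiniteMeasure (volume.restrict (Icc (0 : Fin n → ℝ) 1)) := ⟨by
    rw [Measure.restrict_apply_univ, Pool.Agent.H48R3.CP.vol_Icc]
    exact ENNReal.one_lt_top⟩
  apply tendsto_integral_of_dominated_convergence (fun _ => |C| + 1)
  · intro j
    apply Measurable.aestronglyMeasurable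
    exact hFm.comp ((hw.comp (Ψ_smooth δ _ (kp j)).continuous).measurable.prodMk measurable_id)
  · exact integrable_const _
  · intro j
    rw [ae_restrict_iff' measurableSet_Icc]
    refine Eventually.of_forall fun x hx => ?_
    rw [Real.norm_eq_abs]
    refine (hFb _ _).trans ?_
    have h1 := hC _ (hmem j x hx)
    rw [Real.norm_eq_abs] at h1
    have := le_abs_self C
    linarith
  · rw [ae_restrict_iff' measurableSet_Icc]
    refine Eventually.of_forall fun x hx => ?_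
    have h1 : Tendsto (fun j : ℕ => Ψ n δ (1 / ((j : ℝ) + 1)) (kp j) x) atTop
        (𝓝 (Pool.Agent.H48R3.CP.T n δ x)) := by
      rw [tendsto_pi_nhds]
      intro i
      rw [tendsto_iff_dist_tendsto_zero]
      refine squeeze_zero (fun _ => dist_nonneg) (fun j => ?_)
        (tendsto_one_div_add_atTop_nhds_zero_nat (𝕜 := ℝ))
      rw [Real.dist_eq]
      exact Ψ_near δ _ (kp j) hδ0 hδ1 hx i
    exact ((hF x).tendsto _).comp ((hw.tendsto _).comp h1)

end comp


/-! ### the theorem -/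

open Pool.Agent.H48R3.CP (dl dl_pos dl_lt dl_tendsto) in
theorem lim_l1 {n : ℕ} (E : Set (Fin n → ℝ)) (hE : MeasurableSet E)
    (hEU : E ⊆ Pool.Agent.H48R3.CP.U n) :
    Tendsto (fun m : ℕ => ∫ x in Icc (0 : Fin n → ℝ) 1,
      |hh E (dl m) (dl_pos m) (Pool.Agent.H48R3.CP.T n (dl m) x) - chi E x|) atTop (𝓝 0) := by
  have hfin : IsFiniteMeasure (volume.restrict (Icc (0 : Fin n → ℝ) 1)) := ⟨by
    rw [Measure.restrict_apply_univ, Pool.Agent.H48R3.CP.vol_Icc]
    exact ENNReal.one_lt_top⟩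
  have hchi : Measurable (chi E) := measurable_const.indicator hE
  have hchi01 : ∀ x, 0 ≤ chi E x ∧ chi E x ≤ 1 := by
    intro x
    by_cases hx : x ∈ E <;> simp [chi, hx]
  have h0 : ∫ x in Icc (0 : Fin n → ℝ) 1, |chi E x - chi E x| = 0 := by simp
  rw [← h0]
  apply tendsto_integral_of_dominated_convergence (fun _ => (1 : ℝ))
  · intro m
    apply Measurable.aestronglyMeasurable
    have h1 : Continuous (hh E (dl m) (dl_pos m)) := (hh_smooth E hE hEU _ (dl_pos m)).continuous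
    have h2 : Continuous (Pool.Agent.H48R3.CP.T n (dl m)) := by
      unfold Pool.Agent.H48R3.CP.T
      fun_prop
    exact measurable_norm.comp ((h1.comp h2).measurable.sub hchi)
  · exact integrable_const _
  · intro m
    refine Eventually.of_forall fun x => ?_
    rw [Real.norm_eq_abs, abs_abs, abs_le]
    have h1 := Pool.Agent.H48R3.CP.g_bounds E hE hEU (dl m) (dl_pos m)
      (Pool.Agent.H48R3.CP.T n (dl m) x)
    have h2 := hchi01 x
    have h3 : hh E (dl m) (dl_pos m) (Pool.Agent.H48R3.CP.T n (dl m) x) =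
      Pool.Agent.H48R3.CP.conv (E.indicator (fun _ => (1:ℝ)))
        (Pool.Agent.H48R3.CP.eta n (dl m) (dl_pos m)) (Pool.Agent.H48R3.CP.T n (dl m) x) := rfl
    rw [← h3] at h1
    constructor <;> linarith
  · filter_upwards [Pool.Agent.H48R3.CP.ae_lim E hE hEU] with x hx
    have h1 : Tendsto (fun m => (Pool.Agent.H48R3.CP.fd E (dl m) (dl_pos m) x - dl m) /
        (1 - 2 * dl m)) atTop (𝓝 ((chi E x - 0) / (1 - 2 * 0))) := by
      apply (hx.sub dl_tendsto).div (tendsto_const_nhds.sub (dl_tendsto.const_mul 2))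
      norm_num
    rw [mul_zero, sub_zero, sub_zero, div_one] at h1
    have h2 : ∀ m, (Pool.Agent.H48R3.CP.fd E (dl m) (dl_pos m) x - dl m) / (1 - 2 * dl m) =
        hh E (dl m) (dl_pos m) (Pool.Agent.H48R3.CP.T n (dl m) x) := by
      intro m
      have h3 := dl_lt m
      have h4 : 1 - 2 * dl m ≠ 0 := by linarith
      unfold Pool.Agent.H48R3.CP.fd
      rw [add_sub_cancel_left, mul_div_cancel_left₀ _ h4]
      rfl
    simp only [h2] at h1
    exact (h1.sub tendsto_const_nhds).abs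

theorem bound_Q' {n : ℕ} {c : ℝ} (E : Set (Fin n → ℝ)) (hE : MeasurableSet E)
    (hEU : E ⊆ Pool.Agent.H48R3.CP.U n) (hlt : Pool.Agent.H194.Cube.Peri n E < ENNReal.ofReal c)
    (δ : ℝ) (hδ : 0 < δ) (hδ2 : δ < 1 / 8) :
    ∫ y in Icc (fun _ : Fin n => 2 * δ) (fun _ => 1 - 2 * δ),
      Pool.Agent.H194.Cube.gn (hh E δ hδ) y ≤ c := by
  obtain ⟨φ, h1, h2, h3, h4, h5⟩ := Pool.Agent.H48R3.CP.testfield E hE hEU δ hδ hδ2
  have h6 : ENNReal.ofReal (∫ x in E, ∑ i, fderiv ℝ φ x (Pi.single i 1) i) ≤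
      Pool.Agent.H194.Cube.Peri n E := by
    unfold Pool.Agent.H194.Cube.Peri
    exact le_iSup_of_le φ (le_iSup_of_le h1 (le_iSup_of_le h2 (le_iSup_of_le h3
      (le_iSup_of_le h4 le_rfl))))
  have h7 : ∀ x, ∑ i, fderiv ℝ φ x (Pi.single i 1) i =
      ∑ i, fderiv ℝ (fun y => φ y i) x (Pi.single i (1 : ℝ) : Fin n → ℝ) := by
    intro x
    refine Finset.sum_congr rfl fun i _ => ?_
    have h8 : HasFDerivAt φ (fderiv ℝ φ x) x := (h1.differentiable (by norm_num) x).hasFDerivAt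
    have h9 := (hasFDerivAt_pi'.1 h8 i).fderiv
    rw [h9]
    rfl
  simp only [h7] at h6
  rw [h5] at h6
  have h10 := lt_of_le_of_lt h6 hlt
  have h11 := (ENNReal.ofReal_lt_ofReal_iff_of_nonneg
    (integral_nonneg fun x => Real.sqrt_nonneg _)).1 h10
  exact h11.le

open Pool.Agent.H48R3.CP (dl dl_pos dl_lt dl_tendsto) in
/-- **Smooth symmetric near-minimisers.** -/
theorem s_nm : Pool.Agent.H194.Cube.S_nm := by
  intro n lam P hn hl0 hl1 hP hI δ hδ
  have hlt : Pool.Agent.H194.Cube.Iprof n lam < ENNReal.ofReal (P + δ / 2) := by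
    rw [hI]
    exact (ENNReal.ofReal_lt_ofReal_iff_of_nonneg hP).2 (by linarith)
  unfold Pool.Agent.H194.Cube.Iprof at hlt
  simp only [iInf_lt_iff] at hlt
  obtain ⟨E, hE, hEU', hvol, hlt⟩ := hlt
  have hEU : E ⊆ Pool.Agent.H48R3.CP.U n := fun x hx i => hEU' hx i
  -- choice of the mollification
  have e1 : ∀ᶠ m : ℕ in atTop, ((1 - 4 * dl m) ^ n)⁻¹ * (P + δ / 2) < P + δ := by
    have h1 : Tendsto (fun m : ℕ => ((1 - 4 * dl m) ^ n)⁻¹ * (P + δ / 2)) atTop
        (𝓝 (((1 - 4 * 0) ^ n)⁻¹ * (P + δ / 2))) := by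
      apply Tendsto.mul_const
      apply Tendsto.inv₀
      · exact (tendsto_const_nhds.sub (dl_tendsto.const_mul 4)).pow n
      · norm_num
    rw [mul_zero, sub_zero, one_pow, inv_one, one_mul] at h1
    exact h1.eventually (gt_mem_nhds (by linarith))
  have e2 := (lim_l1 E hE hEU).eventually (gt_mem_nhds hδ)
  obtain ⟨m, hm1, hm2⟩ := (e1.and e2).exists
  have hd0 := dl_pos m
  have hd1 := dl_lt m
  have hc0 : 0 < 1 - 4 * dl m := by linarith
  have hsm := hh_smooth E hE hEU (dl m) hd0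
  set h : (Fin n → ℝ) → ℝ := hh E (dl m) (dl_pos m) with hh'
  have hb := bound_Q' E hE hEU hlt (dl m) hd0 hd1
  rw [← hh'] at hb
  -- limits
  have l1 := lim_int (Pool.Agent.H194.Cube.gn h) (cont_gn hsm) (fun t _ => t)
    (fun _ => continuous_id) measurable_fst (fun t _ => by linarith) (dl m) hd0.le (by linarith)
  have hchi : Measurable (chi E) := measurable_const.indicator hE
  have hchi01 : ∀ x, 0 ≤ chi E x ∧ chi E x ≤ 1 := by
    intro x
    by_cases hx : x ∈ E <;> simp [chi, hx]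
  have l2 := lim_int h hsm.continuous (fun t x => |t - chi E x|)
    (fun x => (continuous_id.sub continuous_const).abs)
    (measurable_norm.comp (measurable_fst.sub (hchi.comp measurable_snd)))
    (fun t x => by
      rw [abs_abs]
      refine (abs_sub _ _).trans ?_
      rw [abs_of_nonneg (hchi01 x).1]
      linarith [(hchi01 x).2]) (dl m) hd0.le (by linarith)
  have hcv := Pool.Agent.H48R3.CP.change_var (Pool.Agent.H194.Cube.gn h) (dl m) hd0 hd1
  have hpow : 0 < (1 - 4 * dl m) ^ n := pow_pos hc0 n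
  have e3 : (1 - 4 * dl m) * ∫ x in Icc (0 : Fin n → ℝ) 1,
      Pool.Agent.H194.Cube.gn h (Pool.Agent.H48R3.CP.T n (dl m) x) < P + δ := by
    rw [hcv]
    have hI0 : 0 ≤ ∫ y in Icc (fun _ : Fin n => 2 * dl m) (fun _ => 1 - 2 * dl m),
      Pool.Agent.H194.Cube.gn h y := integral_nonneg fun x => Real.sqrt_nonneg _
    have h1 : ((1 - 4 * dl m) ^ n)⁻¹ * (∫ y in Icc (fun _ : Fin n => 2 * dl m)
        (fun _ => 1 - 2 * dl m), Pool.Agent.H194.Cube.gn h y) ≤
        ((1 - 4 * dl m) ^ n)⁻¹ * (P + δ / 2) := mul_le_mul_of_nonneg_left hb (by positivity)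
    have h2 : 0 ≤ ((1 - 4 * dl m) ^ n)⁻¹ * (∫ y in Icc (fun _ : Fin n => 2 * dl m)
        (fun _ => 1 - 2 * dl m), Pool.Agent.H194.Cube.gn h y) := by positivity
    nlinarith
  have ev1 := (l1.const_mul (1 - 4 * dl m)).eventually (gt_mem_nhds e3)
  have ev2 := l2.eventually (gt_mem_nhds hm2)
  obtain ⟨j, hj1, hj2⟩ := (ev1.and ev2).exists
  set κ : ℝ := 1 / ((j : ℝ) + 1) with hκ'
  have hκ : 0 < κ := kp j
  have hgs : ContDiff ℝ ∞ (fun x => h (Ψ n (dl m) κ hκ x)) := hsm.comp (Ψ_smooth _ _ hκ)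
  refine ⟨E, fun x => h (Ψ n (dl m) κ hκ x), hE, hEU.trans Pool.Agent.H48R3.CP.U_sub, hvol, hgs,
    ⟨?_, ?_⟩, ?_, ?_, ?_⟩
  · intro x i
    show h _ = h _
    congr 1
    funext k
    unfold Ψ
    rcases eq_or_ne k i with hk | hk
    · rw [hk, Pi.add_apply, Pi.single_eq_same, ms_per]
    · rw [Pi.add_apply, Pi.single_eq_of_ne hk, add_zero]
  · intro i x
    show h _ = h _
    congr 1
    funext k
    unfold Ψ
    rcases eq_or_ne k i with hk | hk
    · rw [hk, Function.update_self, ms_neg]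
    · rw [Function.update_of_ne hk]
  · intro x
    exact Pool.Agent.H48R3.CP.g_bounds E hE hEU (dl m) (dl_pos m) _
  · have hI1 : IntegrableOn (Pool.Agent.H194.Cube.gn fun x => h (Ψ n (dl m) κ hκ x))
        (Icc (0 : Fin n → ℝ) 1) := (cont_gn hgs).continuousOn.integrableOn_compact isCompact_Icc
    have hc2 : Continuous fun x => (1 - 4 * dl m) *
        Pool.Agent.H194.Cube.gn h (Ψ n (dl m) κ hκ x) :=
      continuous_const.mul ((cont_gn hsm).comp (Ψ_smooth _ _ hκ).continuous)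
    have hI2 : IntegrableOn (fun x => (1 - 4 * dl m) *
        Pool.Agent.H194.Cube.gn h (Ψ n (dl m) κ hκ x)) (Icc (0 : Fin n → ℝ) 1) :=
      hc2.continuousOn.integrableOn_compact isCompact_Icc
    have h1 : Pool.Agent.H194.Cube.TV (fun x => h (Ψ n (dl m) κ hκ x)) ≤
        ∫ x in Icc (0 : Fin n → ℝ) 1, (1 - 4 * dl m) *
          Pool.Agent.H194.Cube.gn h (Ψ n (dl m) κ hκ x) :=
      integral_mono hI1 hI2 fun x => gn_comp hsm (dl m) κ hκ hc0.le x
    rw [integral_const_mul] at h1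
    exact h1.trans hj1.le
  · exact hj2.le

end Pool.Agent.H726.Cube
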