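import Pool.Agent.H194.Cube.Defs

/-!
The one-dimensional functional inequality `S_oneD`.
-/

set_option autoImplicit false

namespace Pool.Agent.H696.Cube

open MeasureTheory Set Pool.Agent.H194.Cube

/-- lower bound of the integrand -/
theorem ptw (W r l : ℝ) (hW : 0 < W) :
    W + 2 * l * |r| - l ^ 2 * (2 * W + |r|) ≤ √(W ^ 2 + r ^ 2) := by
  have hr := abs_nonneg r
  have hr2 := sq_abs r
  generalize |r| = s at *
  have hD : 0 < 2 * W + s := by linarith
  have h1 : 2 * l * s - l ^ 2 * (2 * W + s) ≤ s ^ 2 / (2 * W + s) := by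
    rw [le_div_iff₀ hD]
    nlinarith [sq_nonneg (s - l * (2 * W + s))]
  have h2 : W + s ^ 2 / (2 * W + s) ≤ √(W ^ 2 + r ^ 2) := by
    apply Real.le_sqrt_of_sq_le
    rw [← hr2]
    have h3 : s ^ 2 / (2 * W + s) * (2 * W + s) = s ^ 2 := div_mul_cancel₀ _ hD.ne'
    have hq0 : 0 ≤ s ^ 2 / (2 * W + s) := by positivity
    generalize s ^ 2 / (2 * W + s) = q at *
    have hqs : q ≤ s := by
      by_contra h
      rw [not_le] at h
      nlinarith
    nlinarith
  linarith

/-- `ρ (log ρ)² ≤ (ρ - 1)²` -/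
theorem log_sq (x : ℝ) (hx : 0 < x) : x * Real.log x ^ 2 ≤ (x - 1) ^ 2 := by
  obtain ⟨y, rfl⟩ : ∃ y, x = Real.exp (2 * y) := ⟨Real.log x / 2, by
    rw [mul_div_cancel₀ _ (two_ne_zero), Real.exp_log hx]⟩
  rw [Real.log_exp]
  have h1 : (Real.exp (2 * y) - 1) ^ 2 = Real.exp (2 * y) * (2 * Real.sinh y) ^ 2 := by
    rw [Real.sinh_eq, two_mul y, Real.exp_add, Real.exp_neg]
    have := (Real.exp_pos y).ne'
    field_simp
  rw [h1]
  apply mul_le_mul_of_nonneg_left _ (Real.exp_pos _).le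
  rw [mul_pow, mul_pow]
  have h2 : y ^ 2 ≤ Real.sinh y ^ 2 := by
    rcases le_total 0 y with h | h
    · have := Real.self_le_sinh_iff.2 h
      nlinarith
    · have := Real.sinh_le_self_iff.2 h
      nlinarith
  linarith

theorem s_oneD : S_oneD := by
  intro a a' hd hc ha
  have hac : Continuous a := continuous_iff_continuousAt.2 fun x => (hd x).continuousAt
  obtain ⟨M, hM⟩ : ∃ M, M = ∫ x in (0 : ℝ)..1, a x := ⟨_, rfl⟩
  have hM0 : 0 < M := by
    rw [hM]
    exact intervalIntegral.intervalIntegral_pos_of_pos (hac.intervalIntegrable _ _)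
      (fun x => (ha x).1) one_pos
  have hM1 : M < 1 := by
    have h1 : 0 < ∫ x in (0 : ℝ)..1, (1 - a x) :=
      intervalIntegral.intervalIntegral_pos_of_pos
        ((continuous_const.sub hac).intervalIntegrable _ _)
        (fun x => by have := (ha x).2; linarith) one_pos
    rw [intervalIntegral.integral_sub (continuous_const.intervalIntegrable _ _)
      (hac.intervalIntegrable _ _), ← hM] at h1
    simp at h1
    exact h1
  -- normalised functions
  obtain ⟨ρ, hρ⟩ : ∃ ρ : ℝ → ℝ, ρ = fun x => a x / M := ⟨_, rfl⟩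
  obtain ⟨r, hr⟩ : ∃ r : ℝ → ℝ, r = fun x => a' x / M := ⟨_, rfl⟩
  have hρ0 : ∀ x, 0 < ρ x := fun x => by rw [hρ]; exact div_pos (ha x).1 hM0
  have hρc : Continuous ρ := by rw [hρ]; exact hac.div_const _
  have hrc : Continuous r := by rw [hr]; exact hc.div_const _
  have hρd : ∀ x, HasDerivAt ρ (r x) x := fun x => by
    rw [hρ, hr]; exact (hd x).div_const M
  have haρ : ∀ x, a x = M * ρ x := fun x => by rw [hρ]; field_simp
  have har : ∀ x, a' x = M * r x := fun x => by rw [hr]; field_simp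
  have hI : ∫ x in (0 : ℝ)..1, ρ x = 1 := by
    rw [hρ, intervalIntegral.integral_div, ← hM]
    exact div_self hM0.ne'
  obtain ⟨T, hT⟩ : ∃ T, T = ∫ x in (0 : ℝ)..1, |r x| := ⟨_, rfl⟩
  have hT0 : 0 ≤ T := by
    rw [hT]
    exact intervalIntegral.integral_nonneg zero_le_one fun x _ => abs_nonneg _
  have hdist : ∀ x ∈ Icc (0 : ℝ) 1, ∀ y ∈ Icc (0 : ℝ) 1, |ρ x - ρ y| ≤ T := by
    have key : ∀ x ∈ Icc (0 : ℝ) 1, ∀ y ∈ Icc (0 : ℝ) 1, x ≤ y → |ρ x - ρ y| ≤ T := by
      intro x hx y hy hxy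
      have h1 : ∫ t in x..y, r t = ρ y - ρ x :=
        intervalIntegral.integral_eq_sub_of_hasDerivAt (fun t _ => hρd t)
          (hrc.intervalIntegrable _ _)
      rw [abs_sub_comm, ← h1]
      refine (intervalIntegral.abs_integral_le_integral_abs hxy).trans ?_
      rw [hT]
      exact intervalIntegral.integral_mono_interval hx.1 hxy hy.2
        (Filter.Eventually.of_forall fun t => abs_nonneg _) (hrc.abs.intervalIntegrable _ _)
    intro x hx y hy
    rcases le_total x y with h | h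
    · exact key x hx y hy h
    · rw [abs_sub_comm]
      exact key y hy x hx h
  have hdev : ∀ x ∈ Icc (0 : ℝ) 1, |ρ x - 1| ≤ T := by
    intro x hx
    have h1 : ρ x - 1 = ∫ y in (0 : ℝ)..1, (ρ x - ρ y) := by
      rw [intervalIntegral.integral_sub (continuous_const.intervalIntegrable _ _)
        (hρc.intervalIntegrable _ _), hI]
      simp
    rw [h1]
    refine (intervalIntegral.abs_integral_le_integral_abs zero_le_one).trans ?_
    have h2 : ∫ y in (0 : ℝ)..1, |ρ x - ρ y| ≤ ∫ _y in (0 : ℝ)..1, T :=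
      intervalIntegral.integral_mono_on zero_le_one
        ((continuous_const.sub hρc).abs.intervalIntegrable _ _)
        (continuous_const.intervalIntegrable _ _) (fun y hy => hdist x hx y hy)
    simpa using h2
  -- the logarithm
  obtain ⟨ψ, hψ⟩ : ∃ ψ : ℝ → ℝ, ψ = fun x => Real.log (ρ x) := ⟨_, rfl⟩
  have hψc : Continuous ψ := by
    rw [hψ]
    exact hρc.log fun x => (hρ0 x).ne'
  have hlogM : Real.log M < 0 := Real.log_neg hM0 hM1
  obtain ⟨L, hL⟩ : ∃ L, L = √(1 - Real.log M) := ⟨_, rfl⟩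
  have hL2 : L ^ 2 = 1 - Real.log M := by
    rw [hL]
    exact Real.sq_sqrt (by linarith)
  have hL1 : 1 ≤ L := by
    rw [hL]
    exact Real.one_le_sqrt.2 (by linarith)
  have hloga : ∀ x, 1 - Real.log (a x) = L ^ 2 - ψ x := by
    intro x
    rw [haρ, Real.log_mul hM0.ne' (hρ0 x).ne', hL2, hψ]
    ring
  have hpos : ∀ x, 0 < L ^ 2 - ψ x := by
    intro x
    rw [← hloga]
    have := Real.log_neg (ha x).1 (ha x).2
    linarith
  obtain ⟨W, hW⟩ : ∃ W : ℝ → ℝ, W = fun x => 1 / 3 * ρ x * √(L ^ 2 - ψ x) := ⟨_, rfl⟩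
  have hW0 : ∀ x, 0 < W x := by
    intro x
    rw [hW]
    have h1 := hρ0 x
    have h2 := Real.sqrt_pos.2 (hpos x)
    simp only
    positivity
  have hWc : Continuous W := by
    rw [hW]
    exact (continuous_const.mul hρc).mul (continuous_const.sub hψc).sqrt
  -- integrand
  have hint : ∀ x, √(Jf (a x) ^ 2 + a' x ^ 2) = M * √(W x ^ 2 + r x ^ 2) := by
    intro x
    have h1 : Jf (a x) = M * W x := by
      unfold Jf
      rw [hloga, hW, haρ]
      ring
    rw [h1, har x]
    have h2 : (M * W x) ^ 2 + (M * r x) ^ 2 = M ^ 2 * (W x ^ 2 + r x ^ 2) := by ring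
    rw [h2, Real.sqrt_mul (sq_nonneg M), Real.sqrt_sq hM0.le]
  have hgoal : Jf M = M * (1 / 3 * L) := by
    unfold Jf
    rw [← hL]
    ring
  rw [← hM, hgoal]
  simp only [hint]
  rw [intervalIntegral.integral_const_mul]
  refine mul_le_mul_of_nonneg_left ?_ hM0.le
  -- pointwise bounds for `W`
  have hWlo : ∀ x, 1 / 3 * L * ρ x - 1 / (6 * L) * (ρ x * ψ x) - 1 / (6 * L) * (ρ x * ψ x ^ 2) ≤
      W x := by
    intro x
    rw [hW]
    simp only
    have hs := Real.sq_sqrt (hpos x).le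
    have hs0 := Real.sqrt_nonneg (L ^ 2 - ψ x)
    generalize √(L ^ 2 - ψ x) = s at *
    have e1 : ψ x = L ^ 2 - s ^ 2 := by linarith
    have hL0 : 0 < L := by linarith
    have e2 : 1 / 3 * ρ x * s - (1 / 3 * L * ρ x - 1 / (6 * L) * (ρ x * ψ x) -
        1 / (6 * L) * (ρ x * ψ x ^ 2)) =
        ρ x * ((L - s) ^ 2 * ((L + s) ^ 2 - 1)) / (6 * L) := by
      rw [e1]
      field_simp
      ring
    have e3 : 0 ≤ ρ x * ((L - s) ^ 2 * ((L + s) ^ 2 - 1)) / (6 * L) := by
      have h1 := (hρ0 x).le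
      have h2 : 0 ≤ (L + s) ^ 2 - 1 := by nlinarith
      positivity
    linarith
  have hWhi : ∀ x, W x ≤ 1 / 3 * L * ρ x - 1 / (6 * L) * (ρ x * ψ x) := by
    intro x
    rw [hW]
    simp only
    have hs := Real.sq_sqrt (hpos x).le
    generalize √(L ^ 2 - ψ x) = s at *
    have e1 : ψ x = L ^ 2 - s ^ 2 := by linarith
    have hL0 : 0 < L := by linarith
    have e2 : 1 / 3 * L * ρ x - 1 / (6 * L) * (ρ x * ψ x) - 1 / 3 * ρ x * s =
        ρ x * (L - s) ^ 2 / (6 * L) := by
      rw [e1]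
      field_simp
      ring
    have e3 : 0 ≤ ρ x * (L - s) ^ 2 / (6 * L) := by
      have h1 := (hρ0 x).le
      positivity
    linarith
  -- the integrals of `ρ ψ`, `ρ ψ²`
  obtain ⟨A, hA⟩ : ∃ A, A = ∫ x in (0 : ℝ)..1, ρ x * ψ x := ⟨_, rfl⟩
  obtain ⟨B, hB⟩ : ∃ B, B = ∫ x in (0 : ℝ)..1, ρ x * ψ x ^ 2 := ⟨_, rfl⟩
  have i1 : IntervalIntegrable (fun x => ρ x * ψ x) volume 0 1 :=
    (hρc.mul hψc).intervalIntegrable _ _
  have i2 : IntervalIntegrable (fun x => ρ x * ψ x ^ 2) volume 0 1 :=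
    (hρc.mul (hψc.pow 2)).intervalIntegrable _ _
  have i3 : IntervalIntegrable ρ volume 0 1 := hρc.intervalIntegrable _ _
  have hlog1 : ∀ x, ψ x ≤ ρ x - 1 := fun x => by
    rw [hψ]
    exact Real.log_le_sub_one_of_pos (hρ0 x)
  have hA0 : 0 ≤ A := by
    have h1 : ∫ x in (0 : ℝ)..1, (ρ x - 1) ≤ ∫ x in (0 : ℝ)..1, ρ x * ψ x := by
      refine intervalIntegral.integral_mono_on zero_le_one
        ((hρc.sub continuous_const).intervalIntegrable _ _) i1 (fun x _ => ?_)
      have h2 := Real.one_sub_inv_le_log_of_pos (hρ0 x)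
      have h3 : ρ x * (1 - (ρ x)⁻¹) = ρ x - 1 := by
        rw [mul_sub, mul_inv_cancel₀ (hρ0 x).ne', mul_one]
      rw [← h3, hψ]
      exact mul_le_mul_of_nonneg_left h2 (hρ0 x).le
    rw [intervalIntegral.integral_sub i3 (continuous_const.intervalIntegrable _ _), hI] at h1
    rw [hA]
    simpa using h1
  have hAT : A ≤ T := by
    have h1 : ∫ x in (0 : ℝ)..1, ρ x * ψ x ≤ ∫ x in (0 : ℝ)..1, ρ x * T := by
      refine intervalIntegral.integral_mono_on zero_le_one i1 (i3.mul_const T) (fun x hx => ?_)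
      refine mul_le_mul_of_nonneg_left ?_ (hρ0 x).le
      have := hdev x hx
      have := le_abs_self (ρ x - 1)
      have := hlog1 x
      linarith
    rw [intervalIntegral.integral_mul_const, hI, one_mul] at h1
    rw [hA]
    exact h1
  have isq : IntervalIntegrable (fun x => (ρ x - 1) ^ 2) volume 0 1 :=
    ((hρc.sub continuous_const).pow 2).intervalIntegrable _ _
  have hQ1 : ∫ x in (0 : ℝ)..1, (ρ x - 1) ^ 2 ≤ T ^ 2 := by
    have h1 : ∫ x in (0 : ℝ)..1, (ρ x - 1) ^ 2 ≤ ∫ _x in (0 : ℝ)..1, T ^ 2 := by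
      refine intervalIntegral.integral_mono_on zero_le_one isq
        (continuous_const.intervalIntegrable _ _) (fun x hx => ?_)
      have := hdev x hx
      rw [← sq_abs]
      exact pow_le_pow_left₀ (abs_nonneg _) this 2
    simpa using h1
  have hQ2 : ∫ x in (0 : ℝ)..1, (ρ x - 1) ^ 2 ≤ 2 * T := by
    have h1 : ∫ x in (0 : ℝ)..1, (ρ x - 1) ^ 2 ≤ ∫ x in (0 : ℝ)..1, (T + T * ρ x) := by
      refine intervalIntegral.integral_mono_on zero_le_one isq
        ((continuous_const.add (continuous_const.mul hρc)).intervalIntegrable _ _) (fun x hx => ?_)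
      have h2 := hdev x hx
      have h3 : |ρ x - 1| ≤ 1 + ρ x := by
        have := hρ0 x
        rw [abs_le]
        constructor <;> linarith
      rw [← sq_abs, pow_two]
      calc |ρ x - 1| * |ρ x - 1| ≤ T * (1 + ρ x) :=
            mul_le_mul h2 h3 (abs_nonneg _) hT0
        _ = T + T * ρ x := by ring
    rw [intervalIntegral.integral_add (continuous_const.intervalIntegrable _ _)
      (i3.const_mul T), intervalIntegral.integral_const_mul, hI] at h1
    simp at h1
    linarith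
  have ism : IntervalIntegrable (fun x => ρ x - 1) volume 0 1 :=
    (hρc.sub continuous_const).intervalIntegrable _ _
  have hAQ : A ≤ ∫ x in (0 : ℝ)..1, (ρ x - 1) ^ 2 := by
    have h1 : ∫ x in (0 : ℝ)..1, ρ x * ψ x ≤ ∫ x in (0 : ℝ)..1, ((ρ x - 1) ^ 2 + (ρ x - 1)) := by
      refine intervalIntegral.integral_mono_on zero_le_one i1
        (isq.add ism) (fun x _ => ?_)
      have h2 := mul_le_mul_of_nonneg_left (hlog1 x) (hρ0 x).le
      linarith [h2, show ρ x * (ρ x - 1) = (ρ x - 1) ^ 2 + (ρ x - 1) by ring]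
    rw [intervalIntegral.integral_add isq ism,
      intervalIntegral.integral_sub i3 (continuous_const.intervalIntegrable _ _), hI] at h1
    rw [hA]
    simpa using h1
  have hBQ : B ≤ ∫ x in (0 : ℝ)..1, (ρ x - 1) ^ 2 := by
    rw [hB]
    refine intervalIntegral.integral_mono_on zero_le_one i2 isq (fun x _ => ?_)
    rw [hψ]
    exact log_sq _ (hρ0 x)
  -- integral of `W`
  have iW : IntervalIntegrable W volume 0 1 := hWc.intervalIntegrable _ _
  have hIWlo : 1 / 3 * L - 1 / (6 * L) * A - 1 / (6 * L) * B ≤ ∫ x in (0 : ℝ)..1, W x := by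
    have h1 := intervalIntegral.integral_mono_on (μ := volume) zero_le_one
      (((i3.const_mul (1 / 3 * L)).sub (i1.const_mul (1 / (6 * L)))).sub
        (i2.const_mul (1 / (6 * L)))) iW (fun x _ => hWlo x)
    rw [intervalIntegral.integral_sub ((i3.const_mul (1 / 3 * L)).sub (i1.const_mul (1 / (6 * L))))
      (i2.const_mul (1 / (6 * L))), intervalIntegral.integral_sub (i3.const_mul (1 / 3 * L))
      (i1.const_mul (1 / (6 * L))), intervalIntegral.integral_const_mul,
      intervalIntegral.integral_const_mul, intervalIntegral.integral_const_mul, hI, ← hA, ← hB] at h1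
    linarith
  have hIWhi : ∫ x in (0 : ℝ)..1, W x ≤ 1 / 3 * L := by
    have h1 := intervalIntegral.integral_mono_on (μ := volume) zero_le_one iW
      ((i3.const_mul (1 / 3 * L)).sub (i1.const_mul (1 / (6 * L)))) (fun x _ => hWhi x)
    rw [intervalIntegral.integral_sub (i3.const_mul (1 / 3 * L))
      (i1.const_mul (1 / (6 * L))), intervalIntegral.integral_const_mul,
      intervalIntegral.integral_const_mul, hI, ← hA] at h1
    have h2 : 0 ≤ 1 / (6 * L) * A := by positivity
    linarith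
  -- main estimate
  obtain ⟨l, hl⟩ : ∃ l, l = T / (2 * (1 / 3 * L) + T) := ⟨_, rfl⟩
  have ir : IntervalIntegrable (fun x => |r x|) volume 0 1 := hrc.abs.intervalIntegrable _ _
  have hmain : (∫ x in (0 : ℝ)..1, W x) + 2 * l * T - l ^ 2 * (2 * (∫ x in (0 : ℝ)..1, W x) + T) ≤
      ∫ x in (0 : ℝ)..1, √(W x ^ 2 + r x ^ 2) := by
    have i4 : IntervalIntegrable (fun x => √(W x ^ 2 + r x ^ 2)) volume 0 1 :=
      ((hWc.pow 2).add (hrc.pow 2)).sqrt.intervalIntegrable _ _
    have h1 := intervalIntegral.integral_mono_on (μ := volume) zero_le_one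
      ((iW.add (ir.const_mul (2 * l))).sub (((iW.const_mul 2).add ir).const_mul (l ^ 2))) i4
      (fun x _ => ptw (W x) (r x) l (hW0 x))
    rw [intervalIntegral.integral_sub (iW.add (ir.const_mul (2 * l)))
      (((iW.const_mul 2).add ir).const_mul (l ^ 2)), intervalIntegral.integral_add iW
      (ir.const_mul (2 * l)), intervalIntegral.integral_const_mul,
      intervalIntegral.integral_const_mul, intervalIntegral.integral_add (iW.const_mul 2) ir,
      intervalIntegral.integral_const_mul, ← hT] at h1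
    exact h1
  refine le_trans ?_ hmain
  have hL0 : 0 < L := by linarith
  have hD : 0 < 2 * (1 / 3 * L) + T := by positivity
  have h5 : l ^ 2 * (2 * (∫ x in (0 : ℝ)..1, W x) + T) ≤ l ^ 2 * (2 * (1 / 3 * L) + T) :=
    mul_le_mul_of_nonneg_left (by linarith) (sq_nonneg l)
  have h6 : 2 * l * T - l ^ 2 * (2 * (1 / 3 * L) + T) = T ^ 2 / (2 * (1 / 3 * L) + T) := by
    rw [hl]
    field_simp
    ring
  suffices h7 : 1 / (6 * L) * (A + B) ≤ T ^ 2 / (2 * (1 / 3 * L) + T) by linarith
  rw [one_div_mul_eq_div, div_le_div_iff₀ (by positivity) hD]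
  rcases le_total T (2 / 3 * L) with h | h
  · have h8 : A + B ≤ 2 * T ^ 2 := by linarith
    nlinarith [mul_le_mul h8 (show 2 * (1 / 3 * L) + T ≤ 4 / 3 * L by linarith) hD.le
      (by positivity)]
  · have h8 : A + B ≤ 3 * T := by linarith
    have h9 : 2 * (1 / 3 * L) + T ≤ 2 * T := by linarith
    nlinarith [mul_le_mul h8 h9 hD.le (by positivity), mul_nonneg (sq_nonneg T)
      (show 0 ≤ L - 1 by linarith)]

end Pool.Agent.H696.Cube
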