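import Pool.Agent.H194.Cube.Defs

/-!
# Product with `(0,1)^2` minus a corner square
-/

set_option autoImplicit false

namespace Pool.Agent.H196.Cube

open Pool.Agent.H194.Cube MeasureTheory Set Filter Topology

/-! ### The two-dimensional region -/

/-- `(0,1)^2` minus the corner square -/
def Bc (r : ℝ) : Set (ℝ × ℝ) := (Ioo 0 1 ×ˢ Ioo 0 1) \ (Ioc 0 r ×ˢ Ioc 0 r)

theorem meas_Bc (r : ℝ) : MeasurableSet (Bc r) :=
  (measurableSet_Ioo.prod measurableSet_Ioo).diff (measurableSet_Ioc.prod measurableSet_Ioc)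

theorem sub_Bc {r : ℝ} (hr : r < 1) :
    Ioc (0 : ℝ) r ×ˢ Ioc (0 : ℝ) r ⊆ Ioo (0 : ℝ) 1 ×ˢ Ioo (0 : ℝ) 1 := by
  rintro ⟨a, b⟩ ⟨ha, hb⟩
  exact ⟨⟨ha.1, ha.2.trans_lt hr⟩, ⟨hb.1, hb.2.trans_lt hr⟩⟩

theorem vol_Bc {r : ℝ} (h0 : 0 < r) (h1 : r < 1) :
    volume (Bc r) = ENNReal.ofReal (1 - r ^ 2) := by
  unfold Bc
  have hv1 : volume (Ioo (0 : ℝ) 1 ×ˢ Ioo (0 : ℝ) 1) = ENNReal.ofReal 1 := by
    rw [Measure.volume_eq_prod, Measure.prod_prod, Real.volume_Ioo]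
    simp
  have hv2 : volume (Ioc (0 : ℝ) r ×ˢ Ioc (0 : ℝ) r) = ENNReal.ofReal (r ^ 2) := by
    rw [Measure.volume_eq_prod, Measure.prod_prod, Real.volume_Ioc, sub_zero,
      ← ENNReal.ofReal_mul h0.le, sq]
  rw [measure_sdiff (sub_Bc h1) (measurableSet_Ioc.prod measurableSet_Ioc).nullMeasurableSet
    (by rw [hv2]; exact ENNReal.ofReal_ne_top), hv1, hv2,
    ← ENNReal.ofReal_sub _ (by positivity)]

theorem int_Bc {r : ℝ} (h0 : 0 < r) (h1 : r < 1) (f g : ℝ × ℝ → ℝ)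
    (hfg : ∀ s t, HasDerivAt (fun t => f (s, t)) (g (s, t)) t) (hg : Continuous g)
    (hf : Continuous f) (hf0 : ∀ s, f (s, 0) = 0) (hf1 : ∀ s, f (s, 1) = 0)
    (hfb : ∀ p, |f p| ≤ 1) : ∫ p in Bc r, g p ≤ r := by
  have hint : ∀ a b : ℝ, IntegrableOn g (Icc a b ×ˢ Icc a b) volume := fun a b =>
    hg.continuousOn.integrableOn_compact (isCompact_Icc.prod isCompact_Icc)
  have hi1 : IntegrableOn g (Ioo 0 1 ×ˢ Ioo 0 1) volume :=
    (hint 0 1).mono_set (prod_mono Ioo_subset_Icc_self Ioo_subset_Icc_self)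
  have hi2 : IntegrableOn g (Ioc 0 r ×ˢ Ioc 0 r) volume :=
    (hint 0 r).mono_set (prod_mono Ioc_subset_Icc_self Ioc_subset_Icc_self)
  have hftc : ∀ s a : ℝ, 0 ≤ a → ∫ t in Ioc 0 a, g (s, t) = f (s, a) := by
    intro s a ha
    rw [← intervalIntegral.integral_of_le ha,
      intervalIntegral.integral_eq_sub_of_hasDerivAt (f := fun t => f (s, t))
        (fun t _ => hfg s t)
        ((hg.comp (continuous_const.prodMk continuous_id)).intervalIntegrable _ _)]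
    simp only [hf0, sub_zero]
  have hI1 : ∫ p in Ioo (0 : ℝ) 1 ×ˢ Ioo (0 : ℝ) 1, g p = 0 := by
    rw [Measure.volume_eq_prod] at hi1 ⊢
    rw [setIntegral_prod g hi1]
    have : ∀ s : ℝ, ∫ t in Ioo (0 : ℝ) 1, g (s, t) = 0 := by
      intro s
      rw [← integral_Ioc_eq_integral_Ioo, hftc s 1 zero_le_one, hf1]
    simp only [this, integral_zero]
  have hI2 : -r ≤ ∫ p in Ioc (0 : ℝ) r ×ˢ Ioc (0 : ℝ) r, g p := by
    rw [Measure.volume_eq_prod] at hi2 ⊢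
    rw [setIntegral_prod g hi2]
    simp only [hftc _ r h0.le]
    have h2 : ∫ s in Ioc (0 : ℝ) r, (-1 : ℝ) = -r := by
      rw [setIntegral_const, Measure.real, Real.volume_Ioc, sub_zero,
        ENNReal.toReal_ofReal h0.le, smul_eq_mul, mul_neg, mul_one]
    rw [← h2]
    refine setIntegral_mono_on ?_ ?_ measurableSet_Ioc fun s _ => (abs_le.1 (hfb (s, r))).1
    · exact (continuous_const.integrableOn_Icc (a := 0) (b := r)).mono_set Ioc_subset_Icc_self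
    · exact ((hf.comp (continuous_id.prodMk continuous_const)).integrableOn_Icc
        (a := 0) (b := r)).mono_set Ioc_subset_Icc_self
  unfold Bc
  rw [setIntegral_sdiff (measurableSet_Ioc.prod measurableSet_Ioc) hi1 (sub_Bc h1), hI1]
  linarith

theorem int_Bc' {r : ℝ} (h0 : 0 < r) (h1 : r < 1) (f g : ℝ × ℝ → ℝ)
    (hfg : ∀ s t, HasDerivAt (fun s => f (s, t)) (g (s, t)) s) (hg : Continuous g)
    (hf : Continuous f) (hf0 : ∀ s, f (0, s) = 0) (hf1 : ∀ s, f (1, s) = 0)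
    (hfb : ∀ p, |f p| ≤ 1) : ∫ p in Bc r, g p ≤ r := by
  have hsw : MeasurePreserving (Prod.swap : ℝ × ℝ → ℝ × ℝ) volume volume :=
    Measure.measurePreserving_swap
  have hpre : (Prod.swap : ℝ × ℝ → ℝ × ℝ) ⁻¹' (Bc r) = Bc r := by
    ext ⟨a, b⟩
    simp only [Bc, mem_preimage, Prod.swap_prod_mk, Set.mem_sdiff, mem_prod]
    tauto
  have h2 := hsw.setIntegral_preimage_emb (MeasurableEquiv.prodComm.measurableEmbedding) g (Bc r)
  rw [hpre] at h2
  rw [← h2]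
  exact int_Bc h0 h1 (fun p => f p.swap) (fun p => g p.swap) (fun s t => hfg t s)
    (hg.comp continuous_swap) (hf.comp continuous_swap) hf0 hf1 (fun p => hfb _)

/-! ### The product structure -/

/-- the point with coordinates `s, t, x` -/
def Ps {d : ℕ} (p : (ℝ × ℝ) × (Fin d → ℝ)) : Fin (d + 2) → ℝ :=
  Fin.cons p.1.1 (Fin.cons p.1.2 p.2 : Fin (d + 1) → ℝ)

@[simp] theorem Ps_zero {d : ℕ} (p : (ℝ × ℝ) × (Fin d → ℝ)) : Ps p 0 = p.1.1 := rfl
@[simp] theorem Ps_one {d : ℕ} (p : (ℝ × ℝ) × (Fin d → ℝ)) : Ps p 1 = p.1.2 := rfl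
@[simp] theorem Ps_ss {d : ℕ} (p : (ℝ × ℝ) × (Fin d → ℝ)) (i : Fin d) :
    Ps p i.succ.succ = p.2 i := rfl

/-- as an equivalence -/
noncomputable def Pe (d : ℕ) : ((ℝ × ℝ) × (Fin d → ℝ)) ≃ᵐ (Fin (d + 2) → ℝ) :=
  (MeasurableEquiv.prodAssoc.trans (MeasurableEquiv.prodCongr (MeasurableEquiv.refl ℝ)
    (MeasurableEquiv.piFinSuccAbove (fun _ : Fin (d + 1) => ℝ) 0).symm)).trans
    (MeasurableEquiv.piFinSuccAbove (fun _ : Fin (d + 2) => ℝ) 0).symm

theorem Pe_eq {d : ℕ} (p : (ℝ × ℝ) × (Fin d → ℝ)) : Pe d p = Ps p := by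
  funext i
  refine Fin.cases ?_ (fun i => ?_) i
  · simp [Pe, Ps, MeasurableEquiv.piFinSuccAbove, Fin.insertNthEquiv, MeasurableEquiv.prodAssoc,
      MeasurableEquiv.prodCongr]
  · refine Fin.cases ?_ (fun i => ?_) i
    · simp [Pe, Ps, MeasurableEquiv.piFinSuccAbove, Fin.insertNthEquiv, MeasurableEquiv.prodAssoc,
        MeasurableEquiv.prodCongr]
    · simp [Pe, Ps, MeasurableEquiv.piFinSuccAbove, Fin.insertNthEquiv, MeasurableEquiv.prodAssoc,
        MeasurableEquiv.prodCongr]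

theorem Pe_fun (d : ℕ) : (Pe d : (ℝ × ℝ) × (Fin d → ℝ) → (Fin (d + 2) → ℝ)) = Ps :=
  funext Pe_eq

theorem mp_Ps (d : ℕ) : MeasurePreserving (Ps (d := d)) volume volume := by
  have h1 := (volume_preserving_piFinSuccAbove (fun _ : Fin (d + 2) => ℝ) 0).symm
  have h2 := (volume_preserving_piFinSuccAbove (fun _ : Fin (d + 1) => ℝ) 0).symm
  have h3 : MeasurePreserving (MeasurableEquiv.prodAssoc (α := ℝ) (β := ℝ) (γ := Fin d → ℝ))
      volume volume := volume_preserving_prodAssoc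
  have h4 := (MeasurePreserving.id (volume : Measure ℝ)).prod h2
  rw [← Pe_fun]
  exact h1.comp (h4.comp h3)

theorem me_Ps (d : ℕ) : MeasurableEmbedding (Ps (d := d)) := by
  rw [← Pe_fun]
  exact (Pe d).measurableEmbedding

theorem cont_Ps (d : ℕ) : Continuous (Ps (d := d)) := by
  unfold Ps
  exact Continuous.finCons (continuous_fst.comp continuous_fst)
    (Continuous.finCons (continuous_snd.comp continuous_fst) continuous_snd)

/-- the product set -/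
def Ep {d : ℕ} (r : ℝ) (E : Set (Fin d → ℝ)) : Set (Fin (d + 2) → ℝ) :=
  {z | (z 0, z 1) ∈ Bc r ∧ (fun i : Fin d => z i.succ.succ) ∈ E}

theorem pre_Ep {d : ℕ} (r : ℝ) (E : Set (Fin d → ℝ)) :
    Ps (d := d) ⁻¹' (Ep r E) = Bc r ×ˢ E := by
  ext ⟨⟨s, t⟩, x⟩
  rfl

theorem meas_Ep {d : ℕ} (r : ℝ) {E : Set (Fin d → ℝ)} (hE : MeasurableSet E) :
    MeasurableSet (Ep r E) := by
  refine MeasurableSet.inter ?_ ?_
  · exact ((measurable_pi_apply 0).prodMk (measurable_pi_apply 1)) (meas_Bc r)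
  · exact (measurable_pi_lambda _ fun i : Fin d =>
      (measurable_pi_apply (i.succ.succ : Fin (d + 2)))) hE

theorem vol_Ep {d : ℕ} {r : ℝ} (h0 : 0 < r) (h1 : r < 1) {E : Set (Fin d → ℝ)}
    (hE : MeasurableSet E) {t : ℝ} (ht : 0 ≤ t) (hv : volume E = ENNReal.ofReal t) :
    volume (Ep r E) = ENNReal.ofReal (t * (1 - r ^ 2)) := by
  rw [← (mp_Ps d).measure_preimage (meas_Ep r hE).nullMeasurableSet, pre_Ep,
    Measure.volume_eq_prod, Measure.prod_prod, vol_Bc h0 h1, hv, ENNReal.ofReal_mul ht, mul_comm]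

theorem int_Ep {d : ℕ} (r : ℝ) (E : Set (Fin d → ℝ)) (G : (Fin (d + 2) → ℝ) → ℝ) :
    ∫ z in Ep r E, G z = ∫ p in Bc r ×ˢ E, G (Ps p) := by
  rw [← (mp_Ps d).setIntegral_preimage_emb (me_Ps d) G (Ep r E), pre_Ep]

/-- admissible fields -/
structure Adm (n : ℕ) (φ : (Fin n → ℝ) → (Fin n → ℝ)) : Prop where
  cd : ContDiff ℝ 1 φ
  cs : HasCompactSupport φ
  ts : tsupport φ ⊆ {x : Fin n → ℝ | ∀ i, x i ∈ Set.Ioo (0:ℝ) 1}
  le : ∀ x, ∑ i, (φ x i) ^ 2 ≤ 1

theorem Adm.zero {n : ℕ} {φ : (Fin n → ℝ) → (Fin n → ℝ)} (h : Adm n φ) (x : Fin n → ℝ)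
    (i : Fin n) (hx : x i = 0 ∨ x i = 1) : φ x = 0 := by
  refine image_eq_zero_of_notMem_tsupport fun hm => ?_
  have := h.ts hm i
  rcases hx with hx | hx
  · rw [hx] at this; exact lt_irrefl _ this.1
  · rw [hx] at this; exact lt_irrefl _ this.2

theorem Adm.abs {n : ℕ} {φ : (Fin n → ℝ) → (Fin n → ℝ)} (h : Adm n φ) (x : Fin n → ℝ)
    (i : Fin n) : |φ x i| ≤ 1 := by
  have h1 := h.le x
  have h2 := Finset.single_le_sum (f := fun i => φ x i ^ 2) (fun i _ => sq_nonneg _)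
    (Finset.mem_univ i)
  have h3 : φ x i ^ 2 ≤ 1 := h2.trans h1
  exact abs_le_one_iff_mul_self_le_one.2 (by rw [← sq]; exact h3)

theorem Adm.cont {n : ℕ} {φ : (Fin n → ℝ) → (Fin n → ℝ)} (h : Adm n φ) (v : Fin n → ℝ)
    (i : Fin n) : Continuous fun x => fderiv ℝ φ x v i :=
  (continuous_apply i).comp ((h.cd.continuous_fderiv (by norm_num)).clm_apply continuous_const)

theorem Adm.int {n : ℕ} {φ : (Fin n → ℝ) → (Fin n → ℝ)} (h : Adm n φ) (v : Fin n → ℝ)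
    (i : Fin n) : Integrable fun x => fderiv ℝ φ x v i := by
  refine (h.cont v i).integrable_of_hasCompactSupport ?_
  refine (h.cs.fderiv (𝕜 := ℝ)).mono ?_
  intro x hx
  rw [Function.mem_support] at hx ⊢
  intro h0
  exact hx (by rw [h0]; rfl)

theorem Adm.hasDerivAt {n : ℕ} {φ : (Fin n → ℝ) → (Fin n → ℝ)} (h : Adm n φ)
    (γ : ℝ → (Fin n → ℝ)) (v : Fin n → ℝ) (i : Fin n) (t : ℝ) (hγ : HasDerivAt γ v t) :
    HasDerivAt (fun t => φ (γ t) i) (fderiv ℝ φ (γ t) v i) t := by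
  have h1 := ((h.cd.differentiable (by norm_num)) (γ t)).hasFDerivAt
  exact hasDerivAt_pi.1 (h1.comp_hasDerivAt t hγ) i

theorem le_Peri {n : ℕ} {φ : (Fin n → ℝ) → (Fin n → ℝ)} (h : Adm n φ) (E : Set (Fin n → ℝ)) :
    ENNReal.ofReal (∫ x in E, ∑ i, fderiv ℝ φ x (Pi.single i 1) i) ≤ Peri n E := by
  unfold Peri
  exact le_iSup_of_le φ (le_iSup_of_le h.cd (le_iSup_of_le h.cs (le_iSup_of_le h.ts
    (le_iSup_of_le h.le le_rfl))))

/-! ### Slices -/

/-- the linear part of `x ↦ Ps (y, x)` -/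
noncomputable def Ll (d : ℕ) : (Fin d → ℝ) →L[ℝ] (Fin (d + 2) → ℝ) :=
  ContinuousLinearMap.pi (Fin.cases 0 (Fin.cases 0 fun k => ContinuousLinearMap.proj k))

/-- the last `d` coordinates -/
noncomputable def Rr (d : ℕ) : (Fin (d + 2) → ℝ) →L[ℝ] (Fin d → ℝ) :=
  ContinuousLinearMap.pi fun i => ContinuousLinearMap.proj i.succ.succ

theorem Ll_zero {d : ℕ} (x : Fin d → ℝ) : Ll d x 0 = 0 := rfl
theorem Ll_one {d : ℕ} (x : Fin d → ℝ) : Ll d x 1 = 0 := rfl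
theorem Ll_ss {d : ℕ} (x : Fin d → ℝ) (i : Fin d) : Ll d x i.succ.succ = x i := rfl

theorem Ll_single {d : ℕ} (j : Fin d) :
    Ll d (Pi.single j 1) = Pi.single j.succ.succ 1 := by
  funext k
  refine Fin.cases ?_ (fun k => ?_) k
  · rw [Ll_zero]; simp
  · refine Fin.cases ?_ (fun k => ?_) k
    · show Ll d (Pi.single j 1) 1 = _
      rw [Ll_one, Pi.single_apply, if_neg]
      intro h
      have := congrArg Fin.val h
      simp at this
    · rw [Ll_ss]; simp [Pi.single_apply, Fin.succ_inj]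

theorem Ps_affine {d : ℕ} (y : ℝ × ℝ) (x : Fin d → ℝ) : Ps (y, x) = Ps (y, 0) + Ll d x := by
  funext k
  refine Fin.cases ?_ (fun k => ?_) k
  · rw [Pi.add_apply, Ll_zero]; simp
  · refine Fin.cases ?_ (fun k => ?_) k
    · show Ps (y, x) 1 = (Ps (y, 0) + Ll d x : Fin (d + 2) → ℝ) 1
      rw [Pi.add_apply, Ll_one]; simp
    · rw [Pi.add_apply, Ll_ss]; simp

theorem fd_Ps {d : ℕ} (y : ℝ × ℝ) (x : Fin d → ℝ) :
    HasFDerivAt (fun x : Fin d → ℝ => Ps (y, x)) (Ll d) x := by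
  have : (fun x : Fin d → ℝ => Ps (y, x)) = fun x => Ps (y, 0) + Ll d x :=
    funext fun x => Ps_affine y x
  rw [this]
  exact (Ll d).hasFDerivAt.const_add _

theorem cd_Ps {d : ℕ} (y : ℝ × ℝ) : ContDiff ℝ 1 (fun x : Fin d → ℝ => Ps (y, x)) := by
  have : (fun x : Fin d → ℝ => Ps (y, x)) = fun x => Ps (y, 0) + Ll d x :=
    funext fun x => Ps_affine y x
  rw [this]
  exact contDiff_const.add (Ll d).contDiff

theorem fderiv_slice {d : ℕ} {φ : (Fin (d + 2) → ℝ) → (Fin (d + 2) → ℝ)} (h : Adm (d + 2) φ)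
    (y : ℝ × ℝ) (x : Fin d → ℝ) (j : Fin d) :
    fderiv ℝ (fun x : Fin d → ℝ => Rr d (φ (Ps (y, x)))) x (Pi.single j 1) j =
      fderiv ℝ φ (Ps (y, x)) (Pi.single j.succ.succ 1) j.succ.succ := by
  have h1 := ((h.cd.differentiable (by norm_num)) (Ps (y, x))).hasFDerivAt
  have h2 := h1.comp x (fd_Ps y x)
  have h3 := (Rr d).hasFDerivAt.comp x h2
  have h4 : fderiv ℝ (fun x : Fin d → ℝ => Rr d (φ (Ps (y, x)))) x = _ := h3.fderiv
  rw [h4, ContinuousLinearMap.comp_apply, ContinuousLinearMap.comp_apply, Ll_single]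
  rfl

theorem adm_slice {d : ℕ} {φ : (Fin (d + 2) → ℝ) → (Fin (d + 2) → ℝ)} (h : Adm (d + 2) φ)
    (y : ℝ × ℝ) : Adm d (fun x : Fin d → ℝ => Rr d (φ (Ps (y, x)))) := by
  have hsub : Function.support (fun x : Fin d → ℝ => Rr d (φ (Ps (y, x)))) ⊆
      (fun x : Fin d → ℝ => Ps (y, x)) ⁻¹' (tsupport φ) := by
    intro x hx
    rw [Function.mem_support] at hx
    by_contra hn
    apply hx
    have h0 : φ (Ps (y, x)) = 0 := image_eq_zero_of_notMem_tsupport hn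
    rw [h0, map_zero]
  have hcl : IsClosed ((fun x : Fin d → ℝ => Ps (y, x)) ⁻¹' (tsupport φ)) :=
    (isClosed_tsupport φ).preimage (cd_Ps y).continuous
  have hts : tsupport (fun x : Fin d → ℝ => Rr d (φ (Ps (y, x)))) ⊆
      (fun x : Fin d → ℝ => Ps (y, x)) ⁻¹' (tsupport φ) := closure_minimal hsub hcl
  have hts' : tsupport (fun x : Fin d → ℝ => Rr d (φ (Ps (y, x)))) ⊆
      {x : Fin d → ℝ | ∀ i, x i ∈ Set.Ioo (0:ℝ) 1} := by
    intro x hx i
    have h1 : Ps (y, x) i.succ.succ ∈ Set.Ioo (0:ℝ) 1 := h.ts (hts hx) i.succ.succ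
    rwa [Ps_ss] at h1
  refine ⟨(Rr d).contDiff.comp (h.cd.comp (cd_Ps y)), ?_, hts', fun x => ?_⟩
  · refine HasCompactSupport.of_support_subset_isCompact (K := Icc (0 : Fin d → ℝ) 1)
      isCompact_Icc ?_
    intro x hx
    have := hts' (subset_tsupport _ hx)
    exact ⟨fun i => (this i).1.le, fun i => (this i).2.le⟩
  · have h1 := h.le (Ps (y, x))
    rw [Fin.sum_univ_succ, Fin.sum_univ_succ] at h1
    have h2 : 0 ≤ φ (Ps (y, x)) 0 ^ 2 := sq_nonneg _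
    have h3 : 0 ≤ φ (Ps (y, x)) (Fin.succ 0) ^ 2 := sq_nonneg _
    show ∑ i : Fin d, φ (Ps (y, x)) i.succ.succ ^ 2 ≤ 1
    linarith

theorem cd_line0 {d : ℕ} (x : Fin d → ℝ) (t s : ℝ) :
    HasDerivAt (fun s => Ps ((s, t), x)) (Pi.single 0 1 : Fin (d + 2) → ℝ) s := by
  rw [hasDerivAt_pi]
  intro i
  refine Fin.cases ?_ (fun i => ?_) i
  · simp only [Ps_zero, Pi.single_eq_same]
    exact hasDerivAt_id' s
  · have h0 : (Pi.single 0 1 : Fin (d + 2) → ℝ) i.succ = 0 := by simp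
    rw [h0]
    exact hasDerivAt_const s ((Fin.cons t x : Fin (d + 1) → ℝ) i)

theorem cd_line1 {d : ℕ} (x : Fin d → ℝ) (s t : ℝ) :
    HasDerivAt (fun t => Ps ((s, t), x)) (Pi.single 1 1 : Fin (d + 2) → ℝ) t := by
  rw [hasDerivAt_pi]
  intro i
  refine Fin.cases ?_ (fun i => ?_) i
  · have h0 : (Pi.single 1 1 : Fin (d + 2) → ℝ) 0 = 0 := by simp
    rw [h0]
    exact hasDerivAt_const t _
  · refine Fin.cases ?_ (fun i => ?_) i
    · show HasDerivAt (fun t => Ps ((s, t), x) 1) ((Pi.single 1 1 : Fin (d + 2) → ℝ) 1) t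
      simp only [Ps_one, Pi.single_eq_same]
      exact hasDerivAt_id' t
    · have h0 : (Pi.single 1 1 : Fin (d + 2) → ℝ) i.succ.succ = 0 := by
        simp [Fin.ext_iff]
      rw [h0]
      exact hasDerivAt_const t _

/-! ### The estimate -/

theorem part_x {d : ℕ} {φ : (Fin (d + 2) → ℝ) → (Fin (d + 2) → ℝ)} (h : Adm (d + 2) φ)
    {r : ℝ} (h0 : 0 < r) (h1 : r < 1) (E : Set (Fin d → ℝ)) (hfin : Peri d E ≠ ⊤) :
    ∫ p in Bc r ×ˢ E, ∑ j : Fin d, fderiv ℝ φ (Ps p) (Pi.single j.succ.succ 1) j.succ.succ ≤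
      (Peri d E).toReal := by
  have hint : Integrable (fun p : (ℝ × ℝ) × (Fin d → ℝ) =>
      ∑ j : Fin d, fderiv ℝ φ (Ps p) (Pi.single j.succ.succ 1) j.succ.succ) := by
    refine integrable_finsetSum _ fun j _ => ?_
    exact ((mp_Ps d).integrable_comp_emb (me_Ps d)).2 (h.int _ _)
  have hio : Integrable (fun p : (ℝ × ℝ) × (Fin d → ℝ) =>
      ∑ j : Fin d, fderiv ℝ φ (Ps p) (Pi.single j.succ.succ 1) j.succ.succ)
      ((volume.restrict (Bc r)).prod (volume.restrict E)) := by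
    rw [Measure.prod_restrict, ← Measure.volume_eq_prod]
    exact hint.restrict
  rw [Measure.volume_eq_prod, ← Measure.prod_restrict, integral_prod _ hio]
  have hb : ∀ y : ℝ × ℝ, ∫ x in E, ∑ j : Fin d,
      fderiv ℝ φ (Ps (y, x)) (Pi.single j.succ.succ 1) j.succ.succ ≤ (Peri d E).toReal := by
    intro y
    have h2 := le_Peri (adm_slice h y) E
    simp only [fderiv_slice h y] at h2
    exact (ENNReal.ofReal_le_iff_le_toReal hfin).1 h2
  have hv : volume (Bc r) ≠ ⊤ := by rw [vol_Bc h0 h1]; exact ENNReal.ofReal_ne_top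
  have : IsFiniteMeasure (volume.restrict (Bc r)) := ⟨by
    rw [Measure.restrict_apply_univ]; exact lt_top_iff_ne_top.2 hv⟩
  calc ∫ y in Bc r, ∫ x in E, ∑ j : Fin d,
      fderiv ℝ φ (Ps (y, x)) (Pi.single j.succ.succ 1) j.succ.succ
      ≤ ∫ y in Bc r, (Peri d E).toReal :=
        integral_mono hio.integral_prod_left (integrable_const _) hb
    _ = (1 - r ^ 2) * (Peri d E).toReal := by
        rw [setIntegral_const, Measure.real, vol_Bc h0 h1, ENNReal.toReal_ofReal (by nlinarith),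
          smul_eq_mul]
    _ ≤ 1 * (Peri d E).toReal :=
        mul_le_mul_of_nonneg_right (by nlinarith) ENNReal.toReal_nonneg
    _ = _ := one_mul _

theorem part_y {d : ℕ} {r : ℝ} (h0 : 0 < r) (E : Set (Fin d → ℝ)) {t : ℝ} (ht : 0 ≤ t)
    (ht1 : t ≤ 1) (hv : volume E = ENNReal.ofReal t) (G : (ℝ × ℝ) × (Fin d → ℝ) → ℝ)
    (hG : Integrable G) (hb : ∀ x, ∫ y in Bc r, G (y, x) ≤ r) :
    ∫ p in Bc r ×ˢ E, G p ≤ r := by
  have hio : Integrable G ((volume.restrict (Bc r)).prod (volume.restrict E)) := by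
    rw [Measure.prod_restrict, ← Measure.volume_eq_prod]
    exact hG.restrict
  rw [Measure.volume_eq_prod, ← Measure.prod_restrict, integral_prod_symm _ hio]
  have : IsFiniteMeasure (volume.restrict E) := ⟨by
    rw [Measure.restrict_apply_univ, hv]; exact ENNReal.ofReal_lt_top⟩
  calc ∫ x in E, ∫ y in Bc r, G (y, x)
      ≤ ∫ x in E, r := integral_mono hio.integral_prod_right (integrable_const _) hb
    _ = t * r := by
        rw [setIntegral_const, Measure.real, hv, ENNReal.toReal_ofReal ht, smul_eq_mul]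
    _ ≤ 1 * r := mul_le_mul_of_nonneg_right ht1 h0.le
    _ = r := one_mul _

theorem peri_Ep {d : ℕ} {r : ℝ} (h0 : 0 < r) (h1 : r < 1) (E : Set (Fin d → ℝ)) {t : ℝ}
    (ht : 0 ≤ t) (ht1 : t ≤ 1) (hv : volume E = ENNReal.ofReal t) :
    Peri (d + 2) (Ep r E) ≤ Peri d E + ENNReal.ofReal (2 * r) := by
  by_cases hfin : Peri d E = ⊤
  · rw [hfin, top_add]; exact le_top
  conv_lhs => unfold Peri
  refine iSup_le fun φ => iSup_le fun a1 => iSup_le fun a2 => iSup_le fun a3 => iSup_le fun a4 => ?_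
  have h : Adm (d + 2) φ := ⟨a1, a2, a3, a4⟩
  have hI : ∀ (v : Fin (d + 2) → ℝ) (i : Fin (d + 2)),
      Integrable (fun p : (ℝ × ℝ) × (Fin d → ℝ) => fderiv ℝ φ (Ps p) v i) := fun v i =>
    ((mp_Ps d).integrable_comp_emb (me_Ps d)).2 (h.int v i)
  have hp0 : ∫ p in Bc r ×ˢ E, fderiv ℝ φ (Ps p) (Pi.single 0 1) 0 ≤ r := by
    refine part_y h0 E ht ht1 hv _ (hI _ _) fun x => ?_
    refine int_Bc' h0 h1 (fun y => φ (Ps (y, x)) 0)
      (fun y => fderiv ℝ φ (Ps (y, x)) (Pi.single 0 1) 0)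
      (fun s t => h.hasDerivAt _ _ 0 s (cd_line0 x t s))
      ((h.cont _ _).comp ((cont_Ps d).comp (continuous_id.prodMk continuous_const)))
      ((continuous_apply 0).comp (h.cd.continuous.comp ((cont_Ps d).comp
        (continuous_id.prodMk continuous_const))))
      (fun s => ?_) (fun s => ?_) (fun p => h.abs _ _)
    · rw [h.zero (Ps ((0, s), x)) 0 (Or.inl rfl)]; rfl
    · rw [h.zero (Ps ((1, s), x)) 0 (Or.inr rfl)]; rfl
  have hp1 : ∫ p in Bc r ×ˢ E, fderiv ℝ φ (Ps p) (Pi.single 1 1) 1 ≤ r := by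
    refine part_y h0 E ht ht1 hv _ (hI _ _) fun x => ?_
    refine int_Bc h0 h1 (fun y => φ (Ps (y, x)) 1)
      (fun y => fderiv ℝ φ (Ps (y, x)) (Pi.single 1 1) 1)
      (fun s t => h.hasDerivAt _ _ 1 t (cd_line1 x s t))
      ((h.cont _ _).comp ((cont_Ps d).comp (continuous_id.prodMk continuous_const)))
      ((continuous_apply 1).comp (h.cd.continuous.comp ((cont_Ps d).comp
        (continuous_id.prodMk continuous_const))))
      (fun s => ?_) (fun s => ?_) (fun p => h.abs _ _)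
    · rw [h.zero (Ps ((s, 0), x)) 1 (Or.inl rfl)]; rfl
    · rw [h.zero (Ps ((s, 1), x)) 1 (Or.inr rfl)]; rfl
  have hpx := part_x h h0 h1 E hfin
  have hsum : ∫ z in Ep r E, ∑ i, fderiv ℝ φ z (Pi.single i 1) i =
      (∫ p in Bc r ×ˢ E, fderiv ℝ φ (Ps p) (Pi.single 0 1) 0) +
      ((∫ p in Bc r ×ˢ E, fderiv ℝ φ (Ps p) (Pi.single 1 1) 1) +
      ∫ p in Bc r ×ˢ E, ∑ j : Fin d,
        fderiv ℝ φ (Ps p) (Pi.single j.succ.succ 1) j.succ.succ) := by
    rw [int_Ep, ← integral_add (hI _ _).restrict (integrable_finsetSum _ fun j _ =>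
      (hI _ _).restrict), ← integral_add (hI _ _).restrict ?_]
    · refine integral_congr_ae (Eventually.of_forall fun p => ?_)
      simp only [Fin.sum_univ_succ]
      rfl
    · exact (hI _ _).restrict.add (integrable_finsetSum _ fun j _ => (hI _ _).restrict)
  rw [hsum]
  calc ENNReal.ofReal _ ≤ ENNReal.ofReal ((Peri d E).toReal + 2 * r) :=
        ENNReal.ofReal_le_ofReal (by linarith)
    _ = Peri d E + ENNReal.ofReal (2 * r) := by
        rw [ENNReal.ofReal_add ENNReal.toReal_nonneg (by linarith), ENNReal.ofReal_toReal hfin]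

theorem sub_Ep {d : ℕ} (r : ℝ) {E : Set (Fin d → ℝ)}
    (hE : E ⊆ {x : Fin d → ℝ | ∀ i, x i ∈ Set.Ioo (0:ℝ) 1}) :
    Ep r E ⊆ {x : Fin (d + 2) → ℝ | ∀ i, x i ∈ Set.Ioo (0:ℝ) 1} := by
  rintro z ⟨⟨⟨hz0, hz1⟩, -⟩, hz2⟩ i
  refine Fin.cases hz0 (fun i => ?_) i
  exact Fin.cases hz1 (fun i => hE hz2 i) i

theorem s_prod : S_prod := by
  intro d t r ht0 ht1 hr0 hr1
  have h2 : Iprof d t + ENNReal.ofReal (2 * r) = ⨅ (E : Set (Fin d → ℝ)) (_ : MeasurableSet E)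
    (_ : E ⊆ {x : Fin d → ℝ | ∀ i, x i ∈ Set.Ioo (0:ℝ) 1})
    (_ : MeasureTheory.volume E = ENNReal.ofReal t), (Peri d E + ENNReal.ofReal (2 * r)) := by
    unfold Iprof
    simp only [ENNReal.iInf_add]
  rw [h2]
  refine le_iInf fun E => le_iInf fun hE => le_iInf fun hEs => le_iInf fun hv => ?_
  refine le_trans ?_ (peri_Ep hr0 hr1 E ht0 ht1 hv)
  unfold Iprof
  exact iInf_le_of_le (Ep r E) (iInf_le_of_le (meas_Ep r hE) (iInf_le_of_le (sub_Ep r hEs)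
    (iInf_le_of_le (vol_Ep hr0 hr1 hE ht0 hv) le_rfl)))

end Pool.Agent.H196.Cube
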