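import Mathlib
import Pool.Agent.H194.Cube.Defs

/-!
# Cube profile: the pointwise inequality
-/

set_option autoImplicit false

namespace Pool.Agent.H349.Cube

open Pool.Agent.H194.Cube

/-- `1 - (1 - z) ^ 3 (1 - 4/5 z + 3/10 z²)² = z Tz` -/
noncomputable def Tz (z : ℝ) : ℝ :=
  23/5 - 226/25 * z + 10 * z ^ 2 - 137/20 * z ^ 3 + 59/20 * z ^ 4 - 3/4 * z ^ 5 + 9/100 * z ^ 6

/-- `S₁` -/
noncomputable def S1 (z : ℝ) : ℝ :=
  (1/3 - 3/10 * z) - (1 - z) * (1 - 3/2 * z) ^ 2 / 4 - (10 * Tz z + 1) / 900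

noncomputable def Bz (z : ℝ) : ℝ := 61/10 - 133/10 * z + 207/20 * z ^ 2 - 63/20 * z ^ 3

noncomputable def Qz (z : ℝ) : ℝ :=
  (27/5 - 11/2 * z + 21/10 * z ^ 2) * (2 - 17/5 * z + 21/10 * z ^ 2)

/-- the univariate inequality, with a Bernstein certificate -/
theorem univ_ineq (z : ℝ) (h0 : 0 ≤ z) (h1 : z ≤ 1) : z * Bz z ^ 2 ≤ 4 * Qz z * S1 z := by
  have hz : 0 ≤ 1 - z := by linarith
  have key : 4 * Qz z * S1 z - z * Bz z ^ 2 =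
    (168/125) * (1 - z) ^ 10
   + (160999/22500) * z * (1 - z) ^ 9
   + (1680343/112500) * z ^ 2 * (1 - z) ^ 8
   + (621353/28125) * z ^ 3 * (1 - z) ^ 7
   + (2154791/56250) * z ^ 4 * (1 - z) ^ 6
   + (1366693/22500) * z ^ 5 * (1 - z) ^ 5
   + (2834297/45000) * z ^ 6 * (1 - z) ^ 4
   + (587/15) * z ^ 7 * (1 - z) ^ 3
   + (155329/11250) * z ^ 8 * (1 - z) ^ 2
   + (8969/3750) * z ^ 9 * (1 - z)
   + (133/1125) * z ^ 10 := by
    unfold Qz S1 Bz Tz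
    ring
  have : 0 ≤ 4 * Qz z * S1 z - z * Bz z ^ 2 := by
    rw [key]
    positivity
  linarith

theorem Qz_pos (z : ℝ) : 0 < Qz z := by
  unfold Qz
  refine mul_pos ?_ ?_
  · nlinarith [sq_nonneg (z - 55/42)]
  · nlinarith [sq_nonneg (z - 17/21)]

theorem Tz_eq (z : ℝ) : 1 - (1 - z) ^ 3 * (1 - 4/5 * z + 3/10 * z ^ 2) ^ 2 = z * Tz z := by
  unfold Tz; ring

theorem Tz_nonneg (z : ℝ) (h0 : 0 ≤ z) (h1 : z ≤ 1) : 0 ≤ z * Tz z := by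
  rw [← Tz_eq]
  have hz : 0 ≤ 1 - z := by linarith
  have hz1 : 1 - z ≤ 1 := by linarith
  have h2 : 0 ≤ 1 - 4/5 * z + 3/10 * z ^ 2 := by nlinarith [sq_nonneg (z - 4/3)]
  have h3 : 1 - 4/5 * z + 3/10 * z ^ 2 ≤ 1 := by nlinarith
  have h4 : (1 - z) ^ 3 ≤ 1 := pow_le_one₀ hz hz1
  have h5 : (1 - 4/5 * z + 3/10 * z ^ 2) ^ 2 ≤ 1 := pow_le_one₀ h2 h3
  have h6 := mul_le_one₀ h4 (sq_nonneg _) h5
  linarith

theorem pw : S_pw := by
  intro v κ H p hv0 hv1 hH hp0 hp1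
  set z := v ^ 2 with hz
  have hz0 : 0 ≤ z := sq_nonneg v
  have hz1 : z ≤ 1 := by rw [hz]; nlinarith
  have hu := univ_ineq z hz0 hz1
  have hQ := Qz_pos z
  have hT := Tz_nonneg z hz0 hz1
  have hp2 : p ^ 2 ≤ 10 := by
    have : p ≤ 3.1416 := hp1.trans Real.pi_lt_d4.le
    nlinarith
  have hH2 : 900 ≤ H ^ 2 := by nlinarith
  -- the quadratic form
  set w : ℝ := (1 - z) * ((1 - z) * (1 - 4/5 * z + 3/10 * z ^ 2)) * κ with hw
  have q0 : 0 ≤ 4 * Qz z * (Qz z * w ^ 2 + H * v * Bz z * w + H ^ 2 * S1 z) := by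
    have e : 4 * Qz z * (Qz z * w ^ 2 + H * v * Bz z * w + H ^ 2 * S1 z) =
        (2 * Qz z * w + H * v * Bz z) ^ 2 + H ^ 2 * (4 * Qz z * S1 z - z * Bz z ^ 2) := by
      rw [hz]; ring
    rw [e]
    have : 0 ≤ 4 * Qz z * S1 z - z * Bz z ^ 2 := by linarith
    positivity
  have q1 : 0 ≤ Qz z * w ^ 2 + H * v * Bz z * w + H ^ 2 * S1 z := by
    by_contra hn
    push Not at hn
    have := mul_neg_of_pos_of_neg (by positivity : 0 < 4 * Qz z) hn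
    linarith
  -- the remainder
  have q2 : 0 ≤ (H ^ 2 / 900 - 1) * (10 * (z * Tz z) + z) + (10 - p ^ 2) * (z * Tz z) := by
    have a1 : 0 ≤ H ^ 2 / 900 - 1 := by linarith
    have a2 : 0 ≤ 10 * (z * Tz z) + z := by linarith
    have a3 : 0 ≤ 10 - p ^ 2 := by linarith
    positivity
  have key : (p ^ 2 + κ ^ 2) * (1 - v ^ 2) * af v ^ 2 + H * v * (κ * af v ^ 2 + H * ef v) -
      ((1 - v ^ 2) / 4 * (κ * (2 * af v * af' v) + H * ef' v) ^ 2 + p ^ 2 * v ^ 2 + v ^ 4) =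
      z * (z * (Qz z * w ^ 2 + H * v * Bz z * w + H ^ 2 * S1 z) +
        ((H ^ 2 / 900 - 1) * (10 * (z * Tz z) + z) + (10 - p ^ 2) * (z * Tz z))) := by
    simp only [hw, hz, af, af', ef, ef', Qz, Bz, S1, Tz]
    ring
  have : 0 ≤ z * (z * (Qz z * w ^ 2 + H * v * Bz z * w + H ^ 2 * S1 z) +
        ((H ^ 2 / 900 - 1) * (10 * (z * Tz z) + z) + (10 - p ^ 2) * (z * Tz z))) :=
    mul_nonneg hz0 (add_nonneg (mul_nonneg hz0 q1) q2)
  linarith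

end Pool.Agent.H349.Cube
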