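import Pool.Agent.H194.Cube.Defs

/-!
# CUBE PROFILE: `S_sum` from `S_field` and `S_asq` (helper356, for helper194)
-/

set_option autoImplicit false

namespace Pool.Agent.H356.Cube

open Pool.Agent.H194.Cube
open MeasureTheory Set Filter Topology
open scoped ContDiff

lemma cont_D {n : ℕ} {f : (Fin n → ℝ) → ℝ} (hf : ContDiff ℝ 1 f) (i : Fin n) :
    Continuous (D f i) := by
  unfold D
  exact (hf.continuous_fderiv one_ne_zero).clm_apply continuous_const

lemma smooth_D {n : ℕ} {f : (Fin n → ℝ) → ℝ} (hf : ContDiff ℝ ∞ f) (i : Fin n) :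
    ContDiff ℝ ∞ (D f i) := by
  unfold D
  exact (hf.fderiv_right (m := ∞) (by simp)).clm_apply contDiff_const

lemma cont_gn {n : ℕ} {f : (Fin n → ℝ) → ℝ} (hf : ContDiff ℝ 1 f) : Continuous (gn f) := by
  unfold gn
  exact (continuous_finsetSum _ fun i _ => (cont_D hf i).pow 2).sqrt

lemma gn_nonneg {n : ℕ} (f : (Fin n → ℝ) → ℝ) (x : Fin n → ℝ) : 0 ≤ gn f x := Real.sqrt_nonneg _

lemma gn_sq {n : ℕ} (f : (Fin n → ℝ) → ℝ) (x : Fin n → ℝ) : gn f x ^ 2 = ∑ i, D f i x ^ 2 :=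
  Real.sq_sqrt (Finset.sum_nonneg fun _ _ => sq_nonneg _)

lemma abs_D_le {n : ℕ} (f : (Fin n → ℝ) → ℝ) (i : Fin n) (x : Fin n → ℝ) :
    |D f i x| ≤ gn f x := by
  refine Real.abs_le_sqrt ?_
  exact Finset.single_le_sum (f := fun i => D f i x ^ 2) (fun _ _ => sq_nonneg _)
    (Finset.mem_univ i)

lemma intOn {n : ℕ} {g : (Fin n → ℝ) → ℝ} (hg : Continuous g) :
    IntegrableOn g (Icc (0 : Fin n → ℝ) 1) :=
  hg.continuousOn.integrableOn_compact isCompact_Icc

lemma quot_le {n : ℕ} (f : (Fin n → ℝ) → ℝ) (i j : Fin n) (x : Fin n → ℝ) :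
    |D f i x * D f j x / gn f x| ≤ gn f x := by
  rcases (gn_nonneg f x).eq_or_lt with h0 | hpos
  · rw [← h0, div_zero, abs_zero]
  · rw [abs_div, abs_mul, abs_of_pos hpos, div_le_iff₀ hpos]
    exact mul_le_mul (abs_D_le f i x) (abs_D_le f j x) (abs_nonneg _) hpos.le

lemma intOn_quot {n : ℕ} {f y : (Fin n → ℝ) → ℝ} (hf : ContDiff ℝ 1 f) (hy : ContDiff ℝ 1 y)
    (i j k : Fin n) :
    IntegrableOn (fun x => D f i x * D f j x / gn f x * D y k x) (Icc (0 : Fin n → ℝ) 1) := by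
  have h1 : IntegrableOn (fun x => gn f x * |D y k x|) (Icc (0 : Fin n → ℝ) 1) :=
    intOn ((cont_gn hf).mul (cont_D hy k).abs)
  refine Integrable.mono' h1 ?_ ?_
  · exact ((((cont_D hf i).mul (cont_D hf j)).measurable.div (cont_gn hf).measurable).mul
      (cont_D hy k).measurable).aestronglyMeasurable
  · refine Eventually.of_forall fun x => ?_
    rw [Real.norm_eq_abs, abs_mul]
    exact mul_le_mul_of_nonneg_right (quot_le f i j x) (abs_nonneg _)

lemma ae_Ioo (n : ℕ) : ∀ᵐ x ∂(volume.restrict (Icc (0 : Fin n → ℝ) 1)),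
    ∀ i, 0 < x i ∧ x i < 1 := by
  have h1 : (Set.pi univ fun i : Fin n => Ioo ((0 : Fin n → ℝ) i) ((1 : Fin n → ℝ) i)) =ᵐ[volume]
      Icc (0 : Fin n → ℝ) 1 := Measure.univ_pi_Ioo_ae_eq_Icc
  rw [← Measure.restrict_congr_set h1]
  filter_upwards [ae_restrict_mem (MeasurableSet.univ_pi fun i => measurableSet_Ioo)] with x hx i
  exact hx i (mem_univ i)

/-- `θ Asq / |∇f|` is continuous -/
lemma cont_asq {n : ℕ} {f θ : (Fin n → ℝ) → ℝ} (hf : ContDiff ℝ ∞ f) (hθ : Continuous θ)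
    {c : ℝ} (hc : 0 < c) (h0 : ∀ x, gn f x ≤ c → θ x = 0) :
    Continuous (fun x => θ x * (Asq f x / gn f x)) := by
  have hf1 : ContDiff ℝ 1 f := hf.of_le (by simp)
  rw [continuous_iff_continuousAt]
  intro x
  by_cases hx : gn f x < c
  · have h1 : ∀ᶠ y in 𝓝 x, gn f y < c := (cont_gn hf1).continuousAt.eventually_lt_const hx
    have h2 : (fun y => θ y * (Asq f y / gn f y)) =ᶠ[𝓝 x] fun _ => 0 := by
      filter_upwards [h1] with y hy
      rw [h0 y hy.le, zero_mul]
    exact continuousAt_const.congr h2.symm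
  · have hpos : gn f x ≠ 0 := by
      have := not_lt.1 hx
      intro h
      rw [h] at this
      linarith
    have hN : ∀ i, ContinuousAt (Nn f i) x := by
      intro i
      unfold Nn
      exact ((cont_D hf1 i).continuousAt.div (cont_gn hf1).continuousAt hpos).neg
    have hD : ∀ i j, ContinuousAt (D (D f i) j) x := fun i j =>
      (cont_D ((smooth_D hf i).of_le (by simp)) j).continuousAt
    refine hθ.continuousAt.mul (ContinuousAt.div ?_ (cont_gn hf1).continuousAt hpos)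
    unfold Asq
    refine ContinuousAt.sub ?_ ?_
    · exact tendsto_finsetSum _ fun i _ => tendsto_finsetSum _ fun j _ => (hD i j).pow 2
    · exact tendsto_finsetSum _ fun j _ =>
        (tendsto_finsetSum _ fun i _ => (hN i).mul (hD i j)).pow 2

open Classical in
lemma intOn_bad {n : ℕ} {f : (Fin n → ℝ) → ℝ} {χ : ℝ → ℝ} (hf : ContDiff ℝ 1 f)
    (hχ : Continuous χ) (σ c : ℝ) :
    IntegrableOn (fun x => if χ (f x) ≠ 0 ∧ σ * gn f x < 2 * c then gn f x else 0)
      (Icc (0 : Fin n → ℝ) 1) := by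
  have hs : MeasurableSet {x | χ (f x) ≠ 0 ∧ σ * gn f x < 2 * c} := by
    have h1 : IsOpen {x | χ (f x) ≠ 0} :=
      isOpen_compl_singleton.preimage (hχ.comp hf.continuous)
    have h2 : IsOpen {x | σ * gn f x < 2 * c} :=
      isOpen_lt (continuous_const.mul (cont_gn hf)) continuous_const
    exact (h1.inter h2).measurableSet
  have h3 := (intOn (cont_gn hf)).indicator hs
  refine h3.congr (Eventually.of_forall fun x => ?_)
  by_cases hb : χ (f x) ≠ 0 ∧ σ * gn f x < 2 * c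
  · have hx : x ∈ {x | χ (f x) ≠ 0 ∧ σ * gn f x < 2 * c} := hb
    simp only [if_pos hb, indicator_of_mem hx]
  · have hx : x ∉ {x | χ (f x) ≠ 0 ∧ σ * gn f x < 2 * c} := hb
    simp only [if_neg hb, indicator_of_notMem hx]

/-- **CUBE S_sum** -/
theorem s_sum (hfield : S_field) (hasq : S_asq) : S_sum := by
  intro n H p c M χ ζ hn hH hp hpπ hc hχ hζ hχ01 hζ01 hχM hζM hζ0 hζ1
  obtain ⟨K₁, hK₁, hK⟩ := hfield n H p c M χ ζ hn hH hp hpπ hc hχ hζ hχ01 hζ01 hχM hζM hζ0 hζ1
  have hn0 : (0 : ℝ) < n := by exact_mod_cast hn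
  have hn1 : (1 : ℝ) ≤ n := by exact_mod_cast hn
  have hinv : 0 < 1 / (n : ℝ) := by positivity
  refine ⟨n * K₁ + p ^ 2 + 1 / n, by positivity, fun σ f hσ hσ1 hf hsym hD1 hD2 => ?_⟩
  choose y hy1 hy2 hy3 hy4 hy5 hy6 using hK σ f hσ hσ1 hf hsym hD1 hD2
  have hf1 : ContDiff ℝ 1 f := hf.of_le (by simp)
  refine ⟨y, fun i => ⟨hy1 i, hy2 i, hy3 i, hy4 i, fun x => (hy5 i x).trans ?_⟩, ?_⟩
  · refine div_le_div_of_nonneg_right ?_ hσ.le
    nlinarith [sq_nonneg p, mul_nonneg (sub_nonneg.2 hn1) hK₁.le]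
  set K : ℝ := n * K₁ + p ^ 2 + 1 / n with hKdef
  set bad : (Fin n → ℝ) → ℝ := fun x => if χ (f x) ≠ 0 ∧ σ * gn f x < 2 * c then gn f x else 0
    with hbad
  -- integrability
  have hI3 : IntegrableOn (fun x => χ (f x) * gn f x) (Icc (0 : Fin n → ℝ) 1) :=
    intOn ((hχ.continuous.comp hf.continuous).mul (cont_gn hf1))
  have hI4 : IntegrableOn (fun x => χ (f x) * ζ (σ * gn f x) * (Asq f x / gn f x))
      (Icc (0 : Fin n → ℝ) 1) := by
    refine intOn (cont_asq hf ((hχ.continuous.comp hf.continuous).mul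
      (hζ.continuous.comp (continuous_const.mul (cont_gn hf1)))) (c := c / σ) (by positivity) ?_)
    intro x hx
    have : σ * gn f x ≤ c := by
      rw [le_div_iff₀ hσ] at hx
      linarith
    show χ (f x) * ζ (σ * gn f x) = 0
    rw [hζ0 _ this, mul_zero]
  have hI5 : IntegrableOn bad (Icc (0 : Fin n → ℝ) 1) := intOn_bad hf1 hχ.continuous σ c
  have hI1 : ∀ i, IntegrableOn (fun x => gn f x * D (y i) i x -
      ∑ j, D f i x * D f j x / gn f x * D (y i) j x) (Icc (0 : Fin n → ℝ) 1) := by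
    intro i
    refine Integrable.sub (intOn ((cont_gn hf1).mul (cont_D (hy1 i) i))) ?_
    exact integrable_finsetSum _ fun j _ => intOn_quot hf1 (hy1 i) i j j
  have hI2 : ∀ i, IntegrableOn (fun x => D f i x * y i x) (Icc (0 : Fin n → ℝ) 1) :=
    fun i => intOn ((cont_D hf1 i).mul (hy1 i).continuous)
  -- the pointwise inequality
  have hpt : ∀ x : Fin n → ℝ, (∀ i, 0 < x i ∧ x i < 1) →
      (p ^ 2 + 1 / n) * (χ (f x) * gn f x) ≤
        χ (f x) * ζ (σ * gn f x) * (Asq f x / gn f x) -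
        ∑ i, ((gn f x * D (y i) i x - ∑ j, D f i x * D f j x / gn f x * D (y i) j x) +
          H * (D f i x * y i x)) + K / σ * bad x := by
    intro x hx
    have hsum := Finset.sum_le_sum (s := Finset.univ) fun i (_ : i ∈ Finset.univ) =>
      hy6 i x (hx i).1 (hx i).2
    change ∑ i, _ ≤ ∑ i, (χ (f x) * ζ (σ * gn f x) * (gn f x * gn (Nn f i) x ^ 2 -
          gn f x * (p ^ 2 * Nn f i x ^ 2 + Nn f i x ^ 4)) + K₁ / σ * bad x) at hsum
    have hexp : ∑ i, (χ (f x) * ζ (σ * gn f x) * (gn f x * gn (Nn f i) x ^ 2 -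
          gn f x * (p ^ 2 * Nn f i x ^ 2 + Nn f i x ^ 4)) + K₁ / σ * bad x) =
        χ (f x) * ζ (σ * gn f x) * (gn f x * ∑ i, gn (Nn f i) x ^ 2 -
          gn f x * (p ^ 2 * ∑ i, Nn f i x ^ 2 + ∑ i, Nn f i x ^ 4)) +
        n * (K₁ / σ * bad x) := by
      rw [Finset.sum_add_distrib, ← Finset.mul_sum, Finset.sum_sub_distrib, ← Finset.mul_sum,
        ← Finset.mul_sum, Finset.sum_add_distrib, ← Finset.mul_sum, Finset.sum_const,
        Finset.card_univ, Fintype.card_fin, nsmul_eq_mul]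
    rw [hexp] at hsum
    set g := gn f x with hg
    have hg0 : 0 ≤ g := gn_nonneg f x
    set θ := χ (f x) * ζ (σ * g) with hθ
    have hθ0 : 0 ≤ θ := mul_nonneg (hχ01 _).1 (hζ01 _).1
    have hθ1 : θ ≤ 1 := mul_le_one₀ (hχ01 _).2 (hζ01 _).1 (hζ01 _).2
    have hb0 : 0 ≤ bad x := by
      show 0 ≤ (if χ (f x) ≠ 0 ∧ σ * gn f x < 2 * c then gn f x else 0)
      split_ifs
      · exact gn_nonneg f x
      · exact le_refl _
    -- the main term
    have hmain : θ * (g * ∑ i, gn (Nn f i) x ^ 2 -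
        g * (p ^ 2 * ∑ i, Nn f i x ^ 2 + ∑ i, Nn f i x ^ 4)) ≤
        θ * (Asq f x / g) - (p ^ 2 + 1 / n) * (θ * g) := by
      rcases hg0.eq_or_lt with h0 | hpos
      · have : θ = 0 := by
          rw [hθ, ← h0, mul_zero, hζ0 0 hc.le, mul_zero]
        rw [this]
        simp
      · have e1 : g * ∑ i, gn (Nn f i) x ^ 2 = Asq f x / g := (hasq n f x hf hpos).symm
        have e2 : ∑ i, Nn f i x ^ 2 = 1 := by
          have e3 : ∀ i, Nn f i x ^ 2 = D f i x ^ 2 / g ^ 2 := by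
            intro i
            unfold Nn
            rw [neg_sq, div_pow]
          rw [Finset.sum_congr rfl (fun i _ => e3 i), ← Finset.sum_div, ← gn_sq, ← hg]
          exact div_self (pow_ne_zero 2 hpos.ne')
        have e4 : 1 / (n : ℝ) ≤ ∑ i, Nn f i x ^ 4 := by
          have e5 := sq_sum_le_card_mul_sum_sq (s := (Finset.univ : Finset (Fin n)))
            (f := fun i => Nn f i x ^ 2)
          rw [e2, Finset.card_univ, Fintype.card_fin] at e5
          have e6 : ∀ i, (Nn f i x ^ 2) ^ 2 = Nn f i x ^ 4 := fun i => by ring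
          rw [Finset.sum_congr rfl (fun i _ => e6 i)] at e5
          rw [div_le_iff₀ hn0]
          linarith
        rw [e1, e2]
        have e7 : g * (1 / n) ≤ g * ∑ i, Nn f i x ^ 4 := mul_le_mul_of_nonneg_left e4 hg0
        have e8 : θ * (g * (1 / n)) ≤ θ * (g * ∑ i, Nn f i x ^ 4) :=
          mul_le_mul_of_nonneg_left e7 hθ0
        linarith
    have hlayer : χ (f x) * g ≤ θ * g + bad x := by
      by_cases hb : χ (f x) ≠ 0 ∧ σ * gn f x < 2 * c
      · have e1 : bad x = g := if_pos hb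
        rw [e1]
        have e2 : χ (f x) * g ≤ 1 * g := mul_le_mul_of_nonneg_right (hχ01 _).2 hg0
        have e3 : 0 ≤ θ * g := mul_nonneg hθ0 hg0
        linarith
      · have e1 : bad x = 0 := if_neg hb
        rw [e1, add_zero]
        by_cases hχ0 : χ (f x) = 0
        · rw [hχ0, zero_mul]
          exact mul_nonneg hθ0 hg0
        · have e2 : 2 * c ≤ σ * g := by
            by_contra h
            exact hb ⟨hχ0, not_le.1 h⟩
          rw [hθ, hζ1 _ e2, mul_one]
    have hp1 : 0 ≤ p ^ 2 + 1 / (n : ℝ) := by positivity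
    have h5 : (p ^ 2 + 1 / (n : ℝ)) * (χ (f x) * g) ≤
        (p ^ 2 + 1 / (n : ℝ)) * (θ * g + bad x) := mul_le_mul_of_nonneg_left hlayer hp1
    have h6 : (p ^ 2 + 1 / (n : ℝ)) * bad x ≤ (p ^ 2 + 1 / (n : ℝ)) / σ * bad x := by
      refine mul_le_mul_of_nonneg_right ?_ hb0
      rw [le_div_iff₀ hσ]
      nlinarith
    have h7 : K / σ * bad x = n * (K₁ / σ * bad x) + (p ^ 2 + 1 / (n : ℝ)) / σ * bad x := by
      rw [hKdef]
      ring
    rw [h7]
    linarith
  -- integration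
  have hL : (p ^ 2 + 1 / (n : ℝ)) * ∫ x in Icc (0 : Fin n → ℝ) 1, χ (f x) * gn f x =
      ∫ x in Icc (0 : Fin n → ℝ) 1, (p ^ 2 + 1 / (n : ℝ)) * (χ (f x) * gn f x) :=
    (integral_const_mul _ _).symm
  have hR : (∫ x in Icc (0 : Fin n → ℝ) 1, χ (f x) * ζ (σ * gn f x) * (Asq f x / gn f x)) -
      ∑ i, (fv f i (y i) + H * ∫ x in Icc (0 : Fin n → ℝ) 1, D f i x * y i x) +
      K / σ * ∫ x in Icc (0 : Fin n → ℝ) 1, bad x =
      ∫ x in Icc (0 : Fin n → ℝ) 1, (χ (f x) * ζ (σ * gn f x) * (Asq f x / gn f x) -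
        ∑ i, ((gn f x * D (y i) i x - ∑ j, D f i x * D f j x / gn f x * D (y i) j x) +
          H * (D f i x * y i x)) + K / σ * bad x) := by
    have hI6 : ∀ i, IntegrableOn (fun x => (gn f x * D (y i) i x -
        ∑ j, D f i x * D f j x / gn f x * D (y i) j x) + H * (D f i x * y i x))
        (Icc (0 : Fin n → ℝ) 1) := fun i => (hI1 i).add ((hI2 i).const_mul H)
    have hI7 : IntegrableOn (fun x => ∑ i, ((gn f x * D (y i) i x -
        ∑ j, D f i x * D f j x / gn f x * D (y i) j x) + H * (D f i x * y i x)))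
        (Icc (0 : Fin n → ℝ) 1) := integrable_finsetSum _ fun i _ => hI6 i
    have e1 := integral_add (μ := volume.restrict (Icc (0 : Fin n → ℝ) 1))
      (f := fun x => χ (f x) * ζ (σ * gn f x) * (Asq f x / gn f x) -
        ∑ i, ((gn f x * D (y i) i x - ∑ j, D f i x * D f j x / gn f x * D (y i) j x) +
          H * (D f i x * y i x))) (g := fun x => K / σ * bad x) (hI4.sub hI7) (hI5.const_mul _)
    have e2 : ∀ i, ∫ x in Icc (0 : Fin n → ℝ) 1, ((gn f x * D (y i) i x -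
        ∑ j, D f i x * D f j x / gn f x * D (y i) j x) + H * (D f i x * y i x)) =
        fv f i (y i) + H * ∫ x in Icc (0 : Fin n → ℝ) 1, D f i x * y i x := by
      intro i
      rw [integral_add (hI1 i) ((hI2 i).const_mul H), integral_const_mul]
      rfl
    rw [e1, integral_sub hI4 hI7, integral_finsetSum _ (fun i _ => hI6 i), integral_const_mul,
      Finset.sum_congr rfl (fun i _ => e2 i)]
  rw [hL, hR]
  refine integral_mono_ae (hI3.const_mul _) ?_ ?_
  · exact (hI4.sub (integrable_finsetSum _ fun i _ =>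
      (hI1 i).add ((hI2 i).const_mul H))).add (hI5.const_mul _)
  · filter_upwards [ae_Ioo n] with x hx
    exact hpt x hx

end Pool.Agent.H356.Cube
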