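import Pool.Agent.H194.Cube.Defs

/-! CUBE S_touch for helper194: choice of the volume and of the touching parabola. -/

set_option autoImplicit false

namespace Pool.Agent.H747.Cube

open MeasureTheory Set Filter Topology
open scoped ENNReal
open Pool.Agent.H194.Cube

/-- the limit profile -/
noncomputable def iE (v : ℝ) : ENNReal := ⨅ d : ℕ, Iprof (d + 1) v

/-- the limit profile, real -/
noncomputable def iR (v : ℝ) : ℝ := (iE v).toReal

theorem iE_le {d : ℕ} (hd : 1 ≤ d) (v : ℝ) : iE v ≤ Iprof d v := by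
  obtain ⟨e, rfl⟩ := Nat.exists_eq_add_of_le' hd
  exact iInf_le _ e

theorem iE_ne_top (hU : S_upper) {v : ℝ} (h0 : 0 ≤ v) (h1 : v ≤ 1) : iE v ≠ ⊤ :=
  ne_top_of_le_ne_top ENNReal.one_ne_top ((iE_le le_rfl v).trans (hU 1 v le_rfl h0 h1))

theorem iR_nonneg (v : ℝ) : 0 ≤ iR v := ENNReal.toReal_nonneg

theorem ofReal_iR (hU : S_upper) {v : ℝ} (h0 : 0 ≤ v) (h1 : v ≤ 1) :
    ENNReal.ofReal (iR v) = iE v := ENNReal.ofReal_toReal (iE_ne_top hU h0 h1)

theorem le_iR (hU : S_upper) {v x : ℝ} (h0 : 0 ≤ v) (h1 : v ≤ 1)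
    (h : ∀ d : ℕ, 1 ≤ d → ENNReal.ofReal x ≤ Iprof d v) : x ≤ iR v := by
  rw [iR, ← ENNReal.ofReal_le_iff_le_toReal (iE_ne_top hU h0 h1)]
  exact le_iInf fun d => h (d + 1) (by omega)

theorem iR_le {v x : ℝ} {d : ℕ} (hd : 1 ≤ d) (hx : 0 ≤ x) (h : Iprof d v ≤ ENNReal.ofReal x) :
    iR v ≤ x := ENNReal.toReal_le_of_le_ofReal hx ((iE_le hd v).trans h)

theorem iR_le_one (hU : S_upper) {v : ℝ} (h0 : 0 ≤ v) (h1 : v ≤ 1) : iR v ≤ 1 := by
  apply iR_le (d := 1) le_rfl zero_le_one
  rw [ENNReal.ofReal_one]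
  exact hU 1 v le_rfl h0 h1

theorem iR_prod (hU : S_upper) (hP : S_prod) {v r : ℝ} (h0 : 0 ≤ v) (h1 : v ≤ 1) (hr0 : 0 < r)
    (hr1 : r < 1) : iR (v * (1 - r ^ 2)) ≤ iR v + 2 * r := by
  have h2 : iE (v * (1 - r ^ 2)) ≤ iE v + ENNReal.ofReal (2 * r) := by
    unfold iE
    rw [ENNReal.iInf_add]
    refine le_iInf fun d => ?_
    exact (iInf_le _ (d + 2)).trans (hP (d + 1) v r h0 h1 hr0 hr1)
  have hf := iE_ne_top hU h0 h1
  have h3 := ENNReal.toReal_mono (ENNReal.add_ne_top.2 ⟨hf, ENNReal.ofReal_ne_top⟩) h2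
  rwa [ENNReal.toReal_add hf ENNReal.ofReal_ne_top, ENNReal.toReal_ofReal (by linarith)] at h3

theorem iR_compl (hU : S_upper) (hC : S_compl) {v : ℝ} (h0 : 0 ≤ v) (h1 : v ≤ 1) :
    iR (1 - v) ≤ iR v :=
  ENNReal.toReal_mono (iE_ne_top hU h0 h1) (iInf_mono fun d => hC (d + 1) v h0 h1)

theorem mod1 (hU : S_upper) (hP : S_prod) {v w : ℝ} (hw : 0 < w) (hwv : w ≤ v) (hv : v ≤ 1) :
    iR w ≤ iR v + 2 * √(1 - w / v) := by
  rcases hwv.eq_or_lt with rfl | hlt
  · have := Real.sqrt_nonneg (1 - w / w)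
    linarith
  · have hv0 : 0 < v := hw.trans hlt
    have h1 : 0 < 1 - w / v := by
      rw [sub_pos, div_lt_one hv0]
      exact hlt
    have h2 : 1 - w / v < 1 := by
      have : 0 < w / v := by positivity
      linarith
    have h3 := iR_prod hU hP hv0.le hv (Real.sqrt_pos.2 h1)
      (by rw [Real.sqrt_lt' one_pos]; linarith)
    rw [Real.sq_sqrt h1.le] at h3
    have h4 : v * (1 - (1 - w / v)) = w := by
      field_simp
      ring
    rwa [h4] at h3

theorem mod2 (hU : S_upper) (hC : S_compl) (hP : S_prod) {v w : ℝ} (hv : 0 ≤ v) (hvw : v ≤ w)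
    (hw : w < 1) : iR w ≤ iR v + 2 * √((w - v) / (1 - v)) := by
  have h1 := mod1 hU hP (v := 1 - v) (w := 1 - w) (by linarith) (by linarith) (by linarith)
  have h2 : iR w ≤ iR (1 - w) := by
    have := iR_compl hU hC (v := 1 - w) (by linarith) (by linarith)
    rwa [sub_sub_cancel] at this
  have h3 := iR_compl hU hC (v := v) hv (by linarith)
  have h4 : 1 - (1 - w) / (1 - v) = (w - v) / (1 - v) := by
    have : (1 - v) ≠ 0 := by linarith
    field_simp
    ring
  rw [h4] at h1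
  linarith

theorem modulus (hU : S_upper) (hC : S_compl) (hP : S_prod) {m v w : ℝ} (hm : 0 < m)
    (hv : v ∈ Icc m (1 / 2)) (hw : w ∈ Icc m (1 / 2)) :
    iR w ≤ iR v + 2 * √(|w - v| / m) := by
  obtain ⟨hv1, hv2⟩ := hv
  obtain ⟨hw1, hw2⟩ := hw
  rcases le_total w v with h | h
  · have h1 := mod1 hU hP (hm.trans_le hw1) h (by linarith)
    have hv0 : 0 < v := hm.trans_le hv1
    have h2 : 1 - w / v ≤ |w - v| / m := by
      have h3 : 1 - w / v = (v - w) / v := by field_simp
      rw [h3, abs_sub_comm, abs_of_nonneg (by linarith)]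
      exact div_le_div_of_nonneg_left (by linarith) hm hv1
    have h4 := Real.sqrt_le_sqrt h2
    linarith
  · have h1 := mod2 hU hC hP (hm.le.trans hv1) h (by linarith)
    have h2 : (w - v) / (1 - v) ≤ |w - v| / m := by
      rw [abs_of_nonneg (by linarith)]
      exact div_le_div_of_nonneg_left (by linarith) hm (by linarith)
    have h4 := Real.sqrt_le_sqrt h2
    linarith

theorem iR_cont (hU : S_upper) (hC : S_compl) (hP : S_prod) {m b : ℝ} (hm : 0 < m)
    (hb : b ≤ 1 / 2) : ContinuousOn iR (Icc m b) := by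
  intro v hv
  have hv' : v ∈ Icc m (1 / 2) := ⟨hv.1, hv.2.trans hb⟩
  have hlim : Tendsto (fun w => 2 * √(|w - v| / m)) (𝓝[Icc m b] v) (𝓝 0) := by
    have h1 : Continuous (fun w : ℝ => 2 * √(|w - v| / m)) := by fun_prop
    have h2 := h1.tendsto v
    simp only [sub_self, abs_zero, zero_div, Real.sqrt_zero, mul_zero] at h2
    exact h2.mono_left nhdsWithin_le_nhds
  rw [ContinuousWithinAt, tendsto_iff_norm_sub_tendsto_zero]
  refine squeeze_zero' (Eventually.of_forall fun w => norm_nonneg _) ?_ hlim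
  filter_upwards [self_mem_nhdsWithin] with w hw
  have hw' : w ∈ Icc m (1 / 2) := ⟨hw.1, hw.2.trans hb⟩
  have h1 := modulus hU hC hP hm hv' hw'
  have h2 := modulus hU hC hP hm hw' hv'
  rw [abs_sub_comm] at h2
  rw [Real.norm_eq_abs, abs_le]
  constructor
  · linarith
  · linarith

/-- the touching curve -/
noncomputable def pf (b μ : ℝ) : ℝ := 30 * μ + √b * √μ

theorem pf_tangent {b lam v : ℝ} (hl : 0 < lam) (hv : 0 ≤ v) :
    pf b lam + (30 + √b / (2 * √lam)) * (v - lam) - √b / (2 * √lam * lam) * (v - lam) ^ 2 ≤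
      pf b v := by
  unfold pf
  set x := √v with hx
  set y := √lam with hy
  set c := √b with hc
  have hy0 : 0 < y := Real.sqrt_pos.2 hl
  have hx0 : 0 ≤ x := Real.sqrt_nonneg v
  have hc0 : 0 ≤ c := Real.sqrt_nonneg b
  have hv' : v = x ^ 2 := (Real.sq_sqrt hv).symm
  have hl' : lam = y ^ 2 := (Real.sq_sqrt hl.le).symm
  rw [hv', hl']
  have key : c * x - (c * y + c / (2 * y) * (x ^ 2 - y ^ 2) -
      c / (2 * y * y ^ 2) * (x ^ 2 - y ^ 2) ^ 2) =
      c / (2 * y * y ^ 2) * ((x - y) ^ 2 * ((x + y) ^ 2 - y ^ 2)) := by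
    field_simp
    ring
  have h1 : 0 ≤ c / (2 * y * y ^ 2) * ((x - y) ^ 2 * ((x + y) ^ 2 - y ^ 2)) := by
    have h2 : 0 ≤ (x + y) ^ 2 - y ^ 2 := by nlinarith
    positivity
  nlinarith [key, h1]

theorem touch (hmono : S_mono) (hC : S_compl) (hP : S_prod) (hbox : S_box) (hU : S_upper)
    (hsup : S_super) (hsup' : S_super') : S_touch := by
  obtain ⟨b, hb0, hb1, hb⟩ := hsup 32
  have hib : 32 * b ≤ iR b := le_iR hU hb0.le (by linarith) hb
  -- the small volume with a negative value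
  set r : ℝ := b / 36 with hr
  have hr0 : 0 < r := by positivity
  have hr1 : r < 1 / 72 := by
    rw [hr]
    linarith
  have hbr : b = 36 * r := by
    rw [hr]
    ring
  have hr3 : r ^ 3 ≤ b := by
    rw [hbr]
    nlinarith [pow_pos hr0 3, sq_nonneg r]
  have hf1 : iR (r ^ 3) - pf b (r ^ 3) ≤ -(3 * r ^ 2) := by
    have h1 : iR (r ^ 3) ≤ 3 * r ^ 2 :=
      iR_le (d := 3) (by norm_num) (by positivity) (hbox r hr0.le (by linarith))
    have h2 : √b * √(r ^ 3) = 6 * r ^ 2 := by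
      rw [← Real.sqrt_mul hb0.le, hbr]
      have h3 : 36 * r * r ^ 3 = (6 * r ^ 2) ^ 2 := by ring
      rw [h3, Real.sqrt_sq (by positivity)]
    unfold pf
    rw [h2]
    have h3 : 0 < r ^ 3 := by positivity
    linarith
  have hpsmall : ∀ μ : ℝ, 0 < μ → μ ≤ r ^ 4 → pf b μ ≤ 2 * r ^ 2 := by
    intro μ hμ0 hμ
    have h1 : √b * √μ ≤ r ^ 2 := by
      rw [← Real.sqrt_mul hb0.le]
      apply Real.sqrt_le_iff.2
      refine ⟨by positivity, ?_⟩
      calc b * μ ≤ 1 * r ^ 4 := mul_le_mul (by linarith) hμ hμ0.le zero_le_one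
        _ = (r ^ 2) ^ 2 := by ring
    have h2 : 30 * μ ≤ r ^ 2 := by
      have h3 : r ^ 4 = r ^ 2 * r ^ 2 := by ring
      have h4 : r ^ 2 ≤ 1 / 72 := by nlinarith
      have h5 : 0 < r ^ 2 := by positivity
      nlinarith
    unfold pf
    linarith
  have hr4 : r ^ 4 ≤ r ^ 3 := by
    have h3 : r ^ 4 = r ^ 3 * r := by ring
    have h4 : 0 < r ^ 3 := by positivity
    rw [h3]
    nlinarith
  have hr40 : 0 < r ^ 4 := by positivity
  -- the minimiser
  have hcont : ContinuousOn (fun μ => iR μ - pf b μ) (Icc (r ^ 4) b) := by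
    refine (iR_cont hU hC hP hr40 hb1.le).sub ?_
    unfold pf
    fun_prop
  obtain ⟨lam, hlam, hmin⟩ := isCompact_Icc.exists_isMinOn
    (nonempty_Icc.2 (hr4.trans hr3)) hcont
  have hmin' : ∀ μ ∈ Icc (r ^ 4) b, iR lam - pf b lam ≤ iR μ - pf b μ := fun μ hμ => hmin hμ
  have hflam : iR lam - pf b lam ≤ -(3 * r ^ 2) := (hmin' (r ^ 3) ⟨hr4, hr3⟩).trans hf1
  have hl0 : 0 < lam := hr40.trans_le hlam.1
  have hfb : 0 < iR b - pf b b := by
    unfold pf
    rw [Real.mul_self_sqrt hb0.le]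
    linarith
  have hr2 : 0 < r ^ 2 := by positivity
  have hlb : lam < b := by
    rcases hlam.2.eq_or_lt with h | h
    · rw [h] at hflam
      linarith
    · exact h
  have hl1 : lam < 1 := by linarith
  have hminall : ∀ μ : ℝ, 0 < μ → μ ≤ b → iR lam - pf b lam ≤ iR μ - pf b μ := by
    intro μ h0 h1
    by_cases h2 : r ^ 4 ≤ μ
    · exact hmin' μ ⟨h2, h1⟩
    · have h3 := hpsmall μ h0 (not_le.1 h2).le
      have h4 := iR_nonneg μ
      linarith
  -- positivity
  have hPpos : 0 < iR lam := by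
    have h1 : 1 / 3 * lam * (√(1 - Real.log lam) - 1) ≤ iR lam :=
      le_iR hU hl0.le hl1.le fun d hd => hsup' d lam hd hl0 hl1
    have h2 : 1 < √(1 - Real.log lam) := by
      rw [Real.lt_sqrt (by norm_num)]
      have := Real.log_neg hl0 hl1
      linarith
    have h3 : 0 < 1 / 3 * lam * (√(1 - Real.log lam) - 1) := by
      have : 0 < √(1 - Real.log lam) - 1 := by linarith
      positivity
    linarith
  have hP1 : iR lam ≤ 1 := iR_le_one hU hl0.le hl1.le
  set H : ℝ := 30 + √b / (2 * √lam) with hH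
  have hH30 : 30 ≤ H := by
    have : 0 ≤ √b / (2 * √lam) := by positivity
    linarith
  set C1 : ℝ := √b / (2 * √lam * lam) with hC1
  have hC10 : 0 ≤ C1 := by positivity
  set δ : ℝ := min lam (b - lam) with hδ
  have hδ0 : 0 < δ := lt_min hl0 (by linarith)
  set C2 : ℝ := (1 + H) / δ ^ 2 with hC2
  have hC20 : 0 ≤ C2 := by
    have : 0 ≤ 1 + H := by linarith
    positivity
  refine ⟨lam, iR lam, H, C1 + C2, hl0, hl1, hPpos, hH30, by positivity, ?_, ?_⟩
  · intro d hd v hv
    have key : iR lam + H * (v - lam) - (C1 + C2) * (v - lam) ^ 2 ≤ iR v := by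
      by_cases hvv : 0 < v ∧ v ≤ b
      · have h1 := hminall v hvv.1 hvv.2
        have h2 := pf_tangent (b := b) hl0 hvv.1.le
        rw [← hH, ← hC1] at h2
        have h3 : 0 ≤ C2 * (v - lam) ^ 2 := by positivity
        linarith
      · have h1 : δ ≤ |v - lam| := by
          by_cases hv0 : v = 0
          · rw [hv0, zero_sub, abs_neg, abs_of_pos hl0]
            exact min_le_left _ _
          · have h2 : 0 < v := lt_of_le_of_ne hv.1 (Ne.symm hv0)
            have h3 : b < v := by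
              by_contra h4
              exact hvv ⟨h2, not_lt.1 h4⟩
            rw [abs_of_pos (by linarith)]
            exact (min_le_right _ _).trans (by linarith)
        have h2 : |v - lam| ≤ 1 := by
          rw [abs_le]
          constructor
          · linarith [hv.1]
          · linarith [hv.2]
        have h3 : H * (v - lam) ≤ H * 1 :=
          mul_le_mul_of_nonneg_left ((le_abs_self _).trans h2) (by linarith)
        have h4 : δ ^ 2 ≤ (v - lam) ^ 2 := by
          rw [← sq_abs (v - lam)]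
          exact pow_le_pow_left₀ hδ0.le h1 2
        have h5 : 1 + H ≤ C2 * (v - lam) ^ 2 := by
          calc 1 + H = C2 * δ ^ 2 := by
                rw [hC2]
                field_simp
            _ ≤ C2 * (v - lam) ^ 2 := mul_le_mul_of_nonneg_left h4 hC20
        have h6 : 0 ≤ C1 * (v - lam) ^ 2 := by positivity
        have h7 := iR_nonneg v
        linarith
    calc ENNReal.ofReal (iR lam + H * (v - lam) - (C1 + C2) * (v - lam) ^ 2)
        ≤ ENNReal.ofReal (iR v) := ENNReal.ofReal_le_ofReal key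
      _ = iE v := ofReal_iR hU hv.1 hv.2
      _ ≤ Iprof d v := iE_le hd v
  · intro N hN
    refine ⟨max N 1, le_max_right _ _, ?_⟩
    rw [ofReal_iR hU hl0.le hl1.le]
    refine le_antisymm (le_iInf fun d => ?_) (iE_le (le_max_right _ _) lam)
    have hanti : ∀ k e : ℕ, Iprof (e + k) lam ≤ Iprof e lam := by
      intro k e
      induction k with
      | zero => exact le_rfl
      | succ k ih => exact (hmono (e + k) lam hl0.le hl1.le).trans ih
    by_cases h : N ≤ d + 1
    · rw [hN (d + 1) h, hN (max N 1) (le_max_left _ _)]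
    · have h1 : max N 1 = (d + 1) + (N - (d + 1)) := by
        rw [max_eq_left (by omega)]
        omega
      rw [h1]
      exact hanti _ _

end Pool.Agent.H747.Cube
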