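import Pool.Agent.H194.Cube.Defs

/-!
# CUBE project: `S_W1` from `S_clt`, `S_grad`, `S_Y`
-/

set_option autoImplicit false
set_option linter.all false

namespace Pool.Agent.H997.Cube

open Pool.Agent.H194.Cube MeasureTheory Set
open scoped ContDiff

theorem contD {n : ℕ} {f : (Fin n → ℝ) → ℝ} (hf : ContDiff ℝ 1 f) (i : Fin n) :
    Continuous (D f i) := by
  unfold D
  exact (hf.continuous_fderiv one_ne_zero).clm_apply continuous_const

theorem cont_gn {n : ℕ} {f : (Fin n → ℝ) → ℝ} (hf : ContDiff ℝ 1 f) : Continuous (gn f) := by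
  unfold gn
  exact Real.continuous_sqrt.comp (continuous_finset_sum _ fun i _ => (contD hf i).pow 2)

theorem gn_nonneg {n : ℕ} (f : (Fin n → ℝ) → ℝ) (x : Fin n → ℝ) : 0 ≤ gn f x :=
  Real.sqrt_nonneg _

theorem intOn {n : ℕ} {f : (Fin n → ℝ) → ℝ} (hf : Continuous f) :
    IntegrableOn f (Icc (0 : Fin n → ℝ) 1) :=
  hf.continuousOn.integrableOn_compact isCompact_Icc

theorem int_indicator {n : ℕ} {lam P δ : ℝ} {E : Set (Fin n → ℝ)} {g : (Fin n → ℝ) → ℝ}
    (h : NearMin n lam P δ E g) (hl : 0 < lam) :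
    ∫ x in Icc (0 : Fin n → ℝ) 1, E.indicator (fun _ => (1 : ℝ)) x = lam := by
  rw [integral_indicator h.meas, Measure.restrict_restrict h.meas, inter_eq_left.2 h.sub,
    setIntegral_const, smul_eq_mul, mul_one, Measure.real, h.vol, ENNReal.toReal_ofReal hl.le]

theorem intOn_ind {n : ℕ} {lam P δ : ℝ} {E : Set (Fin n → ℝ)} {g : (Fin n → ℝ) → ℝ}
    (h : NearMin n lam P δ E g) :
    IntegrableOn (E.indicator (fun _ => (1 : ℝ))) (Icc (0 : Fin n → ℝ) 1) := by
  have : IntegrableOn (fun _ : Fin n → ℝ => (1 : ℝ)) (Icc (0 : Fin n → ℝ) 1) :=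
    intOn continuous_const
  exact this.indicator h.meas

theorem mass_close {n : ℕ} {lam P δ : ℝ} {E : Set (Fin n → ℝ)} {g : (Fin n → ℝ) → ℝ}
    (h : NearMin n lam P δ E g) (hl : 0 < lam) :
    |(∫ x in Icc (0 : Fin n → ℝ) 1, g x) - lam| ≤ δ := by
  have h1 := int_indicator h hl
  have hg : IntegrableOn g (Icc (0 : Fin n → ℝ) 1) := intOn h.smooth.continuous
  have h2 : (∫ x in Icc (0 : Fin n → ℝ) 1, g x) - lam =
      ∫ x in Icc (0 : Fin n → ℝ) 1, (g x - E.indicator (fun _ => (1 : ℝ)) x) := by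
    rw [integral_sub hg (intOn_ind h), h1]
  rw [h2]
  exact (abs_integral_le_integral_abs).trans h.l1

theorem ptw {σ I a : ℝ} (hσ : 0 < σ) (hI : 0 < I) (ha : 0 ≤ a) (hr : σ * a ≤ I) :
    √(Real.pi ^ 2 * I ^ 2 + a ^ 2) ≤
      a + ((2 * Real.pi + Real.pi ^ 2 * σ) * (I - σ * a) + Real.pi ^ 2 * σ / 2 * I) := by
  have hpi := Real.pi_pos
  rcases lt_or_ge (σ * a) (I / 2) with h | h
  · have h1 : √(Real.pi ^ 2 * I ^ 2 + a ^ 2) ≤ a + Real.pi * I := by
      apply Real.sqrt_le_iff.2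
      constructor
      · positivity
      · nlinarith [mul_nonneg ha (mul_nonneg hpi.le hI.le)]
    have h2 : Real.pi * I ≤ 2 * Real.pi * (I - σ * a) := by nlinarith
    have h3 : 0 ≤ Real.pi ^ 2 * σ * (I - σ * a) := by
      have : 0 ≤ I - σ * a := by linarith
      positivity
    have h4 : 0 ≤ Real.pi ^ 2 * σ / 2 * I := by positivity
    nlinarith
  · have ha' : 0 < a := by
      rcases ha.eq_or_lt with h0 | h0
      · rw [← h0] at h; nlinarith
      · exact h0
    have h1 : √(Real.pi ^ 2 * I ^ 2 + a ^ 2) ≤ a + Real.pi ^ 2 * I ^ 2 / (2 * a) := by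
      apply Real.sqrt_le_iff.2
      constructor
      · positivity
      · have e : (a + Real.pi ^ 2 * I ^ 2 / (2 * a)) ^ 2 =
            a ^ 2 + Real.pi ^ 2 * I ^ 2 + (Real.pi ^ 2 * I ^ 2 / (2 * a)) ^ 2 := by
          field_simp
          ring
        rw [e]
        nlinarith [sq_nonneg (Real.pi ^ 2 * I ^ 2 / (2 * a))]
    have h2 : Real.pi ^ 2 * I ^ 2 / (2 * a) ≤
        Real.pi ^ 2 * σ / 2 * I + Real.pi ^ 2 * σ * (I - σ * a) := by
      rw [div_le_iff₀ (by positivity)]
      have h5 : I ^ 2 ≤ σ * a * I + 2 * (σ * a) * (I - σ * a) := by nlinarith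
      have h6 := mul_le_mul_of_nonneg_left h5 (sq_nonneg Real.pi)
      nlinarith
    have h3 : 0 ≤ 2 * Real.pi * (I - σ * a) := by
      have : 0 ≤ I - σ * a := by linarith
      positivity
    nlinarith

theorem W1 (hclt : S_clt) (hgrad : S_grad) (hY : S_Y) (gf : GaussFacts) (hA : HeatA)
    (hB : HeatB) (hD : HeatD) : S_W1 := by
  intro P H C lam hyp hP hH hC hl0 hl1 n δ E g hn hδ hδ1 hδl hδl' hN σ hσ hσ1
  have hpi := Real.pi_pos
  have gC : ContDiff ℝ ∞ g := hN.smooth
  have gC1 : ContDiff ℝ 1 g := gC.of_le (by exact_mod_cast le_top)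
  have gcont : Continuous g := gC.continuous
  have gPer : Per g := hN.sym.1
  set f := heat σ g with hf
  have fC : ContDiff ℝ ∞ f := hB.smooth n σ g gC gPer
  have fC1 : ContDiff ℝ 1 f := hB.smooth1 n σ g gC1 gPer
  have fcont : Continuous f := fC1.continuous
  have hmc := mass_close hN hl0
  have hmass : ∫ x in Icc (0 : Fin n → ℝ) 1, f x = ∫ x in Icc (0 : Fin n → ℝ) 1, g x :=
    hD.mass n σ g gcont hN.sym
  have hvol : ∫ x in Icc (0 : Fin n → ℝ) 1, (1 : ℝ) = 1 := by
    rw [setIntegral_const, smul_eq_mul, mul_one, Measure.real, Real.volume_Icc_pi]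
    simp
  have hpos : ∃ y, 0 < g y := by
    by_contra hcon
    push Not at hcon
    have : ∫ x in Icc (0 : Fin n → ℝ) 1, g x = 0 := by
      have e : g = fun _ => 0 := by
        funext x; exact le_antisymm (hcon x) (hN.mem x).1
      rw [e]; simp
    rw [this] at hmc
    rw [zero_sub, abs_neg, abs_of_pos hl0] at hmc
    linarith
  have hlt : ∃ y, g y < 1 := by
    by_contra hcon
    push Not at hcon
    have : ∫ x in Icc (0 : Fin n → ℝ) 1, g x = 1 := by
      have e : g = fun _ => 1 := by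
        funext x; exact le_antisymm (hN.mem x).2 (hcon x)
      rw [e]; exact hvol
    rw [this, abs_of_pos (by linarith)] at hmc
    linarith
  have f0 : ∀ x, 0 < f x := fun x =>
    hA.pos n σ g x hσ gcont gPer (fun y => (hN.mem y).1) hpos
  have f1 : ∀ x, f x < 1 := by
    intro x
    have c1 : Continuous (fun y => 1 + (-1) * g y) := continuous_const.add (gcont.const_mul _ |>.comp continuous_id)
    have p1 : Per (fun y => 1 + (-1) * g y) := fun y i => by
      simp only [gPer y i]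
    have c2 : Continuous (fun y => (-1) * g y) := continuous_const.mul gcont
    have p2 : Per (fun y => (-1) * g y) := fun y i => by
      simp only [gPer y i]
    have h1 := hA.pos n σ (fun y => 1 + (-1) * g y) x hσ c1 p1
      (fun y => by have := (hN.mem y).2; show (0:ℝ) ≤ 1 + (-1) * g y; linarith)
      (by obtain ⟨y, hy⟩ := hlt; exact ⟨y, by show (0:ℝ) < 1 + (-1) * g y; linarith⟩)
    have h2 := hA.add n σ (fun _ => 1) (fun y => (-1) * g y) x continuous_const
      (fun _ _ => rfl) c2 p2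
    have h3 := hA.const n σ 1 x
    have h4 := hA.smul n σ (-1) g x
    rw [h2, h3, h4] at h1
    show heat σ g x < 1
    linarith
  set h : (Fin n → ℝ) → ℝ := fun x => Function.invFun Phi (f x) with hh
  have hPhi : ∀ x, Phi (h x) = f x := by
    intro x
    obtain ⟨t, ht⟩ := gf.surj (f x) (f0 x) (f1 x)
    rw [hh]
    show Phi (Function.invFun Phi (f x)) = f x
    rw [← ht, gf.inv_left]
  have hI : ∀ x, Iga (f x) = phi (h x) := by
    intro x; rw [← hPhi x, gf.iga]
  have hIpos : ∀ x, 0 < Iga (f x) := fun x => gf.iga_pos _ (f0 x) (f1 x)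
  have hC1 : ContDiff ℝ 1 h := by
    have h1 : ContDiffOn ℝ 1 (Function.invFun Phi) (Ioo 0 1) :=
      gf.inv_smooth.of_le (by exact_mod_cast le_top)
    have h2 : ContDiffOn ℝ 1 h univ :=
      h1.comp (fC1.contDiffOn) (fun x _ => ⟨f0 x, f1 x⟩)
    exact contDiffOn_univ.1 h2
  have hDh : ∀ i x, D h i x = D f i x / Iga (f x) := by
    intro i x
    have h1 : HasDerivAt (Function.invFun Phi) (1 / phi (h x)) (f x) := by
      have := gf.inv_deriv (h x)
      rwa [hPhi x] at this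
    have h2 : HasFDerivAt f (fderiv ℝ f x) x :=
      (fC1.differentiable one_ne_zero x).hasFDerivAt
    have h3 := h1.comp_hasFDerivAt x h2
    have h4 : fderiv ℝ h x = (1 / phi (h x)) • fderiv ℝ f x := h3.fderiv
    unfold D
    rw [h4, hI x]
    simp only [FunLike.coe_smul, Pi.smul_apply, smul_eq_mul]
    ring
  have hgnh : ∀ x, gn h x = gn f x / Iga (f x) := by
    intro x
    unfold gn
    have e : ∑ i, D h i x ^ 2 = (∑ i, D f i x ^ 2) / Iga (f x) ^ 2 := by
      rw [Finset.sum_div]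
      refine Finset.sum_congr rfl fun i _ => ?_
      rw [hDh i x, div_pow]
    rw [e, Real.sqrt_div (Finset.sum_nonneg fun i _ => sq_nonneg _), Real.sqrt_sq (hIpos x).le]
  have hint : ∀ x, phi (h x) * √(Real.pi ^ 2 + gn h x ^ 2) =
      √(Real.pi ^ 2 * Iga (f x) ^ 2 + gn f x ^ 2) := by
    intro x
    have hp := hIpos x
    rw [← hI x, hgnh x]
    have e : Real.pi ^ 2 * Iga (f x) ^ 2 + gn f x ^ 2 =
        Iga (f x) ^ 2 * (Real.pi ^ 2 + (gn f x / Iga (f x)) ^ 2) := by
      field_simp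
    rw [e, Real.sqrt_mul (sq_nonneg _), Real.sqrt_sq hp.le]
  have hcl := hclt P H C lam hyp hH hC n h hn hC1
  simp only [hPhi, hint] at hcl
  rw [hmass] at hcl
  set B := ∫ x in Icc (0 : Fin n → ℝ) 1, √(Real.pi ^ 2 * Iga (f x) ^ 2 + gn f x ^ 2) with hBdef
  have hBlow : P - (H + C) * δ ≤ B := by
    have h1 := abs_le.1 hmc
    have h2 : ((∫ x in Icc (0 : Fin n → ℝ) 1, g x) - lam) ^ 2 ≤ δ := by
      have : ((∫ x in Icc (0 : Fin n → ℝ) 1, g x) - lam) ^ 2 ≤ δ ^ 2 := sq_le_sq' h1.1 h1.2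
      nlinarith
    nlinarith [mul_le_mul_of_nonneg_left h1.1 hH, mul_le_mul_of_nonneg_left h2 hC]
  have Icont : Continuous (fun x => Iga (f x)) := gf.iga_cont.comp fcont
  have gncont : Continuous (gn f) := cont_gn fC1
  have hptw : ∀ x, √(Real.pi ^ 2 * Iga (f x) ^ 2 + gn f x ^ 2) ≤
      gn f x + ((2 * Real.pi + Real.pi ^ 2 * σ) * (Iga (f x) - σ * gn f x)
        + Real.pi ^ 2 * σ / 2 * Iga (f x)) := fun x =>
    ptw hσ (hIpos x) (gn_nonneg f x)
      (hgrad n σ g x hσ gC1 gPer hN.mem (f0 x) (f1 x))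
  set Y := ∫ x in Icc (0 : Fin n → ℝ) 1, Iga (f x) with hYdef
  have hBup : B ≤ TV f + ((2 * Real.pi + Real.pi ^ 2 * σ) * (Y - σ * TV f)
      + Real.pi ^ 2 * σ / 2 * Y) := by
    have h1 : B ≤ ∫ x in Icc (0 : Fin n → ℝ) 1, (gn f x +
        ((2 * Real.pi + Real.pi ^ 2 * σ) * (Iga (f x) - σ * gn f x)
        + Real.pi ^ 2 * σ / 2 * Iga (f x))) := by
      refine setIntegral_mono_on ?_ ?_ measurableSet_Icc fun x _ => hptw x
      · exact intOn (Real.continuous_sqrt.comp
          ((continuous_const.mul (Icont.pow 2)).add (gncont.pow 2)))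
      · exact intOn (gncont.add ((continuous_const.mul
          (Icont.sub (continuous_const.mul gncont))).add (continuous_const.mul Icont)))
    have i1 : IntegrableOn (gn f) (Icc (0 : Fin n → ℝ) 1) := intOn gncont
    have i2 : IntegrableOn (fun x => Iga (f x)) (Icc (0 : Fin n → ℝ) 1) := intOn Icont
    have i3 : IntegrableOn (fun x => σ * gn f x) (Icc (0 : Fin n → ℝ) 1) :=
      intOn (continuous_const.mul gncont)
    have i4 : IntegrableOn (fun x => (2 * Real.pi + Real.pi ^ 2 * σ) *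
        (Iga (f x) - σ * gn f x)) (Icc (0 : Fin n → ℝ) 1) :=
      intOn (continuous_const.mul (Icont.sub (continuous_const.mul gncont)))
    have i5 : IntegrableOn (fun x => Real.pi ^ 2 * σ / 2 * Iga (f x))
        (Icc (0 : Fin n → ℝ) 1) := intOn (continuous_const.mul Icont)
    have i6 : IntegrableOn (fun x => (2 * Real.pi + Real.pi ^ 2 * σ) *
        (Iga (f x) - σ * gn f x) + Real.pi ^ 2 * σ / 2 * Iga (f x))
        (Icc (0 : Fin n → ℝ) 1) := i4.add i5
    rw [integral_add i1 i6, integral_add i4 i5, integral_const_mul, integral_const_mul,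
      integral_sub i2 i3, integral_const_mul] at h1
    exact h1
  have hYle : Y ≤ √δ + σ * TV g := hY n lam P δ σ E g hn hσ hδ hN
  have hTV := hN.tv
  have hs : 0 ≤ √δ := Real.sqrt_nonneg _
  have hpi2 : Real.pi < 3.15 := Real.pi_lt_d2
  have k1 : (2 * Real.pi + Real.pi ^ 2 * σ) * (Y - σ * TV f) ≤
      (2 * Real.pi + Real.pi ^ 2 * σ) * (√δ + σ * (TV g - TV f)) := by
    apply mul_le_mul_of_nonneg_left _ (by positivity)
    linarith
  have k2 : Real.pi ^ 2 * σ / 2 * Y ≤ Real.pi ^ 2 * σ / 2 * (√δ + σ * (P + δ)) := by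
    apply mul_le_mul_of_nonneg_left _ (by positivity)
    have := mul_le_mul_of_nonneg_left hTV hσ.le
    linarith
  have k3 : (2 * Real.pi + Real.pi ^ 2 * σ + Real.pi ^ 2 * σ / 2) * √δ ≤ 25 * √δ := by
    apply mul_le_mul_of_nonneg_right _ hs
    have : Real.pi ^ 2 ≤ 3.15 ^ 2 := by
      apply pow_le_pow_left₀ hpi.le hpi2.le
    nlinarith
  nlinarith

end Pool.Agent.H997.Cube
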