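import Pool.Agent.H194.Cube.Defs

/-!
# S_bad (subtask of helper194, by helper284)
-/

set_option autoImplicit false

namespace Pool.Agent.H284.Cube

open MeasureTheory Set Filter Topology ProbabilityTheory
open scoped ContDiff ENNReal
open Pool.Agent.H194.Cube

theorem vol_cube (n : ℕ) : volume (Icc (0 : Fin n → ℝ) 1) = 1 := by
  rw [Real.volume_Icc_pi]
  simp

theorem int_E {n : ℕ} {lam : ℝ} {E : Set (Fin n → ℝ)} (hl : 0 ≤ lam) (hE : MeasurableSet E)
    (hsub : E ⊆ Icc (0 : Fin n → ℝ) 1) (hvol : volume E = ENNReal.ofReal lam) :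
    ∫ x in Icc (0 : Fin n → ℝ) 1, E.indicator (fun _ => (1 : ℝ)) x = lam := by
  rw [setIntegral_indicator hE, inter_eq_right.2 hsub, setIntegral_const, smul_eq_mul, mul_one]
  show (volume E).toReal = lam
  rw [hvol, ENNReal.toReal_ofReal hl]

theorem one_sub {n : ℕ} {σ : ℝ} {g : (Fin n → ℝ) → ℝ} (hA : HeatA) (hg : Continuous g)
    (hp : Per g) (x : Fin n → ℝ) : heat σ (fun y => 1 - g y) x = 1 - heat σ g x := by
  have h1 : (fun y => 1 - g y) = fun y : Fin n → ℝ => (fun _ => (1 : ℝ)) y + (fun y => -1 * g y) y := by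
    funext y
    ring
  rw [h1, hA.add n σ (fun _ => 1) (fun y => -1 * g y) x continuous_const (fun _ _ => rfl)
    (continuous_const.mul hg) (fun y i => congrArg (fun t => -1 * t) (hp y i)), hA.const, hA.smul]
  ring

theorem gn_cont {n : ℕ} {f : (Fin n → ℝ) → ℝ} (hf : ContDiff ℝ 1 f) : Continuous (gn f) := by
  have h1 : Continuous (fderiv ℝ f) := hf.continuous_fderiv one_ne_zero
  refine Real.continuous_sqrt.comp (continuous_finsetSum _ fun i _ => ?_)
  exact (h1.clm_apply continuous_const).pow 2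

theorem mem_Ioo {n : ℕ} {lam P δ σ : ℝ} {E : Set (Fin n → ℝ)} {g : (Fin n → ℝ) → ℝ}
    (hA : HeatA) (hσ : 0 < σ) (h0 : δ < lam) (h1 : δ < 1 - lam) (hδ : 0 < δ)
    (hN : NearMin n lam P δ E g) (x : Fin n → ℝ) : 0 < heat σ g x ∧ heat σ g x < 1 := by
  have hgc : Continuous g := hN.smooth.continuous
  have hl0 : 0 ≤ lam := by linarith
  have hint := int_E hl0 hN.meas hN.sub hN.vol
  have hl1 := hN.l1
  constructor
  · refine hA.pos n σ g x hσ hgc hN.sym.1 (fun y => (hN.mem y).1) ?_
    by_contra hcon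
    push Not at hcon
    have hg0 : ∀ y, g y = 0 := fun y => le_antisymm (hcon y) (hN.mem y).1
    have h2 : ∀ y, |g y - E.indicator (fun _ => (1 : ℝ)) y| = E.indicator (fun _ => (1 : ℝ)) y := by
      intro y
      rw [hg0, zero_sub, abs_neg, abs_of_nonneg]
      exact indicator_nonneg (fun _ _ => zero_le_one) y
    simp only [h2] at hl1
    rw [hint] at hl1
    linarith
  · have h3 : 0 < heat σ (fun y => 1 - g y) x := by
      refine hA.pos n σ (fun y => 1 - g y) x hσ (continuous_const.sub hgc)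
        (fun y i => congrArg (fun t => 1 - t) (hN.sym.1 y i)) (fun y => by linarith [(hN.mem y).2]) ?_
      by_contra hcon
      push Not at hcon
      have hg1 : ∀ y, g y = 1 := fun y => le_antisymm (hN.mem y).2 (by linarith [hcon y])
      have h2 : ∀ y, |g y - E.indicator (fun _ => (1 : ℝ)) y| =
          1 - E.indicator (fun _ => (1 : ℝ)) y := by
        intro y
        rw [hg1, abs_of_nonneg]
        rw [sub_nonneg]
        by_cases hy : y ∈ E
        · rw [indicator_of_mem hy]
        · rw [indicator_of_notMem hy]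
          exact zero_le_one
      simp only [h2] at hl1
      have hi1 : IntegrableOn (fun _ : Fin n → ℝ => (1 : ℝ)) (Icc (0 : Fin n → ℝ) 1) :=
        continuous_const.integrableOn_Icc
      have hi2 : IntegrableOn (fun x => E.indicator (fun _ => (1 : ℝ)) x)
          (Icc (0 : Fin n → ℝ) 1) := hi1.indicator hN.meas
      rw [integral_sub hi1 hi2, hint, setIntegral_const, smul_eq_mul, mul_one] at hl1
      have h4 : (volume : Measure (Fin n → ℝ)).real (Icc (0 : Fin n → ℝ) 1) = 1 := by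
        show (volume (Icc (0 : Fin n → ℝ) 1)).toReal = 1
        rw [vol_cube, ENNReal.toReal_one]
      rw [h4] at hl1
      linarith
    rw [one_sub hA hgc hN.sym.1] at h3
    linarith

theorem t_bad (hgrad : S_grad) (hY : S_Y) (hA : HeatA) (hB : HeatB) (hG : GaussFacts) : S_bad := by
  intro n lam P δ σ c χ E g hn hσ hδ hc h0 h1 hl1 hχ hχc hN
  have hg1 : ContDiff ℝ 1 g := hN.smooth.of_le (by exact_mod_cast le_top)
  obtain ⟨f, hf⟩ : ∃ f, f = heat σ g := ⟨_, rfl⟩
  have hf1 : ContDiff ℝ 1 f := by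
    rw [hf]
    exact hB.smooth1 n σ g hg1 hN.sym.1
  have hYY := hY n lam P δ σ E g hn hσ hδ hN
  have hI : ∀ x, 0 < f x ∧ f x < 1 := by
    intro x
    rw [hf]
    exact mem_Ioo hA hσ h0 h1 hδ hN x
  have hgr : ∀ x, σ * gn f x ≤ Iga (f x) := by
    intro x
    have h2 := hI x
    rw [hf] at h2 ⊢
    exact hgrad n σ g x hσ hg1 hN.sym.1 hN.mem h2.1 h2.2
  rw [← hf] at hYY ⊢
  have hgn0 : ∀ x, 0 ≤ gn f x := fun x => Real.sqrt_nonneg _
  have hc1 : Continuous (fun x => Iga (f x)) := hG.iga_cont.comp hf1.continuous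
  have hc2 : Continuous (gn f) := gn_cont hf1
  have hi1 : IntegrableOn (fun x => Iga (f x)) (Icc (0 : Fin n → ℝ) 1) := hc1.integrableOn_Icc
  have hi2 : IntegrableOn (fun x => gn f x) (Icc (0 : Fin n → ℝ) 1) := hc2.integrableOn_Icc
  have hle : ∫ x in Icc (0 : Fin n → ℝ) 1,
      (if χ (f x) ≠ 0 ∧ σ * gn f x < 2 * c then gn f x else 0) ≤
      ∫ x in Icc (0 : Fin n → ℝ) 1, (1 / σ * Iga (f x) - gn f x) := by
    refine integral_mono_of_nonneg ?_ ((hi1.const_mul (1 / σ)).sub hi2) ?_
    · refine Eventually.of_forall fun x => ?_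
      show 0 ≤ (if χ (f x) ≠ 0 ∧ σ * gn f x < 2 * c then gn f x else 0)
      split_ifs
      · exact hgn0 x
      · exact le_rfl
    · refine Eventually.of_forall fun x => ?_
      show (if χ (f x) ≠ 0 ∧ σ * gn f x < 2 * c then gn f x else 0) ≤
        1 / σ * Iga (f x) - gn f x
      have h3 : 1 / σ * Iga (f x) - gn f x = (Iga (f x) - σ * gn f x) / σ := by
        field_simp
      rw [h3]
      split_ifs with h
      · rw [le_div_iff₀ hσ]
        have h4 := hχc _ h.1
        linarith [h.2]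
      · exact div_nonneg (by linarith [hgr x]) hσ.le
  refine hle.trans ?_
  rw [integral_sub (hi1.const_mul (1 / σ)) hi2, integral_const_mul]
  have h5 : 1 / σ * ∫ x in Icc (0 : Fin n → ℝ) 1, Iga (f x) ≤ 1 / σ * (√δ + σ * TV g) :=
    mul_le_mul_of_nonneg_left hYY (by positivity)
  have h6 : 1 / σ * (√δ + σ * TV g) = √δ / σ + TV g := by
    field_simp
  rw [h6] at h5
  have h7 : ∫ x in Icc (0 : Fin n → ℝ) 1, gn f x = TV f := rfl
  rw [h7]
  linarith

end Pool.Agent.H284.Cube
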