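import Pool.Agent.H194.Cube.Defs

set_option autoImplicit false

/-! Gaussian integration by parts for the heat flow (project CUBE of helper194, task HeatC). -/

namespace Pool.Agent.H628.Cube

open MeasureTheory Set Filter Topology ProbabilityTheory
open scoped ContDiff ENNReal
open Pool.Agent.H194.Cube

lemma pdf_deriv (t : ℝ) : HasDerivAt (gaussianPDFReal 0 1) (-(t * gaussianPDFReal 0 1 t)) t := by
  have e : gaussianPDFReal 0 1 = fun t : ℝ => (√(2 * Real.pi * 1))⁻¹ * Real.exp (-(t - 0) ^ 2 / (2 * 1)) := by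
    ext t; simp [gaussianPDFReal]
  rw [e]
  have h1 : HasDerivAt (fun t : ℝ => -(t - 0) ^ 2 / (2 * 1)) (-t) t := by
    have h := ((((hasDerivAt_id t).sub_const (0 : ℝ)).pow 2).neg).div_const (2 * 1)
    refine h.congr_deriv ?_
    simp
    ring
  have h2 := (h1.exp).const_mul (√(2 * Real.pi * 1))⁻¹
  refine h2.congr_deriv ?_
  ring

lemma int_gauss_iff {f : ℝ → ℝ} :
    Integrable f (gaussianReal 0 1) ↔ Integrable (fun t => gaussianPDFReal 0 1 t * f t) := by
  rw [gaussianReal_of_var_ne_zero 0 one_ne_zero,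
    integrable_withDensity_iff_integrable_smul₀' (measurable_gaussianPDF 0 1).aemeasurable
      (ae_of_all _ fun _ => gaussianPDF_lt_top)]
  simp only [smul_eq_mul, toReal_gaussianPDF]

/-- Stein's identity in dimension one -/
theorem stein1 {f f' : ℝ → ℝ} (hf : ∀ t, HasDerivAt f (f' t) t)
    (h1 : Integrable (fun t => f t * t) (gaussianReal 0 1)) (h2 : Integrable f' (gaussianReal 0 1))
    (h3 : Integrable f (gaussianReal 0 1)) :
    ∫ t, f t * t ∂(gaussianReal 0 1) = ∫ t, f' t ∂(gaussianReal 0 1) := by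
  rw [integral_gaussianReal_eq_integral_smul one_ne_zero, integral_gaussianReal_eq_integral_smul one_ne_zero]
  rw [int_gauss_iff] at h1 h2 h3
  have key := integral_mul_deriv_eq_deriv_mul_of_integrable (u := f) (u' := f')
    (v := fun t => -gaussianPDFReal 0 1 t) (v' := fun t => t * gaussianPDFReal 0 1 t)
    (fun t _ => hf t) (fun t _ => ((pdf_deriv t).neg).congr_deriv (by ring))
    (h1.congr (ae_of_all _ fun t => by simp only [Pi.mul_apply]; ring))
    (h2.neg.congr (ae_of_all _ fun t => by simp only [Pi.mul_apply, Pi.neg_apply]; ring))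
    (h3.neg.congr (ae_of_all _ fun t => by simp only [Pi.mul_apply, Pi.neg_apply]; ring))
  calc ∫ t, gaussianPDFReal 0 1 t • (f t * t) = ∫ t, f t * (t * gaussianPDFReal 0 1 t) := by
        refine integral_congr_ae (ae_of_all _ fun t => ?_)
        simp only [smul_eq_mul]; ring
    _ = -∫ t, f' t * -gaussianPDFReal 0 1 t := key
    _ = ∫ t, gaussianPDFReal 0 1 t • f' t := by
        rw [← integral_neg]
        refine integral_congr_ae (ae_of_all _ fun t => ?_)
        simp only [smul_eq_mul]; ring

lemma insert_deriv {n : ℕ} (i : Fin (n + 1)) (w : Fin n → ℝ) (t : ℝ) :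
    HasDerivAt (fun t : ℝ => (i.insertNth t w : Fin (n + 1) → ℝ)) (Pi.single i (1 : ℝ)) t := by
  have e : (fun t : ℝ => (i.insertNth t w : Fin (n + 1) → ℝ)) =
      fun t => (i.insertNth 0 w : Fin (n + 1) → ℝ) + t • (Pi.single i (1 : ℝ) : Fin (n + 1) → ℝ) := by
    funext t
    funext j
    refine Fin.succAboveCases i ?_ (fun k => ?_) j
    · simp
    · simp [Fin.succAbove_ne]
  rw [e]
  have h := ((hasDerivAt_id t).smul_const (Pi.single i (1 : ℝ) : Fin (n + 1) → ℝ)).const_add
    (i.insertNth 0 w : Fin (n + 1) → ℝ)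
  simpa using h

instance (n : ℕ) : IsProbabilityMeasure (gs n) := by unfold gs; infer_instance

/-- Gaussian integration by parts -/
theorem stein_n {n : ℕ} (F : (Fin n → ℝ) → ℝ) (i : Fin n) (hF : Differentiable ℝ F)
    (h1 : Integrable (fun z => F z * z i) (gs n)) (h2 : Integrable (D F i) (gs n)) (h3 : Integrable F (gs n)) :
    ∫ z, F z * z i ∂gs n = ∫ z, D F i z ∂gs n := by
  cases n with
  | zero => exact i.elim0
  | succ n =>
    have mp : MeasurePreserving (MeasurableEquiv.piFinSuccAbove (fun _ => ℝ) i) (gs (n + 1))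
        ((gaussianReal 0 1).prod (gs n)) :=
      measurePreserving_piFinSuccAbove (fun _ : Fin (n + 1) => gaussianReal 0 1) i
    have mps := mp.symm
    set e := MeasurableEquiv.piFinSuccAbove (fun _ : Fin (n + 1) => ℝ) i with he
    have hint : ∀ G : (Fin (n + 1) → ℝ) → ℝ, Integrable G (gs (n + 1)) →
        Integrable (fun p : ℝ × (Fin n → ℝ) => G (i.insertNth p.1 p.2)) ((gaussianReal 0 1).prod (gs n)) :=
      fun G hG => (mps.integrable_comp_emb e.symm.measurableEmbedding).2 hG
    have hval : ∀ G : (Fin (n + 1) → ℝ) → ℝ, Integrable G (gs (n + 1)) →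
        ∫ z, G z ∂gs (n + 1) = ∫ w, ∫ t, G (i.insertNth t w) ∂(gaussianReal 0 1) ∂gs n := by
      intro G hG
      rw [← mps.integral_comp e.symm.measurableEmbedding G]
      exact integral_prod_symm (fun p : ℝ × (Fin n → ℝ) => G (i.insertNth p.1 p.2)) (hint G hG)
    rw [hval _ h1, hval _ h2]
    refine integral_congr_ae ?_
    filter_upwards [(hint _ h1).prod_left_ae, (hint _ h2).prod_left_ae, (hint _ h3).prod_left_ae] with w a1 a2 a3
    simp only [Fin.insertNth_apply_same] at a1 ⊢
    refine stein1 (f := fun t => F (i.insertNth t w)) (fun t => ?_) a1 a2 a3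
    exact (hF _).hasFDerivAt.comp_hasDerivAt t (insert_deriv i w t)

/-! ## moments -/

lemma memLp_coord {n : ℕ} (i : Fin n) : MemLp (fun z : Fin n → ℝ => z i) 2 (gs n) := by
  have h : MemLp (id : ℝ → ℝ) 2 (gaussianReal 0 1) := memLp_id_gaussianReal' 2 (by simp)
  exact h.comp_measurePreserving (measurePreserving_eval (fun _ : Fin n => gaussianReal 0 1) i)

lemma int_coord {n : ℕ} (i : Fin n) : Integrable (fun z : Fin n → ℝ => z i) (gs n) :=
  (memLp_coord i).integrable (by norm_num)

lemma int_coord2 {n : ℕ} (i j : Fin n) : Integrable (fun z : Fin n → ℝ => z i * z j) (gs n) :=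
  (memLp_coord i).integrable_mul (memLp_coord j)

lemma D_coord {n : ℕ} (i j : Fin n) (z : Fin n → ℝ) :
    D (fun z : Fin n → ℝ => z j) i z = if i = j then 1 else 0 := by
  unfold D
  have : HasFDerivAt (fun z : Fin n → ℝ => z j) (ContinuousLinearMap.proj (R := ℝ) (φ := fun _ : Fin n => ℝ) j) z :=
    (ContinuousLinearMap.proj (R := ℝ) (φ := fun _ : Fin n => ℝ) j).hasFDerivAt
  rw [this.fderiv]
  simp [Pi.single_apply, eq_comm]

lemma second {n : ℕ} (i : Fin n) : ∫ z : Fin n → ℝ, z i * z i ∂gs n = 1 := by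
  rw [stein_n (fun z => z i) i (by fun_prop) (int_coord2 i i) ?_ (int_coord i)]
  · simp [D_coord]
  · have : D (fun z : Fin n → ℝ => z i) i = fun _ => 1 := by
      funext z; simp [D_coord]
    rw [this]
    exact integrable_const _

lemma abs1 {n : ℕ} (i : Fin n) : ∫ z : Fin n → ℝ, |z i| ∂gs n ≤ 1 := by
  have h : ∫ z : Fin n → ℝ, |z i| ∂gs n ≤ ∫ z : Fin n → ℝ, (1 + z i * z i) / 2 ∂gs n := by
    refine integral_mono (int_coord i).abs (((integrable_const _).add (int_coord2 i i)).div_const 2) fun z => ?_
    simp only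
    rw [← abs_mul_abs_self (z i)]
    nlinarith [sq_nonneg (|z i| - 1)]
  refine h.trans (le_of_eq ?_)
  rw [integral_div, integral_add (integrable_const _) (int_coord2 i i), second]
  simp

lemma abs2 {n : ℕ} (i j : Fin n) (δ : ℝ) (hδ : |δ| ≤ 1) :
    ∫ z : Fin n → ℝ, |z i * z j - δ| ∂gs n ≤ 2 := by
  have h : ∫ z : Fin n → ℝ, |z i * z j - δ| ∂gs n ≤
      ∫ z : Fin n → ℝ, ((z i * z i + z j * z j) / 2 + 1) ∂gs n := by
    refine integral_mono (((int_coord2 i j).sub (integrable_const _)).abs)
      ((((int_coord2 i i).add (int_coord2 j j)).div_const 2).add (integrable_const _)) fun z => ?_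
    simp only
    have h1 : |z i * z j| ≤ (z i * z i + z j * z j) / 2 := by
      rw [abs_le]
      constructor <;> nlinarith [sq_nonneg (z i - z j), sq_nonneg (z i + z j)]
    have h2 := abs_sub (z i * z j) δ
    linarith
  refine h.trans (le_of_eq ?_)
  have hI : Integrable (fun z : Fin n → ℝ => (z i * z i + z j * z j) / 2) (gs n) :=
    ((int_coord2 i i).add (int_coord2 j j)).div_const 2
  rw [integral_add hI (integrable_const _), integral_div,
    integral_add (int_coord2 i i) (int_coord2 j j), second, second]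
  simp
  norm_num

/-! ## derivatives -/

lemma D_contDiff {n : ℕ} {g : (Fin n → ℝ) → ℝ} (hg : ContDiff ℝ ∞ g) (i : Fin n) : ContDiff ℝ ∞ (D g i) := by
  unfold D
  exact (hg.fderiv_right (by simp)).clm_apply contDiff_const

lemma D_cont {n : ℕ} {g : (Fin n → ℝ) → ℝ} (hg : ContDiff ℝ 1 g) (i : Fin n) : Continuous (D g i) := by
  unfold D
  exact (hg.continuous_fderiv (by simp)).clm_apply continuous_const

lemma comp_fderiv {n : ℕ} {g : (Fin n → ℝ) → ℝ} (hg : Differentiable ℝ g) (x : Fin n → ℝ) (σ : ℝ) (z : Fin n → ℝ) :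
    HasFDerivAt (fun z => g (x + σ • z)) (σ • fderiv ℝ g (x + σ • z)) z := by
  have h1 : HasFDerivAt (fun z : Fin n → ℝ => x + σ • z) (σ • ContinuousLinearMap.id ℝ (Fin n → ℝ)) z :=
    ((hasFDerivAt_id z).const_smul σ).const_add x
  have h2 := (hg (x + σ • z)).hasFDerivAt.comp z h1
  refine h2.congr_fderiv ?_
  ext v
  simp

lemma D_comp {n : ℕ} {g : (Fin n → ℝ) → ℝ} (hg : Differentiable ℝ g) (x : Fin n → ℝ) (σ : ℝ) (z : Fin n → ℝ)
    (i : Fin n) : D (fun z => g (x + σ • z)) i z = σ * D g i (x + σ • z) := by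
  unfold D
  rw [(comp_fderiv hg x σ z).fderiv]
  simp

/-- bounded times integrable -/
lemma int_bdd {n : ℕ} {G W : (Fin n → ℝ) → ℝ} {M : ℝ} (hG : Continuous G) (hM : ∀ z, |G z| ≤ M)
    (hW : Integrable W (gs n)) : Integrable (fun z => G z * W z) (gs n) := by
  refine Integrable.mono' (hW.abs.const_mul M) (hG.aestronglyMeasurable.mul hW.aestronglyMeasurable)
    (ae_of_all _ fun z => ?_)
  rw [Real.norm_eq_abs, abs_mul]
  gcongr
  exact hM z

lemma int_bdd' {n : ℕ} {G : (Fin n → ℝ) → ℝ} {M : ℝ} (hG : Continuous G) (hM : ∀ z, |G z| ≤ M) :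
    Integrable G (gs n) := by
  refine Integrable.mono' (integrable_const M) hG.aestronglyMeasurable (ae_of_all _ fun z => ?_)
  rw [Real.norm_eq_abs]
  exact hM z

theorem heatC (hB : BoxFacts) (hS : SymFacts) (hHB : HeatB) : HeatC := by
  have stein : ∀ (n : ℕ) (σ : ℝ) (g : (Fin n → ℝ) → ℝ) (i : Fin n) (x : Fin n → ℝ), ContDiff ℝ 1 g →
      Per g → ∫ z, g (x + σ • z) * z i ∂gs n = σ * heat σ (D g i) x := by
    intro n σ g i x hg hp
    obtain ⟨M, hM⟩ := hB.bdd n g hg.continuous hp
    obtain ⟨M', hM'⟩ := hB.bdd n (D g i) (D_cont hg i) (hS.per n g i hp)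
    have hd : Differentiable ℝ g := hg.differentiable (by simp)
    have hc : Continuous fun z : Fin n → ℝ => g (x + σ • z) := hg.continuous.comp (by fun_prop)
    have hc' : Continuous fun z : Fin n → ℝ => D g i (x + σ • z) := (D_cont hg i).comp (by fun_prop)
    have e : D (fun z => g (x + σ • z)) i = fun z => σ * D g i (x + σ • z) := by
      funext z; exact D_comp hd x σ z i
    rw [stein_n (fun z => g (x + σ • z)) i (fun z => (comp_fderiv hd x σ z).differentiableAt)
      (int_bdd hc (fun z => hM _) (int_coord i)) ?_ (int_bdd' hc fun z => hM _)]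
    · rw [e, integral_const_mul]
      rfl
    · rw [e]
      exact (int_bdd' hc' fun z => hM' _).const_mul σ
  refine ⟨stein, ?_, ?_, ?_⟩
  · intro n σ M g i x hσ hg hp hM
    rw [hHB.comm n σ g i x hg hp, le_div_iff₀ hσ]
    have h1 := stein n σ g i x hg hp
    have hc : Continuous fun z : Fin n → ℝ => g (x + σ • z) := hg.continuous.comp (by fun_prop)
    have hM0 : 0 ≤ M := (abs_nonneg _).trans (hM 0)
    calc |heat σ (D g i) x| * σ = |σ * heat σ (D g i) x| := by
          rw [abs_mul, abs_of_pos hσ]; ring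
      _ = |∫ z, g (x + σ • z) * z i ∂gs n| := by rw [h1]
      _ ≤ ∫ z, |g (x + σ • z) * z i| ∂gs n := abs_integral_le_integral_abs
      _ ≤ ∫ z, M * |z i| ∂gs n := by
          refine integral_mono (int_bdd hc (fun z => hM _) (int_coord i)).abs ((int_coord i).abs.const_mul M)
            fun z => ?_
          simp only
          rw [abs_mul]
          gcongr
          exact hM _
      _ = M * ∫ z, |z i| ∂gs n := integral_const_mul _ _
      _ ≤ M * 1 := by
          gcongr
          exact abs1 i
      _ = M := mul_one M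
  · intro n σ M g i j x hσ hg hp hM
    have hg1 : ContDiff ℝ 1 g := hg.of_le (by simp)
    have hDi : ContDiff ℝ ∞ (D g i) := D_contDiff hg i
    have hDi1 : ContDiff ℝ 1 (D g i) := hDi.of_le (by simp)
    have hpi := hS.per n g i hp
    have hd : Differentiable ℝ g := hg1.differentiable (by simp)
    have hM0 : 0 ≤ M := (abs_nonneg _).trans (hM 0)
    obtain ⟨M', hM'⟩ := hB.bdd n (D g i) (D_cont hg1 i) hpi
    have e1 : D (heat σ g) i = heat σ (D g i) := by
      funext y; exact hHB.comm n σ g i y hg1 hp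
    rw [e1, hHB.comm n σ (D g i) j x hDi1 hpi]
    have hc : Continuous fun z : Fin n → ℝ => g (x + σ • z) := hg.continuous.comp (by fun_prop)
    have hc' : Continuous fun z : Fin n → ℝ => D g i (x + σ • z) := (D_cont hg1 i).comp (by fun_prop)
    have s1 := stein n σ (D g i) j x hDi1 hpi
    set δ : ℝ := if i = j then 1 else 0 with hδ
    have hδ1 : |δ| ≤ 1 := by
      rw [hδ]; split_ifs <;> simp
    -- Stein for `g (x + σ z) z_j`
    have hFd : ∀ z : Fin n → ℝ, HasFDerivAt (fun z : Fin n → ℝ => g (x + σ • z) * z j)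
        (g (x + σ • z) • (ContinuousLinearMap.proj (R := ℝ) (φ := fun _ : Fin n => ℝ) j) +
          z j • (σ • fderiv ℝ g (x + σ • z))) z := by
      intro z
      exact (comp_fderiv hd x σ z).mul
        ((ContinuousLinearMap.proj (R := ℝ) (φ := fun _ : Fin n => ℝ) j).hasFDerivAt)
    have eF : D (fun z : Fin n → ℝ => g (x + σ • z) * z j) i =
        fun z => g (x + σ • z) * δ + σ * (D g i (x + σ • z) * z j) := by
      funext z
      unfold D
      rw [(hFd z).fderiv]
      simp only [add_apply, smul_apply, ContinuousLinearMap.proj_apply,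
        smul_eq_mul, Pi.single_apply, hδ]
      congr 1
      · congr 1
        by_cases h : i = j
        · rw [if_pos h, if_pos h.symm]
        · rw [if_neg h, if_neg (Ne.symm h)]
      · ring
    have s2 := stein_n (fun z : Fin n → ℝ => g (x + σ • z) * z j) i (fun z => (hFd z).differentiableAt)
      (by
        have := int_bdd hc (fun z => hM (x + σ • z)) (int_coord2 j i)
        refine this.congr (ae_of_all _ fun z => ?_)
        simp only; ring)
      (by
        rw [eF]
        exact ((int_bdd' hc fun z => hM (x + σ • z)).mul_const δ).add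
          ((int_bdd hc' (fun z => hM' (x + σ • z)) (int_coord j)).const_mul σ))
      (int_bdd hc (fun z => hM (x + σ • z)) (int_coord j))
    rw [eF, integral_add ((int_bdd' hc fun z => hM (x + σ • z)).mul_const δ)
      ((int_bdd hc' (fun z => hM' (x + σ • z)) (int_coord j)).const_mul σ), integral_const_mul, s1] at s2
    have key : σ ^ 2 * heat σ (D (D g i) j) x = ∫ z, g (x + σ • z) * (z i * z j - δ) ∂gs n := by
      have e3 : ∫ z, g (x + σ • z) * (z i * z j - δ) ∂gs n =
          ∫ z, g (x + σ • z) * z j * z i ∂gs n - ∫ z, g (x + σ • z) * δ ∂gs n := by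
        rw [← integral_sub ?_ ((int_bdd' hc fun z => hM (x + σ • z)).mul_const δ)]
        · refine integral_congr_ae (ae_of_all _ fun z => ?_)
          simp only; ring
        · have := int_bdd hc (fun z => hM (x + σ • z)) (int_coord2 j i)
          refine this.congr (ae_of_all _ fun z => ?_)
          simp only; ring
      rw [e3, s2]
      ring
    have hσ2 : 0 < σ ^ 2 := by positivity
    rw [le_div_iff₀ hσ2]
    calc |heat σ (D (D g i) j) x| * σ ^ 2 = |σ ^ 2 * heat σ (D (D g i) j) x| := by
          rw [abs_mul, abs_of_pos hσ2]; ring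
      _ = |∫ z, g (x + σ • z) * (z i * z j - δ) ∂gs n| := by rw [key]
      _ ≤ ∫ z, |g (x + σ • z) * (z i * z j - δ)| ∂gs n := abs_integral_le_integral_abs
      _ ≤ ∫ z, M * |z i * z j - δ| ∂gs n := by
          refine integral_mono (int_bdd hc (fun z => hM _) ((int_coord2 i j).sub (integrable_const δ))).abs
            (((int_coord2 i j).sub (integrable_const δ)).abs.const_mul M) fun z => ?_
          simp only [Pi.sub_apply]
          rw [abs_mul]
          gcongr
          exact hM _
      _ = M * ∫ z, |z i * z j - δ| ∂gs n := integral_const_mul _ _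
      _ ≤ M * 2 := by
          gcongr
          exact abs2 i j δ hδ1
      _ = 2 * M := by ring
  · intro n σ g x hg hp
    have hg1 : ContDiff ℝ 1 g := hg.of_le (by simp)
    have hd : Differentiable ℝ g := hg1.differentiable (by simp)
    have hDc : ∀ i, Continuous (D g i) := fun i => D_cont hg1 i
    have hM : ∀ i : Fin n, ∃ M, ∀ y, |D g i y| ≤ M := fun i => hB.bdd n (D g i) (hDc i) (hS.per n g i hp)
    choose M hM using hM
    obtain ⟨M0, hM0⟩ := hB.bdd n g hg.continuous hp
    -- derivative of the integrand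
    have hder : ∀ (z : Fin n → ℝ) (s : ℝ), HasDerivAt (fun s : ℝ => g (x + s • z)) (∑ i, D g i (x + s • z) * z i) s := by
      intro z s
      have h1 : HasDerivAt (fun s : ℝ => x + s • z) z s := by
        simpa using ((hasDerivAt_id s).smul_const z).const_add x
      have h2 := (hd (x + s • z)).hasFDerivAt.comp_hasDerivAt s h1
      refine h2.congr_deriv ?_
      have hz : z = ∑ i, z i • (Pi.single i (1 : ℝ) : Fin n → ℝ) := by
        funext j
        simp [Finset.sum_apply, Pi.single_apply]
      conv_lhs => rw [hz]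
      rw [map_sum]
      refine Finset.sum_congr rfl fun i _ => ?_
      rw [map_smul, smul_eq_mul, mul_comm]
      rw [← hz]
      rfl
    have hcs : ∀ s : ℝ, Continuous fun z : Fin n → ℝ => g (x + s • z) := fun s => hg.continuous.comp (by fun_prop)
    have hcD : ∀ (i : Fin n) (s : ℝ), Continuous fun z : Fin n → ℝ => D g i (x + s • z) :=
      fun i s => (hDc i).comp (by fun_prop)
    have hmain := hasDerivAt_integral_of_dominated_loc_of_deriv_le (μ := gs n)
      (F := fun (s : ℝ) (z : Fin n → ℝ) => g (x + s • z))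
      (F' := fun (s : ℝ) (z : Fin n → ℝ) => ∑ i, D g i (x + s • z) * z i) (x₀ := σ)
      (bound := fun z => ∑ i, M i * |z i|) (s := univ) univ_mem
      (Eventually.of_forall fun s => (hcs s).aestronglyMeasurable)
      (int_bdd' (hcs σ) fun z => hM0 _)
      (by
        have : Continuous fun z : Fin n → ℝ => ∑ i, D g i (x + σ • z) * z i :=
          continuous_finsetSum _ fun i _ => (hcD i σ).mul (continuous_apply i)
        exact this.aestronglyMeasurable)
      (ae_of_all _ fun z s _ => by
        rw [Real.norm_eq_abs]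
        refine (Finset.abs_sum_le_sum_abs _ _).trans (Finset.sum_le_sum fun i _ => ?_)
        rw [abs_mul]
        gcongr
        exact hM i _)
      (integrable_finsetSum _ fun i _ => (int_coord i).abs.const_mul (M i))
      (ae_of_all _ fun z s _ => hder z s)
    have h2 := hmain.2
    refine h2.congr_deriv ?_
    rw [integral_finsetSum _ fun i _ => int_bdd (hcD i σ) (fun z => hM i _) (int_coord i)]
    have e1 : ∀ i : Fin n, ∫ z, D g i (x + σ • z) * z i ∂gs n = σ * heat σ (D (D g i) i) x := by
      intro i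
      exact stein n σ (D g i) i x ((D_contDiff hg i).of_le (by simp)) (hS.per n g i hp)
    simp only [e1]
    rw [← Finset.mul_sum]
    congr 1
    unfold heat
    rw [integral_finsetSum]
    intro i _
    have hcc : Continuous fun z : Fin n → ℝ => D (D g i) i (x + σ • z) :=
      (D_contDiff (D_contDiff hg i) i).continuous.comp (by fun_prop)
    obtain ⟨M2, hM2⟩ := hB.bdd n (D (D g i) i) (D_contDiff (D_contDiff hg i) i).continuous
      (hS.per n _ i (hS.per n g i hp))
    exact int_bdd' hcc fun z => hM2 _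

end Pool.Agent.H628.Cube
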